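import Pool.Agent.H24.LZ.Sets

/-!
# All additive primes
-/

namespace Pool.Agent.H24.LZ

open Pool.Agent.H24.LP Pool.Agent.H24.LQ Finset

/-- The primes `p ≥ 5` with `p ∣ D`, `p ∣ a` (additive reduction). -/
def addD (a b : ℤ) : Finset ℕ :=
  (D a b).natAbs.primeFactors.filter fun p => 5 ≤ p ∧ (p : ℤ) ∣ a

/-- `1 + log⁺|j| + ∑_{p ∈ T} n_p log p + ∑_{p ∣ den j} (log p)/n_p + ∑_{p ≥ 5 additive} v_p(D) log p`. -/
noncomputable def GA (a b : ℤ) (T : Finset ℕ) : ℝ :=
  1 + wInf a b + ∑ p ∈ T, (np a b p : ℝ) * Real.log p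
    + ∑ p ∈ poles a b, Real.log p / np a b p
    + ∑ p ∈ addD a b, ((D a b).natAbs.factorization p : ℝ) * Real.log p

private lemma ad_ab_ne {a b : ℤ} (hD : D a b ≠ 0) : ¬ ((a : ℚ) = 0 ∧ (b : ℚ) = 0) := by
  rintro ⟨ha, hb⟩
  apply hD
  have ha' : a = 0 := by exact_mod_cast ha
  have hb' : b = 0 := by exact_mod_cast hb
  subst ha' hb'
  simp [D]

private lemma ad_fv_ge {p : ℕ} (hp : p.Prime) {n : ℤ} {m : ℕ} (h : ¬ (p : ℤ) ^ (m + 1) ∣ n) :
    n ≠ 0 ∧ -((m : ℝ) * Real.log p) ≤ Real.log (fv p n) := by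
  have h0 : n ≠ 0 := by
    rintro rfl
    exact h (dvd_zero _)
  refine ⟨h0, ?_⟩
  have hf : n.natAbs.factorization p ≤ m := by
    by_contra hcon
    apply h
    have h1 : p ^ (m + 1) ∣ n.natAbs :=
      (hp.pow_dvd_iff_le_factorization (Int.natAbs_ne_zero.mpr h0)).mpr (by omega)
    have h2 := Int.natCast_dvd.mpr h1
    exact_mod_cast h2
  rw [fv_int hp h0, Real.log_inv, Real.log_pow]
  have hl : 0 ≤ Real.log p := Real.log_natCast_nonneg p
  have hf' : ((n.natAbs.factorization p : ℕ) : ℝ) ≤ (m : ℝ) := by exact_mod_cast hf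
  have := mul_le_mul_of_nonneg_right hf' hl
  linarith

private lemma ad_sv_prime {a b : ℤ} (hq : QuasiMinimal a b) {p : ℕ} (hp : p.Prime) :
    -(2 * Real.log p) ≤ Real.log (sv (fv p) a b) := by
  have hs := sv_pos (fv p) a b (ad_ab_ne hq.ne)
  have hl : 0 ≤ Real.log p := Real.log_natCast_nonneg p
  have hor : ¬ (p : ℤ) ^ (3 + 1) ∣ a ∨ ¬ (p : ℤ) ^ (5 + 1) ∣ b := by
    by_contra hcon
    rw [not_or, not_not, not_not] at hcon
    exact hq.min p hp hcon
  rcases hor with h | h
  · obtain ⟨h0, h1⟩ := ad_fv_ge hp h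
    have h2 := le_sv_sq (fv p) (a : ℚ) b
    have h3 : 0 < fv p a := (fv p).pos (by exact_mod_cast h0)
    have h4 := Real.log_le_log h3 h2
    rw [Real.log_pow] at h4
    push_cast at h1 h4
    linarith
  · obtain ⟨h0, h1⟩ := ad_fv_ge hp h
    have h2 := le_sv_cube (fv p) (a : ℚ) b
    have h3 : 0 < fv p b := (fv p).pos (by exact_mod_cast h0)
    have h4 := Real.log_le_log h3 h2
    rw [Real.log_pow] at h4
    push_cast at h1 h4
    linarith

private lemma ad_sv_le {p : ℕ} (hp : p.Prime) (a b : ℤ) : Real.log (sv (fv p) a b) ≤ 0 := by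
  refine Real.log_nonpos (sv_nonneg _ _ _) (sv_le_one hp a b)

/-- `v_p(D) log p = ν - 6 log s`. -/
private lemma ad_val {a b : ℤ} (hD : D a b ≠ 0) {p : ℕ} (hp : p.Prime) :
    ((D a b).natAbs.factorization p : ℝ) * Real.log p =
      nu (fv p) a b - 6 * Real.log (sv (fv p) a b) := by
  have hs := sv_pos (fv p) a b (ad_ab_ne hD)
  have e1 : 4 * (a : ℚ) ^ 3 + 27 * (b : ℚ) ^ 2 = ((D a b : ℤ) : ℚ) := by
    rw [D]; push_cast; ring
  have hf : 0 < fv p ((D a b : ℤ) : ℚ) := (fv p).pos (by exact_mod_cast hD)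
  rw [nu, e1, Real.log_div (by positivity) hf.ne', Real.log_pow, fv_int hp hD, Real.log_inv,
    Real.log_pow]
  push_cast
  ring

lemma star_subset {a b : ℤ} (hD : D a b ≠ 0) : LX.star a b ⊆ addD a b := by
  intro p hp
  obtain ⟨hp1, hp5, hpa⟩ := Finset.mem_filter.mp hp
  obtain ⟨hpr, hpl⟩ := places_of_poles hD hp1
  refine Finset.mem_filter.mpr ⟨?_, hp5, hpa⟩
  rcases Finset.mem_insert.mp hpl with h | h
  · omega
  · refine Nat.mem_primeFactors.mpr ⟨hpr, ?_, Int.natAbs_ne_zero.mpr hD⟩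
    have h7 := Nat.dvd_of_mem_primeFactors h
    rw [Int.natAbs_mul] at h7
    rcases (Nat.Prime.dvd_mul hpr).mp h7 with h8 | h8
    · exfalso
      have h9 : p ∣ 6 := h8
      have h10 : p ≤ 6 := Nat.le_of_dvd (by norm_num) h9
      have h11 : p = 5 ∨ p = 6 := by omega
      rcases h11 with h11 | h11
      · rw [h11] at h9
        omega
      · rw [h11] at hpr
        exact absurd hpr (by norm_num)
    · exact h8

/-- The comparison. -/
theorem GA_le {a b : ℤ} (hq : QuasiMinimal a b) (T : Finset ℕ) :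
    GA a b T ≤ 13 * GT a b T + 13 * ∑ p ∈ LX.star a b, nup a b p := by
  classical
  have hD := hq.ne
  have hl : ∀ p : ℕ, 0 ≤ Real.log (p : ℝ) := fun p => Real.log_natCast_nonneg p
  have key : ∀ p ∈ addD a b, ((D a b).natAbs.factorization p : ℝ) * Real.log p ≤
      (if p ∈ addPrimes a b then 13 * Real.log (p : ℝ) else 0)
        + (if p ∈ LX.star a b then 13 * nup a b p else 0) := by
    intro p hp
    obtain ⟨hp1, hp5, hpa⟩ := Finset.mem_filter.mp hp
    have hpr := Nat.prime_of_mem_primeFactors hp1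
    have h1 := ad_val hD hpr
    have h2 := ad_sv_prime hq hpr
    have h3 : nu (fv p) a b = np a b p * Real.log p := nu_eq hD hpr hp5
    have h4 : nu (fv p) a b ≤ nup a b p := le_max_right _ _
    by_cases hden : p ∣ (jInv a b).den
    · have hpo : p ∈ poles a b :=
        Nat.mem_primeFactors.mpr ⟨hpr, hden, (jInv a b).den_nz⟩
      have hst : p ∈ LX.star a b := Finset.mem_filter.mpr ⟨hpo, hp5, hpa⟩
      have hn : (1 : ℝ) ≤ np a b p := by exact_mod_cast HeightData.np_pos hpo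
      have h5 : 1 * Real.log (p : ℝ) ≤ (np a b p : ℝ) * Real.log p :=
        mul_le_mul_of_nonneg_right hn (hl p)
      have e : (if p ∈ LX.star a b then 13 * nup a b p else 0) = 13 * nup a b p := if_pos hst
      have e2 : 0 ≤ (if p ∈ addPrimes a b then 13 * Real.log (p : ℝ) else 0) := by
        split_ifs
        · have := hl p
          linarith
        · exact le_rfl
      rw [e, h1]
      linarith
    · have hadd : p ∈ addPrimes a b := Finset.mem_filter.mpr ⟨hp1, hp5, hden⟩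
      have hnpo : p ∉ poles a b := fun h => hden (Nat.dvd_of_mem_primeFactors h)
      have e : (if p ∈ addPrimes a b then 13 * Real.log (p : ℝ) else 0) = 13 * Real.log p :=
        if_pos hadd
      have e2 : 0 ≤ (if p ∈ LX.star a b then 13 * nup a b p else 0) := by
        split_ifs
        · have := nup_nonneg a b p
          linarith
        · exact le_rfl
      have h6 : nu (fv p) a b = 0 := by rw [h3, np_eq_zero hnpo]; simp
      rw [e, h1, h6]
      have := hl p
      linarith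
  have h1 : ∑ p ∈ addD a b, ((D a b).natAbs.factorization p : ℝ) * Real.log p ≤
      ∑ p ∈ addPrimes a b, 13 * Real.log (p : ℝ) + ∑ p ∈ LX.star a b, 13 * nup a b p := by
    refine (Finset.sum_le_sum key).trans ?_
    rw [Finset.sum_add_distrib, ← Finset.sum_filter, ← Finset.sum_filter]
    refine add_le_add ?_ ?_
    · refine Finset.sum_le_sum_of_subset_of_nonneg ?_ fun p _ _ => by
        have := hl p
        linarith
      intro p hp
      exact (Finset.mem_filter.mp hp).2
    · refine Finset.sum_le_sum_of_subset_of_nonneg ?_ fun p _ _ => by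
        have := nup_nonneg a b p
        linarith
      intro p hp
      exact (Finset.mem_filter.mp hp).2
  rw [← Finset.mul_sum, ← Finset.mul_sum] at h1
  have hw := HeightData.wInf_nonneg (a := a) (b := b)
  obtain ⟨g1, g2, g3⟩ := GT_terms a b T
  unfold GA GT
  linarith

lemma GA_bound {a b : ℤ} (hq : QuasiMinimal a b) (T : Finset ℕ) : GA a b T ≤ 1000 * L a b := by
  have h1 := GA_le hq T
  have h2 := GT_le hq.ne T
  have h3 : ∑ p ∈ LX.star a b, nup a b p ≤ 6 * L a b + 4 := by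
    refine le_trans ?_ (sum_nup_le hq.ne)
    refine Finset.sum_le_sum_of_subset_of_nonneg ?_ fun p _ _ => nup_nonneg a b p
    intro p hp
    exact (places_of_poles hq.ne (Finset.mem_filter.mp hp).1).2
  have h4 := log_two_le_L a b
  have h5 : (0.69 : ℝ) < Real.log 2 := by
    have := Real.log_two_gt_d9
    linarith
  linarith

lemma GT_le_GA {a b : ℤ} (T : Finset ℕ) (hD : D a b ≠ 0) : GT a b T ≤ GA a b T := by
  have hl : ∀ p : ℕ, 0 ≤ Real.log (p : ℝ) := fun p => Real.log_natCast_nonneg p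
  have h1 : ∑ p ∈ addPrimes a b, Real.log (p : ℝ) ≤
      ∑ p ∈ addPrimes a b, ((D a b).natAbs.factorization p : ℝ) * Real.log p := by
    refine Finset.sum_le_sum fun p hp => ?_
    have hp1 := (Finset.mem_filter.mp hp).1
    have hf : 1 ≤ (D a b).natAbs.factorization p :=
      (Nat.prime_of_mem_primeFactors hp1).factorization_pos_of_dvd (Int.natAbs_ne_zero.mpr hD)
        (Nat.dvd_of_mem_primeFactors hp1)
    have hf' : (1 : ℝ) ≤ ((D a b).natAbs.factorization p : ℝ) := by exact_mod_cast hf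
    nlinarith [hl p]
  have h2 : ∑ p ∈ addPrimes a b, ((D a b).natAbs.factorization p : ℝ) * Real.log p ≤
      ∑ p ∈ addD a b, ((D a b).natAbs.factorization p : ℝ) * Real.log p := by
    refine Finset.sum_le_sum_of_subset_of_nonneg ?_ fun p _ _ =>
      mul_nonneg (Nat.cast_nonneg _) (hl p)
    intro p hp
    obtain ⟨hp1, hp5, hden⟩ := Finset.mem_filter.mp hp
    refine Finset.mem_filter.mpr ⟨hp1, hp5, ?_⟩
    by_contra hpa
    apply hden
    have hpr := Nat.prime_of_mem_primeFactors hp1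
    have hpm : p ∈ LX.mult a b := Finset.mem_filter.mpr ⟨hp1, hp5, hpa⟩
    have hν := (LX.mult_facts hD hpm).2.2.2.2.2.2.2.2
    rw [nu_eq hD hpr hp5] at hν
    by_contra hd
    have hnpo : p ∉ poles a b := fun h => hd (Nat.dvd_of_mem_primeFactors h)
    rw [np_eq_zero hnpo] at hν
    simp at hν
  unfold GT GA
  linarith

/-- The bound with a set of primes and all additive primes. -/
theorem main_TA : ∃ C : ℝ, 1 ≤ C ∧ ∀ a b : ℤ, QuasiMinimal a b →
    ∀ r : ℕ, Module.rank ℤ (curve a b).Point ≤ r → ∀ T : Finset ℕ,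
    ((integralPoints a b).ncard : ℝ) ≤
      C ^ (1 + r + T.card) * (L a b / GA a b T) ^ (1 + (r : ℝ) / 4) := by
  obtain ⟨Ch, hCh, hht⟩ := exists_height
  obtain ⟨C₁, hC₁, hstar⟩ := star_ball Ch hCh
  obtain ⟨C₂, hC₂, hup⟩ := upgrade Ch hCh
  obtain ⟨C₃, hC₃, hT⟩ := main_T'
  refine ⟨C₃ * 26 + C₁ * C₂ * 1000, by nlinarith, fun a b hq r hr T => ?_⟩
  have hL := L_pos a b
  have hG1 := one_le_GT a b T
  have hGA := GT_le_GA T hq.ne
  have hG0 : 0 < GT a b T := by linarith
  have hA0 : 0 < GA a b T := by linarith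
  have hx0 : 0 < L a b / GA a b T := by positivity
  have hX0 : 0 ≤ (L a b / GA a b T) ^ (1 + (r : ℝ) / 4) := by positivity
  have h12 : 1 ≤ C₁ * C₂ := by nlinarith
  rcases le_total (GA a b T / 26) (GT a b T) with h | h
  · have h1 := (hT a b hq r hr T).2
    have h2 : L a b / GT a b T ≤ 26 * (L a b / GA a b T) := by
      calc L a b / GT a b T ≤ L a b / (GA a b T / 26) := by gcongr
        _ = _ := by field_simp
    have h3 : (L a b / GT a b T) ^ (1 + (r : ℝ) / 4) ≤
        26 ^ (1 + r) * (L a b / GA a b T) ^ (1 + (r : ℝ) / 4) := by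
      calc (L a b / GT a b T) ^ (1 + (r : ℝ) / 4)
          ≤ (26 * (L a b / GA a b T)) ^ (1 + (r : ℝ) / 4) :=
            Real.rpow_le_rpow (by positivity) h2 (by positivity)
        _ = 26 ^ (1 + (r : ℝ) / 4) * (L a b / GA a b T) ^ (1 + (r : ℝ) / 4) :=
            Real.mul_rpow (by norm_num) hx0.le
        _ ≤ _ := by
            have := rpow_quarter_le (by norm_num : (1 : ℝ) ≤ 26) r
            gcongr
    have h4 : (26 : ℝ) ^ (1 + r) ≤ 26 ^ (1 + r + T.card) :=
      pow_le_pow_right₀ (by norm_num) (by omega)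
    calc ((integralPoints a b).ncard : ℝ)
        ≤ C₃ ^ (1 + r + T.card) * (26 ^ (1 + r) * (L a b / GA a b T) ^ (1 + (r : ℝ) / 4)) :=
          h1.trans (mul_le_mul_of_nonneg_left h3 (by positivity))
      _ ≤ C₃ ^ (1 + r + T.card) *
          (26 ^ (1 + r + T.card) * (L a b / GA a b T) ^ (1 + (r : ℝ) / 4)) := by gcongr
      _ = (C₃ * 26) ^ (1 + r + T.card) * (L a b / GA a b T) ^ (1 + (r : ℝ) / 4) := by
          rw [mul_pow]; ring
      _ ≤ _ := mono_pow (by linarith) (by linarith) _ hX0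
  · have h0 := GA_le hq T
    set γ : ℝ := GA a b T / 26 with hγ
    have hγ0 : 0 < γ := by positivity
    have hγs : γ ≤ ∑ p ∈ LX.star a b, nup a b p := by
      rw [hγ] at h ⊢
      linarith
    obtain ⟨g, g1, g2, g3⟩ := hht a b hq.ne
    have hg : IsHt Ch g := ⟨g1, g2, g3⟩
    have h1 := hup a b hq g hg r hr γ (C₁ ^ (1 + r)) hγ0
      (one_le_pow₀ hC₁) (integralPoints a b) (Set.Subset.refl _)
      (fun R hR S _ hS => hstar a b hq g hg r hr R γ hR hγ0 hγs S hS)
    have h2 : max 1 (L a b / γ) ≤ 1000 * (L a b / GA a b T) := by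
      refine max_le ?_ ?_
      · rw [mul_div_assoc', le_div_iff₀ hA0]
        have := GA_bound hq T
        linarith
      · have e : L a b / γ = 26 * (L a b / GA a b T) := by rw [hγ]; field_simp
        rw [e]
        linarith
    have h3 : (max 1 (L a b / γ)) ^ (1 + (r : ℝ) / 4) ≤
        1000 ^ (1 + r) * (L a b / GA a b T) ^ (1 + (r : ℝ) / 4) := by
      calc (max 1 (L a b / γ)) ^ (1 + (r : ℝ) / 4)
          ≤ (1000 * (L a b / GA a b T)) ^ (1 + (r : ℝ) / 4) :=
            Real.rpow_le_rpow (le_trans zero_le_one (le_max_left _ _)) h2 (by positivity)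
        _ = 1000 ^ (1 + (r : ℝ) / 4) * (L a b / GA a b T) ^ (1 + (r : ℝ) / 4) :=
            Real.mul_rpow (by norm_num) hx0.le
        _ ≤ _ := by
            have := rpow_quarter_le (by norm_num : (1 : ℝ) ≤ 1000) r
            gcongr
    calc ((integralPoints a b).ncard : ℝ)
        ≤ C₁ ^ (1 + r) * C₂ ^ (1 + r) * (1000 ^ (1 + r) *
          (L a b / GA a b T) ^ (1 + (r : ℝ) / 4)) :=
          h1.trans (mul_le_mul_of_nonneg_left h3 (by positivity))
      _ = (C₁ * C₂ * 1000) ^ (1 + r) * (L a b / GA a b T) ^ (1 + (r : ℝ) / 4) := by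
          rw [mul_pow, mul_pow]; ring
      _ ≤ (C₁ * C₂ * 1000) ^ (1 + r + T.card) * (L a b / GA a b T) ^ (1 + (r : ℝ) / 4) := by
          have : (C₁ * C₂ * 1000) ^ (1 + r) ≤ (C₁ * C₂ * 1000) ^ (1 + r + T.card) :=
            pow_le_pow_right₀ (by linarith) (by omega)
          gcongr
      _ ≤ _ := mono_pow (by linarith) (by linarith) _ hX0

/-- All integral points. -/
theorem main_ZA : ∃ C : ℝ, 1 ≤ C ∧ ∀ a b : ℤ, QuasiMinimal a b →
    ∀ r : ℕ, Module.rank ℤ (curve a b).Point ≤ r →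
    (integralPoints a b).Finite ∧
    (∀ T : Finset ℕ, ((integralPoints a b).ncard : ℝ) ≤
      C ^ (1 + r + T.card) * (L a b / GA a b T) ^ (1 + (r : ℝ) / 4)) ∧
    (∀ m : ℕ, 1 ≤ m → ((integralPoints a b).ncard : ℝ) ≤
      C ^ (1 + r + ((poles a b).filter fun p => m < np a b p).card) *
        (m : ℝ) ^ (2 + (r : ℝ) / 2)) ∧
    (∀ η : ℝ, 0 < η → η ≤ 1 → (η * L a b ≤ wInf a b ∨
      (∃ p : ℕ, η * L a b ≤ np a b p * Real.log p) ∨
      η * L a b ≤ ∑ p ∈ addD a b, ((D a b).natAbs.factorization p : ℝ) * Real.log p) →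
      ((integralPoints a b).ncard : ℝ) ≤ C ^ (1 + r) * (1 / η) ^ (1 + (r : ℝ) / 4)) ∧
    ((integralPoints a b).ncard : ℝ) ≤ C ^ (1 + r) *
      (max 1 (L a b / ((1 + r) * Real.log (2 + L a b)))) ^ ((4 + (r : ℝ)) / 6) := by
  obtain ⟨C₁, hC₁, h₁⟩ := main_Z'
  obtain ⟨C₂, hC₂, h₂⟩ := main_TA
  refine ⟨C₁ + C₂, by linarith, fun a b hq r hr => ?_⟩
  have hL := L_pos a b
  obtain ⟨hf, -, h3, h4, h5⟩ := h₁ a b hq r hr
  have hm : ∀ {x : ℝ} (n : ℕ) {B : ℝ}, 0 ≤ x → x ≤ C₁ + C₂ → 0 ≤ B →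
      x ^ n * B ≤ (C₁ + C₂) ^ n * B := by
    intro x n B hx hxC hB
    exact mono_pow hx hxC n hB
  have hGA : ∀ T : Finset ℕ, 0 < GA a b T := fun T => by
    have := one_le_GT a b T
    have := GT_le_GA T hq.ne
    linarith
  refine ⟨hf, fun T => ?_, fun m hm1 => ?_, fun η hη hη1 hcase => ?_, ?_⟩
  · refine (h₂ a b hq r hr T).trans (hm _ (by linarith) (by linarith) ?_)
    have := hGA T
    positivity
  · exact (h3 m hm1).trans (hm _ (by linarith) (by linarith) (by positivity))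
  · rcases hcase with h | h | h
    · exact (h4 η hη hη1 (Or.inl h)).trans (hm _ (by linarith) (by linarith) (by positivity))
    · exact (h4 η hη hη1 (Or.inr h)).trans (hm _ (by linarith) (by linarith) (by positivity))
    · have h6 := h₂ a b hq r hr ∅
      rw [Finset.card_empty, add_zero] at h6
      have h7 : η * L a b ≤ GA a b ∅ := by
        obtain ⟨g1, g2, g3⟩ := GT_terms a b ∅
        have hw := HeightData.wInf_nonneg (a := a) (b := b)
        unfold GA
        linarith
      have h8 : L a b / GA a b ∅ ≤ 1 / η := by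
        rw [div_le_div_iff₀ (hGA ∅) hη]
        linarith
      have h9 := hGA ∅
      refine h6.trans (le_trans ?_ (hm (x := C₂) (1 + r) (by linarith) (by linarith)
        (by positivity)))
      have h10 : (L a b / GA a b ∅) ^ (1 + (r : ℝ) / 4) ≤ (1 / η) ^ (1 + (r : ℝ) / 4) :=
        Real.rpow_le_rpow (by positivity) h8 (by positivity)
      gcongr
  · refine h5.trans (hm _ (by linarith) (by linarith) ?_)
    have : (0 : ℝ) ≤ max 1 (L a b / ((1 + r) * Real.log (2 + L a b))) :=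
      le_trans zero_le_one (le_max_left _ _)
    positivity

end Pool.Agent.H24.LZ
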