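import Pool.Agent.H24.LX.Cov
import Pool.Agent.H24.LX.StarC
import Pool.Agent.H24.LW.Main

/-!
# Counting integral points in balls about the origin
-/

namespace Pool.Agent.H24.LZ

open Pool.Agent.H24.LP Pool.Agent.H24.LQ Finset

/-- `max(1, R/γ)^(r/2) max(1, L/γ)`. -/
noncomputable def Bq (a b : ℤ) (r : ℕ) (R γ : ℝ) : ℝ :=
  (max 1 (R / γ)) ^ ((r : ℝ) / 2) * max 1 (L a b / γ)

lemma one_le_Bq (a b : ℤ) (r : ℕ) (R γ : ℝ) : 1 ≤ Bq a b r R γ := by
  have h1 : 1 ≤ (max 1 (R / γ)) ^ ((r : ℝ) / 2) :=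
    Real.one_le_rpow (le_max_left _ _) (by positivity)
  have h2 : 1 ≤ max 1 (L a b / γ) := le_max_left _ _
  unfold Bq
  nlinarith

lemma max_scale {x γ k δ : ℝ} (hx : 0 ≤ x) (hγ : 0 < γ) (hk : 1 ≤ k) (hδ : γ / k ≤ δ) :
    max 1 (x / δ) ≤ k * max 1 (x / γ) := by
  have hk0 : 0 < k := by linarith
  have hδ0 : 0 < δ := lt_of_lt_of_le (by positivity) hδ
  refine max_le ?_ ?_
  · calc (1 : ℝ) = 1 * 1 := (one_mul 1).symm
      _ ≤ k * max 1 (x / γ) := by
        gcongr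
        exact le_max_left _ _
  · calc x / δ ≤ x / (γ / k) := by gcongr
      _ = k * (x / γ) := by field_simp
      _ ≤ k * max 1 (x / γ) := by
        gcongr
        exact le_max_right _ _

lemma pow_half_le {k : ℝ} (hk : 1 ≤ k) (r : ℕ) : k ^ ((r : ℝ) / 2) ≤ k ^ r := by
  rw [← Real.rpow_natCast]
  refine Real.rpow_le_rpow_of_exponent_le hk ?_
  have : (0 : ℝ) ≤ r := Nat.cast_nonneg r
  linarith

lemma Bq_scale {a b : ℤ} {r : ℕ} {R γ k δ : ℝ} (hR : 0 < R) (hγ : 0 < γ) (hk : 1 ≤ k)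
    (hδ : γ / k ≤ δ) : Bq a b r R δ ≤ k ^ (1 + r) * Bq a b r R γ := by
  have hL := L_pos a b
  have hk0 : 0 < k := by linarith
  have h1 := max_scale hR.le hγ hk hδ
  have h2 := max_scale hL.le hγ hk hδ
  have hm0 : (0 : ℝ) ≤ max 1 (R / γ) := le_trans zero_le_one (le_max_left _ _)
  have hm1 : (0 : ℝ) ≤ max 1 (R / δ) := le_trans zero_le_one (le_max_left _ _)
  have hn0 : (0 : ℝ) ≤ max 1 (L a b / γ) := le_trans zero_le_one (le_max_left _ _)
  have hn1 : (0 : ℝ) ≤ max 1 (L a b / δ) := le_trans zero_le_one (le_max_left _ _)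
  have h3 := pow_half_le hk r
  unfold Bq
  calc (max 1 (R / δ)) ^ ((r : ℝ) / 2) * max 1 (L a b / δ)
      ≤ (k * max 1 (R / γ)) ^ ((r : ℝ) / 2) * (k * max 1 (L a b / γ)) := by gcongr
    _ = k ^ ((r : ℝ) / 2) * k * ((max 1 (R / γ)) ^ ((r : ℝ) / 2) * max 1 (L a b / γ)) := by
        rw [Real.mul_rpow hk0.le hm0]; ring
    _ ≤ k ^ r * k * ((max 1 (R / γ)) ^ ((r : ℝ) / 2) * max 1 (L a b / γ)) := by gcongr
    _ = k ^ (1 + r) * ((max 1 (R / γ)) ^ ((r : ℝ) / 2) * max 1 (L a b / γ)) := by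
        rw [add_comm 1 r, pow_succ]

open Classical in
/-- Counting by balls of radius `ρ` in a ball of radius `R`. -/
theorem covering_R {Ch : ℝ} {a b : ℤ} (hD : D a b ≠ 0) {g : (curve a b).Point → ℝ}
    (hg : IsHt Ch g) (r : ℕ) (hr : Module.rank ℤ (curve a b).Point ≤ r) {R ρ K : ℝ} (hR : 0 < R)
    (hρ : 0 < ρ) (hK : 0 ≤ K) (S : Finset (curve a b).Point) (hS : ∀ P ∈ S, g P ≤ R)
    (hcl : ∀ c ∈ S, ((S.filter fun P => g (P - c) ≤ ρ).card : ℝ) ≤ K) :
    (S.card : ℝ) ≤ 10 ^ r * (max 1 (R / ρ)) ^ ((r : ℝ) / 2) * K := by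
  have hquad := LR.can_quad hD hg.dbl hg.near
  have hfin := fun R => LR.can_finite (a := a) (b := b) hg.near R
  set m : ℝ := max 1 (R / ρ) with hm
  have hm1 : 1 ≤ m := le_max_left _ _
  have hmL : R ≤ m * ρ := by
    rw [← div_le_iff₀ hρ]
    exact le_max_right _ _
  set n : ℕ := ⌈9 * Real.sqrt m⌉₊ with hn
  have hsq : Real.sqrt m ^ 2 = m := Real.sq_sqrt (by linarith)
  have hsq1 : 1 ≤ Real.sqrt m := by
    rw [Real.one_le_sqrt]; exact hm1
  have hn1 : 9 * Real.sqrt m ≤ n := Nat.le_ceil _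
  have hn2 : (n : ℝ) ≤ 10 * Real.sqrt m := by
    have := Nat.ceil_lt_add_one (a := 9 * Real.sqrt m) (by positivity)
    linarith
  have hn0 : 0 < n := by
    have : (0 : ℝ) < n := by linarith
    exact_mod_cast this
  obtain ⟨Z, hZS, hZc, hZ⟩ := LW.cover hquad hfin r hr (R := R) hR n hn0 S hS
  have hrad : 80 * R / (n : ℝ) ^ 2 ≤ ρ := by
    have hnn : 81 * m ≤ (n : ℝ) ^ 2 := by
      calc 81 * m = (9 * Real.sqrt m) ^ 2 := by rw [mul_pow, hsq]; norm_num
        _ ≤ (n : ℝ) ^ 2 := by gcongr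
    rw [div_le_iff₀ (by positivity)]
    have h1 : ρ * (81 * m) ≤ ρ * (n : ℝ) ^ 2 := by gcongr
    nlinarith
  have hsub : S ⊆ Z.biUnion fun c => S.filter fun P => g (P - c) ≤ ρ := by
    intro P hP
    obtain ⟨c, hc, hcP⟩ := hZ P hP
    rw [Finset.mem_biUnion]
    exact ⟨c, hc, Finset.mem_filter.mpr ⟨hP, hcP.trans hrad⟩⟩
  have h1 : S.card ≤ ∑ c ∈ Z, (S.filter fun P => g (P - c) ≤ ρ).card :=
    (Finset.card_le_card hsub).trans Finset.card_biUnion_le
  have h2 : (S.card : ℝ) ≤ ∑ c ∈ Z, ((S.filter fun P => g (P - c) ≤ ρ).card : ℝ) := by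
    exact_mod_cast h1
  have h3 : (S.card : ℝ) ≤ Z.card * K := by
    refine h2.trans ((Finset.sum_le_sum fun c hc => hcl c (hZS hc)).trans ?_)
    rw [Finset.sum_const, nsmul_eq_mul]
  have h4 : (Z.card : ℝ) ≤ 10 ^ r * m ^ ((r : ℝ) / 2) := by
    have h5 : (Z.card : ℝ) ≤ (n : ℝ) ^ r := by exact_mod_cast hZc
    refine h5.trans ?_
    calc (n : ℝ) ^ r ≤ (10 * Real.sqrt m) ^ r := by gcongr
      _ = 10 ^ r * (Real.sqrt m) ^ r := mul_pow _ _ _
      _ = 10 ^ r * m ^ ((r : ℝ) / 2) := by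
          congr 1
          rw [Real.sqrt_eq_rpow, ← Real.rpow_natCast, ← Real.rpow_mul (by linarith)]
          congr 1
          ring
  exact h3.trans (mul_le_mul_of_nonneg_right h4 hK)

/-- The combination of a covering and a bound for small balls. -/
lemma combine {a b : ℤ} {r : ℕ} {R γ k K₁ N : ℝ} (hR : 0 < R) (hγ : 0 < γ) (hk : 1 ≤ k)
    (hK₁ : 1 ≤ K₁)
    (h : N ≤ 10 ^ r * (max 1 (R / (γ / k))) ^ ((r : ℝ) / 2) * (K₁ * max 1 (L a b / γ))) :
    N ≤ (10 * k * K₁) ^ (1 + r) * Bq a b r R γ := by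
  have hL := L_pos a b
  have hk0 : 0 < k := by linarith
  have h1 := max_scale hR.le hγ hk (le_refl (γ / k))
  have hm0 : (0 : ℝ) ≤ max 1 (R / γ) := le_trans zero_le_one (le_max_left _ _)
  have hm1 : (0 : ℝ) ≤ max 1 (R / (γ / k)) := le_trans zero_le_one (le_max_left _ _)
  have hn0 : (0 : ℝ) ≤ max 1 (L a b / γ) := le_trans zero_le_one (le_max_left _ _)
  have h3 := pow_half_le hk r
  refine h.trans ?_
  unfold Bq
  calc 10 ^ r * (max 1 (R / (γ / k))) ^ ((r : ℝ) / 2) * (K₁ * max 1 (L a b / γ))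
      ≤ 10 ^ r * (k * max 1 (R / γ)) ^ ((r : ℝ) / 2) * (K₁ * max 1 (L a b / γ)) := by gcongr
    _ = (10 ^ r * k ^ ((r : ℝ) / 2) * K₁) *
        ((max 1 (R / γ)) ^ ((r : ℝ) / 2) * max 1 (L a b / γ)) := by
        rw [Real.mul_rpow hk0.le hm0]; ring
    _ ≤ (10 * k * K₁) ^ (1 + r) * ((max 1 (R / γ)) ^ ((r : ℝ) / 2) * max 1 (L a b / γ)) := by
        have h5 : 10 ^ r * k ^ ((r : ℝ) / 2) * K₁ ≤ (10 * k * K₁) ^ (1 + r) := by
          have h6 : (1 : ℝ) ≤ K₁ ^ r := one_le_pow₀ hK₁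
          have h7 : (0 : ℝ) ≤ 10 ^ r * k ^ r := by positivity
          calc 10 ^ r * k ^ ((r : ℝ) / 2) * K₁ ≤ 10 ^ r * k ^ r * K₁ := by gcongr
            _ = 1 * (10 ^ r * k ^ r * 1) * K₁ := by ring
            _ ≤ (10 * k) * (10 ^ r * k ^ r * K₁ ^ r) * K₁ := by
                gcongr
                linarith
            _ = (10 * k * K₁) ^ (1 + r) := by
                rw [pow_add, pow_one, mul_pow, mul_pow]; ring
        exact mul_le_mul_of_nonneg_right h5 (by positivity)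

/-- Integral points in a ball about the origin, with a set of primes. -/
theorem ball_T (Ch : ℝ) (hCh : 0 ≤ Ch) : ∃ C : ℝ, 1 ≤ C ∧ ∀ (a b : ℤ) (hq : QuasiMinimal a b),
    ∀ g : (curve a b).Point → ℝ, IsHt Ch g → ∀ r : ℕ, Module.rank ℤ (curve a b).Point ≤ r →
    ∀ (T : Finset ℕ) (R : ℝ), 0 < R → ∀ S : Finset (ℤ × ℤ), (∀ z ∈ S, z ∈ integralPoints a b ∧
      |(z.1 : ℝ)| ≤ Real.exp (100 * L a b) ∧ g (LR.toPt hq.ne z) ≤ R) →
    (S.card : ℝ) ≤ C ^ (1 + r + T.card) * Bq a b r R (GT a b T) := by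
  classical
  obtain ⟨C₀, hC₀, hsmall⟩ := small_total
  set C₁ : ℝ := C₀ + 1000 * Ch with hC₁
  have hC₁1 : 1 ≤ C₁ := by linarith
  set X : ℕ := ⌈Real.exp (100 * (30 * C₁ ^ 3))⌉₊ with hX
  set C₂ : ℝ := 2 * (2 * (X : ℝ) + 1) with hC₂
  have hX0 : (0 : ℝ) ≤ X := Nat.cast_nonneg _
  have hC₂1 : 1 ≤ C₂ := by rw [hC₂]; linarith
  set C₃ : ℝ := (13 * (10 * 1000 * 26000)) ^ 2 with hC₃
  refine ⟨C₃ + C₂, by rw [hC₃]; linarith, fun a b hq g hg r hr T R hR S hS => ?_⟩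
  have hD := hq.ne
  have hL := L_pos a b
  have hBq := one_le_Bq a b r R (GT a b T)
  obtain ⟨q, hqmax⟩ := exists_max a b
  have hGT1 := one_le_GT a b T
  by_cases hbig : C₁ ≤ GT a b (insert q T)
  · set T' := insert q T with hT'
    set γ : ℝ := GT a b T' with hγ
    have hγ0 : 0 < γ := by linarith
    have hGT' : GT a b T ≤ γ := GT_mono (Finset.subset_insert _ _)
    set P := S.image (LR.toPt hD) with hP
    have hcard : S.card = P.card := by
      symm
      refine Finset.card_image_of_injOn fun z hz z' hz' h => ?_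
      exact LR.toPt_injOn hD (hS z hz).1 (hS z' hz').1 h
    have hball := fun c => LX.ball_count (ρ := γ / 1000)
      (K := 2 * 13 ^ (T'.card + 1) * (1000 * L a b / γ))
      (fun s hs _ => hsmall Ch hCh a b hq T' hbig g hg s hs) P c
    have h1 := covering_R hD hg r hr (R := R) (ρ := γ / 1000)
      (K := 2 * (2 * 13 ^ (T'.card + 1) * (1000 * L a b / γ))) hR (by positivity)
      (by positivity) P (fun Q hQ => by
        obtain ⟨z, hz, rfl⟩ := Finset.mem_image.mp hQ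
        exact (hS z hz).2.2) (fun c _ => hball c)
    have h2 : 10 ^ r * (max 1 (R / (γ / 1000))) ^ ((r : ℝ) / 2) *
        (2 * (2 * 13 ^ (T'.card + 1) * (1000 * L a b / γ))) ≤
        13 ^ T'.card * (10 ^ r * (max 1 (R / (γ / 1000))) ^ ((r : ℝ) / 2) *
          (52000 * max 1 (L a b / γ))) := by
      have e1 : (1000 : ℝ) * L a b / γ ≤ 1000 * max 1 (L a b / γ) := by
        rw [mul_div_assoc]
        gcongr
        exact le_max_right _ _
      have e2 : (0 : ℝ) ≤ 10 ^ r * (max 1 (R / (γ / 1000))) ^ ((r : ℝ) / 2) := by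
        have : (0 : ℝ) ≤ max 1 (R / (γ / 1000)) := le_trans zero_le_one (le_max_left _ _)
        positivity
      calc 10 ^ r * (max 1 (R / (γ / 1000))) ^ ((r : ℝ) / 2) *
          (2 * (2 * 13 ^ (T'.card + 1) * (1000 * L a b / γ)))
          ≤ 10 ^ r * (max 1 (R / (γ / 1000))) ^ ((r : ℝ) / 2) *
          (2 * (2 * 13 ^ (T'.card + 1) * (1000 * max 1 (L a b / γ)))) := by gcongr
        _ = _ := by rw [pow_succ]; ring
    have h3 : ((S.card : ℝ)) / 13 ^ T'.card ≤ 10 ^ r * (max 1 (R / (γ / 1000))) ^ ((r : ℝ) / 2) *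
          (52000 * max 1 (L a b / γ)) := by
      rw [div_le_iff₀ (by positivity), hcard, mul_comm]
      refine h1.trans (h2.trans (le_of_eq ?_))
      ring
    have h4 := combine (a := a) (b := b) hR hγ0 (by norm_num : (1 : ℝ) ≤ 1000)
      (by norm_num : (1 : ℝ) ≤ 52000) h3
    rw [div_le_iff₀ (by positivity)] at h4
    have h5 : Bq a b r R γ ≤ Bq a b r R (GT a b T) := by
      unfold Bq
      have e1 : max 1 (R / γ) ≤ max 1 (R / GT a b T) := by gcongr
      have e2 : max 1 (L a b / γ) ≤ max 1 (L a b / GT a b T) := by gcongr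
      have e3 : (0 : ℝ) ≤ max 1 (R / γ) := le_trans zero_le_one (le_max_left _ _)
      have e4 : (0 : ℝ) ≤ max 1 (L a b / γ) := le_trans zero_le_one (le_max_left _ _)
      gcongr
    have hB0 : 0 ≤ Bq a b r R γ := le_trans zero_le_one (one_le_Bq _ _ _ _ _)
    have hcT : T'.card ≤ T.card + 1 := Finset.card_insert_le _ _
    have h6 : (10 * 1000 * 52000 : ℝ) ^ (1 + r) * 13 ^ T'.card ≤ C₃ ^ (1 + r + T.card) := by
      calc (10 * 1000 * 52000 : ℝ) ^ (1 + r) * 13 ^ T'.card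
          ≤ (10 * 1000 * 52000 : ℝ) ^ (1 + r) * 13 ^ (T.card + 1) := by
            gcongr
            norm_num
        _ = (10 * 1000 * 52000 : ℝ) ^ (1 + r) * (13 ^ T.card * 13 ^ 1) := by
            rw [pow_add (13 : ℝ)]
        _ ≤ (10 * 1000 * 52000 : ℝ) ^ (1 + r) * (13 ^ T.card * 13 ^ (1 + r)) := by
            have : (13 : ℝ) ^ 1 ≤ 13 ^ (1 + r) := pow_le_pow_right₀ (by norm_num) (by omega)
            gcongr
        _ = (13 * (10 * 1000 * 52000) : ℝ) ^ (1 + r) * 13 ^ T.card := by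
            rw [mul_pow (13 : ℝ)]; ring
        _ ≤ C₃ ^ (1 + r) * C₃ ^ T.card := by
            rw [hC₃]
            have e1 : (13 * (10 * 1000 * 52000) : ℝ) ≤ (13 * (10 * 1000 * 26000)) ^ 2 := by norm_num
            have e2 : (13 : ℝ) ≤ (13 * (10 * 1000 * 26000)) ^ 2 := by norm_num
            exact mul_le_mul (pow_le_pow_left₀ (by norm_num) e1 _)
              (pow_le_pow_left₀ (by norm_num) e2 _) (by positivity) (by positivity)
        _ = C₃ ^ (1 + r + T.card) := (pow_add _ _ _).symm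
    calc (S.card : ℝ) ≤ (10 * 1000 * 52000) ^ (1 + r) * Bq a b r R γ * 13 ^ T'.card := h4
      _ = ((10 * 1000 * 52000) ^ (1 + r) * 13 ^ T'.card) * Bq a b r R γ := by ring
      _ ≤ C₃ ^ (1 + r + T.card) * Bq a b r R (GT a b T) := by
          have e0 : 0 ≤ C₃ := by rw [hC₃]; positivity
          gcongr
      _ ≤ (C₃ + C₂) ^ (1 + r + T.card) * Bq a b r R (GT a b T) := by
          have e0 : 0 ≤ C₃ := by rw [hC₃]; positivity
          gcongr
          linarith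
  · push Not at hbig
    have hGle : G a b ≤ C₁ := (G_le_GT (Finset.mem_insert_self q T) hqmax).trans hbig.le
    have hG1 := one_le_G a b
    have hLle : L a b ≤ 30 * C₁ ^ 3 := by
      refine (L_le_cube hq).trans ?_
      gcongr
    have h1 : S.card ≤ 2 * (2 * X + 1) := by
      refine trivial_count X S (fun z hz => (hS z hz).1) fun z hz => ?_
      have h3 : |(z.1 : ℝ)| ≤ (X : ℝ) := by
        refine (hS z hz).2.1.trans (le_trans ?_ (Nat.le_ceil _))
        rw [Real.exp_le_exp]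
        gcongr
      exact_mod_cast h3
    have h2 : (S.card : ℝ) ≤ C₂ := by rw [hC₂]; exact_mod_cast h1
    have e0 : 0 ≤ C₃ := by rw [hC₃]; positivity
    calc (S.card : ℝ) ≤ C₂ := h2
      _ ≤ C₂ ^ (1 + r + T.card) := le_self_pow₀ hC₂1 (by omega)
      _ ≤ (C₃ + C₂) ^ (1 + r + T.card) := by gcongr; linarith
      _ ≤ (C₃ + C₂) ^ (1 + r + T.card) * Bq a b r R (GT a b T) :=
          le_mul_of_one_le_right (by positivity) hBq

end Pool.Agent.H24.LZ
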