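import Pool.Agent.H24.LZ.Sets
import Pool.Agent.H24.LX.Low

/-!
# The multiplicative primes, `gcd(y², D)` and the part of `D` coprime to `y`

`∑_{p ∈ mult} ν_p τ_p ≤ (1/2) log gcd(y², D)`, `∑_{mult} ν_p ≥ 6L - 6 Rst - C`, and
`∑_{p ∈ mult, p ∤ y} ν_p ≥ log d - 6 Rst - C` for a divisor `d` of `D` coprime to `y`.
-/

namespace Pool.Agent.H24.LZ

open Pool.Agent.H24.LP Pool.Agent.H24.LQ Pool.Agent.H24.LX Finset

private lemma gcd_Dq (a b : ℤ) : 4 * (a : ℚ) ^ 3 + 27 * (b : ℚ) ^ 2 = ((D a b : ℤ) : ℚ) := by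
  rw [D]; push_cast; ring

private lemma gcd_Dq_ne {a b : ℤ} (hD : D a b ≠ 0) :
    4 * (a : ℚ) ^ 3 + 27 * (b : ℚ) ^ 2 ≠ 0 := by
  rw [gcd_Dq]; exact_mod_cast hD

private lemma gcd_ab_ne {a b : ℤ} (hD : D a b ≠ 0) : ¬ ((a : ℚ) = 0 ∧ (b : ℚ) = 0) := by
  rintro ⟨ha, hb⟩
  apply hD
  have ha' : a = 0 := by exact_mod_cast ha
  have hb' : b = 0 := by exact_mod_cast hb
  subst ha' hb'
  simp [D]

private lemma gcd_sv_inf {a b : ℤ} (hD : D a b ≠ 0) :
    L a b - Real.log 2 ≤ Real.log (sv (fv 0) a b) := by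
  have hs := sv_pos (fv 0) a b (gcd_ab_ne hD)
  have h2 : 0 ≤ Real.log 2 := Real.log_nonneg (by norm_num)
  have ha := le_sv_sq (fv 0) (a : ℚ) b
  have hb := le_sv_cube (fv 0) (a : ℚ) b
  rw [fv_zero] at ha hb
  have e1 : (((a : ℚ)) : ℝ) = (a : ℝ) := by push_cast; rfl
  have e2 : (((b : ℚ)) : ℝ) = (b : ℝ) := by push_cast; rfl
  rw [e1] at ha
  rw [e2] at hb
  have hla : a ≠ 0 → Real.log |(a : ℝ)| ≤ 2 * Real.log (sv (fv 0) a b) ∧
      0 ≤ Real.log |(a : ℝ)| := by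
    intro h
    have h1 : (1 : ℝ) ≤ |(a : ℝ)| := by
      have := Int.one_le_abs h
      exact_mod_cast this
    refine ⟨?_, Real.log_nonneg h1⟩
    have := Real.log_le_log (by linarith) ha
    rw [Real.log_pow] at this
    exact_mod_cast this
  have hlb : b ≠ 0 → Real.log |(b : ℝ)| ≤ 3 * Real.log (sv (fv 0) a b) ∧
      0 ≤ Real.log |(b : ℝ)| := by
    intro h
    have h1 : (1 : ℝ) ≤ |(b : ℝ)| := by
      have := Int.one_le_abs h
      exact_mod_cast this
    refine ⟨?_, Real.log_nonneg h1⟩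
    have := Real.log_le_log (by linarith) hb
    rw [Real.log_pow] at this
    exact_mod_cast this
  have hs0 : 0 ≤ Real.log (sv (fv 0) a b) := by
    by_cases h : a = 0
    · have h' : b ≠ 0 := by
        rintro rfl
        apply gcd_ab_ne hD
        exact ⟨by rw [h]; norm_num, by norm_num⟩
      obtain ⟨h3, h4⟩ := hlb h'
      linarith
    · obtain ⟨h3, h4⟩ := hla h
      linarith
  rw [sub_le_iff_le_add]
  unfold L
  refine max_le (by linarith) (max_le ?_ ?_)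
  · by_cases h : a = 0
    · rw [h]
      simp only [Int.cast_zero, abs_zero, Real.log_zero, zero_div]
      rw [h] at hs0
      have := add_nonneg hs0 h2
      simpa using this
    · obtain ⟨h3, h4⟩ := hla h
      linarith
  · by_cases h : b = 0
    · rw [h]
      simp only [Int.cast_zero, abs_zero, Real.log_zero, zero_div]
      rw [h] at hs0
      have := add_nonneg hs0 h2
      simpa using this
    · obtain ⟨h3, h4⟩ := hlb h
      linarith

private lemma gcd_fv_ge {p : ℕ} (hp : p.Prime) {n : ℤ} {m : ℕ} (h : ¬ (p : ℤ) ^ (m + 1) ∣ n) :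
    n ≠ 0 ∧ -((m : ℝ) * Real.log p) ≤ Real.log (fv p n) := by
  have h0 : n ≠ 0 := by
    rintro rfl
    exact h (dvd_zero _)
  refine ⟨h0, ?_⟩
  have hf : n.natAbs.factorization p ≤ m := by
    by_contra hcon
    apply h
    have h1 : p ^ (m + 1) ∣ n.natAbs :=
      (hp.pow_dvd_iff_le_factorization (Int.natAbs_ne_zero.mpr h0)).mpr (by omega)
    have h2 := Int.natCast_dvd.mpr h1
    exact_mod_cast h2
  rw [fv_int hp h0, Real.log_inv, Real.log_pow]
  have hl : 0 ≤ Real.log p := Real.log_natCast_nonneg p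
  have hf' : ((n.natAbs.factorization p : ℕ) : ℝ) ≤ (m : ℝ) := by exact_mod_cast hf
  have := mul_le_mul_of_nonneg_right hf' hl
  linarith

lemma gcd_sv_prime {a b : ℤ} (hq : QuasiMinimal a b) {p : ℕ} (hp : p.Prime) :
    -(2 * Real.log p) ≤ Real.log (sv (fv p) a b) := by
  have hs := sv_pos (fv p) a b (gcd_ab_ne hq.ne)
  have hl : 0 ≤ Real.log p := Real.log_natCast_nonneg p
  have hor : ¬ (p : ℤ) ^ (3 + 1) ∣ a ∨ ¬ (p : ℤ) ^ (5 + 1) ∣ b := by
    by_contra hcon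
    rw [not_or, not_not, not_not] at hcon
    exact hq.min p hp hcon
  rcases hor with h | h
  · obtain ⟨h0, h1⟩ := gcd_fv_ge hp h
    have h2 := le_sv_sq (fv p) (a : ℚ) b
    have h3 : 0 < fv p a := (fv p).pos (by exact_mod_cast h0)
    have h4 := Real.log_le_log h3 h2
    rw [Real.log_pow] at h4
    push_cast at h1 h4
    linarith
  · obtain ⟨h0, h1⟩ := gcd_fv_ge hp h
    have h2 := le_sv_cube (fv p) (a : ℚ) b
    have h3 : 0 < fv p b := (fv p).pos (by exact_mod_cast h0)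
    have h4 := Real.log_le_log h3 h2
    rw [Real.log_pow] at h4
    push_cast at h1 h4
    linarith

private lemma gcd_ne_zero {a b : ℤ} (hD : D a b ≠ 0) (y : ℤ) :
    ((Int.gcd (y ^ 2) (D a b) : ℕ) : ℤ) ≠ 0 := by
  intro h
  have h1 : Int.gcd (y ^ 2) (D a b) = 0 := by exact_mod_cast h
  rw [Int.gcd_eq_zero_iff] at h1
  exact hD h1.2

/-- `f G ≤ max (f y) (f D)` -/
private lemma gcd_fv_le {p : ℕ} (hp : p.Prime) (y m : ℤ) :
    fv p (((Int.gcd y m : ℕ) : ℤ) : ℚ) ≤ max (fv p y) (fv p m) := by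
  rw [Int.gcd_eq_gcd_ab y m]
  push_cast
  refine le_trans (fv_nonarch hp _ _) (max_le_max ?_ ?_)
  · rw [map_mul]
    exact mul_le_of_le_one_right ((fv p).nonneg _) (fv_int_le hp _)
  · rw [map_mul]
    exact mul_le_of_le_one_right ((fv p).nonneg _) (fv_int_le hp _)

lemma gcd_mult {a b : ℤ} (hD : D a b ≠ 0) {p : ℕ} (hp : p ∈ mult a b) {z : ℤ × ℤ}
    (hz : z ∈ integralPoints a b) :
    nup a b p * tau p (LR.toPt hD z) ≤
      -(Real.log (fv p (((Int.gcd (z.2 ^ 2) (D a b) : ℕ) : ℤ) : ℚ)) / 2) ∧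
    0 < nu (fv p) a b := by
  obtain ⟨hpp, h5, hpl, hpD, hpa⟩ := mem_mult hD hp
  obtain ⟨fa, fb, hs1, hk0, hk1, fe, fA, fB, hν⟩ := mult_facts hD hp
  obtain ⟨hw1, hN, hM⟩ := mult_M hD hp hz
  have hna := fv_nonarch hpp
  have ha0 : a ≠ 0 := by
    rintro rfl
    exact hpa (dvd_zero _)
  set w : ℚ := (z.1 : ℚ) - en a b with hw
  set κ : ℝ := kap (fv p) a b with hκ
  set m : ℝ := max (fv p w) κ with hm
  have hm0 : 0 < m := lt_max_of_lt_right hk0
  have hwm : fv p w ≤ m := le_max_left _ _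
  have hkm : κ ≤ m := le_max_right _ _
  have hw0 : 0 ≤ fv p w := (fv p).nonneg _
  have h3e : fv p (3 * en a b) ≤ 1 := by
    rw [map_mul, fe, fv_three_eq hpp h5, mul_one]
  -- `f y ≤ m`
  have hy : fv p z.2 ≤ m := by
    have h1 := node_eq ha0 hz
    rw [← hw] at h1
    have h2 : fv p z.2 ^ 2 ≤ m ^ 2 := by
      rw [← map_pow, h1]
      have t1 : fv p (w ^ 2 * (w + 3 * en a b)) ≤ m ^ 2 := by
        rw [map_mul, map_pow]
        have h4 : fv p (w + 3 * en a b) ≤ 1 := le_trans (hna _ _) (max_le hw1 h3e)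
        calc fv p w ^ 2 * fv p (w + 3 * en a b) ≤ fv p w ^ 2 * 1 :=
              mul_le_mul_of_nonneg_left h4 (by positivity)
          _ ≤ m ^ 2 := by rw [mul_one]; exact pow_le_pow_left₀ hw0 hwm 2
      have t2 : fv p (An a b * w) ≤ m ^ 2 := by
        rw [map_mul, fA]
        calc κ ^ 2 * fv p w ≤ κ ^ 2 * 1 := mul_le_mul_of_nonneg_left hw1 (by positivity)
          _ ≤ m ^ 2 := by rw [mul_one]; exact pow_le_pow_left₀ hk0.le hkm 2
      have t3 : fv p (Bn a b) ≤ m ^ 2 := by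
        rw [fB]
        exact pow_le_pow_left₀ hk0.le hkm 2
      rw [sub_eq_add_neg]
      refine le_trans (hna _ _) (max_le (le_trans (hna _ _) (max_le t1 t2)) ?_)
      rw [AbsoluteValue.map_neg]
      exact t3
    exact (pow_le_pow_iff_left₀ ((fv p).nonneg _) hm0.le two_ne_zero).mp h2
  -- `f D ≤ m ^ 2`
  have hDm : fv p ((D a b : ℤ) : ℚ) ≤ m ^ 2 := by
    have h1 := kap_sq (fv p) a b (gcd_Dq_ne hD)
    rw [hs1, one_pow, div_one, gcd_Dq, ← hκ] at h1
    rw [← h1]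
    exact pow_le_pow_left₀ hk0.le hkm 2
  have hy2 : fv p ((z.2 ^ 2 : ℤ) : ℚ) ≤ m ^ 2 := by
    rw [Int.cast_pow, map_pow]
    exact pow_le_pow_left₀ ((fv p).nonneg _) hy 2
  have hG : fv p (((Int.gcd (z.2 ^ 2) (D a b) : ℕ) : ℤ) : ℚ) ≤ m ^ 2 :=
    le_trans (gcd_fv_le hpp _ _) (max_le hy2 hDm)
  have hG0 : 0 < fv p (((Int.gcd (z.2 ^ 2) (D a b) : ℕ) : ℤ) : ℚ) :=
    (fv p).pos (by exact_mod_cast gcd_ne_zero hD z.2)
  have hlog := Real.log_le_log hG0 hG
  rw [Real.log_pow] at hlog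
  push_cast at hlog
  have hT : Tv (fv p) a b (thr p) (repX (LR.toPt hD z)) (repZ (LR.toPt hD z)) = - Real.log m := by
    unfold Tv
    rw [thr_mult hp, if_neg (not_le.mpr hν), hN, hM, one_div, Real.log_inv]
  refine ⟨?_, hν⟩
  have hnn : nup a b p = nu (fv p) a b := max_eq_right hν.le
  rw [hnn, ← Tv_eq, hT]
  push_cast
  linarith

lemma places_prime' {a b : ℤ} {v : ℕ} (hv : v ∈ places a b) (h0 : v ≠ 0) :
    v.Prime := by
  rcases Finset.mem_insert.mp hv with h | h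
  · exact absurd h h0
  · exact Nat.prime_of_mem_primeFactors h


/-- `∑_{v ∉ mult} ..`: the other places. -/
lemma other_sum (a b : ℤ) (hD : D a b ≠ 0) :
    ∑ v ∈ (places a b \ mult a b).erase 0, 2 * Real.log v ≤
      ∑ v ∈ (places a b \ mult a b).filter (fun v => 5 ≤ v), 2 * Real.log v +
        (2 * Real.log 2 + 2 * Real.log 3) := by
  set W := places a b \ mult a b with hW
  have hWp : ∀ v ∈ W.erase 0, v.Prime := by
    intro v hv
    obtain ⟨h1, h2⟩ := Finset.mem_erase.mp hv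
    exact places_prime' (Finset.mem_sdiff.mp h2).1 h1
  have hss : W.erase 0 ⊆ W.filter (fun v => 5 ≤ v) ∪ ({2, 3} : Finset ℕ) := by
    intro v hv
    have hp := hWp v hv
    obtain ⟨h1, h2⟩ := Finset.mem_erase.mp hv
    rw [Finset.mem_union]
    by_cases h5 : 5 ≤ v
    · left
      exact Finset.mem_filter.mpr ⟨h2, h5⟩
    · right
      have h3 : v < 5 := not_le.mp h5
      have h4 := hp.two_le
      have h6 : v ≠ 4 := by
        rintro rfl
        revert hp
        norm_num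
      have h7 : v = 2 ∨ v = 3 := by omega
      simp only [Finset.mem_insert, Finset.mem_singleton]
      exact h7
  have hnn : ∀ v : ℕ, 0 ≤ 2 * Real.log (v : ℝ) := fun v =>
    mul_nonneg (by norm_num) (Real.log_natCast_nonneg v)
  refine le_trans (Finset.sum_le_sum_of_subset_of_nonneg hss fun v _ _ => hnn v) ?_
  have h8 := Finset.sum_union_inter (s₁ := W.filter (fun v => 5 ≤ v)) (s₂ := ({2, 3} : Finset ℕ))
    (f := fun v : ℕ => 2 * Real.log (v : ℝ))
  have h9 : 0 ≤ ∑ v ∈ (W.filter (fun v => 5 ≤ v)) ∩ ({2, 3} : Finset ℕ),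
      2 * Real.log (v : ℝ) := Finset.sum_nonneg fun v _ => hnn v
  have h10 : ∑ v ∈ ({2, 3} : Finset ℕ), 2 * Real.log (v : ℝ) =
      2 * Real.log 2 + 2 * Real.log 3 := by
    rw [Finset.sum_pair (by norm_num)]
    norm_num
  linarith

/-- `∑_{mult} ν_p τ_p ≤ (1/2) log gcd(y², D)`. -/
theorem sum_tau_le {a b : ℤ} (hD : D a b ≠ 0) {z : ℤ × ℤ} (hz : z ∈ integralPoints a b) :
    ∑ p ∈ mult a b, nup a b p * tau p (LR.toPt hD z) ≤
      Real.log (Int.gcd (z.2 ^ 2) (D a b) : ℝ) / 2 := by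
  set G : ℤ := ((Int.gcd (z.2 ^ 2) (D a b) : ℕ) : ℤ) with hG
  have hG0 : G ≠ 0 := gcd_ne_zero hD z.2
  have hsub : mult a b ⊆ places a b := mult_subset hD
  set W := places a b \ mult a b with hW
  have h0W : 0 ∈ W := by
    rw [hW, Finset.mem_sdiff]
    refine ⟨Finset.mem_insert_self _ _, fun h => ?_⟩
    exact Nat.not_prime_zero (mem_mult hD h).1
  have hWp : ∀ v ∈ W.erase 0, v.Prime := by
    intro v hv
    obtain ⟨h1, h2⟩ := Finset.mem_erase.mp hv
    exact places_prime' (Finset.mem_sdiff.mp h2).1 h1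
  have s4 : -Real.log (Int.gcd (z.2 ^ 2) (D a b) : ℝ) ≤
      ∑ v ∈ mult a b, Real.log (fv v (G : ℚ)) := by
    have h1 := sum_log_nonneg a b hG0
    have h2 : ∑ v ∈ places a b, Real.log (fv v (G : ℚ)) =
        ∑ v ∈ W, Real.log (fv v (G : ℚ)) + ∑ v ∈ mult a b, Real.log (fv v (G : ℚ)) :=
      (Finset.sum_sdiff hsub).symm
    have h3 : ∑ v ∈ W, Real.log (fv v (G : ℚ)) =
        Real.log (fv 0 (G : ℚ)) + ∑ v ∈ W.erase 0, Real.log (fv v (G : ℚ)) :=
      (Finset.add_sum_erase _ _ h0W).symm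
    have h4 : ∑ v ∈ W.erase 0, Real.log (fv v (G : ℚ)) ≤ 0 :=
      Finset.sum_nonpos fun v hv =>
        Real.log_nonpos ((fv v).nonneg _) (fv_int_le (hWp v hv) G)
    have h5 : Real.log (fv 0 (G : ℚ)) = Real.log (Int.gcd (z.2 ^ 2) (D a b) : ℝ) := by
      rw [fv_zero, hG]
      push_cast
      rw [Nat.abs_cast]
    linarith
  have s5 : ∑ p ∈ mult a b, nup a b p * tau p (LR.toPt hD z) ≤
      ∑ p ∈ mult a b, -(Real.log (fv p (G : ℚ)) / 2) :=
    Finset.sum_le_sum fun p hp => (gcd_mult hD hp hz).1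
  have s6 : ∑ p ∈ mult a b, -(Real.log (fv p (G : ℚ)) / 2) =
      -(∑ p ∈ mult a b, Real.log (fv p (G : ℚ))) / 2 := by
    rw [Finset.sum_neg_distrib, ← Finset.sum_div]
    ring
  linarith

/-- `∑_{mult} ν_p ≥ 6L - 6 Rst - C`. -/
theorem sum_mult_ge : ∃ C : ℝ, 0 ≤ C ∧ ∀ (a b : ℤ), QuasiMinimal a b →
    6 * L a b - 6 * Rst a b - C ≤ ∑ p ∈ mult a b, nup a b p := by
  have l2 : 0 ≤ Real.log 2 := Real.log_nonneg (by norm_num)
  have l3 : 0 ≤ Real.log 3 := Real.log_nonneg (by norm_num)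
  refine ⟨6 * (3 * Real.log 2 + 2 * Real.log 3), by linarith, fun a b hq => ?_⟩
  have hD := hq.ne
  have hsub : mult a b ⊆ places a b := mult_subset hD
  have hos := other_sum a b hD
  have hls := sum_log_sv hD
  have hR : Rst a b = ∑ v ∈ places a b \ mult a b, nup a b v
    + ∑ v ∈ (places a b \ mult a b).filter (fun v => 5 ≤ v), 2 * Real.log v := rfl
  set W := places a b \ mult a b with hW
  have h0W : 0 ∈ W := by
    rw [hW, Finset.mem_sdiff]
    refine ⟨Finset.mem_insert_self _ _, fun h => ?_⟩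
    exact Nat.not_prime_zero (mem_mult hD h).1
  have hWp : ∀ v ∈ W.erase 0, v.Prime := by
    intro v hv
    obtain ⟨h1, h2⟩ := Finset.mem_erase.mp hv
    exact places_prime' (Finset.mem_sdiff.mp h2).1 h1
  have s5 : L a b - Real.log 2 - ∑ v ∈ W.erase 0, 2 * Real.log v ≤
      ∑ v ∈ W, Real.log (sv (fv v) a b) := by
    rw [← Finset.add_sum_erase _ _ h0W]
    have h1 := gcd_sv_inf hD
    have h2 : ∑ v ∈ W.erase 0, -(2 * Real.log v) ≤
        ∑ v ∈ W.erase 0, Real.log (sv (fv v) a b) :=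
      Finset.sum_le_sum fun v hv => gcd_sv_prime hq (hWp v hv)
    rw [Finset.sum_neg_distrib] at h2
    linarith
  have e1 : ∑ v ∈ places a b, Real.log (sv (fv v) a b) = ∑ v ∈ W, Real.log (sv (fv v) a b) := by
    rw [← Finset.sum_sdiff hsub]
    have : ∑ v ∈ mult a b, Real.log (sv (fv v) a b) = 0 :=
      Finset.sum_eq_zero fun p hp => by
        obtain ⟨-, -, hs1, -⟩ := mult_facts hD hp
        rw [hs1, Real.log_one]
    rw [this, add_zero]
  have e2 : ∑ v ∈ places a b, nu (fv v) a b ≤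
      ∑ v ∈ W, nup a b v + ∑ p ∈ mult a b, nup a b p := by
    rw [← Finset.sum_sdiff hsub]
    exact add_le_add (Finset.sum_le_sum fun v _ => le_max_right _ _)
      (Finset.sum_le_sum fun v _ => le_max_right _ _)
  have e3 : 0 ≤ ∑ v ∈ W, nup a b v := Finset.sum_nonneg fun v _ => nup_nonneg a b v
  linarith

end Pool.Agent.H24.LZ
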