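import Pool.Agent.H24.LZ.Add
import Pool.Agent.H24.LZ.Gcd2

/-!
# Sums over the primes dividing the denominator of `j`: small lemmas
-/

namespace Pool.Agent.H24.LZ

open Pool.Agent.H24.LP Pool.Agent.H24.LQ Finset

lemma mult_subset_poles {a b : ℤ} (hD : D a b ≠ 0) : LX.mult a b ⊆ poles a b := by
  intro p hp
  by_contra hcon
  obtain ⟨hpp, h5, -, -, -⟩ := LX.mem_mult hD hp
  obtain ⟨-, -, -, -, -, -, -, -, hν⟩ := LX.mult_facts hD hp
  rw [nu_eq hD hpp h5, np_eq_zero hcon] at hν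
  norm_num at hν

lemma sum_poles_le {a b : ℤ} (hD : D a b ≠ 0) :
    ∑ p ∈ poles a b, (np a b p : ℝ) * Real.log p ≤ 6 * L a b + 4 := by
  refine le_trans ?_ (sum_nup_le hD)
  calc ∑ p ∈ poles a b, (np a b p : ℝ) * Real.log p ≤ ∑ p ∈ poles a b, nup a b p :=
        Finset.sum_le_sum fun p hp =>
          (nu_ge_np hD (places_of_poles hD hp).1).trans (le_max_right _ _)
    _ ≤ ∑ v ∈ places a b, nup a b v :=
        Finset.sum_le_sum_of_subset_of_nonneg (fun p hp => (places_of_poles hD hp).2)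
          fun v _ _ => nup_nonneg a b v

lemma np_log_nonneg (a b : ℤ) (p : ℕ) : 0 ≤ (np a b p : ℝ) * Real.log p :=
  mul_nonneg (Nat.cast_nonneg _) (Real.log_natCast_nonneg p)

lemma L_ge_log_two (a b : ℤ) : 0.69 ≤ L a b := by
  have h1 : Real.log 2 ≤ L a b := le_max_left _ _
  have := Real.log_two_gt_d9
  linarith

lemma Rst_nonneg (a b : ℤ) : 0 ≤ LX.Rst a b := by
  unfold LX.Rst
  exact add_nonneg (Finset.sum_nonneg fun v _ => nup_nonneg a b v)
    (Finset.sum_nonneg fun v _ => mul_nonneg (by norm_num) (HeightData.log_nonneg' v))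

/-- The primes with `n_p > m`. -/
def polesm (a b : ℤ) (m : ℕ) : Finset ℕ := (poles a b).filter fun p => m < np a b p

lemma np_pos_poles {a b : ℤ} {p : ℕ} (hp : p ∈ poles a b) : 0 < np a b p := by
  have h1 : p ∈ (jInv a b).den.primeFactors := hp
  have h2 := (Nat.mem_primeFactors.mp h1)
  exact h2.1.factorization_pos_of_dvd h2.2.2 h2.2.1

lemma small_part {a b : ℤ} {m : ℕ} :
    ∑ p ∈ (poles a b).filter (fun p => ¬ m < np a b p), (np a b p : ℝ) * Real.log p ≤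
      (m : ℝ) ^ 2 * ∑ p ∈ poles a b, Real.log p / np a b p := by
  rw [Finset.mul_sum]
  refine le_trans (Finset.sum_le_sum (g := fun p : ℕ => (m : ℝ) ^ 2 * (Real.log p / np a b p))
    fun p hp => ?_) (Finset.sum_le_sum_of_subset_of_nonneg (Finset.filter_subset _ _) ?_)
  · obtain ⟨hp1, hp2⟩ := Finset.mem_filter.mp hp
    have hn0 : 0 < (np a b p : ℝ) := by exact_mod_cast np_pos_poles hp1
    have hnm : (np a b p : ℝ) ≤ m := by exact_mod_cast (not_lt.mp hp2)
    have hlog := Real.log_natCast_nonneg p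
    rw [mul_div_assoc', le_div_iff₀ hn0]
    have h1 : (np a b p : ℝ) ^ 2 ≤ (m : ℝ) ^ 2 := pow_le_pow_left₀ hn0.le hnm 2
    nlinarith
  · intro p _ _
    exact mul_nonneg (sq_nonneg _) (div_nonneg (Real.log_natCast_nonneg p) (Nat.cast_nonneg _))

/-- `(m^2)^(1+r/4) = m^(2+r/2)`. -/
lemma sq_rpow (m r : ℕ) :
    ((m : ℝ) ^ 2) ^ (1 + (r : ℝ) / 4) = (m : ℝ) ^ (2 + (r : ℝ) / 2) := by
  rw [← Real.rpow_natCast (m : ℝ) 2, ← Real.rpow_mul (Nat.cast_nonneg m)]
  congr 1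
  push_cast
  ring

end Pool.Agent.H24.LZ
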