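import Pool.Agent.H24.LZ.Schur

/-!
# Blocks of primes

For disjoint blocks `T_b` of primes let `X_b` be the energy of the block and `s_b = Q_b/6`,
`Q_b² = ∑_{T_b} ν_p²`. The kernel `W = ∏ (X_b + s_b)²` is nonnegative and positive, `W - ∏ s_b²` is
positive, and `(X - ∑ s_b/4) W` is positive by the theorem of Schur.
-/

namespace Pool.Agent.H24.LZ

open Pool.Agent.H24.LP Pool.Agent.H24.LX Finset

lemma PK.const {ι : Type*} {c : ℝ} (hc : 0 ≤ c) : PK fun (_ _ : ι) => c := by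
  refine ⟨fun _ _ => rfl, fun s w => ?_⟩
  have e : ∑ i ∈ s, ∑ j ∈ s, w i * w j * c = c * (∑ i ∈ s, w i) ^ 2 := by
    rw [sq, Finset.sum_mul_sum, Finset.mul_sum]
    refine Finset.sum_congr rfl fun i _ => ?_
    rw [Finset.mul_sum]
    exact Finset.sum_congr rfl fun j _ => by ring
  rw [e]
  positivity

lemma PK.congr {ι : Type*} {K K' : ι → ι → ℝ} (h : PK K) (e : ∀ i j, K i j = K' i j) :
    PK K' := by
  have : K = K' := by
    funext i j
    exact e i j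
  rwa [this] at h

/-- `B² - 1/200` is a positive kernel. -/
lemma pk_bern_sq {ι : Type*} (t : ι → ℝ) :
    PK fun i j => bern ((t i - t j : ℝ) : AddCircle (1 : ℝ)) *
      bern ((t i - t j : ℝ) : AddCircle (1 : ℝ)) - 1 / 200 := by
  have hpi : (0 : ℝ) < Real.pi ^ 2 := by positivity
  have hpi2 : Real.pi ^ 2 ≤ 10 := by
    have := Real.pi_lt_d2
    have h0 := Real.pi_pos
    nlinarith
  have h4 : 1 / 200 ≤ 1 / (2 * Real.pi ^ 4) := by
    apply one_div_le_one_div_of_le (by positivity)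
    have : Real.pi ^ 4 = (Real.pi ^ 2) ^ 2 := by ring
    rw [this]
    nlinarith
  have k1 := ((pk_cos t 1).mul (pk_rest t)).smul (by positivity : (0 : ℝ) ≤ 2 / Real.pi ^ 2)
  have k2 := (pk_rest t).mul (pk_rest t)
  have k3 := (pk_cos t 2).smul (by positivity : (0 : ℝ) ≤ 1 / (2 * Real.pi ^ 4))
  have k4 := PK.const (ι := ι) (sub_nonneg.mpr h4)
  refine (((k1.add k2).add k3).add k4).congr fun i j => ?_
  set x : ℝ := bern ((t i - t j : ℝ) : AddCircle (1 : ℝ)) with hx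
  set c : ℝ := Real.cos (2 * Real.pi * (1 : ℝ) * (t i - t j)) with hc
  have e1 : Real.cos (2 * Real.pi * (2 : ℝ) * (t i - t j)) = 2 * c ^ 2 - 1 := by
    rw [hc, ← Real.cos_two_mul]
    congr 1
    ring
  show 2 / Real.pi ^ 2 * (c * (x - 1 / Real.pi ^ 2 * c)) +
    (x - 1 / Real.pi ^ 2 * c) * (x - 1 / Real.pi ^ 2 * c) +
    1 / (2 * Real.pi ^ 4) * Real.cos (2 * Real.pi * (2 : ℝ) * (t i - t j)) +
    (1 / (2 * Real.pi ^ 4) - 1 / 200) = x * x - 1 / 200
  rw [e1]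
  have hp0 : Real.pi ≠ 0 := Real.pi_ne_zero
  field_simp
  ring

/-- The energy of the primes in `P`. -/
noncomputable def enX {ι κ : Type*} (ν : κ → ℝ) (t : κ → ι → ℝ) (P : Finset κ) (i j : ι) : ℝ :=
  ∑ p ∈ P, ν p * bern ((t p i - t p j : ℝ) : AddCircle (1 : ℝ))

lemma pk_enX {ι κ : Type*} {ν : κ → ℝ} (t : κ → ι → ℝ) {P : Finset κ} (hν : ∀ p ∈ P, 0 ≤ ν p) :
    PK (enX ν t P) :=
  PK.sum P fun p hp => (pk_bern (t p)).smul (hν p hp)

/-- `X² - Q²/200` is a positive kernel. -/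
lemma pk_enX_sq {ι κ : Type*} {ν : κ → ℝ} (t : κ → ι → ℝ) {P : Finset κ}
    (hν : ∀ p ∈ P, 0 ≤ ν p) :
    PK fun i j => enX ν t P i j * enX ν t P i j - (∑ p ∈ P, ν p ^ 2) / 200 := by
  classical
  have h1 : ∀ p ∈ P, PK fun i j : ι => ν p ^ 2 *
      (bern ((t p i - t p j : ℝ) : AddCircle (1 : ℝ)) *
        bern ((t p i - t p j : ℝ) : AddCircle (1 : ℝ)) - 1 / 200) +
      ∑ q ∈ P.erase p, ν p * ν q * (bern ((t p i - t p j : ℝ) : AddCircle (1 : ℝ)) *
        bern ((t q i - t q j : ℝ) : AddCircle (1 : ℝ))) := by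
    intro p hp
    refine ((pk_bern_sq (t p)).smul (sq_nonneg (ν p))).add (PK.sum (P.erase p) fun q hq => ?_)
    exact ((pk_bern (t p)).mul (pk_bern (t q))).smul
      (mul_nonneg (hν p hp) (hν q (Finset.mem_of_mem_erase hq)))
  refine (PK.sum P h1).congr fun i j => ?_
  have e1 : enX ν t P i j * enX ν t P i j =
      ∑ p ∈ P, ∑ q ∈ P, ν p * ν q * (bern ((t p i - t p j : ℝ) : AddCircle (1 : ℝ)) *
        bern ((t q i - t q j : ℝ) : AddCircle (1 : ℝ))) := by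
    unfold enX
    rw [Finset.sum_mul_sum]
    refine Finset.sum_congr rfl fun p _ => Finset.sum_congr rfl fun q _ => ?_
    ring
  rw [e1, Finset.sum_div, ← Finset.sum_sub_distrib]
  refine Finset.sum_congr rfl fun p hp => ?_
  rw [← Finset.add_sum_erase P _ hp]
  ring

/-- `(X + s)²` is a positive kernel. -/
lemma pk_add_sq {ι : Type*} {X : ι → ι → ℝ} (hX : PK X) {s : ℝ} (hs : 0 ≤ s) :
    PK fun i j => (X i j + s) ^ 2 := by
  refine (((hX.mul hX).add (hX.smul (by positivity : 0 ≤ 2 * s))).add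
    (PK.const (sq_nonneg s))).congr fun i j => ?_
  ring

/-- `(X + s)² - s²` is a positive kernel. -/
lemma pk_add_sq' {ι : Type*} {X : ι → ι → ℝ} (hX : PK X) {s : ℝ} (hs : 0 ≤ s) :
    PK fun i j => (X i j + s) ^ 2 - s ^ 2 := by
  refine ((hX.mul hX).add (hX.smul (by positivity : 0 ≤ 2 * s))).congr fun i j => ?_
  ring

/-- `(X - s/4)(X + s)²` is a positive kernel if `X² - c` is one and `s² ≤ 7c`. -/
lemma pk_cubic {ι : Type*} {X : ι → ι → ℝ} (hX : PK X) {s c : ℝ} (hs : 0 ≤ s)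
    (hc : PK fun i j => X i j * X i j - c) (h : s ^ 2 ≤ 7 * c) :
    PK fun i j => (X i j - s / 4) * (X i j + s) ^ 2 := by
  have h1 := hX.mul (hX.mul hX)
  have h2 := hc.smul (by positivity : 0 ≤ 7 / 4 * s)
  have h3 := hX.smul (by positivity : 0 ≤ s ^ 2 / 2)
  have h4 := PK.const (ι := ι) (c := s / 4 * (7 * c - s ^ 2))
    (mul_nonneg (by positivity) (by linarith))
  refine (((h1.add h2).add h3).add h4).congr fun i j => ?_
  ring

/-- Products of positive kernels. -/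
lemma pk_prod {ι β : Type*} (K : Finset β) {W : β → ι → ι → ℝ} (h : ∀ b ∈ K, PK (W b)) :
    PK fun i j => ∏ b ∈ K, W b i j := by
  classical
  induction K using Finset.induction_on with
  | empty => simpa using PK.const (ι := ι) zero_le_one
  | insert b K hb ih =>
    have h1 := (h b (Finset.mem_insert_self _ _)).mul
      (ih fun q hq => h q (Finset.mem_insert_of_mem hq))
    simpa [Finset.prod_insert hb] using h1

/-- Products of kernels which are at least a constant. -/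
lemma pk_prod' {ι β : Type*} (K : Finset β) {W : β → ι → ι → ℝ} {c : β → ℝ}
    (h : ∀ b ∈ K, PK (W b)) (hc : ∀ b ∈ K, 0 ≤ c b)
    (h' : ∀ b ∈ K, PK fun i j => W b i j - c b) :
    PK fun i j => ∏ b ∈ K, W b i j - ∏ b ∈ K, c b := by
  classical
  induction K using Finset.induction_on with
  | empty => simpa using PK.zero (ι := ι)
  | insert b K hb ih =>
    have h1 := pk_prod K fun q hq => h q (Finset.mem_insert_of_mem hq)
    have h2 := ih (fun q hq => h q (Finset.mem_insert_of_mem hq))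
      (fun q hq => hc q (Finset.mem_insert_of_mem hq))
      (fun q hq => h' q (Finset.mem_insert_of_mem hq))
    have h3 := (h' b (Finset.mem_insert_self _ _)).mul h1
    have h4 := h2.smul (hc b (Finset.mem_insert_self _ _))
    refine (h3.add h4).congr fun i j => ?_
    rw [Finset.prod_insert hb, Finset.prod_insert hb]
    ring

/-- The kernel inequality for blocks. -/
lemma pk_blocks {ι β : Type*} (K : Finset β) {X : β → ι → ι → ℝ} {Y : ι → ι → ℝ} {s c : β → ℝ}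
    (hY : PK Y) (hX : ∀ b ∈ K, PK (X b)) (hs : ∀ b ∈ K, 0 ≤ s b)
    (hc : ∀ b ∈ K, PK fun i j => X b i j * X b i j - c b)
    (h : ∀ b ∈ K, s b ^ 2 ≤ 7 * c b) :
    PK fun i j => (Y i j + ∑ b ∈ K, X b i j - ∑ b ∈ K, s b / 4) *
      ∏ b ∈ K, (X b i j + s b) ^ 2 := by
  classical
  have h0 := hY.mul (pk_prod K (W := fun b i j => (X b i j + s b) ^ 2)
    fun b hb => pk_add_sq (hX b hb) (hs b hb))
  have h1 := PK.sum K (K := fun b i j => ((X b i j - s b / 4) * (X b i j + s b) ^ 2) *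
      ∏ q ∈ K.erase b, (X q i j + s q) ^ 2) fun b hb =>
    (pk_cubic (hX b hb) (hs b hb) (hc b hb) (h b hb)).mul
      (pk_prod (K.erase b) (W := fun q i j => (X q i j + s q) ^ 2) fun q hq =>
        pk_add_sq (hX q (Finset.mem_of_mem_erase hq)) (hs q (Finset.mem_of_mem_erase hq)))
  refine (h0.add h1).congr fun i j => ?_
  have e1 : ∀ b ∈ K, ((X b i j - s b / 4) * (X b i j + s b) ^ 2) *
      ∏ q ∈ K.erase b, (X q i j + s q) ^ 2 =
      (X b i j - s b / 4) * ∏ q ∈ K, (X q i j + s q) ^ 2 := by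
    intro b hb
    rw [mul_assoc, Finset.mul_prod_erase K (fun q => (X q i j + s q) ^ 2) hb]
  rw [Finset.sum_congr rfl e1, ← Finset.sum_mul, Finset.sum_sub_distrib]
  ring

/-- The double sums of a cluster. -/
lemma abs_cluster {ι : Type*} (F : Finset ι) (X W : ι → ι → ℝ) {lam D V c : ℝ}
    (hlam : 0 ≤ lam) (hV : 0 ≤ V) (hW : ∀ i j, 0 ≤ W i j)
    (h1 : 0 ≤ ∑ i ∈ F, ∑ j ∈ F, (X i j - lam) * W i j)
    (h2 : (F.card : ℝ) ^ 2 * c ≤ ∑ i ∈ F, ∑ j ∈ F, W i j)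
    (hoff : ∀ i ∈ F, ∀ j ∈ F, i ≠ j → X i j ≤ lam / 2)
    (hdX : ∀ i ∈ F, X i i = D) (hdW : ∀ i ∈ F, W i i = V) :
    lam / 2 * ((F.card : ℝ) ^ 2 * c) ≤ (F.card : ℝ) * (D * V) := by
  classical
  have hpt : ∀ i ∈ F, ∑ j ∈ F, (X i j - lam) * W i j ≤
      D * V - lam / 2 * ∑ j ∈ F, W i j := by
    intro i hi
    have a1 := Finset.add_sum_erase F (fun j => (X i j - lam) * W i j) hi
    have a2 := Finset.add_sum_erase F (fun j => W i j) hi
    have h1 : ∑ j ∈ F.erase i, (X i j - lam) * W i j ≤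
        ∑ j ∈ F.erase i, -(lam / 2) * W i j := by
      refine Finset.sum_le_sum fun j hj => ?_
      obtain ⟨hne, hjF⟩ := Finset.mem_erase.mp hj
      have h2 := hoff i hi j hjF (Ne.symm hne)
      exact mul_le_mul_of_nonneg_right (by linarith) (hW i j)
    rw [← Finset.mul_sum] at h1
    simp only [hdX i hi, hdW i hi] at a1 a2
    have h3 : 0 ≤ lam / 2 * V := by positivity
    rw [← a1, ← a2]
    have e1 : D * V - lam / 2 * (V + ∑ j ∈ F.erase i, W i j) =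
      D * V - lam / 2 * V + -(lam / 2) * ∑ j ∈ F.erase i, W i j := by ring
    rw [e1]
    have e2 : (D - lam) * V = D * V - lam / 2 * V - lam / 2 * V := by ring
    rw [e2]
    linarith
  have hsum : ∑ i ∈ F, ∑ j ∈ F, (X i j - lam) * W i j ≤
      (F.card : ℝ) * (D * V) - lam / 2 * ∑ i ∈ F, ∑ j ∈ F, W i j := by
    refine (Finset.sum_le_sum hpt).trans (le_of_eq ?_)
    rw [Finset.sum_sub_distrib, Finset.sum_const, nsmul_eq_mul, ← Finset.mul_sum]
  have h3 : lam / 2 * ((F.card : ℝ) ^ 2 * c) ≤ lam / 2 * ∑ i ∈ F, ∑ j ∈ F, W i j :=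
    mul_le_mul_of_nonneg_left h2 (by positivity)
  linarith

/-- The final computation. -/
lemma num_cluster {M S V A c lam γ : ℝ} (hM : 0 ≤ M) (hS : 0 ≤ S) (hA : 0 ≤ A) (hc : 0 < c)
    (hγ : 0 < γ) (hlam : γ / 24 ≤ lam) (hV : V ≤ A * c)
    (h : lam / 2 * (M ^ 2 * c) ≤ M * (S / 6 * V)) : M * γ ≤ 8 * S * A := by
  rcases hM.eq_or_lt with h0 | h0
  · rw [← h0, zero_mul]
    exact mul_nonneg (mul_nonneg (by norm_num) hS) hA
  have h1 : M * (S / 6 * V) ≤ M * (S / 6 * (A * c)) :=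
    mul_le_mul_of_nonneg_left (mul_le_mul_of_nonneg_left hV (by positivity)) hM
  have h2 : (M * c) * (lam / 2 * M) ≤ (M * c) * (S / 6 * A) := by
    have e1 : (M * c) * (lam / 2 * M) = lam / 2 * (M ^ 2 * c) := by ring
    have e2 : (M * c) * (S / 6 * A) = M * (S / 6 * (A * c)) := by ring
    rw [e1, e2]
    exact h.trans h1
  have h3 : lam / 2 * M ≤ S / 6 * A := le_of_mul_le_mul_left h2 (mul_pos h0 hc)
  have h4 : γ / 48 * M ≤ S / 6 * A :=
    (mul_le_mul_of_nonneg_right (by linarith) hM).trans h3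
  have e3 : M * γ = 48 * (γ / 48 * M) := by ring
  have e4 : 8 * S * A = 48 * (S / 6 * A) := by ring
  rw [e3, e4]
  linarith

/-- The diagonal of `W`. -/
lemma diag_W {κ β : Type*} (ν : κ → ℝ) (K : Finset β) (T : β → Finset κ) (q : β → ℝ)
    (hq : ∀ b ∈ K, q b ^ 2 = ∑ p ∈ T b, ν p ^ 2) :
    ∏ b ∈ K, ((∑ p ∈ T b, ν p) / 6 + q b / 6) ^ 2 ≤
      (2 ^ K.card * ∏ b ∈ K, (1 + ((T b).card : ℝ))) * ∏ b ∈ K, (q b / 6) ^ 2 := by
  rw [← Finset.prod_const, ← Finset.prod_mul_distrib, ← Finset.prod_mul_distrib]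
  refine Finset.prod_le_prod (fun b _ => sq_nonneg _) fun b hb => ?_
  have h1 : (∑ p ∈ T b, ν p) ^ 2 ≤ ((T b).card : ℝ) * q b ^ 2 := by
    rw [hq b hb]
    exact sq_sum_le_card_mul_sum_sq
  generalize (∑ p ∈ T b, ν p) = y at h1 ⊢
  generalize q b = x at h1 ⊢
  generalize ((T b).card : ℝ) = n at h1 ⊢
  have h4 : (y / 6 + x / 6) ^ 2 ≤ 2 * ((y / 6) ^ 2 + (x / 6) ^ 2) := by
    nlinarith [sq_nonneg (y / 6 - x / 6)]
  nlinarith

/-- The diagonal of the energy. -/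
lemma enX_diag {ι κ : Type*} (ν : κ → ℝ) (t : κ → ι → ℝ) (A : Finset κ) (i : ι) :
    enX ν t A i i = (∑ p ∈ A, ν p) / 6 := by
  unfold enX
  rw [Finset.sum_div]
  refine Finset.sum_congr rfl fun p _ => ?_
  rw [sub_self, bern_val le_rfl (by norm_num)]
  ring

/-- The cluster bound for blocks. -/
theorem blocks {ι κ β : Type*} [DecidableEq κ] (P : Finset κ) (ν : κ → ℝ)
    (hν : ∀ p ∈ P, 0 ≤ ν p) (t : κ → ι → ℝ) (K : Finset β) (T : β → Finset κ)
    (hTP : ∀ b ∈ K, T b ⊆ P)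
    (hdis : ∀ b ∈ K, ∀ b' ∈ K, b ≠ b' → Disjoint (T b) (T b'))
    (hpos : ∀ b ∈ K, 0 < ∑ p ∈ T b, ν p ^ 2) (F : Finset ι) {γ : ℝ} (hγ : 0 < γ)
    (hγK : γ ≤ ∑ b ∈ K, Real.sqrt (∑ p ∈ T b, ν p ^ 2))
    (hoff : ∀ i ∈ F, ∀ j ∈ F, i ≠ j → enX ν t P i j ≤ γ / 48) :
    (F.card : ℝ) * γ ≤ 8 * (∑ p ∈ P, ν p) * (2 ^ K.card * ∏ b ∈ K, (1 + ((T b).card : ℝ))) := by
  classical
  obtain ⟨q, hq⟩ : ∃ q : β → ℝ, q = fun b => Real.sqrt (∑ p ∈ T b, ν p ^ 2) := ⟨_, rfl⟩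
  have hq0 : ∀ b ∈ K, 0 < q b := fun b hb => by
    rw [hq]; exact Real.sqrt_pos.mpr (hpos b hb)
  have hq2 : ∀ b ∈ K, q b ^ 2 = ∑ p ∈ T b, ν p ^ 2 := fun b hb => by
    rw [hq]; exact Real.sq_sqrt (hpos b hb).le
  have hγK' : γ ≤ ∑ b ∈ K, q b := by rw [hq]; exact hγK
  have hs0 : ∀ b ∈ K, 0 ≤ q b / 6 := fun b hb => by
    have := hq0 b hb
    positivity
  have hXp : ∀ b ∈ K, PK (enX ν t (T b)) := fun b hb => pk_enX t fun p hp => hν p (hTP b hb hp)
  have hYp : PK (enX ν t (P \ K.biUnion T)) :=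
    pk_enX t fun p hp => hν p (Finset.mem_sdiff.mp hp).1
  have hsub : K.biUnion T ⊆ P := Finset.biUnion_subset.mpr hTP
  have hdis' : (K : Set β).PairwiseDisjoint T := by
    intro b hb b' hb' hne
    exact hdis b hb b' hb' hne
  have hsplit : ∀ i j, enX ν t P i j =
      enX ν t (P \ K.biUnion T) i j + ∑ b ∈ K, enX ν t (T b) i j := by
    intro i j
    unfold enX
    rw [← Finset.sum_sdiff hsub, Finset.sum_biUnion hdis']
  have hc : ∀ b ∈ K, PK fun i j => enX ν t (T b) i j * enX ν t (T b) i j - q b ^ 2 / 200 := by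
    intro b hb
    rw [hq2 b hb]
    exact pk_enX_sq t fun p hp => hν p (hTP b hb hp)
  have hsc : ∀ b ∈ K, (q b / 6) ^ 2 ≤ 7 * (q b ^ 2 / 200) := by
    intro b _
    nlinarith [sq_nonneg (q b)]
  have k1 := (pk_blocks K (s := fun b => q b / 6) hYp hXp hs0 hc hsc).one F
  have k2 := (pk_prod' K (W := fun b i j => (enX ν t (T b) i j + q b / 6) ^ 2)
    (c := fun b => (q b / 6) ^ 2)
    (fun b hb => pk_add_sq (hXp b hb) (hs0 b hb)) (fun b _ => sq_nonneg _)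
    (fun b hb => pk_add_sq' (hXp b hb) (hs0 b hb))).one F
  have hlamγ : γ / 24 ≤ ∑ b ∈ K, q b / 6 / 4 := by
    have e : ∑ b ∈ K, q b / 6 / 4 = (∑ b ∈ K, q b) / 24 := by
      rw [Finset.sum_div]
      exact Finset.sum_congr rfl fun b _ => by ring
    rw [e]
    linarith
  have hV := diag_W ν K T q hq2
  refine num_cluster (c := ∏ b ∈ K, (q b / 6) ^ 2)
    (V := ∏ b ∈ K, ((∑ p ∈ T b, ν p) / 6 + q b / 6) ^ 2) (Nat.cast_nonneg _)
    (Finset.sum_nonneg hν)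
    (mul_nonneg (by positivity) (Finset.prod_nonneg fun b _ => by positivity))
    (Finset.prod_pos fun b hb => pow_pos (by have := hq0 b hb; positivity) 2) hγ hlamγ hV ?_
  refine abs_cluster F (enX ν t P) (fun i j => ∏ b ∈ K, (enX ν t (T b) i j + q b / 6) ^ 2)
    (by linarith [div_pos hγ (by norm_num : (0 : ℝ) < 24)])
    (Finset.prod_nonneg fun b _ => sq_nonneg _)
    (fun i j => Finset.prod_nonneg fun b _ => sq_nonneg _) ?_ ?_ ?_ ?_ ?_
  · refine le_of_le_of_eq k1 ?_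
    refine Finset.sum_congr rfl fun i _ => Finset.sum_congr rfl fun j _ => ?_
    rw [hsplit i j]
  · have e : ∑ i ∈ F, ∑ j ∈ F, (∏ b ∈ K, (enX ν t (T b) i j + q b / 6) ^ 2 -
        ∏ b ∈ K, (q b / 6) ^ 2) =
        ∑ i ∈ F, ∑ j ∈ F, ∏ b ∈ K, (enX ν t (T b) i j + q b / 6) ^ 2 -
          (F.card : ℝ) ^ 2 * ∏ b ∈ K, (q b / 6) ^ 2 := by
      simp only [Finset.sum_sub_distrib, Finset.sum_const, nsmul_eq_mul]
      ring
    rw [e] at k2
    linarith
  · intro i hi j hj hne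
    exact (hoff i hi j hj hne).trans (by linarith)
  · intro i _
    exact enX_diag ν t P i
  · intro i _
    refine Finset.prod_congr rfl fun b _ => ?_
    rw [enX_diag]

end Pool.Agent.H24.LZ
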