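import Pool.Agent.H24.LZ.Blk
import Pool.Agent.H24.LX.Core

/-!
# A cluster of integral points against blocks of primes
-/

namespace Pool.Agent.H24.LZ

open Pool.Agent.H24.LP Pool.Agent.H24.LQ Pool.Agent.H24.LX Finset

/-- `(∑_{p ∈ T} ν_p²)^{1/2}` over the multiplicative primes in `T`. -/
noncomputable def QmT (a b : ℤ) (T : Finset ℕ) : ℝ :=
  Real.sqrt (∑ p ∈ T ∩ mult a b, nup a b p ^ 2)

lemma QmT_nonneg (a b : ℤ) (T : Finset ℕ) : 0 ≤ QmT a b T := Real.sqrt_nonneg _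

private lemma cb_repZ {a b : ℤ} {T : (curve a b).Point} (h : T ≠ 0) : repZ T ≠ 0 := by
  cases T with
  | zero => exact absurd rfl h
  | some x y h' =>
    show ((x.den : ℕ) : ℤ) ≠ 0
    exact_mod_cast x.den_nz

theorem core_B : ∃ K₀ : ℝ, 1 ≤ K₀ ∧ ∀ C : ℝ, 0 ≤ C → ∀ (a b : ℤ) (hD : D a b ≠ 0),
    ∀ g : (curve a b).Point → ℝ, IsHt C g → ∀ (k : ℕ) (T : Fin k → Finset ℕ),
    (∀ i j, i ≠ j → Disjoint (T i) (T j)) → ∀ γ : ℝ, 0 < γ → γ ≤ ∑ i, QmT a b (T i) →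
    K₀ * (1 + C) ≤ γ → Rst a b ≤ γ / 192 →
    ∀ F : Finset (ℤ × ℤ), (∀ z ∈ F, z ∈ integralPoints a b) →
    (∀ z ∈ F, ∀ z' ∈ F, z ≠ z' → z.1 ≠ z'.1) →
    (∀ z ∈ F, ∀ z' ∈ F, g (LR.toPt hD z - LR.toPt hD z') ≤ γ / 192) →
    (F.card : ℝ) ≤ 80 * (2 ^ k * ∏ i, (1 + ((T i).card : ℝ))) * (L a b / γ) := by
  classical
  obtain ⟨C₃, hC₃, hS⟩ := SS_low
  refine ⟨96 * (1 + C₃), by linarith, ?_⟩
  intro C hC a b hD g hg k T hdis γ hγ hγQ hK hR F hF hx hd
  obtain ⟨Λ, hΛ⟩ : ∃ Λ : ℝ, Λ = L a b := ⟨_, rfl⟩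
  have hΛ0 : 0 < Λ := by rw [hΛ]; exact L_pos a b
  have hCC : 1 + C₃ + C ≤ γ / 96 := by
    have : 1 + C₃ + C ≤ (1 + C₃) * (1 + C) := by nlinarith
    linarith
  -- positions
  have ht : ∀ p : ℕ, ∃ t : ℤ × ℤ → ℝ, p ∈ mult a b →
      ∀ z ∈ integralPoints a b, ∀ z' ∈ integralPoints a b, z.1 ≠ z'.1 →
        tau p (LR.toPt hD z - LR.toPt hD z') ≤ ‖((t z - t z' : ℝ) : AddCircle (1 : ℝ))‖ := by
    intro p
    by_cases hp : p ∈ mult a b
    · obtain ⟨t, h1, h2⟩ := loc_pos hD hp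
      exact ⟨t, fun _ => h2⟩
    · exact ⟨fun _ => 0, fun h => absurd h hp⟩
  choose t ht using ht
  obtain ⟨W, hW⟩ : ∃ W : ℝ, W = ∑ p ∈ mult a b, nup a b p := ⟨_, rfl⟩
  have hWle : W ≤ 6 * Λ + 4 := by
    rw [hW, hΛ]
    refine le_trans ?_ (sum_nup_le hD)
    exact Finset.sum_le_sum_of_subset_of_nonneg (mult_subset hD) fun v _ _ => nup_nonneg a b v
  -- the off-diagonal pairs
  have hoff : ∀ z ∈ F, ∀ z' ∈ F, z ≠ z' → enX (nup a b) t (mult a b) z z' ≤ γ / 48 := by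
    intro z hz z' hz'F hne
    have hPne : LR.toPt hD z - LR.toPt hD z' ≠ 0 := by
      intro h
      exact hne (LR.toPt_injOn hD (hF z hz) (hF z' hz'F) (sub_eq_zero.mp h))
    have h1 := hS a b hD (LR.toPt hD z - LR.toPt hD z') (cb_repZ hPne)
    have h2 := hg.ge (LR.toPt hD z - LR.toPt hD z')
    have h3 := hd z hz z' hz'F
    have h4 : enX (nup a b) t (mult a b) z z' ≤ ∑ p ∈ mult a b, nup a b p *
        bern ((tau p (LR.toPt hD z - LR.toPt hD z') : ℝ) : AddCircle (1 : ℝ)) := by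
      unfold enX
      refine Finset.sum_le_sum fun p hp => mul_le_mul_of_nonneg_left ?_ (nup_nonneg a b p)
      exact bern_anti (tau_nonneg hD p _) (ht p hp z (hF z hz) z' (hF z' hz'F)
        (hx z hz z' hz'F hne))
    linarith
  -- the blocks
  obtain ⟨T', hT'⟩ : ∃ T' : Fin k → Finset ℕ, T' = fun i => T i ∩ mult a b := ⟨_, rfl⟩
  obtain ⟨K, hKdef⟩ : ∃ K : Finset (Fin k),
    K = Finset.univ.filter fun i => 0 < ∑ p ∈ T' i, nup a b p ^ 2 := ⟨_, rfl⟩
  have hKmem : ∀ i, i ∈ K ↔ 0 < ∑ p ∈ T' i, nup a b p ^ 2 := by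
    intro i
    rw [hKdef]
    simp
  have hsumK : ∑ i, QmT a b (T i) = ∑ i ∈ K, Real.sqrt (∑ p ∈ T' i, nup a b p ^ 2) := by
    have e1 : ∀ i, QmT a b (T i) = Real.sqrt (∑ p ∈ T' i, nup a b p ^ 2) := by
      intro i
      rw [hT']
      rfl
    simp only [e1]
    symm
    refine Finset.sum_subset (Finset.subset_univ _) fun i _ hi => ?_
    have h1 : ∑ p ∈ T' i, nup a b p ^ 2 ≤ 0 := not_lt.mp fun h => hi ((hKmem i).mpr h)
    exact Real.sqrt_eq_zero_of_nonpos h1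
  have hdis' : ∀ i ∈ K, ∀ j ∈ K, i ≠ j → Disjoint (T' i) (T' j) := by
    intro i _ j _ hij
    rw [hT']
    exact (hdis i j hij).mono Finset.inter_subset_left Finset.inter_subset_left
  have hmain := blocks (mult a b) (nup a b) (fun p _ => nup_nonneg a b p) t K T'
    (fun i _ => by rw [hT']; exact Finset.inter_subset_right) hdis'
    (fun i hi => (hKmem i).mp hi) F hγ (by rw [← hsumK]; exact hγQ) hoff
  have hA : (2 : ℝ) ^ K.card * ∏ i ∈ K, (1 + ((T' i).card : ℝ)) ≤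
      2 ^ k * ∏ i, (1 + ((T i).card : ℝ)) := by
    have h1 : K.card ≤ k := by
      have := Finset.card_le_univ K
      rwa [Fintype.card_fin] at this
    have h2 : ∏ i ∈ K, (1 + ((T' i).card : ℝ)) ≤ ∏ i ∈ K, (1 + ((T i).card : ℝ)) := by
      refine Finset.prod_le_prod (fun i _ => by positivity) fun i _ => ?_
      have h3 : (T' i).card ≤ (T i).card := by
        rw [hT']
        exact Finset.card_le_card Finset.inter_subset_left
      have h4 : ((T' i).card : ℝ) ≤ (T i).card := by exact_mod_cast h3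
      linarith
    have h5 : ∏ i ∈ K, (1 + ((T i).card : ℝ)) ≤ ∏ i, (1 + ((T i).card : ℝ)) := by
      refine Finset.prod_le_prod_of_subset_of_one_le (Finset.subset_univ _)
        (fun i _ => by positivity) fun i _ _ => ?_
      have : (0 : ℝ) ≤ ((T i).card : ℝ) := Nat.cast_nonneg _
      linarith
    have h6 : (0 : ℝ) ≤ ∏ i ∈ K, (1 + ((T' i).card : ℝ)) :=
      Finset.prod_nonneg fun i _ => by positivity
    exact mul_le_mul (pow_le_pow_right₀ (by norm_num) h1) (h2.trans h5) h6 (by positivity)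
  obtain ⟨A, hAdef⟩ : ∃ A : ℝ, A = 2 ^ k * ∏ i, (1 + ((T i).card : ℝ)) := ⟨_, rfl⟩
  rw [← hAdef] at hA ⊢
  have hA0 : 0 ≤ A := by
    rw [hAdef]
    exact mul_nonneg (by positivity) (Finset.prod_nonneg fun i _ => by positivity)
  have hW0 : 0 ≤ W := by rw [hW]; exact Finset.sum_nonneg fun v _ => nup_nonneg a b v
  rw [← hW] at hmain
  have h1 : (F.card : ℝ) * γ ≤ 8 * W * A :=
    hmain.trans (mul_le_mul_of_nonneg_left hA (by positivity))
  -- `L ≥ 1` since `γ ≤ W ≤ 6L + 4`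
  have hsumW : ∑ i ∈ K, Real.sqrt (∑ p ∈ T' i, nup a b p ^ 2) ≤ W := by
    have e1 : ∀ i ∈ K, Real.sqrt (∑ p ∈ T' i, nup a b p ^ 2) ≤ ∑ p ∈ T' i, nup a b p := by
      intro i _
      have h0 : 0 ≤ ∑ p ∈ T' i, nup a b p := Finset.sum_nonneg fun v _ => nup_nonneg a b v
      rw [Real.sqrt_le_left h0]
      calc ∑ p ∈ T' i, nup a b p ^ 2 ≤ ∑ p ∈ T' i, nup a b p * ∑ p ∈ T' i, nup a b p := by
            refine Finset.sum_le_sum fun p hp => ?_
            rw [sq]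
            refine mul_le_mul_of_nonneg_left ?_ (nup_nonneg a b p)
            exact Finset.single_le_sum (f := fun p => nup a b p)
              (fun q _ => nup_nonneg a b q) hp
        _ = (∑ p ∈ T' i, nup a b p) ^ 2 := by rw [← Finset.sum_mul, sq]
    refine (Finset.sum_le_sum e1).trans ?_
    have hpd : (K : Set (Fin k)).PairwiseDisjoint T' := by
      intro i hi j hj hne
      exact hdis' i hi j hj hne
    rw [← Finset.sum_biUnion hpd, hW]
    refine Finset.sum_le_sum_of_subset_of_nonneg ?_ fun v _ _ => nup_nonneg a b v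
    refine Finset.biUnion_subset.mpr fun i _ => ?_
    rw [hT']
    exact Finset.inter_subset_right
  have hΛ9 : 2 ≤ Λ := by
    have h2 : γ ≤ W := by
      rw [hsumK] at hγQ
      exact hγQ.trans hsumW
    linarith
  have h2 : 8 * W * A ≤ 80 * A * Λ := by nlinarith
  rw [← hΛ, mul_div_assoc', le_div_iff₀ hγ]
  linarith

end Pool.Agent.H24.LZ
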