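import Pool.Agent.H24.LZ.EnerG
import Pool.Agent.H24.LX.Core

/-!
# A cluster of integral points against a test function

`Φ` is a function of `τ`, bounded by the potential of a test measure of energy at
most `e₀`. If `∑_{mult} ν_p Φ(τ_p(z)) ≥ αL` for the points `z` of a cluster, the cluster has at
most `28 e₀/α²` points.
-/

namespace Pool.Agent.H24.LZ

open Pool.Agent.H24.LP Pool.Agent.H24.LQ Pool.Agent.H24.LX Finset

/-- Test data. -/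
structure Test {n : ℕ} (s ρ : Fin n → ℝ) (Φ : ℝ → ℝ) (e₀ : ℝ) : Prop where
  pos : 0 < e₀
  ener : ∑ k, ∑ l, ρ k * ρ l * bern ((s k - s l : ℝ) : AddCircle (1 : ℝ)) ≤ e₀
  phi : ∀ t : ℝ, |t| ≤ 1 / 2 → Φ |t| ≤ ∑ k, ρ k * bern ((t - s k : ℝ) : AddCircle (1 : ℝ))

/-- `∑_{mult} ν_p Φ(τ_p(z))`. -/
noncomputable def Av {a b : ℤ} (hD : D a b ≠ 0) (Φ : ℝ → ℝ) (z : ℤ × ℤ) : ℝ :=
  ∑ p ∈ mult a b, nup a b p * Φ (tau p (LR.toPt hD z))

private lemma cg_repZ {a b : ℤ} {T : (curve a b).Point} (h : T ≠ 0) : repZ T ≠ 0 := by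
  cases T with
  | zero => exact absurd rfl h
  | some x y h' =>
    show ((x.den : ℕ) : ℤ) ≠ 0
    exact_mod_cast x.den_nz

private lemma cg_Rst (a b : ℤ) : 0 ≤ Rst a b := by
  unfold Rst
  exact add_nonneg (Finset.sum_nonneg fun v _ => nup_nonneg a b v)
    (Finset.sum_nonneg fun v _ => mul_nonneg (by norm_num) (HeightData.log_nonneg' v))

private lemma cg_one {ι : Type*} [DecidableEq ι] {n : ℕ} {s ρ : Fin n → ℝ} {Φ : ℝ → ℝ} {e₀ : ℝ}
    (hT : Test s ρ Φ e₀) (F : Finset ι) (t τ : ι → ℝ) (σ : ι → ι → ℝ)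
    {c : ℝ} (hc : 0 ≤ c) (h1 : ∀ z ∈ F, |t z| = τ z) (h1' : ∀ z ∈ F, τ z ≤ 1 / 2)
    (h2 : ∀ z ∈ F, ∀ z' ∈ F, z ≠ z' →
      0 ≤ σ z z' ∧ σ z z' ≤ ‖((t z - t z' : ℝ) : AddCircle (1 : ℝ))‖) :
    0 ≤ (c ^ 2 * e₀ + F.card / 6) - 2 * c * ∑ z ∈ F, Φ (τ z)
      + ∑ z ∈ F, ∑ z' ∈ F.erase z, bern ((σ z z' : ℝ) : AddCircle (1 : ℝ)) := by
  have h := energy_test F t s ρ c
  have e1 : ∑ z ∈ F, Φ (τ z) ≤
      ∑ z ∈ F, ∑ k, ρ k * bern ((t z - s k : ℝ) : AddCircle (1 : ℝ)) :=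
    Finset.sum_le_sum fun z hz => by
      rw [← h1 z hz]
      exact hT.phi (t z) (by rw [h1 z hz]; exact h1' z hz)
  have e2 : ∑ z ∈ F, ∑ z' ∈ F, bern ((t z - t z' : ℝ) : AddCircle (1 : ℝ))
      ≤ F.card / 6 + ∑ z ∈ F, ∑ z' ∈ F.erase z, bern ((σ z z' : ℝ) : AddCircle (1 : ℝ)) := by
    have e3 : (F.card : ℝ) / 6 = ∑ z ∈ F, (1 / 6 : ℝ) := by
      rw [Finset.sum_const, nsmul_eq_mul]; ring
    rw [e3, ← Finset.sum_add_distrib]
    refine Finset.sum_le_sum fun z hz => ?_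
    rw [← Finset.add_sum_erase F _ hz]
    refine add_le_add ?_ (Finset.sum_le_sum fun z' hz' => ?_)
    · rw [sub_self, bern_val le_rfl (by norm_num)]
      norm_num
    · obtain ⟨hne, hz'F⟩ := Finset.mem_erase.mp hz'
      obtain ⟨h3, h4⟩ := h2 z hz z' hz'F (Ne.symm hne)
      exact bern_anti h3 h4
  have e4 : 2 * c * ∑ z ∈ F, Φ (τ z) ≤
      2 * c * ∑ z ∈ F, ∑ k, ρ k * bern ((t z - s k : ℝ) : AddCircle (1 : ℝ)) :=
    mul_le_mul_of_nonneg_left e1 (by positivity)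
  have e5 : c ^ 2 * (∑ k, ∑ l, ρ k * ρ l * bern ((s k - s l : ℝ) : AddCircle (1 : ℝ))) ≤
      c ^ 2 * e₀ := mul_le_mul_of_nonneg_left hT.ener (by positivity)
  linarith

theorem core_gen : ∃ K₀ : ℝ, 1 ≤ K₀ ∧ ∀ C : ℝ, 0 ≤ C → ∀ (a b : ℤ) (hD : D a b ≠ 0),
    ∀ g : (curve a b).Point → ℝ, IsHt C g → ∀ β : ℝ, 0 < β → β ≤ 1 →
    K₀ * (1 + C) ≤ β * L a b → Rst a b ≤ β * L a b / 4 →
    ∀ (n : ℕ) (s ρ : Fin n → ℝ) (Φ : ℝ → ℝ) (e₀ α : ℝ), Test s ρ Φ e₀ → 0 < α → 14 * e₀ * β ≤ α ^ 2 →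
    ∀ F : Finset (ℤ × ℤ), (∀ z ∈ F, z ∈ integralPoints a b ∧ α * L a b ≤ Av hD Φ z) →
    (∀ z ∈ F, ∀ z' ∈ F, z ≠ z' → z.1 ≠ z'.1) →
    (∀ z ∈ F, ∀ z' ∈ F, g (LR.toPt hD z - LR.toPt hD z') ≤ β * L a b / 4) →
    (F.card : ℝ) ≤ 28 * e₀ / α ^ 2 := by
  classical
  obtain ⟨C₃, hC₃, hS⟩ := SS_low
  refine ⟨4 * (1 + C₃), by linarith, ?_⟩
  intro C hC a b hD g hg β hβ0 hβ1 hK hR n s ρ Φ e₀ α hT hα hαβ F hF hx hd
  have he := hT.pos
  set Λ : ℝ := L a b with hΛ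
  have hR0 : 0 ≤ Rst a b := cg_Rst a b
  rcases F.eq_empty_or_nonempty with hF0 | hF0
  · rw [hF0]; simp only [Finset.card_empty, Nat.cast_zero]; positivity
  have hM : (0 : ℝ) < F.card := by exact_mod_cast hF0.card_pos
  set M : ℝ := (F.card : ℝ) with hMd
  have hCC : 1 + C₃ + C ≤ β * Λ / 4 := by
    have : 1 + C₃ + C ≤ (1 + C₃) * (1 + C) := by nlinarith
    linarith
  have hΛ0 : 0 < Λ := by
    by_contra hneg
    have : β * Λ ≤ 0 := mul_nonpos_of_nonneg_of_nonpos hβ0.le (not_lt.mp hneg)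
    linarith
  have hβΛ : β * Λ ≤ Λ := by nlinarith
  have hΛ4 : 4 ≤ Λ := by linarith
  -- positions
  have ht : ∀ p : ℕ, ∃ t : ℤ × ℤ → ℝ, p ∈ mult a b →
      (∀ z ∈ integralPoints a b, |t z| = tau p (LR.toPt hD z)) ∧
      ∀ z ∈ integralPoints a b, ∀ z' ∈ integralPoints a b, z.1 ≠ z'.1 →
        tau p (LR.toPt hD z - LR.toPt hD z') ≤ ‖((t z - t z' : ℝ) : AddCircle (1 : ℝ))‖ := by
    intro p
    by_cases hp : p ∈ mult a b
    · obtain ⟨t, h1, h2⟩ := loc_pos hD hp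
      exact ⟨t, fun _ => ⟨h1, h2⟩⟩
    · exact ⟨fun _ => 0, fun h => absurd h hp⟩
  choose t ht using ht
  set X : ℤ × ℤ → ℤ × ℤ → ℝ := fun z z' =>
    ∑ p ∈ mult a b, nup a b p *
      bern ((tau p (LR.toPt hD z - LR.toPt hD z') : ℝ) : AddCircle (1 : ℝ)) with hX
  set W : ℝ := ∑ p ∈ mult a b, nup a b p with hW
  have hWle : W ≤ 6 * Λ + 4 := by
    refine le_trans ?_ (sum_nup_le hD)
    exact Finset.sum_le_sum_of_subset_of_nonneg (mult_subset hD) fun v _ _ => nup_nonneg a b v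
  have hW0 : 0 ≤ W := Finset.sum_nonneg fun v _ => nup_nonneg a b v
  -- the energy inequality
  have key : ∀ c : ℝ, 0 ≤ c → 0 ≤ (c ^ 2 * e₀ + M / 6) * W - 2 * c * ∑ z ∈ F, Av hD Φ z
      + ∑ z ∈ F, ∑ z' ∈ F.erase z, X z z' := by
    intro c hc
    have h0 : 0 ≤ ∑ p ∈ mult a b, nup a b p * ((c ^ 2 * e₀ + M / 6)
        - 2 * c * ∑ z ∈ F, Φ (tau p (LR.toPt hD z))
        + ∑ z ∈ F, ∑ z' ∈ F.erase z,
          bern ((tau p (LR.toPt hD z - LR.toPt hD z') : ℝ) : AddCircle (1 : ℝ))) := by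
      refine Finset.sum_nonneg fun p hp => mul_nonneg (nup_nonneg a b p) ?_
      refine cg_one hT F (t p) (fun z => tau p (LR.toPt hD z))
        (fun z z' => tau p (LR.toPt hD z - LR.toPt hD z')) hc
        (fun z hz => (ht p hp).1 z (hF z hz).1) (fun z _ => tau_le hD p _)
        fun z hz z' hz' hne => ⟨tau_nonneg hD p _, ?_⟩
      exact (ht p hp).2 z (hF z hz).1 z' (hF z' hz').1 (hx z hz z' hz' hne)
    have s1 : ∑ p ∈ mult a b, nup a b p * (c ^ 2 * e₀ + M / 6) = (c ^ 2 * e₀ + M / 6) * W := by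
      rw [← Finset.sum_mul, mul_comm]
    have s2 : ∑ p ∈ mult a b, nup a b p *
        (2 * c * ∑ z ∈ F, Φ (tau p (LR.toPt hD z)))
        = 2 * c * ∑ z ∈ F, Av hD Φ z := by
      unfold Av
      rw [Finset.sum_comm, Finset.mul_sum]
      refine Finset.sum_congr rfl fun p _ => ?_
      rw [← Finset.mul_sum]
      ring
    have s3 : ∑ p ∈ mult a b, nup a b p * ∑ z ∈ F, ∑ z' ∈ F.erase z,
        bern ((tau p (LR.toPt hD z - LR.toPt hD z') : ℝ) : AddCircle (1 : ℝ))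
        = ∑ z ∈ F, ∑ z' ∈ F.erase z, X z z' := by
      simp_rw [Finset.mul_sum]
      rw [Finset.sum_comm]
      exact Finset.sum_congr rfl fun z _ => Finset.sum_comm
    simp only [mul_add, mul_sub, Finset.sum_add_distrib, Finset.sum_sub_distrib] at h0 s1
    rw [s2, s3] at h0
    have s1' : (c ^ 2 * e₀ + M / 6) * W
        = ∑ p ∈ mult a b, nup a b p * (c ^ 2 * e₀) + ∑ p ∈ mult a b, nup a b p * (M / 6) := by
      rw [s1]
    rw [s1']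
    exact h0
  -- upper bound of X
  have hXz : ∀ z ∈ F, ∀ z' ∈ F.erase z, X z z' ≤ β * Λ := by
    intro z hz z' hz'
    obtain ⟨hne, hz'F⟩ := Finset.mem_erase.mp hz'
    have hPne : LR.toPt hD z - LR.toPt hD z' ≠ 0 := by
      intro h
      exact hne (LR.toPt_injOn hD (hF z hz).1 (hF z' hz'F).1 (sub_eq_zero.mp h)).symm
    have h1 := hS a b hD (LR.toPt hD z - LR.toPt hD z') (cg_repZ hPne)
    have h2 := hg.ge (LR.toPt hD z - LR.toPt hD z')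
    have h3 := hd z hz z' hz'F
    have h4 : X z z' = ∑ p ∈ mult a b, nup a b p *
      bern ((tau p (LR.toPt hD z - LR.toPt hD z') : ℝ) : AddCircle (1 : ℝ)) := rfl
    rw [← h4] at h1
    linarith
  set κ : ℝ := α / (7 * e₀) with hκ
  have hκ0 : 0 < κ := by positivity
  have hk := key (κ * M) (by positivity)
  have hsA : M * (α * Λ) ≤ ∑ z ∈ F, Av hD Φ z := by
    have h := Finset.card_nsmul_le_sum F (Av hD Φ) _ fun z hz => (hF z hz).2
    rwa [nsmul_eq_mul] at h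
  have hsX : ∑ z ∈ F, ∑ z' ∈ F.erase z, X z z' ≤ M * (M * (β * Λ)) := by
    have h1 : ∀ z ∈ F, ∑ z' ∈ F.erase z, X z z' ≤ M * (β * Λ) := by
      intro z hz
      have h := Finset.sum_le_card_nsmul (F.erase z) (X z) _ (hXz z hz)
      rw [nsmul_eq_mul] at h
      refine h.trans ?_
      have h2 : ((F.erase z).card : ℝ) ≤ M := by
        rw [hMd]; exact_mod_cast Finset.card_le_card (Finset.erase_subset z F)
      exact mul_le_mul_of_nonneg_right h2 (by positivity)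
    have h := Finset.sum_le_card_nsmul F _ _ h1
    rwa [nsmul_eq_mul] at h
  -- conclusion
  have hb1 : 2 * (κ * M) * (M * (α * Λ)) ≤ 2 * (κ * M) * ∑ z ∈ F, Av hD Φ z :=
    mul_le_mul_of_nonneg_left hsA (by positivity)
  have hW7 : W ≤ 7 * Λ := by linarith
  have hb2 : ((κ * M) ^ 2 * e₀ + M / 6) * W ≤ ((κ * M) ^ 2 * e₀ + M / 6) * (7 * Λ) :=
    mul_le_mul_of_nonneg_left hW7 (by positivity)
  have hb3 : 0 ≤ ((κ * M) ^ 2 * e₀ + M / 6) * (7 * Λ)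
      - 2 * (κ * M) * (M * (α * Λ)) + M * (M * (β * Λ)) := by linarith
  have hb4 : ((κ * M) ^ 2 * e₀ + M / 6) * (7 * Λ)
      - 2 * (κ * M) * (M * (α * Λ)) + M * (M * (β * Λ))
      = M * Λ * (7 / 6 - M * (α ^ 2 / (7 * e₀) - β)) := by
    rw [hκ]
    field_simp
    ring
  rw [hb4] at hb3
  have hb5 := nonneg_of_mul_nonneg_right hb3 (by positivity : 0 < M * Λ)
  have hb6 : α ^ 2 / (14 * e₀) ≤ α ^ 2 / (7 * e₀) - β := by
    have e1 : β ≤ α ^ 2 / (14 * e₀) := by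
      rw [le_div_iff₀ (by positivity)]
      linarith
    have e2 : α ^ 2 / (7 * e₀) = α ^ 2 / (14 * e₀) + α ^ 2 / (14 * e₀) := by
      field_simp
      norm_num
    linarith
  have hb7 : M * (α ^ 2 / (14 * e₀)) ≤ 2 := by
    have := mul_le_mul_of_nonneg_left hb6 hM.le
    linarith
  rw [le_div_iff₀ (by positivity)]
  have e3 : M * (α ^ 2 / (14 * e₀)) = M * α ^ 2 / (14 * e₀) := by ring
  rw [e3, div_le_iff₀ (by positivity)] at hb7
  linarith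

end Pool.Agent.H24.LZ
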