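import Pool.Agent.H24.LZ.Schur
import Pool.Agent.H24.LX.Core

/-!
# A cluster of integral points against `(∑ ν_p²)^{1/2}`
-/

namespace Pool.Agent.H24.LZ

open Pool.Agent.H24.LP Pool.Agent.H24.LQ Pool.Agent.H24.LX Finset

/-- `(∑_{mult} ν_p²)^{1/2}`. -/
noncomputable def Qm (a b : ℤ) : ℝ := Real.sqrt (∑ p ∈ mult a b, nup a b p ^ 2)

private lemma cq_repZ {a b : ℤ} {T : (curve a b).Point} (h : T ≠ 0) : repZ T ≠ 0 := by
  cases T with
  | zero => exact absurd rfl h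
  | some x y h' =>
    show ((x.den : ℕ) : ℤ) ≠ 0
    exact_mod_cast x.den_nz

private lemma cq_Rst (a b : ℤ) : 0 ≤ Rst a b := by
  unfold Rst
  exact add_nonneg (Finset.sum_nonneg fun v _ => nup_nonneg a b v)
    (Finset.sum_nonneg fun v _ => mul_nonneg (by norm_num) (HeightData.log_nonneg' v))

/-- The abstract cluster bound. -/
private lemma cq_one {M D₀ γ : ℝ} (hM : 0 < M) (hγ : 0 < γ) {Q2 S : ℝ}
    (hQ : γ ^ 2 ≤ Q2) (h1 : γ / 30 * (M ^ 2 * Q2) / 100 ≤ S)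
    (h2 : S ≤ M * (D₀ * (D₀ + γ / 30) ^ 2) + M * (M * (γ / 30 * (γ / 30 + γ / 30) ^ 2))) :
    M * γ ^ 3 ≤ 6000 * (D₀ * (D₀ + γ / 30) ^ 2) := by
  have h3 : γ / 30 * (M ^ 2 * γ ^ 2) / 100 ≤ γ / 30 * (M ^ 2 * Q2) / 100 := by gcongr
  have h4 : γ / 30 * (M ^ 2 * γ ^ 2) / 100 ≤
      M * (D₀ * (D₀ + γ / 30) ^ 2) + M * (M * (γ / 30 * (γ / 30 + γ / 30) ^ 2)) :=
    h3.trans (h1.trans h2)
  have h5 : 0 ≤ M * (D₀ * (D₀ + γ / 30) ^ 2 - M * γ ^ 3 / 6000) := by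
    have e : M * (D₀ * (D₀ + γ / 30) ^ 2 - M * γ ^ 3 / 6000) =
        (M * (D₀ * (D₀ + γ / 30) ^ 2) + M * (M * (γ / 30 * (γ / 30 + γ / 30) ^ 2)) -
          γ / 30 * (M ^ 2 * γ ^ 2) / 100) + M ^ 2 * γ ^ 3 * (1 / 3000 - 1 / 6000 - 4 / 27000) := by
      ring
    rw [e]
    have h6 : 0 ≤ M ^ 2 * γ ^ 3 * (1 / 3000 - 1 / 6000 - 4 / 27000) := by
      apply mul_nonneg (by positivity)
      norm_num
    linarith
  have h6 := nonneg_of_mul_nonneg_right h5 hM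
  linarith

theorem core_Q : ∃ K₀ : ℝ, 1 ≤ K₀ ∧ ∀ C : ℝ, 0 ≤ C → ∀ (a b : ℤ) (hD : D a b ≠ 0),
    ∀ g : (curve a b).Point → ℝ, IsHt C g → ∀ γ : ℝ, 0 < γ → γ ≤ Qm a b →
    K₀ * (1 + C) ≤ γ → Rst a b ≤ γ / 120 →
    ∀ F : Finset (ℤ × ℤ), (∀ z ∈ F, z ∈ integralPoints a b) →
    (∀ z ∈ F, ∀ z' ∈ F, z ≠ z' → z.1 ≠ z'.1) →
    (∀ z ∈ F, ∀ z' ∈ F, g (LR.toPt hD z - LR.toPt hD z') ≤ γ / 120) →
    (F.card : ℝ) ≤ 50000 * (L a b / γ) ^ 3 := by
  classical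
  obtain ⟨C₃, hC₃, hS⟩ := SS_low
  refine ⟨60 * (1 + C₃), by linarith, ?_⟩
  intro C hC a b hD g hg γ hγ hγQ hK hR F hF hx hd
  set Λ : ℝ := L a b with hΛ
  have hΛ0 : 0 < Λ := L_pos a b
  have hR0 : 0 ≤ Rst a b := cq_Rst a b
  rcases F.eq_empty_or_nonempty with hF0 | hF0
  · rw [hF0]; simp only [Finset.card_empty, Nat.cast_zero]; positivity
  have hM : (0 : ℝ) < F.card := by exact_mod_cast hF0.card_pos
  set M : ℝ := (F.card : ℝ) with hMd
  have hCC : 1 + C₃ + C ≤ γ / 60 := by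
    have : 1 + C₃ + C ≤ (1 + C₃) * (1 + C) := by nlinarith
    linarith
  -- positions
  have ht : ∀ p : ℕ, ∃ t : ℤ × ℤ → ℝ, p ∈ mult a b →
      ∀ z ∈ integralPoints a b, ∀ z' ∈ integralPoints a b, z.1 ≠ z'.1 →
        tau p (LR.toPt hD z - LR.toPt hD z') ≤ ‖((t z - t z' : ℝ) : AddCircle (1 : ℝ))‖ := by
    intro p
    by_cases hp : p ∈ mult a b
    · obtain ⟨t, h1, h2⟩ := loc_pos hD hp
      exact ⟨t, fun _ => h2⟩
    · exact ⟨fun _ => 0, fun h => absurd h hp⟩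
  choose t ht using ht
  set X : ℤ × ℤ → ℤ × ℤ → ℝ := fun z z' =>
    ∑ p ∈ mult a b, nup a b p * bern ((t p z - t p z' : ℝ) : AddCircle (1 : ℝ)) with hX
  set W : ℝ := ∑ p ∈ mult a b, nup a b p with hW
  have hWle : W ≤ 6 * Λ + 4 := by
    refine le_trans ?_ (sum_nup_le hD)
    exact Finset.sum_le_sum_of_subset_of_nonneg (mult_subset hD) fun v _ _ => nup_nonneg a b v
  have hW0 : 0 ≤ W := Finset.sum_nonneg fun v _ => nup_nonneg a b v
  have hQW : Qm a b ≤ W := by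
    unfold Qm
    rw [Real.sqrt_le_left hW0]
    calc ∑ p ∈ mult a b, nup a b p ^ 2 ≤ ∑ p ∈ mult a b, nup a b p * W := by
          refine Finset.sum_le_sum fun p hp => ?_
          rw [sq]
          refine mul_le_mul_of_nonneg_left ?_ (nup_nonneg a b p)
          exact Finset.single_le_sum (f := fun p => nup a b p) (fun q _ => nup_nonneg a b q) hp
      _ = W ^ 2 := by rw [← Finset.sum_mul, sq]
  have hΛ9 : 9 ≤ Λ := by linarith
  have hγΛ : γ / 30 ≤ Λ / 4 := by linarith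
  -- the diagonal
  have hdiag : ∀ z, X z z = W / 6 := by
    intro z
    have e : ∀ p, nup a b p * bern ((t p z - t p z : ℝ) : AddCircle (1 : ℝ)) =
        nup a b p / 6 := by
      intro p
      rw [sub_self, bern_val le_rfl (by norm_num)]
      ring
    rw [hX]
    simp only [e]
    rw [hW, Finset.sum_div]
  -- the other pairs
  have hoff : ∀ z ∈ F, ∀ z' ∈ F.erase z, X z z' ≤ γ / 30 := by
    intro z hz z' hz'
    obtain ⟨hne, hz'F⟩ := Finset.mem_erase.mp hz'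
    have hPne : LR.toPt hD z - LR.toPt hD z' ≠ 0 := by
      intro h
      exact hne (LR.toPt_injOn hD (hF z hz) (hF z' hz'F) (sub_eq_zero.mp h)).symm
    have h1 := hS a b hD (LR.toPt hD z - LR.toPt hD z') (cq_repZ hPne)
    have h2 := hg.ge (LR.toPt hD z - LR.toPt hD z')
    have h3 := hd z hz z' hz'F
    have h4 : X z z' ≤ ∑ p ∈ mult a b, nup a b p *
        bern ((tau p (LR.toPt hD z - LR.toPt hD z') : ℝ) : AddCircle (1 : ℝ)) := by
      refine Finset.sum_le_sum fun p hp => mul_le_mul_of_nonneg_left ?_ (nup_nonneg a b p)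
      exact bern_anti (tau_nonneg hD p _) (ht p hp z (hF z hz) z' (hF z' hz'F)
        (hx z hz z' hz'F (Ne.symm hne)))
    linarith
  have hf : ∀ x : ℝ, x ≤ γ / 30 → x * (x + γ / 30) ^ 2 ≤ γ / 30 * (γ / 30 + γ / 30) ^ 2 := by
    intro x hx'
    have h30 : 0 < γ / 30 := by positivity
    rcases le_total x 0 with h | h
    · have h1 : x * (x + γ / 30) ^ 2 ≤ 0 := mul_nonpos_of_nonpos_of_nonneg h (sq_nonneg _)
      have h2 : 0 ≤ γ / 30 * (γ / 30 + γ / 30) ^ 2 := by positivity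
      linarith
    · gcongr
  have hmom := moment (mult a b) (nup a b) (fun p _ => nup_nonneg a b p) t F
    (s := γ / 30) (by positivity)
  have hup : ∑ z ∈ F, ∑ z' ∈ F, X z z' * (X z z' + γ / 30) ^ 2 ≤
      M * (W / 6 * (W / 6 + γ / 30) ^ 2) +
        M * (M * (γ / 30 * (γ / 30 + γ / 30) ^ 2)) := by
    have h1 : ∀ z ∈ F, ∑ z' ∈ F, X z z' * (X z z' + γ / 30) ^ 2 ≤
        W / 6 * (W / 6 + γ / 30) ^ 2 + M * (γ / 30 * (γ / 30 + γ / 30) ^ 2) := by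
      intro z hz
      rw [← Finset.add_sum_erase F _ hz, hdiag z]
      refine add_le_add le_rfl ?_
      have h := Finset.sum_le_card_nsmul (F.erase z)
        (fun z' => X z z' * (X z z' + γ / 30) ^ 2) _ fun z' hz' => hf _ (hoff z hz z' hz')
      rw [nsmul_eq_mul] at h
      refine h.trans ?_
      have h2 : ((F.erase z).card : ℝ) ≤ M := by
        rw [hMd]; exact_mod_cast Finset.card_le_card (Finset.erase_subset z F)
      exact mul_le_mul_of_nonneg_right h2 (by positivity)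
    have h := Finset.sum_le_card_nsmul F _ _ h1
    rw [nsmul_eq_mul] at h
    refine h.trans (le_of_eq ?_)
    rw [← hMd]
    ring
  have hQ2 : γ ^ 2 ≤ ∑ p ∈ mult a b, nup a b p ^ 2 := by
    have h0 : 0 ≤ ∑ p ∈ mult a b, nup a b p ^ 2 := Finset.sum_nonneg fun p _ => sq_nonneg _
    rw [← Real.sq_sqrt h0]
    exact pow_le_pow_left₀ hγ.le hγQ 2
  have hfin := cq_one hM hγ hQ2 hmom hup
  have hD₀ : W / 6 ≤ 2 * Λ := by linarith
  have h1 : W / 6 * (W / 6 + γ / 30) ^ 2 ≤ 5 / 4 * Λ * (3 / 2 * Λ) ^ 2 := by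
    have e1 : W / 6 ≤ 5 / 4 * Λ := by linarith
    have e2 : W / 6 + γ / 30 ≤ 3 / 2 * Λ := by linarith
    have e3 : 0 ≤ W / 6 := by positivity
    gcongr
  rw [div_pow, ← mul_div_assoc, le_div_iff₀ (by positivity)]
  have h2 : 6000 * (5 / 4 * Λ * (3 / 2 * Λ) ^ 2) = 16875 * Λ ^ 3 := by ring
  have h3 : 0 ≤ Λ ^ 3 := by positivity
  linarith

end Pool.Agent.H24.LZ
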