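import Pool.Agent.H24.LZ.BaseB

/-!
# The bound with disjoint sets of primes: the statement
-/

namespace Pool.Agent.H24.LZ

open Pool.Agent.H24.LP Pool.Agent.H24.LQ Finset

/-- `(∑_{p ∈ T} (n_p log p)²)^{1/2}`. -/
noncomputable def QT (a b : ℤ) (T : Finset ℕ) : ℝ :=
  Real.sqrt (∑ p ∈ T, ((np a b p : ℝ) * Real.log p) ^ 2)

lemma QT_nonneg (a b : ℤ) (T : Finset ℕ) : 0 ≤ QT a b T := Real.sqrt_nonneg _

/-- `|E(ℤ)| ≤ C^{1+r+k} ∏ (1 + |T_i|) (L/(G + ∑ Q_i))^{1+r/4}` for pairwise disjoint finite sets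
`T_1, …, T_k`. -/
def StmtB : Prop := ∃ C : ℝ, 1 ≤ C ∧ ∀ (a b : ℤ), QuasiMinimal a b →
    ∀ r : ℕ, Module.rank ℤ (curve a b).Point ≤ r →
    ∀ (k : ℕ) (T : Fin k → Finset ℕ), (∀ i j, i ≠ j → Disjoint (T i) (T j)) →
    ((integralPoints a b).ncard : ℝ) ≤
      C ^ (1 + r + k) * (∏ i, (1 + ((T i).card : ℝ))) *
        (L a b / (GA a b ∅ + ∑ i, QT a b (T i))) ^ (1 + (r : ℝ) / 4)

end Pool.Agent.H24.LZ
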