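import Pool.Agent.H24.LZ.CoreB
import Pool.Agent.H24.LZ.StmtB

/-!
# The bound with disjoint sets of primes
-/

namespace Pool.Agent.H24.LZ

open Pool.Agent.H24.LP Pool.Agent.H24.LQ Finset

lemma QT_le {a b : ℤ} (hD : D a b ≠ 0) (T : Finset ℕ) :
    QT a b T ≤ QmT a b T + ∑ p ∈ T ∩ (places a b \ LX.mult a b), nup a b p := by
  obtain ⟨R, hR⟩ : ∃ R : ℝ, R = ∑ p ∈ T ∩ (places a b \ LX.mult a b), nup a b p := ⟨_, rfl⟩
  have hR0 : 0 ≤ R := by rw [hR]; exact Finset.sum_nonneg fun v _ => nup_nonneg a b v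
  have hQ := QmT_nonneg a b T
  rw [← hR]
  unfold QT
  rw [Real.sqrt_le_left (by positivity)]
  have hle : ∀ p, ((np a b p : ℝ) * Real.log p) ^ 2 ≤
      if p ∈ places a b then nup a b p ^ 2 else 0 := by
    intro p
    by_cases hp : p ∈ poles a b
    · obtain ⟨hpr, hpl⟩ := places_of_poles hD hp
      rw [if_pos hpl]
      have h2 : (np a b p : ℝ) * Real.log p ≤ nup a b p :=
        (nu_ge_np hD hpr).trans (le_max_right _ _)
      exact pow_le_pow_left₀ (np_log_nonneg a b p) h2 2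
    · rw [np_eq_zero hp]
      have e : (((0 : ℕ) : ℝ) * Real.log p) ^ 2 = 0 := by
        rw [Nat.cast_zero, zero_mul]
        ring
      rw [e]
      split_ifs
      · exact sq_nonneg _
      · exact le_rfl
  have h1 : ∑ p ∈ T, ((np a b p : ℝ) * Real.log p) ^ 2 ≤
      ∑ p ∈ T ∩ LX.mult a b, nup a b p ^ 2 +
        ∑ p ∈ T ∩ (places a b \ LX.mult a b), nup a b p ^ 2 := by
    refine (Finset.sum_le_sum fun p _ => hle p).trans ?_
    rw [← Finset.sum_filter]
    have hsub : T.filter (fun p => p ∈ places a b) ⊆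
        (T ∩ LX.mult a b) ∪ (T ∩ (places a b \ LX.mult a b)) := by
      intro p hp
      obtain ⟨hp1, hp2⟩ := Finset.mem_filter.mp hp
      by_cases h : p ∈ LX.mult a b
      · exact Finset.mem_union_left _ (Finset.mem_inter.mpr ⟨hp1, h⟩)
      · exact Finset.mem_union_right _
          (Finset.mem_inter.mpr ⟨hp1, Finset.mem_sdiff.mpr ⟨hp2, h⟩⟩)
    refine (Finset.sum_le_sum_of_subset_of_nonneg hsub fun p _ _ => sq_nonneg _).trans ?_
    have hdj : Disjoint (T ∩ LX.mult a b) (T ∩ (places a b \ LX.mult a b)) := by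
      rw [Finset.disjoint_left]
      intro p hp hp'
      exact (Finset.mem_sdiff.mp (Finset.mem_inter.mp hp').2).2 (Finset.mem_inter.mp hp).2
    rw [Finset.sum_union hdj]
  have h2 : ∑ p ∈ T ∩ LX.mult a b, nup a b p ^ 2 = QmT a b T ^ 2 := by
    unfold QmT
    rw [Real.sq_sqrt (Finset.sum_nonneg fun p _ => sq_nonneg _)]
  have h3 : ∑ p ∈ T ∩ (places a b \ LX.mult a b), nup a b p ^ 2 ≤ R ^ 2 := by
    calc ∑ p ∈ T ∩ (places a b \ LX.mult a b), nup a b p ^ 2
        ≤ ∑ p ∈ T ∩ (places a b \ LX.mult a b), nup a b p * R := by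
          refine Finset.sum_le_sum fun p hp => ?_
          rw [sq, hR]
          refine mul_le_mul_of_nonneg_left ?_ (nup_nonneg a b p)
          exact Finset.single_le_sum (f := fun p => nup a b p)
            (fun q _ => nup_nonneg a b q) hp
      _ = R ^ 2 := by rw [← Finset.sum_mul, ← hR, sq]
  nlinarith [mul_nonneg hQ hR0]

lemma sum_QT_le {a b : ℤ} (hD : D a b ≠ 0) {k : ℕ} (T : Fin k → Finset ℕ)
    (hdis : ∀ i j, i ≠ j → Disjoint (T i) (T j)) :
    ∑ i, QT a b (T i) ≤ ∑ i, QmT a b (T i) + LX.Rst a b := by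
  refine (Finset.sum_le_sum fun i _ => QT_le hD (T i)).trans ?_
  rw [Finset.sum_add_distrib]
  refine add_le_add le_rfl ?_
  have hpd : ((Finset.univ : Finset (Fin k)) : Set (Fin k)).PairwiseDisjoint
      fun i => T i ∩ (places a b \ LX.mult a b) := by
    intro i _ j _ hne
    exact (hdis i j hne).mono Finset.inter_subset_left Finset.inter_subset_left
  rw [← Finset.sum_biUnion hpd]
  have h1 : ∑ p ∈ (Finset.univ : Finset (Fin k)).biUnion
      (fun i => T i ∩ (places a b \ LX.mult a b)), nup a b p ≤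
      ∑ p ∈ places a b \ LX.mult a b, nup a b p := by
    refine Finset.sum_le_sum_of_subset_of_nonneg ?_ fun v _ _ => nup_nonneg a b v
    exact Finset.biUnion_subset.mpr fun i _ => Finset.inter_subset_right
  refine h1.trans ?_
  have h4 : 0 ≤ ∑ v ∈ (places a b \ LX.mult a b).filter (fun v => 5 ≤ v),
      2 * Real.log (v : ℝ) :=
    Finset.sum_nonneg fun v _ => mul_nonneg (by norm_num) (HeightData.log_nonneg' v)
  have h5 : LX.Rst a b = ∑ p ∈ places a b \ LX.mult a b, nup a b p +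
    ∑ v ∈ (places a b \ LX.mult a b).filter (fun v => 5 ≤ v), 2 * Real.log (v : ℝ) := rfl
  linarith

lemma sum_QT_le_L {a b : ℤ} (hD : D a b ≠ 0) {k : ℕ} (T : Fin k → Finset ℕ)
    (hdis : ∀ i j, i ≠ j → Disjoint (T i) (T j)) :
    ∑ i, QT a b (T i) ≤ 6 * L a b + 4 := by
  have h1 : ∀ i, QT a b (T i) ≤ ∑ p ∈ T i ∩ poles a b, (np a b p : ℝ) * Real.log p := by
    intro i
    have h0 : 0 ≤ ∑ p ∈ T i ∩ poles a b, (np a b p : ℝ) * Real.log p :=
      Finset.sum_nonneg fun p _ => np_log_nonneg a b p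
    unfold QT
    rw [Real.sqrt_le_left h0]
    have e1 : ∑ p ∈ T i, ((np a b p : ℝ) * Real.log p) ^ 2 =
        ∑ p ∈ T i ∩ poles a b, ((np a b p : ℝ) * Real.log p) ^ 2 := by
      symm
      refine Finset.sum_subset Finset.inter_subset_left fun p hp hp' => ?_
      have hp2 : p ∉ poles a b := fun h => hp' (Finset.mem_inter.mpr ⟨hp, h⟩)
      rw [np_eq_zero hp2, Nat.cast_zero, zero_mul]
      ring
    rw [e1]
    calc ∑ p ∈ T i ∩ poles a b, ((np a b p : ℝ) * Real.log p) ^ 2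
        ≤ ∑ p ∈ T i ∩ poles a b, (np a b p : ℝ) * Real.log p *
          ∑ p ∈ T i ∩ poles a b, (np a b p : ℝ) * Real.log p := by
          refine Finset.sum_le_sum fun p hp => ?_
          rw [sq]
          refine mul_le_mul_of_nonneg_left ?_ (np_log_nonneg a b p)
          exact Finset.single_le_sum (f := fun p : ℕ => (np a b p : ℝ) * Real.log p)
            (fun q _ => np_log_nonneg a b q) hp
      _ = (∑ p ∈ T i ∩ poles a b, (np a b p : ℝ) * Real.log p) ^ 2 := by
          rw [← Finset.sum_mul, sq]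
  refine (Finset.sum_le_sum fun i _ => h1 i).trans ?_
  have hpd : ((Finset.univ : Finset (Fin k)) : Set (Fin k)).PairwiseDisjoint
      fun i => T i ∩ poles a b := by
    intro i _ j _ hne
    exact (hdis i j hne).mono Finset.inter_subset_left Finset.inter_subset_left
  rw [← Finset.sum_biUnion hpd]
  refine le_trans ?_ (sum_poles_le hD)
  refine Finset.sum_le_sum_of_subset_of_nonneg ?_ fun p _ _ => np_log_nonneg a b p
  exact Finset.biUnion_subset.mpr fun i _ => Finset.inter_subset_right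

/-- All integral points, `γ ≤ ∑ Q_i`. -/
theorem count_B : ∃ C : ℝ, 1 ≤ C ∧ ∀ (a b : ℤ), QuasiMinimal a b →
    ∀ r : ℕ, Module.rank ℤ (curve a b).Point ≤ r →
    ∀ (k : ℕ) (T : Fin k → Finset ℕ), (∀ i j, i ≠ j → Disjoint (T i) (T j)) →
    ∀ γ : ℝ, 0 < γ → γ ≤ ∑ i, QT a b (T i) →
    ((integralPoints a b).ncard : ℝ) ≤
      C ^ (1 + r + k) * (∏ i, (1 + ((T i).card : ℝ))) *
        (max 1 (L a b / γ)) ^ (1 + (r : ℝ) / 4) := by
  classical
  obtain ⟨Ch, hCh, hht⟩ := exists_height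
  obtain ⟨K₀, hK₀, hcore⟩ := core_B
  have hKK : 1 ≤ 2 * (K₀ * (1 + Ch)) := by nlinarith
  obtain ⟨C₁, hC₁, hb⟩ := bdd_ball Ch hCh (K := 2 * (K₀ * (1 + Ch))) hKK
  obtain ⟨C₂, hC₂, hrest⟩ := rest_ball Ch hCh
  obtain ⟨C₄, hC₄, hup⟩ := upgrade Ch hCh
  obtain ⟨C, hC⟩ : ∃ C : ℝ, C = C₁ * C₄ + C₂ * C₄ * 384 + 160 * (7680 * C₄) * 2 := ⟨_, rfl⟩
  have hC14 : 1 ≤ C₁ * C₄ := by nlinarith
  have hC24 : 1 ≤ C₂ * C₄ := by nlinarith
  refine ⟨C, by linarith, fun a b hq r hr k T hdis γ hγ hγQ => ?_⟩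
  have hD := hq.ne
  have hL := L_pos a b
  have hr0 : (0 : ℝ) ≤ r := Nat.cast_nonneg r
  obtain ⟨m, hm⟩ : ∃ m : ℝ, m = max 1 (L a b / γ) := ⟨_, rfl⟩
  have hm1 : 1 ≤ m := by rw [hm]; exact le_max_left _ _
  have hm0 : 0 ≤ m := by linarith
  obtain ⟨Pr, hPr⟩ : ∃ Pr : ℝ, Pr = ∏ i, (1 + ((T i).card : ℝ)) := ⟨_, rfl⟩
  have hPr1 : 1 ≤ Pr := by
    rw [hPr]
    calc (1 : ℝ) = ∏ i : Fin k, (1 : ℝ) := by rw [Finset.prod_const_one]
      _ ≤ _ := Finset.prod_le_prod (fun _ _ => zero_le_one) fun i _ => by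
          have : (0 : ℝ) ≤ ((T i).card : ℝ) := Nat.cast_nonneg _
          linarith
  obtain ⟨Y, hY⟩ : ∃ Y : ℝ, Y = m ^ (1 + (r : ℝ) / 4) := ⟨_, rfl⟩
  have hY1 : 1 ≤ Y := by rw [hY]; exact Real.one_le_rpow hm1 (by positivity)
  have hY0 : 0 ≤ Y := by linarith
  rw [← hm, ← hY, ← hPr]
  -- the simple cases give `c^(1+r) Y`
  have hsimple : ∀ c : ℝ, 1 ≤ c → c ≤ C → ∀ N : ℝ, N ≤ c ^ (1 + r) * Y →
      N ≤ C ^ (1 + r + k) * Pr * Y := by
    intro c hc1 hcC N hN
    have e1 : c ^ (1 + r) ≤ C ^ (1 + r + k) :=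
      (pow_le_pow_left₀ (by linarith) hcC _).trans
        (pow_le_pow_right₀ (hc1.trans hcC) (by omega))
    have e2 : c ^ (1 + r) ≤ C ^ (1 + r + k) * Pr := by
      have : 0 ≤ C ^ (1 + r + k) := by
        have : 0 ≤ C := by linarith
        positivity
      nlinarith
    exact hN.trans (mul_le_mul_of_nonneg_right e2 hY0)
  obtain ⟨g, g1, g2, g3⟩ := hht a b hq.ne
  have hg : IsHt Ch g := ⟨g1, g2, g3⟩
  rcases le_total γ (2 * (K₀ * (1 + Ch))) with h | h
  · have hw := HeightData.wInf_nonneg (a := a) (b := b)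
    have h1 := hup a b hq g hg r hr γ (C₁ ^ (1 + r)) hγ
      (one_le_pow₀ hC₁) (integralPoints a b) (Set.Subset.refl _)
      (fun R hR S _ hS => hb a b hq g hg r hr R γ hR hγ (by nlinarith) S hS)
    rw [← hm, ← hY] at h1
    refine hsimple (C₁ * C₄) hC14 (by rw [hC]; nlinarith) _ (h1.trans (le_of_eq ?_))
    rw [mul_pow]
  rcases le_total (γ / 384) (LX.Rst a b) with h' | h'
  · have h1 := hup a b hq g hg r hr (γ / 384) (C₂ ^ (1 + r)) (by positivity)
      (one_le_pow₀ hC₂) (integralPoints a b) (Set.Subset.refl _)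
      (fun R hR S _ hS => hrest a b hq g hg r hr R (γ / 384) hR (by positivity) h' S hS)
    have h2 : (max 1 (L a b / (γ / 384))) ^ (1 + (r : ℝ) / 4) ≤ 384 ^ (1 + r) * Y := by
      have e1 := max_scale hL.le hγ (by norm_num : (1 : ℝ) ≤ 384) (le_refl (γ / 384))
      rw [← hm] at e1
      have e2 : (0 : ℝ) ≤ max 1 (L a b / (γ / 384)) := le_trans zero_le_one (le_max_left _ _)
      calc (max 1 (L a b / (γ / 384))) ^ (1 + (r : ℝ) / 4) ≤ (384 * m) ^ (1 + (r : ℝ) / 4) :=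
            Real.rpow_le_rpow e2 e1 (by positivity)
        _ = 384 ^ (1 + (r : ℝ) / 4) * m ^ (1 + (r : ℝ) / 4) := Real.mul_rpow (by norm_num) hm0
        _ ≤ 384 ^ (1 + r) * Y := by
            rw [← hY]
            exact mul_le_mul_of_nonneg_right
              (rpow_quarter_le (by norm_num : (1 : ℝ) ≤ 384) r) hY0
    refine hsimple (C₂ * C₄ * 384) (by nlinarith) (by rw [hC]; nlinarith) _ ?_
    calc ((integralPoints a b).ncard : ℝ)
        ≤ C₂ ^ (1 + r) * C₄ ^ (1 + r) * (384 ^ (1 + r) * Y) :=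
          h1.trans (mul_le_mul_of_nonneg_left h2 (by positivity))
      _ = (C₂ * C₄ * 384) ^ (1 + r) * Y := by rw [mul_pow, mul_pow]; ring
  -- the main case, `γ' = γ/2`
  obtain ⟨γ', hγ'⟩ : ∃ γ' : ℝ, γ' = γ / 2 := ⟨_, rfl⟩
  have hγ'0 : 0 < γ' := by rw [hγ']; positivity
  have hγ'Q : γ' ≤ ∑ i, QmT a b (T i) := by
    have := sum_QT_le hD T hdis
    have hR := Rst_nonneg a b
    linarith
  have hK0 : 0 ≤ K₀ * (1 + Ch) := by positivity
  have hquad := LR.can_quad hD hg.dbl hg.near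
  have hc := hcore Ch hCh a b hD g hg k T hdis γ' hγ'0 hγ'Q (by linarith) (by linarith)
  obtain ⟨m', hm'⟩ : ∃ m' : ℝ, m' = max 1 (L a b / γ') := ⟨_, rfl⟩
  have hm'1 : 1 ≤ m' := by rw [hm']; exact le_max_left _ _
  have hm'0 : 0 < m' := by linarith
  have hm'm : m' ≤ 2 * m := by
    rw [hm', hm]
    exact max_scale hL.le hγ (by norm_num) (le_of_eq hγ'.symm)
  have hLm' : L a b / γ' ≤ m' := by rw [hm']; exact le_max_right _ _
  have hLγ0 : 0 ≤ L a b / γ' := by positivity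
  obtain ⟨A, hA⟩ : ∃ A : ℝ, A = 80 * (2 ^ k * Pr) := ⟨_, rfl⟩
  have h2k : (1 : ℝ) ≤ 2 ^ k := one_le_pow₀ (by norm_num)
  have hA1 : 1 ≤ A := by rw [hA]; nlinarith
  have hA0 : 0 < A := by linarith
  rw [← hPr, ← hA] at hc
  have hball : ∀ R : ℝ, 0 < R → ∀ S : Finset (ℤ × ℤ), Small hD g R S →
      (S.card : ℝ) ≤ (2 * A) * 7680 ^ (1 + r) * Bq a b r R γ' := by
    intro R hR S hS
    have hpart : ∀ F₀ : Finset (ℤ × ℤ), F₀ ⊆ S →
        (∀ z ∈ F₀, ∀ z' ∈ F₀, z ≠ z' → z.1 ≠ z'.1) →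
        (F₀.card : ℝ) ≤ A * (7680 ^ (1 + r) * Bq a b r R γ') := by
      intro F₀ hF₀ hinj
      obtain ⟨P, hP⟩ : ∃ P, P = F₀.image (LR.toPt hD) := ⟨_, rfl⟩
      have hcard : F₀.card = P.card := by
        symm
        rw [hP]
        refine Finset.card_image_of_injOn fun z hz z' hz' h => ?_
        exact LR.toPt_injOn hD (hS z (hF₀ hz)).1 (hS z' (hF₀ hz')).1 h
      have hcov := covering_R hD hg r hr (R := R) (ρ := γ' / 768)
        (K := A * (L a b / γ')) hR
        (by positivity) (by positivity) P (fun Q hQ => by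
          rw [hP] at hQ
          obtain ⟨z, hz, rfl⟩ := Finset.mem_image.mp hQ
          exact (hS z (hF₀ hz)).2.2) (fun c _ => by
          obtain ⟨F, hF⟩ : ∃ F, F = F₀.filter fun z => g (LR.toPt hD z - c) ≤ γ' / 768 :=
            ⟨_, rfl⟩
          have h1 : (P.filter fun Q => g (Q - c) ≤ γ' / 768) ⊆ F.image (LR.toPt hD) := by
            intro Q hQ
            rw [hP] at hQ
            obtain ⟨hQ1, hQ2⟩ := Finset.mem_filter.mp hQ
            obtain ⟨z, hz, rfl⟩ := Finset.mem_image.mp hQ1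
            rw [hF]
            exact Finset.mem_image_of_mem _ (Finset.mem_filter.mpr ⟨hz, hQ2⟩)
          have h2 : (P.filter fun Q => g (Q - c) ≤ γ' / 768).card ≤ F.card :=
            (Finset.card_le_card h1).trans Finset.card_image_le
          have h3 := hc F (fun z hz => by
              rw [hF] at hz
              exact (hS z (hF₀ (Finset.mem_filter.mp hz).1)).1)
            (fun z hz z' hz' => by
              rw [hF] at hz hz'
              exact hinj z (Finset.mem_filter.mp hz).1 z' (Finset.mem_filter.mp hz').1)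
            (fun z hz z' hz' => by
              rw [hF] at hz hz'
              have e1 := (Finset.mem_filter.mp hz).2
              have e2 := (Finset.mem_filter.mp hz').2
              have e3 := hquad.par (LR.toPt hD z - c) (LR.toPt hD z' - c)
              have e4 := hquad.nonneg (LR.toPt hD z - c + (LR.toPt hD z' - c))
              have e5 : LR.toPt hD z - c - (LR.toPt hD z' - c) =
                  LR.toPt hD z - LR.toPt hD z' := by
                abel
              rw [e5] at e3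
              linarith)
          have h4 : ((P.filter fun Q => g (Q - c) ≤ γ' / 768).card : ℝ) ≤ F.card := by
            exact_mod_cast h2
          exact h4.trans h3)
      have h5 : (F₀.card : ℝ) / A ≤
          10 ^ r * (max 1 (R / (γ' / 768))) ^ ((r : ℝ) / 2) * (1 * max 1 (L a b / γ')) := by
        rw [div_le_iff₀ hA0, hcard]
        refine hcov.trans ?_
        have e1 : (0 : ℝ) ≤ max 1 (R / (γ' / 768)) := le_trans zero_le_one (le_max_left _ _)
        have e2 : (0 : ℝ) ≤ (max 1 (R / (γ' / 768))) ^ ((r : ℝ) / 2) := Real.rpow_nonneg e1 _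
        calc 10 ^ r * (max 1 (R / (γ' / 768))) ^ ((r : ℝ) / 2) * (A * (L a b / γ'))
            ≤ 10 ^ r * (max 1 (R / (γ' / 768))) ^ ((r : ℝ) / 2) * (A * m') := by
              gcongr
          _ = _ := by rw [← hm']; ring
      have h6 := combine (a := a) (b := b) hR hγ'0 (by norm_num : (1 : ℝ) ≤ 768)
        (by norm_num : (1 : ℝ) ≤ 1) h5
      rw [div_le_iff₀ hA0] at h6
      refine h6.trans (le_of_eq ?_)
      norm_num
      ring
    have h1 := hpart (S.filter fun z => 0 ≤ z.2) (Finset.filter_subset _ _)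
      (fun z hz z' hz' hne hx => by
        have e1 := Finset.mem_filter.mp hz
        have e2 := Finset.mem_filter.mp hz'
        exact hne (LW.sign_inj (hS z e1.1).1 (hS z' e2.1).1 hx (Or.inl ⟨e1.2, e2.2⟩)))
    have h2 := hpart (S.filter fun z => ¬ 0 ≤ z.2) (Finset.filter_subset _ _)
      (fun z hz z' hz' hne hx => by
        have e1 := Finset.mem_filter.mp hz
        have e2 := Finset.mem_filter.mp hz'
        exact hne (LW.sign_inj (hS z e1.1).1 (hS z' e2.1).1 hx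
          (Or.inr ⟨not_le.mp e1.2, not_le.mp e2.2⟩)))
    have hcard : (S.card : ℝ) = ((S.filter fun z => 0 ≤ z.2).card : ℝ) +
        ((S.filter fun z => ¬ 0 ≤ z.2).card : ℝ) := by
      have := Finset.card_filter_add_card_filter_not (s := S) (fun z : ℤ × ℤ => 0 ≤ z.2)
      exact_mod_cast this.symm
    rw [hcard]
    linarith
  have hK1 : 1 ≤ (2 * A) * 7680 ^ (1 + r) := by
    have e2 : (1 : ℝ) ≤ 7680 ^ (1 + r) := one_le_pow₀ (by norm_num)
    nlinarith
  have h1 := hup a b hq g hg r hr γ' ((2 * A) * 7680 ^ (1 + r)) hγ'0 hK1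
    (integralPoints a b) (Set.Subset.refl _) (fun R hR S _ hS => hball R hR S hS)
  rw [← hm'] at h1
  have h2 : m' ^ (1 + (r : ℝ) / 4) ≤ 2 ^ (1 + r) * Y := by
    calc m' ^ (1 + (r : ℝ) / 4) ≤ (2 * m) ^ (1 + (r : ℝ) / 4) :=
          Real.rpow_le_rpow hm'0.le hm'm (by positivity)
      _ = 2 ^ (1 + (r : ℝ) / 4) * Y := by rw [hY]; exact Real.mul_rpow (by norm_num) hm0
      _ ≤ 2 ^ (1 + r) * Y :=
          mul_le_mul_of_nonneg_right (rpow_quarter_le (by norm_num : (1 : ℝ) ≤ 2) r) hY0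
  have hCm : 160 * (7680 * C₄) * 2 ≤ C := by rw [hC]; nlinarith
  have hCm1 : 1 ≤ 160 * (7680 * C₄) * 2 := by linarith
  calc ((integralPoints a b).ncard : ℝ)
      ≤ (2 * A) * 7680 ^ (1 + r) * C₄ ^ (1 + r) * (2 ^ (1 + r) * Y) :=
        h1.trans (mul_le_mul_of_nonneg_left h2 (by positivity))
    _ = 160 * 2 ^ k * ((7680 * C₄) * 2) ^ (1 + r) * Pr * Y := by
        rw [hA, mul_pow (7680 * C₄), mul_pow (7680 : ℝ)]
        ring
    _ ≤ 160 ^ (1 + r) * (160 * (7680 * C₄) * 2) ^ k * ((7680 * C₄) * 2) ^ (1 + r) * Pr * Y := by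
        have e1 : (160 : ℝ) ≤ 160 ^ (1 + r) := le_self_pow₀ (by norm_num) (by omega)
        have e2 : (2 : ℝ) ^ k ≤ (160 * (7680 * C₄) * 2) ^ k :=
          pow_le_pow_left₀ (by norm_num) (by linarith) _
        gcongr
    _ = (160 * (7680 * C₄) * 2) ^ (1 + r + k) * Pr * Y := by
        rw [pow_add _ (1 + r) k, show 160 * (7680 * C₄) * 2 = 160 * ((7680 * C₄) * 2) by ring,
          mul_pow 160 ((7680 * C₄) * 2) (1 + r)]
        ring
    _ ≤ C ^ (1 + r + k) * Pr * Y := by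
        have e1 : (160 * (7680 * C₄) * 2) ^ (1 + r + k) ≤ C ^ (1 + r + k) :=
          pow_le_pow_left₀ (by linarith) hCm _
        gcongr

/-- The bound with disjoint sets of primes. -/
theorem main_blocks : StmtB := by
  obtain ⟨C₁, hC₁, hQ⟩ := count_B
  obtain ⟨C₂, hC₂, hT⟩ := main_TA
  refine ⟨C₁ * 2000 + C₂ * 2000, by nlinarith, fun a b hq r hr k T hdis => ?_⟩
  have hD := hq.ne
  have hL := L_pos a b
  have hL69 := L_ge_log_two a b
  have hr0 : (0 : ℝ) ≤ r := Nat.cast_nonneg r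
  have hG1 : 1 ≤ GA a b ∅ := (one_le_GT a b ∅).trans (GT_le_GA ∅ hq.ne)
  have hGb := GA_bound hq ∅
  obtain ⟨q, hqd⟩ : ∃ q : ℝ, q = ∑ i, QT a b (T i) := ⟨_, rfl⟩
  have hQ0 : 0 ≤ q := by rw [hqd]; exact Finset.sum_nonneg fun i _ => QT_nonneg a b (T i)
  have hQL : q ≤ 12 * L a b := by
    have := sum_QT_le_L hD T hdis
    rw [← hqd] at this
    linarith
  obtain ⟨Pr, hPr⟩ : ∃ Pr : ℝ, Pr = ∏ i, (1 + ((T i).card : ℝ)) := ⟨_, rfl⟩
  have hPr1 : 1 ≤ Pr := by
    rw [hPr]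
    calc (1 : ℝ) = ∏ i : Fin k, (1 : ℝ) := by rw [Finset.prod_const_one]
      _ ≤ _ := Finset.prod_le_prod (fun _ _ => zero_le_one) fun i _ => by
          have : (0 : ℝ) ≤ ((T i).card : ℝ) := Nat.cast_nonneg _
          linarith
  rw [← hqd, ← hPr]
  obtain ⟨u, hu⟩ : ∃ u : ℝ, u = L a b / (GA a b ∅ + q) := ⟨_, rfl⟩
  have hden : 0 < GA a b ∅ + q := by linarith
  have hu0 : 0 < u := by rw [hu]; positivity
  have hu1 : 1 ≤ 2000 * u := by
    rw [hu, mul_div_assoc', le_div_iff₀ hden, one_mul]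
    linarith
  rw [← hu]
  obtain ⟨X, hX⟩ : ∃ X : ℝ, X = u ^ (1 + (r : ℝ) / 4) := ⟨_, rfl⟩
  have hX0 : 0 ≤ X := by rw [hX]; positivity
  have hbig : (2000 * u) ^ (1 + (r : ℝ) / 4) ≤ 2000 ^ (1 + r) * X := by
    rw [Real.mul_rpow (by norm_num) hu0.le, hX]
    exact mul_le_mul_of_nonneg_right (rpow_quarter_le (by norm_num) r) (by positivity)
  rw [← hX]
  rcases le_total (GA a b ∅) q with h | h
  · have hγ : 0 < q := by linarith
    have h1 := hQ a b hq r hr k T hdis q hγ (le_of_eq hqd)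
    rw [← hPr] at h1
    have h4 : max 1 (L a b / q) ≤ 2000 * u := by
      refine max_le hu1 ?_
      have e1 : L a b / q ≤ 2 * u := by
        rw [hu, mul_div_assoc', div_le_div_iff₀ hγ hden]
        nlinarith
      linarith
    have e0 : (0 : ℝ) ≤ max 1 (L a b / q) := le_trans zero_le_one (le_max_left _ _)
    have h5 := (Real.rpow_le_rpow e0 h4 (by positivity : 0 ≤ 1 + (r : ℝ) / 4)).trans hbig
    calc ((integralPoints a b).ncard : ℝ)
        ≤ C₁ ^ (1 + r + k) * Pr * (2000 ^ (1 + r) * X) :=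
          h1.trans (mul_le_mul_of_nonneg_left h5 (by positivity))
      _ ≤ C₁ ^ (1 + r + k) * Pr * (2000 ^ (1 + r + k) * X) := by
          have e1 : (2000 : ℝ) ^ (1 + r) ≤ 2000 ^ (1 + r + k) :=
            pow_le_pow_right₀ (by norm_num) (by omega)
          gcongr
      _ = (C₁ * 2000) ^ (1 + r + k) * Pr * X := by rw [mul_pow]; ring
      _ ≤ (C₁ * 2000 + C₂ * 2000) ^ (1 + r + k) * Pr * X := by
          have e1 : (C₁ * 2000) ^ (1 + r + k) ≤ (C₁ * 2000 + C₂ * 2000) ^ (1 + r + k) :=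
            pow_le_pow_left₀ (by linarith) (by linarith) _
          gcongr
  · have h1 := hT a b hq r hr ∅
    rw [Finset.card_empty, add_zero] at h1
    have hG0 : 0 < GA a b ∅ := by linarith
    have h4 : L a b / GA a b ∅ ≤ 2000 * u := by
      have e1 : L a b / GA a b ∅ ≤ 2 * u := by
        rw [hu, mul_div_assoc', div_le_div_iff₀ hG0 hden]
        nlinarith
      linarith
    have e0 : (0 : ℝ) ≤ L a b / GA a b ∅ := by positivity
    have h5 : (L a b / GA a b ∅) ^ (1 + (r : ℝ) / 4) ≤ 2000 ^ (1 + r) * X :=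
      (Real.rpow_le_rpow e0 h4 (by positivity)).trans hbig
    calc ((integralPoints a b).ncard : ℝ)
        ≤ C₂ ^ (1 + r) * (2000 ^ (1 + r) * X) :=
          h1.trans (mul_le_mul_of_nonneg_left h5 (by positivity))
      _ = (C₂ * 2000) ^ (1 + r) * X := by rw [mul_pow]; ring
      _ ≤ (C₁ * 2000 + C₂ * 2000) ^ (1 + r) * X := by
          have e1 : (C₂ * 2000) ^ (1 + r) ≤ (C₁ * 2000 + C₂ * 2000) ^ (1 + r) :=
            pow_le_pow_left₀ (by linarith) (by linarith) _
          gcongr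
      _ ≤ (C₁ * 2000 + C₂ * 2000) ^ (1 + r + k) * Pr * X := by
          have e1 : (C₁ * 2000 + C₂ * 2000) ^ (1 + r) ≤
              (C₁ * 2000 + C₂ * 2000) ^ (1 + r + k) :=
            pow_le_pow_right₀ (by linarith) (by omega)
          have e2 : (C₁ * 2000 + C₂ * 2000) ^ (1 + r + k) ≤
              (C₁ * 2000 + C₂ * 2000) ^ (1 + r + k) * Pr := by
            have : 0 ≤ (C₁ * 2000 + C₂ * 2000) ^ (1 + r + k) := by positivity
            nlinarith
          exact mul_le_mul_of_nonneg_right (e1.trans e2) hX0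

end Pool.Agent.H24.LZ
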