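import Pool.Agent.H24.LZ.Final

/-!
# The sets of integral points
-/

namespace Pool.Agent.H24.LZ

open Pool.Agent.H24.LP Pool.Agent.H24.LQ Finset

/-- The canonical height with respect to `x`. -/
structure IsCan {a b : ℤ} (g : (curve a b).Point → ℝ) : Prop where
  dbl : ∀ P, g (P + P) = 4 * g P
  near : ∃ B : ℝ, ∀ P, |g P - nh P| ≤ B

lemma can_unique {a b : ℤ} {g g' : (curve a b).Point → ℝ} (h : IsCan g) (h' : IsCan g') :
    g = g' := by
  obtain ⟨B, hB⟩ := h.near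
  obtain ⟨B', hB'⟩ := h'.near
  have h1 : ∀ P, |g P - g' P| ≤ B + B' := fun P => by
    have e : g P - g' P = (g P - nh P) - (g' P - nh P) := by ring
    rw [e]
    exact (abs_sub _ _).trans (add_le_add (hB P) (hB' P))
  have h2 : ∀ (n : ℕ) (P : (curve a b).Point), 4 ^ n * |g P - g' P| ≤ B + B' := by
    intro n
    induction n with
    | zero => intro P; simpa using h1 P
    | succ n ih =>
      intro P
      have h3 := ih (P + P)
      rw [h.dbl, h'.dbl, ← mul_sub, abs_mul, abs_of_pos (by norm_num : (0 : ℝ) < 4)] at h3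
      calc (4 : ℝ) ^ (n + 1) * |g P - g' P| = 4 ^ n * (4 * |g P - g' P|) := by ring
        _ ≤ B + B' := h3
  funext P
  by_contra hne
  have hpos : 0 < |g P - g' P| := abs_pos.mpr (sub_ne_zero.mpr hne)
  obtain ⟨n, hn⟩ := pow_unbounded_of_one_lt ((B + B') / |g P - g' P|)
    (by norm_num : (1 : ℝ) < 4)
  rw [div_lt_iff₀ hpos] at hn
  exact absurd (h2 n P) (not_le.mpr hn)

/-- Integral points of large canonical height. -/
theorem main_A : ∃ C : ℝ, 1 ≤ C ∧ ∀ (a b : ℤ) (hq : QuasiMinimal a b),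
    ∀ g : (curve a b).Point → ℝ, IsCan g → ∀ r : ℕ, Module.rank ℤ (curve a b).Point ≤ r →
    ∀ δ : ℝ, 0 < δ → δ ≤ 1 →
    (({z | z ∈ integralPoints a b ∧ δ * L a b ≤ g (LR.toPt hq.ne z)} :
      Set (ℤ × ℤ)).ncard : ℝ) ≤ C ^ (1 + r) * (1 / δ) ^ (2 + (r : ℝ) / 2) := by
  classical
  obtain ⟨Ch, hCh, hht⟩ := exists_height
  obtain ⟨C₁, hC₁, hlg⟩ := large_g Ch hCh
  obtain ⟨C₂, hC₂, hlarge⟩ := LR.large_count
  refine ⟨C₁ + C₂, by linarith, fun a b hq g hcan r hr δ hδ hδ1 => ?_⟩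
  have hD := hq.ne
  have hL := L_pos a b
  obtain ⟨g', g1, g2, g3⟩ := hht a b hD
  have hgg : g = g' := can_unique hcan ⟨g1, _, g2⟩
  subst hgg
  have hg : IsHt Ch g := ⟨g1, g2, g3⟩
  have h1δ : 1 ≤ 1 / δ := by rw [le_div_iff₀ hδ]; linarith
  have hX1 : 1 ≤ (1 / δ) ^ (2 + (r : ℝ) / 2) := Real.one_le_rpow h1δ (by positivity)
  refine LW.ncard_of_finset (by positivity) fun S hS => ?_
  set P : ℤ × ℤ → Prop := fun z => |(z.1 : ℝ)| ≤ Real.exp (100 * L a b) with hP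
  have h1 := hlg a b hq g hg r hr δ hδ hδ1 (S.filter P) (fun z hz => by
    have hz' := Finset.mem_filter.mp hz
    exact ⟨(hS hz'.1).1, hz'.2, (hS hz'.1).2⟩)
  have h3 : ((S.filter fun z => ¬ P z).card : ℝ) ≤ C₂ ^ (1 + r) :=
    hlarge a b hD r hr (S.filter fun z => ¬ P z) (fun z hz => by
      have hz' := Finset.mem_filter.mp hz
      refine ⟨(hS hz'.1).1, ?_⟩
      have h3 := not_le.mp hz'.2
      have hpos : 0 < |(z.1 : ℝ)| := (Real.exp_pos _).trans h3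
      rw [Real.le_log_iff_exp_le hpos]
      exact h3.le)
  have hcard : (S.card : ℝ) = ((S.filter P).card : ℝ) + ((S.filter fun z => ¬ P z).card : ℝ) := by
    have h5 := Finset.card_filter_add_card_filter_not (s := S) P
    exact_mod_cast h5.symm
  have h7 := pow_add_pow_le (x := C₁) (y := C₂) (n := 1 + r) (by linarith) (by linarith) (by omega)
  have h8 : C₂ ^ (1 + r) ≤ C₂ ^ (1 + r) * (1 / δ) ^ (2 + (r : ℝ) / 2) :=
    le_mul_of_one_le_right (by positivity) hX1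
  calc (S.card : ℝ) ≤ (C₁ ^ (1 + r) + C₂ ^ (1 + r)) * (1 / δ) ^ (2 + (r : ℝ) / 2) := by
        rw [hcard, add_mul]
        exact add_le_add h1 (h3.trans h8)
    _ ≤ (C₁ + C₂) ^ (1 + r) * (1 / δ) ^ (2 + (r : ℝ) / 2) :=
        mul_le_mul_of_nonneg_right h7 (by linarith)

/-- The exponent `1 + r/4` for `γ = δL/k`. -/
lemma quarter_delta {a b : ℤ} (r : ℕ) {δ k : ℝ} (hδ : 0 < δ) (hδ1 : δ ≤ 1) (hk : 1 ≤ k) :
    (max 1 (L a b / (δ * L a b / k))) ^ (1 + (r : ℝ) / 4) ≤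
      k ^ (1 + r) * (1 / δ) ^ (2 + (r : ℝ) / 2) := by
  have hL := L_pos a b
  have hr0 : (0 : ℝ) ≤ r := Nat.cast_nonneg r
  have h1δ : 1 ≤ 1 / δ := by rw [le_div_iff₀ hδ]; linarith
  have hk0 : 0 < k := by linarith
  have e1 : L a b / (δ * L a b / k) = k * (1 / δ) := by field_simp
  have e2 : 1 ≤ k * (1 / δ) := by nlinarith
  rw [e1, max_eq_right e2, Real.mul_rpow hk0.le (by positivity)]
  have e3 := rpow_quarter_le hk r
  have e4 : (1 / δ) ^ (1 + (r : ℝ) / 4) ≤ (1 / δ) ^ (2 + (r : ℝ) / 2) :=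
    Real.rpow_le_rpow_of_exponent_le h1δ (by linarith)
  have e5 : 0 ≤ (1 / δ) ^ (1 + (r : ℝ) / 4) := by positivity
  gcongr

/-- Integral points with a small greatest common divisor of `y` and `D`. -/
theorem main_B : ∃ C : ℝ, 1 ≤ C ∧ ∀ (a b : ℤ), QuasiMinimal a b →
    ∀ r : ℕ, Module.rank ℤ (curve a b).Point ≤ r → ∀ δ : ℝ, 0 < δ → δ ≤ 1 →
    (({z | z ∈ integralPoints a b ∧
      Real.log (Int.gcd z.2 (D a b) : ℝ) ≤ (1 - δ) * L a b} :
      Set (ℤ × ℤ)).ncard : ℝ) ≤ C ^ (1 + r) * (1 / δ) ^ (2 + (r : ℝ) / 2) := by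
  classical
  obtain ⟨Ch, hCh, hht⟩ := exists_height
  obtain ⟨Cg, hCg, hgcd⟩ := LX.SS_gcd
  obtain ⟨C₁, hC₁, hb⟩ := bdd_ball Ch hCh (K := 1 + 4 * (Cg + Ch)) (by linarith)
  obtain ⟨C₂, hC₂, hrest⟩ := rest_ball Ch hCh
  obtain ⟨C₃, hC₃, hA⟩ := main_A
  obtain ⟨C₄, hC₄, hup⟩ := upgrade Ch hCh
  set C : ℝ := C₁ * C₄ + C₂ * C₄ * 4 + C₃ * 4 with hC
  have hC14 : 1 ≤ C₁ * C₄ := by nlinarith
  have hC24 : 1 ≤ C₂ * C₄ := by nlinarith
  refine ⟨C, by linarith, fun a b hq r hr δ hδ hδ1 => ?_⟩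
  have hL := L_pos a b
  have h1δ : 1 ≤ 1 / δ := by rw [le_div_iff₀ hδ]; linarith
  set Y : ℝ := (1 / δ) ^ (2 + (r : ℝ) / 2) with hY
  have hY1 : 1 ≤ Y := Real.one_le_rpow h1δ (by positivity)
  have hY0 : 0 ≤ Y := by linarith
  obtain ⟨g, g1, g2, g3⟩ := hht a b hq.ne
  have hg : IsHt Ch g := ⟨g1, g2, g3⟩
  obtain ⟨hfin, -⟩ := (Classical.choose_spec LR.main_T).2 a b hq r hr ∅
  rcases le_total (δ * L a b) (1 + 4 * (Cg + Ch)) with h | h
  · have hw := HeightData.wInf_nonneg (a := a) (b := b)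
    have h1 := hup a b hq g hg r hr (δ * L a b) (C₁ ^ (1 + r)) (by positivity)
      (one_le_pow₀ hC₁) (integralPoints a b) (Set.Subset.refl _)
      (fun R hR S _ hS => hb a b hq g hg r hr R (δ * L a b) hR (by positivity)
        (by nlinarith) S hS)
    have h2 := quarter_delta (a := a) (b := b) r hδ hδ1 le_rfl
    rw [div_one, one_pow, one_mul] at h2
    refine (LW.ncard_of_all hfin h1).trans ?_
    calc C₁ ^ (1 + r) * C₄ ^ (1 + r) * (max 1 (L a b / (δ * L a b))) ^ (1 + (r : ℝ) / 4)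
        ≤ C₁ ^ (1 + r) * C₄ ^ (1 + r) * Y := by gcongr
      _ = (C₁ * C₄) ^ (1 + r) * Y := by rw [mul_pow]
      _ ≤ C ^ (1 + r) * Y := mono_pow (by linarith) (by linarith) _ hY0
  rcases le_total (δ * L a b / 4) (LX.Rst a b) with h' | h'
  · have h1 := hup a b hq g hg r hr (δ * L a b / 4) (C₂ ^ (1 + r)) (by positivity)
      (one_le_pow₀ hC₂) (integralPoints a b) (Set.Subset.refl _)
      (fun R hR S _ hS => hrest a b hq g hg r hr R (δ * L a b / 4) hR (by positivity) h' S hS)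
    have h2 := quarter_delta (a := a) (b := b) r hδ hδ1 (by norm_num : (1 : ℝ) ≤ 4)
    refine (LW.ncard_of_all hfin h1).trans ?_
    calc C₂ ^ (1 + r) * C₄ ^ (1 + r) * (max 1 (L a b / (δ * L a b / 4))) ^ (1 + (r : ℝ) / 4)
        ≤ C₂ ^ (1 + r) * C₄ ^ (1 + r) * (4 ^ (1 + r) * Y) := by gcongr
      _ = (C₂ * C₄ * 4) ^ (1 + r) * Y := by rw [mul_pow, mul_pow]; ring
      _ ≤ C ^ (1 + r) * Y := mono_pow (by linarith) (by linarith) _ hY0
  have h1 := hA a b hq g ⟨g1, _, g2⟩ r hr (δ / 2) (by positivity) (by linarith)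
  have hsub : ({z | z ∈ integralPoints a b ∧
      Real.log (Int.gcd z.2 (D a b) : ℝ) ≤ (1 - δ) * L a b} : Set (ℤ × ℤ)) ⊆
      {z | z ∈ integralPoints a b ∧ δ / 2 * L a b ≤ g (LR.toPt hq.ne z)} := by
    intro z hz
    refine ⟨hz.1, ?_⟩
    have e1 := hgcd a b hq z hz.1
    have e2 := g3 (LR.toPt hq.ne z)
    have e3 := hz.2
    linarith
  have hfin' : ({z | z ∈ integralPoints a b ∧ δ / 2 * L a b ≤ g (LR.toPt hq.ne z)} :
      Set (ℤ × ℤ)).Finite := hfin.subset fun z hz => hz.1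
  have h2 := Set.ncard_le_ncard hsub hfin'
  have h3 : (({z | z ∈ integralPoints a b ∧
      Real.log (Int.gcd z.2 (D a b) : ℝ) ≤ (1 - δ) * L a b} : Set (ℤ × ℤ)).ncard : ℝ) ≤
      (({z | z ∈ integralPoints a b ∧ δ / 2 * L a b ≤ g (LR.toPt hq.ne z)} :
      Set (ℤ × ℤ)).ncard : ℝ) := by exact_mod_cast h2
  refine h3.trans (h1.trans ?_)
  have e0 : 1 / (δ / 2) = 2 * (1 / δ) := by field_simp
  have h4 : (2 : ℝ) ^ (2 + (r : ℝ) / 2) ≤ 4 ^ (1 + r) := by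
    have h5 : (4 : ℝ) ^ (1 + r) = 2 ^ ((2 * (1 + r) : ℕ) : ℝ) := by
      rw [Real.rpow_natCast, pow_mul]
      norm_num
    rw [h5]
    refine Real.rpow_le_rpow_of_exponent_le (by norm_num) ?_
    push_cast
    have : (0 : ℝ) ≤ r := Nat.cast_nonneg r
    linarith
  calc C₃ ^ (1 + r) * (1 / (δ / 2)) ^ (2 + (r : ℝ) / 2)
      = C₃ ^ (1 + r) * (2 ^ (2 + (r : ℝ) / 2) * Y) := by
        rw [e0, Real.mul_rpow (by norm_num) (by positivity)]
    _ ≤ C₃ ^ (1 + r) * (4 ^ (1 + r) * Y) := by gcongr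
    _ = (C₃ * 4) ^ (1 + r) * Y := by rw [mul_pow]; ring
    _ ≤ C ^ (1 + r) * Y := mono_pow (by linarith) (by linarith) _ hY0

/-- Integral points in short ranges. -/
theorem main_S : ∃ C : ℝ, 1 ≤ C ∧ ∀ a b : ℤ, QuasiMinimal a b →
    ∀ r : ℕ, Module.rank ℤ (curve a b).Point ≤ r →
    (∀ γ : ℝ, 0 < γ →
      (({z | z ∈ integralPoints a b ∧ Real.exp (L a b + γ) ≤ |(z.1 : ℝ)|} :
        Set (ℤ × ℤ)).ncard : ℝ) ≤ C ^ (1 + r) * (max 1 (L a b / γ)) ^ (1 + (r : ℝ) / 4)) ∧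
    (∀ γ : ℝ, 0 < γ → ∀ x₀ : ℝ,
      (({z | z ∈ integralPoints a b ∧ |(z.1 : ℝ) - x₀| ≤ Real.exp (L a b - γ)} :
        Set (ℤ × ℤ)).ncard : ℝ) ≤ C ^ (1 + r) * (max 1 (L a b / γ)) ^ (1 + (r : ℝ) / 4)) ∧
    (∀ q : ℕ, 1 < q → Nat.Coprime q (6 * D a b).natAbs → ∀ u : ℤ × ℤ,
      (({z | z ∈ integralPoints a b ∧ ((q : ℤ) ∣ z.1 - u.1 ∧ (q : ℤ) ∣ z.2 - u.2)} :
        Set (ℤ × ℤ)).ncard : ℝ) ≤
        C ^ (1 + r) * (max 1 (L a b / Real.log q)) ^ (1 + (r : ℝ) / 4)) := by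
  classical
  obtain ⟨Ch, hCh, hht⟩ := exists_height
  obtain ⟨C₁, hC₁, hfar⟩ := far_R Ch hCh
  obtain ⟨C₂, hC₂, hshort⟩ := short_R Ch hCh
  obtain ⟨C₃, hC₃, hcong⟩ := cong_R Ch hCh
  obtain ⟨C₄, hC₄, hup⟩ := upgrade Ch hCh
  obtain ⟨C₅, hC₅, hb⟩ := bdd_ball Ch hCh (K := 2) (by norm_num)
  set C₀ : ℝ := C₁ + C₂ * 2 + C₃ + C₅ with hC₀
  refine ⟨C₀ * C₄, by nlinarith, fun a b hq r hr => ?_⟩
  have hL := L_pos a b
  obtain ⟨g, g1, g2, g3⟩ := hht a b hq.ne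
  have hg : IsHt Ch g := ⟨g1, g2, g3⟩
  have hC₀1 : 1 ≤ C₀ := by linarith
  have key : ∀ γ : ℝ, 0 < γ → ∀ X : Set (ℤ × ℤ), X ⊆ integralPoints a b →
      (∀ R : ℝ, 0 < R → ∀ S : Finset (ℤ × ℤ), (S : Set (ℤ × ℤ)) ⊆ X → Small hq.ne g R S →
        (S.card : ℝ) ≤ C₀ ^ (1 + r) * Bq a b r R γ) →
      (X.ncard : ℝ) ≤ (C₀ * C₄) ^ (1 + r) * (max 1 (L a b / γ)) ^ (1 + (r : ℝ) / 4) := by
    intro γ hγ X hX h
    rw [mul_pow]
    exact hup a b hq g hg r hr γ (C₀ ^ (1 + r)) hγ (one_le_pow₀ hC₀1) X hX h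
  have hmono : ∀ {x : ℝ} (R γ : ℝ), 0 ≤ x → x ≤ C₀ →
      x ^ (1 + r) * Bq a b r R γ ≤ C₀ ^ (1 + r) * Bq a b r R γ := by
    intro x R γ hx hxC
    exact mono_pow hx hxC _ (le_trans zero_le_one (one_le_Bq _ _ _ _ _))
  refine ⟨fun γ hγ => key γ hγ _ (fun z hz => hz.1) fun R hR S hSX hS => ?_,
    fun γ hγ x₀ => key γ hγ _ (fun z hz => hz.1) fun R hR S hSX hS => ?_,
    fun q hq1 hcop u => key (Real.log q) (Real.log_pos (by exact_mod_cast hq1)) _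
      (fun z hz => hz.1) fun R hR S hSX hS => ?_⟩
  · refine (hfar a b hq g hg r hr R γ hR hγ S hS fun z hz => ?_).trans
      (hmono R γ (by linarith) (by linarith))
    have hz' := (hSX hz).2
    have hpos : 0 < |(z.1 : ℝ)| := (Real.exp_pos _).trans_le hz'
    rw [Real.le_log_iff_exp_le hpos]
    exact hz'
  · rcases le_total γ 2 with h | h
    · have hw := HeightData.wInf_nonneg (a := a) (b := b)
      exact (hb a b hq g hg r hr R γ hR hγ (by linarith) S hS).trans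
        (hmono R γ (by linarith) (by linarith))
    · have h1 := hshort a b hq g hg r hr R (γ - 1) hR (by linarith) S hS (fun z hz z' hz' => by
        have e1 := (hSX hz).2
        have e2 := (hSX hz').2
        rw [abs_sub_comm] at e2
        have e3 : |(z.1 : ℝ) - z'.1| ≤ |(z.1 : ℝ) - x₀| + |x₀ - z'.1| := abs_sub_le _ _ _
        have e4 : Real.exp (L a b - (γ - 1)) = Real.exp (L a b - γ) * Real.exp 1 := by
          rw [← Real.exp_add]; congr 1; ring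
        have e5 : (2 : ℝ) ≤ Real.exp 1 := by
          have := Real.add_one_le_exp (1 : ℝ)
          linarith
        have e6 := Real.exp_pos (L a b - γ)
        rw [e4]
        nlinarith)
      have h2 := Bq_scale (a := a) (b := b) (r := r) (R := R) (γ := γ) (k := 2) (δ := γ - 1) hR hγ
        (by norm_num) (by linarith)
      calc (S.card : ℝ) ≤ C₂ ^ (1 + r) * (2 ^ (1 + r) * Bq a b r R γ) :=
            h1.trans (mul_le_mul_of_nonneg_left h2 (by positivity))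
        _ = (C₂ * 2) ^ (1 + r) * Bq a b r R γ := by rw [mul_pow]; ring
        _ ≤ _ := hmono R γ (by linarith) (by linarith)
  · refine (hcong a b hq g hg r hr R q hR hq1 hcop S hS fun z hz z' hz' => ?_).trans
      (hmono R _ (by linarith) (by linarith))
    have e1 := (hSX hz).2
    have e2 := (hSX hz').2
    refine ⟨?_, ?_⟩
    · have := dvd_sub e1.1 e2.1
      have e : z.1 - u.1 - (z'.1 - u.1) = z.1 - z'.1 := by ring
      rwa [e] at this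
    · have := dvd_sub e1.2 e2.2
      have e : z.2 - u.2 - (z'.2 - u.2) = z.2 - z'.2 := by ring
      rwa [e] at this

end Pool.Agent.H24.LZ
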