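import Pool.Agent.H24.LZ.CoreG
import Pool.Agent.H24.LZ.Sets

/-!
# Counting integral points against a test function
-/

namespace Pool.Agent.H24.LZ

open Pool.Agent.H24.LP Pool.Agent.H24.LQ Finset

/-- `(max 1 (L/(βL/k)))^(1+r/4) ≤ k^(1+r) (1/β)^(1+r/4)`. -/
lemma quarter_beta {a b : ℤ} (r : ℕ) {β k : ℝ} (hβ : 0 < β) (hβ1 : β ≤ 1) (hk : 1 ≤ k) :
    (max 1 (L a b / (β * L a b / k))) ^ (1 + (r : ℝ) / 4) ≤
      k ^ (1 + r) * (1 / β) ^ (1 + (r : ℝ) / 4) := by
  have hL := L_pos a b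
  have hr0 : (0 : ℝ) ≤ r := Nat.cast_nonneg r
  have h1β : 1 ≤ 1 / β := by rw [le_div_iff₀ hβ]; linarith
  have hk0 : 0 < k := by linarith
  have e1 : L a b / (β * L a b / k) = k * (1 / β) := by field_simp
  have e2 : 1 ≤ k * (1 / β) := by nlinarith
  rw [e1, max_eq_right e2, Real.mul_rpow hk0.le (by positivity)]
  have e3 := rpow_quarter_le hk r
  have e5 : 0 ≤ (1 / β) ^ (1 + (r : ℝ) / 4) := by positivity
  gcongr

/-- The count of a set of integral points on which the average of a test function is large. -/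
theorem count_gen (K₁ : ℝ) (hK₁ : 0 ≤ K₁) : ∃ C : ℝ, 1 ≤ C ∧ ∀ (a b : ℤ) (hq : QuasiMinimal a b),
    ∀ r : ℕ, Module.rank ℤ (curve a b).Point ≤ r → ∀ β : ℝ, 0 < β → β ≤ 1 →
    ∀ (n : ℕ) (s ρ : Fin n → ℝ) (Φ : ℝ → ℝ) (e₀ α : ℝ), Test s ρ Φ e₀ → 0 < α → 14 * e₀ * β ≤ α ^ 2 →
    ∀ X : Set (ℤ × ℤ), X ⊆ integralPoints a b →
    (K₁ ≤ β * L a b → LX.Rst a b ≤ β * L a b / 4 → ∀ z ∈ X, α * L a b ≤ Av hq.ne Φ z) →
    (X.ncard : ℝ) ≤ C ^ (1 + r) * (1 / β) ^ (1 + (r : ℝ) / 4) := by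
  classical
  obtain ⟨Ch, hCh, hht⟩ := exists_height
  obtain ⟨K₀, hK₀, hcore⟩ := core_gen
  have hKK : 1 ≤ K₀ * (1 + Ch) + K₁ := by nlinarith
  obtain ⟨C₁, hC₁, hb⟩ := bdd_ball Ch hCh (K := K₀ * (1 + Ch) + K₁) hKK
  obtain ⟨C₂, hC₂, hrest⟩ := rest_ball Ch hCh
  obtain ⟨C₄, hC₄, hup⟩ := upgrade Ch hCh
  set C : ℝ := C₁ * C₄ + C₂ * C₄ * 4 + 640 * C₄ with hC
  have hC14 : 1 ≤ C₁ * C₄ := by nlinarith
  have hC24 : 1 ≤ C₂ * C₄ := by nlinarith
  refine ⟨C, by linarith, fun a b hq r hr β hβ hβ1 n s ρ Φ e₀ α hT hα hαβ X hX hXA => ?_⟩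
  have hD := hq.ne
  have hL := L_pos a b
  have h1β : 1 ≤ 1 / β := by rw [le_div_iff₀ hβ]; linarith
  set Y : ℝ := (1 / β) ^ (1 + (r : ℝ) / 4) with hY
  have hY1 : 1 ≤ Y := Real.one_le_rpow h1β (by positivity)
  have hY0 : 0 ≤ Y := by linarith
  obtain ⟨g, g1, g2, g3⟩ := hht a b hq.ne
  have hg : IsHt Ch g := ⟨g1, g2, g3⟩
  obtain ⟨hfin, -⟩ := (Classical.choose_spec LR.main_T).2 a b hq r hr ∅
  have hXle : (X.ncard : ℝ) ≤ ((integralPoints a b).ncard : ℝ) := by
    exact_mod_cast Set.ncard_le_ncard hX hfin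
  rcases le_total (β * L a b) (K₀ * (1 + Ch) + K₁) with h | h
  · have hw := HeightData.wInf_nonneg (a := a) (b := b)
    have h1 := hup a b hq g hg r hr (β * L a b) (C₁ ^ (1 + r)) (by positivity)
      (one_le_pow₀ hC₁) (integralPoints a b) (Set.Subset.refl _)
      (fun R hR S _ hS => hb a b hq g hg r hr R (β * L a b) hR (by positivity)
        (by nlinarith) S hS)
    have h2 := quarter_beta (a := a) (b := b) r hβ hβ1 le_rfl
    rw [div_one, one_pow, one_mul] at h2
    refine hXle.trans (h1.trans ?_)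
    calc C₁ ^ (1 + r) * C₄ ^ (1 + r) * (max 1 (L a b / (β * L a b))) ^ (1 + (r : ℝ) / 4)
        ≤ C₁ ^ (1 + r) * C₄ ^ (1 + r) * Y := by gcongr
      _ = (C₁ * C₄) ^ (1 + r) * Y := by rw [mul_pow]
      _ ≤ C ^ (1 + r) * Y := mono_pow (by linarith) (by linarith) _ hY0
  rcases le_total (β * L a b / 4) (LX.Rst a b) with h' | h'
  · have h1 := hup a b hq g hg r hr (β * L a b / 4) (C₂ ^ (1 + r)) (by positivity)
      (one_le_pow₀ hC₂) (integralPoints a b) (Set.Subset.refl _)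
      (fun R hR S _ hS => hrest a b hq g hg r hr R (β * L a b / 4) hR (by positivity) h' S hS)
    have h2 := quarter_beta (a := a) (b := b) r hβ hβ1 (by norm_num : (1 : ℝ) ≤ 4)
    refine hXle.trans (h1.trans ?_)
    calc C₂ ^ (1 + r) * C₄ ^ (1 + r) * (max 1 (L a b / (β * L a b / 4))) ^ (1 + (r : ℝ) / 4)
        ≤ C₂ ^ (1 + r) * C₄ ^ (1 + r) * (4 ^ (1 + r) * Y) := by gcongr
      _ = (C₂ * C₄ * 4) ^ (1 + r) * Y := by rw [mul_pow, mul_pow]; ring
      _ ≤ C ^ (1 + r) * Y := mono_pow (by linarith) (by linarith) _ hY0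
  have hK0 : 0 ≤ K₀ * (1 + Ch) := by positivity
  have hA := hXA (by linarith) h'
  set γ : ℝ := β * L a b with hγ
  have hγ0 : 0 < γ := by positivity
  have hquad := LR.can_quad hD hg.dbl hg.near
  have hc := hcore Ch hCh a b hD g hg β hβ hβ1 (by linarith) h' n s ρ Φ e₀ α hT hα hαβ
  have he := hT.pos
  have hK2 : 28 * e₀ / α ^ 2 ≤ 2 * (L a b / γ) := by
    have e3 : 2 * (L a b / γ) = 2 / β := by rw [hγ]; field_simp
    rw [e3, div_le_div_iff₀ (by positivity) hβ]
    linarith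
  have hball : ∀ R : ℝ, 0 < R → ∀ S : Finset (ℤ × ℤ), (S : Set (ℤ × ℤ)) ⊆ X → Small hD g R S →
      (S.card : ℝ) ≤ 640 ^ (1 + r) * Bq a b r R γ := by
    intro R hR S hSX hS
    have hpart : ∀ F₀ : Finset (ℤ × ℤ), F₀ ⊆ S →
        (∀ z ∈ F₀, ∀ z' ∈ F₀, z ≠ z' → z.1 ≠ z'.1) →
        (F₀.card : ℝ) ≤ 320 ^ (1 + r) * Bq a b r R γ := by
      intro F₀ hF₀ hinj
      set P := F₀.image (LR.toPt hD) with hP
      have hcard : F₀.card = P.card := by
        symm
        refine Finset.card_image_of_injOn fun z hz z' hz' h => ?_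
        exact LR.toPt_injOn hD (hS z (hF₀ hz)).1 (hS z' (hF₀ hz')).1 h
      have hcov := covering_R hD hg r hr (R := R) (ρ := γ / 16) (K := 28 * e₀ / α ^ 2) hR
        (by positivity) (by positivity) P (fun Q hQ => by
          obtain ⟨z, hz, rfl⟩ := Finset.mem_image.mp hQ
          exact (hS z (hF₀ hz)).2.2) (fun c _ => by
          set F := F₀.filter fun z => g (LR.toPt hD z - c) ≤ γ / 16 with hF
          have h1 : (P.filter fun Q => g (Q - c) ≤ γ / 16) ⊆ F.image (LR.toPt hD) := by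
            intro Q hQ
            obtain ⟨hQ1, hQ2⟩ := Finset.mem_filter.mp hQ
            obtain ⟨z, hz, rfl⟩ := Finset.mem_image.mp hQ1
            exact Finset.mem_image_of_mem _ (Finset.mem_filter.mpr ⟨hz, hQ2⟩)
          have h2 : (P.filter fun Q => g (Q - c) ≤ γ / 16).card ≤ F.card :=
            (Finset.card_le_card h1).trans Finset.card_image_le
          have h3 := hc F (fun z hz => by
              have hz' := (Finset.mem_filter.mp hz).1
              exact ⟨(hS z (hF₀ hz')).1, hA z (hSX (hF₀ hz'))⟩)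
            (fun z hz z' hz' => hinj z (Finset.mem_filter.mp hz).1 z' (Finset.mem_filter.mp hz').1)
            (fun z hz z' hz' => by
              have e1 := (Finset.mem_filter.mp hz).2
              have e2 := (Finset.mem_filter.mp hz').2
              have e3 := hquad.par (LR.toPt hD z - c) (LR.toPt hD z' - c)
              have e4 := hquad.nonneg (LR.toPt hD z - c + (LR.toPt hD z' - c))
              have e5 : LR.toPt hD z - c - (LR.toPt hD z' - c) =
                  LR.toPt hD z - LR.toPt hD z' := by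
                abel
              rw [e5] at e3
              linarith)
          have h4 : ((P.filter fun Q => g (Q - c) ≤ γ / 16).card : ℝ) ≤ F.card := by
            exact_mod_cast h2
          exact h4.trans h3)
      have h5 : (F₀.card : ℝ) ≤ 10 ^ r * (max 1 (R / (γ / 16))) ^ ((r : ℝ) / 2) *
          (2 * max 1 (L a b / γ)) := by
        rw [hcard]
        refine hcov.trans ?_
        have e1 : (0 : ℝ) ≤ max 1 (R / (γ / 16)) := le_trans zero_le_one (le_max_left _ _)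
        have e2 : 28 * e₀ / α ^ 2 ≤ 2 * max 1 (L a b / γ) := by
          refine hK2.trans ?_
          gcongr
          exact le_max_right _ _
        gcongr
      have h6 := combine (a := a) (b := b) hR hγ0 (by norm_num : (1 : ℝ) ≤ 16)
        (by norm_num : (1 : ℝ) ≤ 2) h5
      refine h6.trans (le_of_eq ?_)
      norm_num
    have h1 := hpart (S.filter fun z => 0 ≤ z.2) (Finset.filter_subset _ _)
      (fun z hz z' hz' hne hx => by
        have e1 := Finset.mem_filter.mp hz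
        have e2 := Finset.mem_filter.mp hz'
        exact hne (LW.sign_inj (hS z e1.1).1 (hS z' e2.1).1 hx (Or.inl ⟨e1.2, e2.2⟩)))
    have h2 := hpart (S.filter fun z => ¬ 0 ≤ z.2) (Finset.filter_subset _ _)
      (fun z hz z' hz' hne hx => by
        have e1 := Finset.mem_filter.mp hz
        have e2 := Finset.mem_filter.mp hz'
        exact hne (LW.sign_inj (hS z e1.1).1 (hS z' e2.1).1 hx
          (Or.inr ⟨not_le.mp e1.2, not_le.mp e2.2⟩)))
    have hcard : (S.card : ℝ) = ((S.filter fun z => 0 ≤ z.2).card : ℝ) +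
        ((S.filter fun z => ¬ 0 ≤ z.2).card : ℝ) := by
      have := Finset.card_filter_add_card_filter_not (s := S) (fun z : ℤ × ℤ => 0 ≤ z.2)
      exact_mod_cast this.symm
    have hB := one_le_Bq a b r R γ
    have h3 := pow_add_pow_le (x := (320 : ℝ)) (y := 320) (n := 1 + r) (by norm_num)
      (by norm_num) (by omega)
    calc (S.card : ℝ) ≤ ((320 : ℝ) ^ (1 + r) + 320 ^ (1 + r)) * Bq a b r R γ := by
          rw [hcard, add_mul]
          exact add_le_add h1 h2
      _ ≤ (320 + 320 : ℝ) ^ (1 + r) * Bq a b r R γ :=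
          mul_le_mul_of_nonneg_right h3 (by linarith)
      _ = 640 ^ (1 + r) * Bq a b r R γ := by norm_num
  have h1 := hup a b hq g hg r hr γ (640 ^ (1 + r)) hγ0 (one_le_pow₀ (by norm_num)) X hX hball
  have h2 := quarter_beta (a := a) (b := b) r hβ hβ1 le_rfl
  rw [div_one, one_pow, one_mul] at h2
  calc (X.ncard : ℝ) ≤ 640 ^ (1 + r) * C₄ ^ (1 + r) * (max 1 (L a b / γ)) ^ (1 + (r : ℝ) / 4) := h1
    _ ≤ 640 ^ (1 + r) * C₄ ^ (1 + r) * Y := by gcongr
    _ = (640 * C₄) ^ (1 + r) * Y := by rw [mul_pow]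
    _ ≤ C ^ (1 + r) * Y := mono_pow (by linarith) (by linarith) _ hY0

end Pool.Agent.H24.LZ
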