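import Pool.Agent.H24.LZ.CoreQ
import Pool.Agent.H24.LZ.CountG
import Pool.Agent.H24.LZ.BaseB

/-!
# The bound with `(∑ (n_p log p)²)^{1/2}`
-/

namespace Pool.Agent.H24.LZ

open Pool.Agent.H24.LP Pool.Agent.H24.LQ Finset

/-- `(∑_{p ∣ den j} (n_p log p)²)^{1/2}`. -/
noncomputable def Qj (a b : ℤ) : ℝ :=
  Real.sqrt (∑ p ∈ poles a b, ((np a b p : ℝ) * Real.log p) ^ 2)

lemma Qj_nonneg (a b : ℤ) : 0 ≤ Qj a b := Real.sqrt_nonneg _

lemma Qm_nonneg (a b : ℤ) : 0 ≤ Qm a b := Real.sqrt_nonneg _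

lemma Qj_le {a b : ℤ} (hD : D a b ≠ 0) : Qj a b ≤ Qm a b + LX.Rst a b := by
  have hR := Rst_nonneg a b
  have hQ := Qm_nonneg a b
  have hsub : LX.mult a b ⊆ places a b := LX.mult_subset hD
  unfold Qj
  rw [Real.sqrt_le_left (by positivity)]
  have h1 : ∑ p ∈ poles a b, ((np a b p : ℝ) * Real.log p) ^ 2 ≤
      ∑ v ∈ places a b, nup a b v ^ 2 := by
    calc ∑ p ∈ poles a b, ((np a b p : ℝ) * Real.log p) ^ 2
        ≤ ∑ p ∈ poles a b, nup a b p ^ 2 := by
          refine Finset.sum_le_sum fun p hp => ?_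
          obtain ⟨hpr, -⟩ := places_of_poles hD hp
          have h2 : (np a b p : ℝ) * Real.log p ≤ nup a b p :=
            (nu_ge_np hD hpr).trans (le_max_right _ _)
          have h3 : 0 ≤ (np a b p : ℝ) * Real.log p :=
            mul_nonneg (Nat.cast_nonneg _) (Real.log_natCast_nonneg p)
          exact pow_le_pow_left₀ h3 h2 2
      _ ≤ ∑ v ∈ places a b, nup a b v ^ 2 :=
          Finset.sum_le_sum_of_subset_of_nonneg (fun p hp => (places_of_poles hD hp).2)
            fun v _ _ => sq_nonneg _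
  have h2 : ∑ v ∈ places a b, nup a b v ^ 2 =
      ∑ v ∈ places a b \ LX.mult a b, nup a b v ^ 2 + Qm a b ^ 2 := by
    rw [← Finset.sum_sdiff hsub]
    congr 1
    unfold Qm
    rw [Real.sq_sqrt (Finset.sum_nonneg fun p _ => sq_nonneg _)]
  have h3 : ∑ v ∈ places a b \ LX.mult a b, nup a b v ^ 2 ≤ LX.Rst a b ^ 2 := by
    set W := places a b \ LX.mult a b with hW
    set U : ℝ := ∑ v ∈ W, nup a b v with hU
    have hU0 : 0 ≤ U := Finset.sum_nonneg fun v _ => nup_nonneg a b v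
    have hUR : U ≤ LX.Rst a b := by
      have h4 : 0 ≤ ∑ v ∈ W.filter (fun v => 5 ≤ v), 2 * Real.log (v : ℝ) :=
        Finset.sum_nonneg fun v _ => mul_nonneg (by norm_num) (HeightData.log_nonneg' v)
      have h5 : LX.Rst a b = U + ∑ v ∈ W.filter (fun v => 5 ≤ v), 2 * Real.log (v : ℝ) := rfl
      linarith
    calc ∑ v ∈ W, nup a b v ^ 2 ≤ ∑ v ∈ W, nup a b v * U := by
          refine Finset.sum_le_sum fun p hp => ?_
          rw [sq]
          refine mul_le_mul_of_nonneg_left ?_ (nup_nonneg a b p)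
          exact Finset.single_le_sum (f := fun p => nup a b p) (fun q _ => nup_nonneg a b q) hp
      _ = U ^ 2 := by rw [← Finset.sum_mul, sq]
      _ ≤ LX.Rst a b ^ 2 := pow_le_pow_left₀ hU0 hUR 2
  nlinarith [mul_nonneg hQ hR]

/-- `x^(1+r/4) ≤ x^(3+r/4)` etc. -/
lemma pow_three {x : ℝ} (hx : 1 ≤ x) (r : ℕ) :
    x ^ 2 * x ^ (1 + (r : ℝ) / 4) = x ^ (3 + (r : ℝ) / 4) := by
  have hx0 : 0 < x := by linarith
  rw [← Real.rpow_natCast x 2, ← Real.rpow_add hx0]
  congr 1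
  push_cast
  ring

/-- All integral points, `γ ≤ (∑ (n_p log p)²)^{1/2}`. -/
theorem count_Q : ∃ C : ℝ, 1 ≤ C ∧ ∀ (a b : ℤ), QuasiMinimal a b →
    ∀ r : ℕ, Module.rank ℤ (curve a b).Point ≤ r → ∀ γ : ℝ, 0 < γ → γ ≤ Qj a b →
    ((integralPoints a b).ncard : ℝ) ≤ C ^ (1 + r) * (max 1 (L a b / γ)) ^ (3 + (r : ℝ) / 4) := by
  classical
  obtain ⟨Ch, hCh, hht⟩ := exists_height
  obtain ⟨K₀, hK₀, hcore⟩ := core_Q
  have hKK : 1 ≤ 2 * (K₀ * (1 + Ch)) := by nlinarith
  obtain ⟨C₁, hC₁, hb⟩ := bdd_ball Ch hCh (K := 2 * (K₀ * (1 + Ch))) hKK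
  obtain ⟨C₂, hC₂, hrest⟩ := rest_ball Ch hCh
  obtain ⟨C₄, hC₄, hup⟩ := upgrade Ch hCh
  set C : ℝ := C₁ * C₄ + C₂ * C₄ * 240 + 9600 * C₄ * 200000 * 8 with hC
  have hC14 : 1 ≤ C₁ * C₄ := by nlinarith
  have hC24 : 1 ≤ C₂ * C₄ := by nlinarith
  refine ⟨C, by linarith, fun a b hq r hr γ hγ hγQ => ?_⟩
  have hD := hq.ne
  have hL := L_pos a b
  have hr0 : (0 : ℝ) ≤ r := Nat.cast_nonneg r
  set m : ℝ := max 1 (L a b / γ) with hm
  have hm1 : 1 ≤ m := le_max_left _ _
  have hm0 : 0 ≤ m := by linarith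
  set Y : ℝ := m ^ (3 + (r : ℝ) / 4) with hY
  have hY1 : 1 ≤ Y := Real.one_le_rpow hm1 (by positivity)
  have hY0 : 0 ≤ Y := by linarith
  have hmY : m ^ (1 + (r : ℝ) / 4) ≤ Y :=
    Real.rpow_le_rpow_of_exponent_le hm1 (by linarith)
  obtain ⟨g, g1, g2, g3⟩ := hht a b hq.ne
  have hg : IsHt Ch g := ⟨g1, g2, g3⟩
  rcases le_total γ (2 * (K₀ * (1 + Ch))) with h | h
  · have hw := HeightData.wInf_nonneg (a := a) (b := b)
    have h1 := hup a b hq g hg r hr γ (C₁ ^ (1 + r)) hγ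
      (one_le_pow₀ hC₁) (integralPoints a b) (Set.Subset.refl _)
      (fun R hR S _ hS => hb a b hq g hg r hr R γ hR hγ (by nlinarith) S hS)
    refine h1.trans ?_
    calc C₁ ^ (1 + r) * C₄ ^ (1 + r) * m ^ (1 + (r : ℝ) / 4)
        ≤ C₁ ^ (1 + r) * C₄ ^ (1 + r) * Y := by gcongr
      _ = (C₁ * C₄) ^ (1 + r) * Y := by rw [mul_pow]
      _ ≤ C ^ (1 + r) * Y := mono_pow (by linarith) (by linarith) _ hY0
  rcases le_total (γ / 240) (LX.Rst a b) with h' | h'
  · have h1 := hup a b hq g hg r hr (γ / 240) (C₂ ^ (1 + r)) (by positivity)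
      (one_le_pow₀ hC₂) (integralPoints a b) (Set.Subset.refl _)
      (fun R hR S _ hS => hrest a b hq g hg r hr R (γ / 240) hR (by positivity) h' S hS)
    have h2 : (max 1 (L a b / (γ / 240))) ^ (1 + (r : ℝ) / 4) ≤ 240 ^ (1 + r) * Y := by
      have e1 := max_scale hL.le hγ (by norm_num : (1 : ℝ) ≤ 240) (le_refl (γ / 240))
      have e2 : (0 : ℝ) ≤ max 1 (L a b / (γ / 240)) := le_trans zero_le_one (le_max_left _ _)
      calc (max 1 (L a b / (γ / 240))) ^ (1 + (r : ℝ) / 4) ≤ (240 * m) ^ (1 + (r : ℝ) / 4) :=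
            Real.rpow_le_rpow e2 e1 (by positivity)
        _ = 240 ^ (1 + (r : ℝ) / 4) * m ^ (1 + (r : ℝ) / 4) := Real.mul_rpow (by norm_num) hm0
        _ ≤ 240 ^ (1 + r) * Y := by
            have e3 := rpow_quarter_le (by norm_num : (1 : ℝ) ≤ 240) r
            gcongr
    refine h1.trans ?_
    calc C₂ ^ (1 + r) * C₄ ^ (1 + r) * (max 1 (L a b / (γ / 240))) ^ (1 + (r : ℝ) / 4)
        ≤ C₂ ^ (1 + r) * C₄ ^ (1 + r) * (240 ^ (1 + r) * Y) := by gcongr
      _ = (C₂ * C₄ * 240) ^ (1 + r) * Y := by rw [mul_pow, mul_pow]; ring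
      _ ≤ C ^ (1 + r) * Y := mono_pow (by linarith) (by linarith) _ hY0
  -- the main case, `γ' = γ/2`
  set γ' : ℝ := γ / 2 with hγ'
  have hγ'0 : 0 < γ' := by positivity
  have hγ'Q : γ' ≤ Qm a b := by
    have := Qj_le hD
    have hR := Rst_nonneg a b
    linarith
  have hK0 : 0 ≤ K₀ * (1 + Ch) := by positivity
  have hquad := LR.can_quad hD hg.dbl hg.near
  have hc := hcore Ch hCh a b hD g hg γ' hγ'0 hγ'Q (by linarith) (by linarith)
  set m' : ℝ := max 1 (L a b / γ') with hm'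
  have hm'1 : 1 ≤ m' := le_max_left _ _
  have hm'0 : 0 < m' := by linarith
  have hm'm : m' ≤ 2 * m := max_scale hL.le hγ (by norm_num) (le_refl (γ / 2))
  have hLm' : L a b / γ' ≤ m' := le_max_right _ _
  have hLγ0 : 0 ≤ L a b / γ' := by positivity
  have hK2 : 50000 * (L a b / γ') ^ 3 ≤ 50000 * m' ^ 2 * m' := by
    have : (L a b / γ') ^ 3 ≤ m' ^ 3 := pow_le_pow_left₀ hLγ0 hLm' 3
    calc 50000 * (L a b / γ') ^ 3 ≤ 50000 * m' ^ 3 := by gcongr
      _ = 50000 * m' ^ 2 * m' := by ring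
  have hball : ∀ R : ℝ, 0 < R → ∀ S : Finset (ℤ × ℤ), Small hD g R S →
      (S.card : ℝ) ≤ (2 * (50000 * m' ^ 2)) * 4800 ^ (1 + r) * Bq a b r R γ' := by
    intro R hR S hS
    have hpart : ∀ F₀ : Finset (ℤ × ℤ), F₀ ⊆ S →
        (∀ z ∈ F₀, ∀ z' ∈ F₀, z ≠ z' → z.1 ≠ z'.1) →
        (F₀.card : ℝ) ≤ (50000 * m' ^ 2) * (4800 ^ (1 + r) * Bq a b r R γ') := by
      intro F₀ hF₀ hinj
      set P := F₀.image (LR.toPt hD) with hP
      have hcard : F₀.card = P.card := by
        symm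
        refine Finset.card_image_of_injOn fun z hz z' hz' h => ?_
        exact LR.toPt_injOn hD (hS z (hF₀ hz)).1 (hS z' (hF₀ hz')).1 h
      have hcov := covering_R hD hg r hr (R := R) (ρ := γ' / 480)
        (K := 50000 * (L a b / γ') ^ 3) hR
        (by positivity) (by positivity) P (fun Q hQ => by
          obtain ⟨z, hz, rfl⟩ := Finset.mem_image.mp hQ
          exact (hS z (hF₀ hz)).2.2) (fun c _ => by
          set F := F₀.filter fun z => g (LR.toPt hD z - c) ≤ γ' / 480 with hF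
          have h1 : (P.filter fun Q => g (Q - c) ≤ γ' / 480) ⊆ F.image (LR.toPt hD) := by
            intro Q hQ
            obtain ⟨hQ1, hQ2⟩ := Finset.mem_filter.mp hQ
            obtain ⟨z, hz, rfl⟩ := Finset.mem_image.mp hQ1
            exact Finset.mem_image_of_mem _ (Finset.mem_filter.mpr ⟨hz, hQ2⟩)
          have h2 : (P.filter fun Q => g (Q - c) ≤ γ' / 480).card ≤ F.card :=
            (Finset.card_le_card h1).trans Finset.card_image_le
          have h3 := hc F (fun z hz => (hS z (hF₀ (Finset.mem_filter.mp hz).1)).1)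
            (fun z hz z' hz' => hinj z (Finset.mem_filter.mp hz).1 z' (Finset.mem_filter.mp hz').1)
            (fun z hz z' hz' => by
              have e1 := (Finset.mem_filter.mp hz).2
              have e2 := (Finset.mem_filter.mp hz').2
              have e3 := hquad.par (LR.toPt hD z - c) (LR.toPt hD z' - c)
              have e4 := hquad.nonneg (LR.toPt hD z - c + (LR.toPt hD z' - c))
              have e5 : LR.toPt hD z - c - (LR.toPt hD z' - c) =
                  LR.toPt hD z - LR.toPt hD z' := by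
                abel
              rw [e5] at e3
              linarith)
          have h4 : ((P.filter fun Q => g (Q - c) ≤ γ' / 480).card : ℝ) ≤ F.card := by
            exact_mod_cast h2
          exact h4.trans h3)
      have hK' : 0 < 50000 * m' ^ 2 := by positivity
      have h5 : (F₀.card : ℝ) / (50000 * m' ^ 2) ≤
          10 ^ r * (max 1 (R / (γ' / 480))) ^ ((r : ℝ) / 2) * (1 * max 1 (L a b / γ')) := by
        rw [div_le_iff₀ hK', hcard]
        refine hcov.trans ?_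
        have e1 : (0 : ℝ) ≤ max 1 (R / (γ' / 480)) := le_trans zero_le_one (le_max_left _ _)
        calc 10 ^ r * (max 1 (R / (γ' / 480))) ^ ((r : ℝ) / 2) * (50000 * (L a b / γ') ^ 3)
            ≤ 10 ^ r * (max 1 (R / (γ' / 480))) ^ ((r : ℝ) / 2) * (50000 * m' ^ 2 * m') := by
              gcongr
          _ = _ := by rw [← hm']; ring
      have h6 := combine (a := a) (b := b) hR hγ'0 (by norm_num : (1 : ℝ) ≤ 480)
        (by norm_num : (1 : ℝ) ≤ 1) h5
      rw [div_le_iff₀ hK'] at h6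
      refine h6.trans (le_of_eq ?_)
      norm_num
      ring
    have h1 := hpart (S.filter fun z => 0 ≤ z.2) (Finset.filter_subset _ _)
      (fun z hz z' hz' hne hx => by
        have e1 := Finset.mem_filter.mp hz
        have e2 := Finset.mem_filter.mp hz'
        exact hne (LW.sign_inj (hS z e1.1).1 (hS z' e2.1).1 hx (Or.inl ⟨e1.2, e2.2⟩)))
    have h2 := hpart (S.filter fun z => ¬ 0 ≤ z.2) (Finset.filter_subset _ _)
      (fun z hz z' hz' hne hx => by
        have e1 := Finset.mem_filter.mp hz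
        have e2 := Finset.mem_filter.mp hz'
        exact hne (LW.sign_inj (hS z e1.1).1 (hS z' e2.1).1 hx
          (Or.inr ⟨not_le.mp e1.2, not_le.mp e2.2⟩)))
    have hcard : (S.card : ℝ) = ((S.filter fun z => 0 ≤ z.2).card : ℝ) +
        ((S.filter fun z => ¬ 0 ≤ z.2).card : ℝ) := by
      have := Finset.card_filter_add_card_filter_not (s := S) (fun z : ℤ × ℤ => 0 ≤ z.2)
      exact_mod_cast this.symm
    rw [hcard]
    linarith
  have hK1 : 1 ≤ (2 * (50000 * m' ^ 2)) * 4800 ^ (1 + r) := by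
    have e1 : (1 : ℝ) ≤ m' ^ 2 := one_le_pow₀ hm'1
    have e2 : (1 : ℝ) ≤ 4800 ^ (1 + r) := one_le_pow₀ (by norm_num)
    nlinarith
  have h1 := hup a b hq g hg r hr γ' ((2 * (50000 * m' ^ 2)) * 4800 ^ (1 + r)) hγ'0 hK1
    (integralPoints a b) (Set.Subset.refl _) (fun R hR S _ hS => hball R hR S hS)
  have h2 : m' ^ (3 + (r : ℝ) / 4) ≤ 8 ^ (1 + r) * Y := by
    calc m' ^ (3 + (r : ℝ) / 4) ≤ (2 * m) ^ (3 + (r : ℝ) / 4) :=
          Real.rpow_le_rpow hm'0.le hm'm (by positivity)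
      _ = 2 ^ (3 + (r : ℝ) / 4) * Y := Real.mul_rpow (by norm_num) hm0
      _ ≤ 8 ^ (1 + r) * Y := by
          have e1 : (2 : ℝ) ^ (3 + (r : ℝ) / 4) ≤ 8 ^ (1 + r) := by
            have e2 : (8 : ℝ) ^ (1 + r) = 2 ^ ((3 * (1 + r) : ℕ) : ℝ) := by
              rw [Real.rpow_natCast, pow_mul]
              norm_num
            rw [e2]
            refine Real.rpow_le_rpow_of_exponent_le (by norm_num) ?_
            push_cast
            linarith
          gcongr
  calc ((integralPoints a b).ncard : ℝ)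
      ≤ (2 * (50000 * m' ^ 2)) * 4800 ^ (1 + r) * C₄ ^ (1 + r) * m' ^ (1 + (r : ℝ) / 4) := h1
    _ = 100000 * (4800 ^ (1 + r) * C₄ ^ (1 + r)) * (m' ^ 2 * m' ^ (1 + (r : ℝ) / 4)) := by ring
    _ = 100000 * (4800 * C₄) ^ (1 + r) * m' ^ (3 + (r : ℝ) / 4) := by
        rw [pow_three hm'1, mul_pow]
    _ ≤ 100000 ^ (1 + r) * (4800 * C₄) ^ (1 + r) * (8 ^ (1 + r) * Y) := by
        have e1 : (100000 : ℝ) ≤ 100000 ^ (1 + r) := le_self_pow₀ (by norm_num) (by omega)
        gcongr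
    _ = (100000 * (4800 * C₄) * 8) ^ (1 + r) * Y := by
        rw [mul_pow (100000 * (4800 * C₄)), mul_pow (100000 : ℝ)]
        ring
    _ ≤ C ^ (1 + r) * Y := mono_pow (by positivity) (by linarith) _ hY0

end Pool.Agent.H24.LZ
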