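import Pool.Agent.H24.LX.Ener

/-!
# The energy against a test measure
-/

namespace Pool.Agent.H24.LZ

open Pool.Agent.H24.LP Pool.Agent.H24.LX Finset

/-- The kernel is positive. -/
theorem energy_weighted {κ : Type*} (s : Finset κ) (y w : κ → ℝ) :
    0 ≤ ∑ k ∈ s, ∑ l ∈ s, w k * w l * bern ((y k - y l : ℝ) : AddCircle (1 : ℝ)) := by
  have hA : HasSum (fun m : ℕ => ∑ k ∈ s, ∑ l ∈ s,
      w k * w l * (1 / (m : ℝ) ^ 2 * Real.cos (2 * Real.pi * m * (y k - y l))))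
      (∑ k ∈ s, ∑ l ∈ s, w k * w l *
        (Real.pi ^ 2 * bern ((y k - y l : ℝ) : AddCircle (1 : ℝ)))) :=
    hasSum_sum fun k _ => hasSum_sum fun l _ => (bern_hasSum (y k - y l)).mul_left _
  have h0 := hA.nonneg fun m => by
    show 0 ≤ ∑ k ∈ s, ∑ l ∈ s,
      w k * w l * (1 / (m : ℝ) ^ 2 * Real.cos (2 * Real.pi * m * (y k - y l)))
    have e : ∑ k ∈ s, ∑ l ∈ s,
        w k * w l * (1 / (m : ℝ) ^ 2 * Real.cos (2 * Real.pi * m * (y k - y l)))
        = 1 / (m : ℝ) ^ 2 * ((∑ k ∈ s, w k * Real.cos (2 * Real.pi * m * y k)) ^ 2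
          + (∑ k ∈ s, w k * Real.sin (2 * Real.pi * m * y k)) ^ 2) := by
      rw [sq (∑ k ∈ s, w k * Real.cos (2 * Real.pi * m * y k)),
        sq (∑ k ∈ s, w k * Real.sin (2 * Real.pi * m * y k)), Finset.sum_mul_sum,
        Finset.sum_mul_sum, ← Finset.sum_add_distrib, Finset.mul_sum]
      refine Finset.sum_congr rfl fun k _ => ?_
      rw [← Finset.sum_add_distrib, Finset.mul_sum]
      refine Finset.sum_congr rfl fun l _ => ?_
      rw [mul_sub (2 * Real.pi * (m : ℝ)), Real.cos_sub]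
      ring
    rw [e]
    positivity
  have hpi : (0 : ℝ) < Real.pi ^ 2 := by positivity
  refine nonneg_of_mul_nonneg_right (a := Real.pi ^ 2) (le_of_le_of_eq h0 ?_) hpi
  rw [Finset.mul_sum]
  refine Finset.sum_congr rfl fun k _ => ?_
  rw [Finset.mul_sum]
  exact Finset.sum_congr rfl fun l _ => by ring

lemma bern_symm (x y : ℝ) : bern ((x - y : ℝ) : AddCircle (1 : ℝ)) =
    bern ((y - x : ℝ) : AddCircle (1 : ℝ)) := by
  rw [bern_abs (x - y), bern_abs (y - x), abs_sub_comm]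

/-- The energy of a finite set against a test measure. -/
theorem energy_test {ι : Type*} (F : Finset ι) (t : ι → ℝ) {n : ℕ} (s ρ : Fin n → ℝ) (c : ℝ) :
    0 ≤ c ^ 2 * (∑ k, ∑ l, ρ k * ρ l * bern ((s k - s l : ℝ) : AddCircle (1 : ℝ)))
      - 2 * c * ∑ i ∈ F, ∑ k, ρ k * bern ((t i - s k : ℝ) : AddCircle (1 : ℝ))
      + ∑ i ∈ F, ∑ j ∈ F, bern ((t i - t j : ℝ) : AddCircle (1 : ℝ)) := by
  have h := energy_weighted (F.disjSum (Finset.univ : Finset (Fin n))) (Sum.elim t s)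
    (Sum.elim (fun _ => (1 : ℝ)) fun k => -(c * ρ k))
  rw [Finset.sum_disjSum] at h
  simp only [Finset.sum_disjSum, Sum.elim_inl, Sum.elim_inr] at h
  have e1 : ∑ x ∈ F, (∑ y ∈ F, 1 * 1 * bern ((t x - t y : ℝ) : AddCircle (1 : ℝ)) +
      ∑ k, 1 * -(c * ρ k) * bern ((t x - s k : ℝ) : AddCircle (1 : ℝ))) =
      ∑ i ∈ F, ∑ j ∈ F, bern ((t i - t j : ℝ) : AddCircle (1 : ℝ)) -
      c * ∑ i ∈ F, ∑ k, ρ k * bern ((t i - s k : ℝ) : AddCircle (1 : ℝ)) := by
    rw [Finset.sum_add_distrib, Finset.mul_sum, sub_eq_add_neg, ← Finset.sum_neg_distrib]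
    congr 1
    · refine Finset.sum_congr rfl fun i _ => Finset.sum_congr rfl fun j _ => by ring
    · refine Finset.sum_congr rfl fun i _ => ?_
      rw [Finset.mul_sum, ← Finset.sum_neg_distrib]
      exact Finset.sum_congr rfl fun k _ => by ring
  have e2 : ∑ x, (∑ y ∈ F, -(c * ρ x) * 1 * bern ((s x - t y : ℝ) : AddCircle (1 : ℝ)) +
      ∑ l, -(c * ρ x) * -(c * ρ l) * bern ((s x - s l : ℝ) : AddCircle (1 : ℝ))) =
      -(c * ∑ i ∈ F, ∑ k, ρ k * bern ((t i - s k : ℝ) : AddCircle (1 : ℝ))) +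
      c ^ 2 * (∑ k, ∑ l, ρ k * ρ l * bern ((s k - s l : ℝ) : AddCircle (1 : ℝ))) := by
    rw [Finset.sum_add_distrib, Finset.sum_comm (s := (Finset.univ : Finset (Fin n)))]
    congr 1
    · rw [Finset.mul_sum, ← Finset.sum_neg_distrib]
      refine Finset.sum_congr rfl fun i _ => ?_
      rw [Finset.mul_sum, ← Finset.sum_neg_distrib]
      refine Finset.sum_congr rfl fun k _ => ?_
      rw [bern_symm (s k) (t i)]
      ring
    · rw [Finset.mul_sum]
      refine Finset.sum_congr rfl fun k _ => ?_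
      rw [Finset.mul_sum]
      exact Finset.sum_congr rfl fun l _ => by ring
  rw [e1, e2] at h
  linarith

/-- The value at `|u| ≤ 1`. -/
theorem bern_val1 {u : ℝ} (h : |u| ≤ 1) :
    bern ((u : ℝ) : AddCircle (1 : ℝ)) = u ^ 2 - |u| + 1 / 6 := by
  rcases le_or_gt |u| (1 / 2) with h1 | h1
  · rw [bern_abs, bern_val (abs_nonneg u) h1, sq_abs]
  · have e : ((|u| : ℝ) : AddCircle (1 : ℝ)) = ((-(1 - |u|) : ℝ) : AddCircle (1 : ℝ)) := by
      have e1 : (-(1 - |u|) : ℝ) = |u| - 1 := by ring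
      rw [e1, AddCircle.coe_sub, AddCircle.coe_period, sub_zero]
    rw [bern_abs, e, bern_abs, abs_neg, abs_of_nonneg (by linarith : 0 ≤ 1 - |u|),
      bern_val (by linarith) (by linarith), ← sq_abs u]
    ring

end Pool.Agent.H24.LZ
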