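import Pool.Agent.H24.LZ.Shell
import Pool.Agent.H24.LX.Gcd
import Pool.Agent.H24.LQ.Opt

/-!
# Final bounds
-/

namespace Pool.Agent.H24.LZ

open Pool.Agent.H24.LP Pool.Agent.H24.LQ Finset

/-- Integral points with `g ≥ δL`, `|x| ≤ e^{100L}`. -/
theorem large_g (Ch : ℝ) (hCh : 0 ≤ Ch) : ∃ C : ℝ, 1 ≤ C ∧
    ∀ (a b : ℤ) (hq : QuasiMinimal a b), ∀ g : (curve a b).Point → ℝ, IsHt Ch g → ∀ r : ℕ,
    Module.rank ℤ (curve a b).Point ≤ r → ∀ δ : ℝ, 0 < δ → δ ≤ 1 →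
    ∀ S : Finset (ℤ × ℤ), (∀ z ∈ S, z ∈ integralPoints a b ∧
      |(z.1 : ℝ)| ≤ Real.exp (100 * L a b) ∧ δ * L a b ≤ g (LR.toPt hq.ne z)) →
    (S.card : ℝ) ≤ C ^ (1 + r) * (1 / δ) ^ (2 + (r : ℝ) / 2) := by
  classical
  obtain ⟨C₁, hC₁, hsh⟩ := shell Ch hCh
  refine ⟨1920 * C₁, by linarith, fun a b hq g hg r hr => ?_⟩
  have hD := hq.ne
  have hL := L_pos a b
  have hr0 : (0 : ℝ) ≤ r := Nat.cast_nonneg r
  -- the case `δ > 1/2`
  have hbase : ∀ δ : ℝ, 1 / 2 < δ → δ ≤ 1 →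
      ∀ S : Finset (ℤ × ℤ), (∀ z ∈ S, z ∈ integralPoints a b ∧
      |(z.1 : ℝ)| ≤ Real.exp (100 * L a b) ∧ δ * L a b ≤ g (LR.toPt hD z)) →
      (S.card : ℝ) ≤ (1920 * C₁) ^ (1 + r) * (1 / δ) ^ (2 + (r : ℝ) / 2) := by
    intro δ hδ hδ1 S hS
    have hδ0 : 0 < δ := by linarith
    have h1 := hsh a b hq g hg r hr (120 * L a b) δ (by positivity) hδ0 hδ1 S
      (fun z hz => ⟨(hS z hz).1, (hS z hz).2.1, LX.g_toPt_le hD hg (hS z hz).1 (hS z hz).2.1⟩)
      (fun z hz => (hS z hz).2.2)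
    have h1δ : 1 ≤ 1 / δ := by rw [le_div_iff₀ hδ0]; linarith
    have h2δ : 1 / δ ≤ 2 := by rw [div_le_iff₀ hδ0]; linarith
    have e1 : max 1 (120 * L a b / (δ ^ 2 * L a b)) ≤ 480 := by
      have : 120 * L a b / (δ ^ 2 * L a b) = 120 * (1 / δ) ^ 2 := by field_simp
      rw [this]
      refine max_le (by norm_num) ?_
      nlinarith
    have e2 : max 1 (L a b / (δ ^ 2 * L a b)) ≤ 4 := by
      have : L a b / (δ ^ 2 * L a b) = (1 / δ) ^ 2 := by field_simp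
      rw [this]
      refine max_le (by norm_num) ?_
      nlinarith
    have e3 : Bq a b r (120 * L a b) (δ ^ 2 * L a b) ≤ 1920 ^ (1 + r) := by
      unfold Bq
      have e4 : (0 : ℝ) ≤ max 1 (120 * L a b / (δ ^ 2 * L a b)) :=
        le_trans zero_le_one (le_max_left _ _)
      have e5 : (0 : ℝ) ≤ max 1 (L a b / (δ ^ 2 * L a b)) := le_trans zero_le_one (le_max_left _ _)
      calc (max 1 (120 * L a b / (δ ^ 2 * L a b))) ^ ((r : ℝ) / 2) *
          max 1 (L a b / (δ ^ 2 * L a b)) ≤ (480 : ℝ) ^ ((r : ℝ) / 2) * 4 := by gcongr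
        _ ≤ 480 ^ r * 4 := by
            have := pow_half_le (by norm_num : (1 : ℝ) ≤ 480) r
            gcongr
        _ ≤ 1920 ^ r * 1920 := by
            have : (480 : ℝ) ^ r ≤ 1920 ^ r := pow_le_pow_left₀ (by norm_num) (by norm_num) r
            have h0 : (0 : ℝ) ≤ 480 ^ r := by positivity
            nlinarith
        _ = 1920 ^ (1 + r) := by rw [add_comm 1 r, pow_succ]
    calc (S.card : ℝ) ≤ C₁ ^ (1 + r) * 1920 ^ (1 + r) :=
          h1.trans (mul_le_mul_of_nonneg_left e3 (by positivity))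
      _ = (1920 * C₁) ^ (1 + r) := by rw [mul_pow]; ring
      _ ≤ (1920 * C₁) ^ (1 + r) * (1 / δ) ^ (2 + (r : ℝ) / 2) :=
          le_mul_of_one_le_right (by positivity) (Real.one_le_rpow h1δ (by positivity))
  -- induction
  have hind : ∀ (n : ℕ) (δ : ℝ), 0 < δ → δ ≤ 1 → 1 ≤ 2 ^ n * δ →
      ∀ S : Finset (ℤ × ℤ), (∀ z ∈ S, z ∈ integralPoints a b ∧
      |(z.1 : ℝ)| ≤ Real.exp (100 * L a b) ∧ δ * L a b ≤ g (LR.toPt hD z)) →
      (S.card : ℝ) ≤ (1920 * C₁) ^ (1 + r) * (1 / δ) ^ (2 + (r : ℝ) / 2) := by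
    intro n
    induction n with
    | zero =>
      intro δ hδ hδ1 hn S hS
      rw [pow_zero, one_mul] at hn
      exact hbase δ (by linarith) hδ1 S hS
    | succ n ih =>
      intro δ hδ hδ1 hn S hS
      rcases lt_or_ge (1 / 2) δ with h | h
      · exact hbase δ h hδ1 S hS
      have h2δ : 2 * δ ≤ 1 := by linarith
      set P : ℤ × ℤ → Prop := fun z => 2 * δ * L a b ≤ g (LR.toPt hD z) with hP
      have h1 := ih (2 * δ) (by linarith) h2δ (by rw [pow_succ] at hn; linarith) (S.filter P)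
        (fun z hz => by
          have hz' := Finset.mem_filter.mp hz
          exact ⟨(hS z hz'.1).1, (hS z hz'.1).2.1, hz'.2⟩)
      have h2 := hsh a b hq g hg r hr (2 * δ * L a b) δ (by positivity) hδ hδ1
        (S.filter fun z => ¬ P z) (fun z hz => by
          have hz' := Finset.mem_filter.mp hz
          exact ⟨(hS z hz'.1).1, (hS z hz'.1).2.1, (not_le.mp hz'.2).le⟩)
        (fun z hz => (hS z (Finset.mem_filter.mp hz).1).2.2)
      have h1δ : 1 ≤ 1 / δ := by rw [le_div_iff₀ hδ]; linarith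
      have hx0 : (0 : ℝ) < 1 / δ := by linarith
      set x : ℝ := 1 / δ with hx
      have e1 : max 1 (2 * δ * L a b / (δ ^ 2 * L a b)) = 2 * x := by
        have : 2 * δ * L a b / (δ ^ 2 * L a b) = 2 * x := by rw [hx]; field_simp
        rw [this, max_eq_right (by linarith)]
      have e2 : max 1 (L a b / (δ ^ 2 * L a b)) = x ^ 2 := by
        have : L a b / (δ ^ 2 * L a b) = x ^ 2 := by rw [hx]; field_simp
        rw [this, max_eq_right (one_le_pow₀ h1δ)]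
      have e3 : Bq a b r (2 * δ * L a b) (δ ^ 2 * L a b) ≤ 2 ^ (1 + r) * x ^ (2 + (r : ℝ) / 2) := by
        unfold Bq
        rw [e1, e2, Real.mul_rpow (by norm_num) hx0.le, Real.rpow_add hx0, Real.rpow_two]
        have e4 : (2 : ℝ) ^ ((r : ℝ) / 2) ≤ 2 ^ (1 + r) := by
          refine (pow_half_le (by norm_num : (1 : ℝ) ≤ 2) r).trans ?_
          exact pow_le_pow_right₀ (by norm_num) (by omega)
        have e5 : (0 : ℝ) ≤ x ^ ((r : ℝ) / 2) * x ^ 2 := by positivity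
        calc (2 : ℝ) ^ ((r : ℝ) / 2) * x ^ ((r : ℝ) / 2) * x ^ 2
            = (2 : ℝ) ^ ((r : ℝ) / 2) * (x ^ ((r : ℝ) / 2) * x ^ 2) := by ring
          _ ≤ 2 ^ (1 + r) * (x ^ ((r : ℝ) / 2) * x ^ 2) := mul_le_mul_of_nonneg_right e4 e5
          _ = _ := by ring
      have e6 : (1 / (2 * δ)) ^ (2 + (r : ℝ) / 2) ≤ 1 / 4 * x ^ (2 + (r : ℝ) / 2) := by
        have e7 : 1 / (2 * δ) = 1 / 2 * x := by rw [hx]; field_simp
        rw [e7, Real.mul_rpow (by norm_num) hx0.le]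
        have e8 : (1 / 2 : ℝ) ^ (2 + (r : ℝ) / 2) ≤ 1 / 4 := by
          calc (1 / 2 : ℝ) ^ (2 + (r : ℝ) / 2) ≤ (1 / 2 : ℝ) ^ (2 : ℝ) :=
                Real.rpow_le_rpow_of_exponent_ge (by norm_num) (by norm_num) (by linarith)
            _ = 1 / 4 := by rw [Real.rpow_two]; norm_num
        gcongr
      have e9 : (C₁ ^ (1 + r) * 2 ^ (1 + r) : ℝ) ≤ 1 / 2 * (1920 * C₁) ^ (1 + r) := by
        have e10 : (1920 * C₁) ^ (1 + r) = 960 ^ (1 + r) * (C₁ ^ (1 + r) * 2 ^ (1 + r)) := by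
          rw [← mul_pow, ← mul_pow]
          congr 1
          ring
        rw [e10]
        have e11 : (960 : ℝ) ≤ 960 ^ (1 + r) := le_self_pow₀ (by norm_num) (by omega)
        have e12 : (0 : ℝ) ≤ C₁ ^ (1 + r) * 2 ^ (1 + r) := by positivity
        nlinarith
      have hX : (0 : ℝ) ≤ x ^ (2 + (r : ℝ) / 2) := by positivity
      have hcard : (S.card : ℝ) = ((S.filter P).card : ℝ) + ((S.filter fun z => ¬ P z).card : ℝ) := by
        have h5 := Finset.card_filter_add_card_filter_not (s := S) P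
        exact_mod_cast h5.symm
      have hBn : (0 : ℝ) ≤ (1920 * C₁) ^ (1 + r) := by positivity
      calc (S.card : ℝ) ≤ (1920 * C₁) ^ (1 + r) * (1 / 4 * x ^ (2 + (r : ℝ) / 2)) +
            C₁ ^ (1 + r) * (2 ^ (1 + r) * x ^ (2 + (r : ℝ) / 2)) := by
            rw [hcard]
            exact add_le_add (h1.trans (mul_le_mul_of_nonneg_left e6 hBn))
              (h2.trans (mul_le_mul_of_nonneg_left e3 (by positivity)))
        _ = (1 / 4 * (1920 * C₁) ^ (1 + r) + C₁ ^ (1 + r) * 2 ^ (1 + r)) *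
            x ^ (2 + (r : ℝ) / 2) := by ring
        _ ≤ (1920 * C₁) ^ (1 + r) * x ^ (2 + (r : ℝ) / 2) := by
            refine mul_le_mul_of_nonneg_right ?_ hX
            linarith
  intro δ hδ hδ1 S hS
  obtain ⟨n, hn⟩ := pow_unbounded_of_one_lt (1 / δ) (by norm_num : (1 : ℝ) < 2)
  refine hind n δ hδ hδ1 ?_ S hS
  rw [div_lt_iff₀ hδ] at hn
  exact hn.le

/-- From balls to all points. -/
theorem upgrade (Ch : ℝ) (hCh : 0 ≤ Ch) : ∃ C : ℝ, 1 ≤ C ∧
    ∀ (a b : ℤ) (hq : QuasiMinimal a b), ∀ g : (curve a b).Point → ℝ, IsHt Ch g → ∀ r : ℕ,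
    Module.rank ℤ (curve a b).Point ≤ r → ∀ γ K : ℝ, 0 < γ → 1 ≤ K →
    ∀ X : Set (ℤ × ℤ), X ⊆ integralPoints a b →
    (∀ R : ℝ, 0 < R → ∀ S : Finset (ℤ × ℤ), (S : Set (ℤ × ℤ)) ⊆ X → Small hq.ne g R S →
      (S.card : ℝ) ≤ K * Bq a b r R γ) →
    (X.ncard : ℝ) ≤ K * C ^ (1 + r) * (max 1 (L a b / γ)) ^ (1 + (r : ℝ) / 4) := by
  classical
  obtain ⟨C₁, hC₁, hlg⟩ := large_g Ch hCh
  obtain ⟨C₂, hC₂, hlarge⟩ := LR.large_count
  refine ⟨1 + C₁ + C₂, by linarith, fun a b hq g hg r hr γ K hγ hK X hX hXS => ?_⟩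
  have hD := hq.ne
  have hL := L_pos a b
  have hr0 : (0 : ℝ) ≤ r := Nat.cast_nonneg r
  set m : ℝ := max 1 (L a b / γ) with hm
  have hm1 : 1 ≤ m := le_max_left _ _
  have hmL : L a b / γ ≤ m := le_max_right _ _
  set s : ℝ := Real.sqrt m with hs
  have hs2 : s ^ 2 = m := Real.sq_sqrt (by linarith)
  have hs1 : 1 ≤ s := by rw [hs, Real.one_le_sqrt]; exact hm1
  have hs0 : 0 < s := by linarith
  have hpow : m ^ (1 + (r : ℝ) / 4) = s ^ (2 + (r : ℝ) / 2) := by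
    rw [← hs2, ← Real.rpow_natCast, ← Real.rpow_mul hs0.le]
    congr 1
    push_cast
    ring
  have hpow1 : 1 ≤ s ^ (2 + (r : ℝ) / 2) := Real.one_le_rpow hs1 (by positivity)
  refine LW.ncard_of_finset (by positivity) fun S hS => ?_
  set P : ℤ × ℤ → Prop := fun z => |(z.1 : ℝ)| ≤ Real.exp (100 * L a b) with hP
  set Q : ℤ × ℤ → Prop := fun z => g (LR.toPt hD z) ≤ L a b / s with hQ
  have h1 : ((S.filter fun z => P z ∧ Q z).card : ℝ) ≤ K * s ^ (2 + (r : ℝ) / 2) := by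
    have e1 := hXS (L a b / s) (by positivity) (S.filter fun z => P z ∧ Q z)
      (fun z hz => hS (Finset.mem_filter.mp hz).1)
      (fun z hz => by
        have hz' := Finset.mem_filter.mp hz
        exact ⟨hX (hS hz'.1), hz'.2.1, hz'.2.2⟩)
    refine e1.trans (mul_le_mul_of_nonneg_left ?_ (by linarith))
    unfold Bq
    have e2 : max 1 (L a b / s / γ) ≤ s := by
      refine max_le hs1 ?_
      have e3 : L a b / s / γ = (L a b / γ) / s := by field_simp
      rw [e3, div_le_iff₀ hs0]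
      calc L a b / γ ≤ m := hmL
        _ = s * s := by rw [← hs2]; ring
    have e4 : (0 : ℝ) ≤ max 1 (L a b / s / γ) := le_trans zero_le_one (le_max_left _ _)
    calc (max 1 (L a b / s / γ)) ^ ((r : ℝ) / 2) * m ≤ s ^ ((r : ℝ) / 2) * s ^ 2 := by
          rw [hs2]
          gcongr
      _ = s ^ (2 + (r : ℝ) / 2) := by
          rw [Real.rpow_add hs0, Real.rpow_two]
          ring
  have h2 : ((S.filter fun z => P z ∧ ¬ Q z).card : ℝ) ≤
      C₁ ^ (1 + r) * s ^ (2 + (r : ℝ) / 2) := by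
    have e1 := hlg a b hq g hg r hr (1 / s) (by positivity)
      (by rw [div_le_one hs0]; exact hs1) (S.filter fun z => P z ∧ ¬ Q z) (fun z hz => by
        have hz' := Finset.mem_filter.mp hz
        refine ⟨hX (hS hz'.1), hz'.2.1, ?_⟩
        have := not_le.mp hz'.2.2
        have e2 : 1 / s * L a b = L a b / s := by ring
        rw [e2]
        exact this.le)
    have e3 : 1 / (1 / s) = s := one_div_one_div s
    rwa [e3] at e1
  have h3 : ((S.filter fun z => ¬ P z).card : ℝ) ≤ C₂ ^ (1 + r) :=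
    hlarge a b hD r hr (S.filter fun z => ¬ P z) (fun z hz => by
      have hz' := Finset.mem_filter.mp hz
      refine ⟨hX (hS hz'.1), ?_⟩
      have h3 := not_le.mp hz'.2
      have hpos : 0 < |(z.1 : ℝ)| := (Real.exp_pos _).trans h3
      rw [Real.le_log_iff_exp_le hpos]
      exact h3.le)
  have hcov : S ⊆ ((S.filter fun z => P z ∧ Q z) ∪ (S.filter fun z => P z ∧ ¬ Q z)) ∪
      (S.filter fun z => ¬ P z) := by
    intro z hz
    simp only [Finset.mem_union, Finset.mem_filter]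
    by_cases hp : P z
    · by_cases hq' : Q z
      · exact Or.inl (Or.inl ⟨hz, hp, hq'⟩)
      · exact Or.inl (Or.inr ⟨hz, hp, hq'⟩)
    · exact Or.inr ⟨hz, hp⟩
  have hcard : (S.card : ℝ) ≤ ((S.filter fun z => P z ∧ Q z).card : ℝ) +
      ((S.filter fun z => P z ∧ ¬ Q z).card : ℝ) + ((S.filter fun z => ¬ P z).card : ℝ) := by
    have h4 := (Finset.card_le_card hcov).trans (Finset.card_union_le _ _)
    have h5 := Finset.card_union_le (S.filter fun z => P z ∧ Q z)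
      (S.filter fun z => P z ∧ ¬ Q z)
    have h6 : S.card ≤ (S.filter fun z => P z ∧ Q z).card +
      (S.filter fun z => P z ∧ ¬ Q z).card + (S.filter fun z => ¬ P z).card := by omega
    exact_mod_cast h6
  have h7 := LW.pow_sum3 (x := 1) (y := C₁) (z := C₂) (by norm_num) (by linarith) (by linarith) r
  rw [one_pow] at h7
  rw [hpow]
  set Y : ℝ := s ^ (2 + (r : ℝ) / 2) with hY
  have hY0 : 0 ≤ Y := by linarith
  calc (S.card : ℝ) ≤ K * Y + C₁ ^ (1 + r) * Y + C₂ ^ (1 + r) :=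
        hcard.trans (add_le_add (add_le_add h1 h2) h3)
    _ ≤ K * Y + K * (C₁ ^ (1 + r) * Y) + K * (C₂ ^ (1 + r) * Y) := by
        have e1 : (0 : ℝ) ≤ C₁ ^ (1 + r) * Y := by positivity
        have e2 : (0 : ℝ) ≤ C₂ ^ (1 + r) := by positivity
        have e3 : C₁ ^ (1 + r) * Y ≤ K * (C₁ ^ (1 + r) * Y) := le_mul_of_one_le_left e1 hK
        have e4 : C₂ ^ (1 + r) ≤ C₂ ^ (1 + r) * Y := le_mul_of_one_le_right e2 hpow1
        have e5 : C₂ ^ (1 + r) * Y ≤ K * (C₂ ^ (1 + r) * Y) :=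
          le_mul_of_one_le_left (by positivity) hK
        linarith
    _ = K * (1 + C₁ ^ (1 + r) + C₂ ^ (1 + r)) * Y := by ring
    _ ≤ K * (1 + C₁ + C₂) ^ (1 + r) * Y := by gcongr

lemma rpow_quarter_le {x : ℝ} (hx : 1 ≤ x) (r : ℕ) : x ^ (1 + (r : ℝ) / 4) ≤ x ^ (1 + r) := by
  rw [← Real.rpow_natCast x (1 + r)]
  refine Real.rpow_le_rpow_of_exponent_le hx ?_
  push_cast
  have : (0 : ℝ) ≤ r := Nat.cast_nonneg r
  linarith

/-- The bound with a set of primes. -/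
theorem main_T' : ∃ C : ℝ, 1 ≤ C ∧ ∀ a b : ℤ, QuasiMinimal a b →
    ∀ r : ℕ, Module.rank ℤ (curve a b).Point ≤ r → ∀ T : Finset ℕ,
    (integralPoints a b).Finite ∧ ((integralPoints a b).ncard : ℝ) ≤
      C ^ (1 + r + T.card) * (L a b / GT a b T) ^ (1 + (r : ℝ) / 4) := by
  obtain ⟨Ch, hCh, hht⟩ := exists_height
  obtain ⟨C₁, hC₁, hball⟩ := ball_T Ch hCh
  obtain ⟨C₂, hC₂, hup⟩ := upgrade Ch hCh
  obtain ⟨C₃, hC₃, hT⟩ := LR.main_T
  refine ⟨C₁ * C₂ * 54, by nlinarith, fun a b hq r hr T => ⟨(hT a b hq r hr ∅).1, ?_⟩⟩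
  obtain ⟨g, g1, g2, g3⟩ := hht a b hq.ne
  have hg : IsHt Ch g := ⟨g1, g2, g3⟩
  have hL := L_pos a b
  have hG := one_le_GT a b T
  have hG0 : 0 < GT a b T := by linarith
  have h1 := hup a b hq g hg r hr (GT a b T) (C₁ ^ (1 + r + T.card)) hG0
    (one_le_pow₀ hC₁) (integralPoints a b) (Set.Subset.refl _)
    (fun R hR S _ hS => hball a b hq g hg r hr T R hR S hS)
  refine h1.trans ?_
  have h2 : max 1 (L a b / GT a b T) ≤ 54 * (L a b / GT a b T) := by
    have h3 : 1 ≤ 54 * (L a b / GT a b T) := by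
      rw [mul_div_assoc', le_div_iff₀ hG0]
      have := GT_le hq.ne T
      linarith
    refine max_le h3 ?_
    have : 0 < L a b / GT a b T := by positivity
    linarith
  have h3 : (max 1 (L a b / GT a b T)) ^ (1 + (r : ℝ) / 4) ≤
      54 ^ (1 + r) * (L a b / GT a b T) ^ (1 + (r : ℝ) / 4) := by
    calc (max 1 (L a b / GT a b T)) ^ (1 + (r : ℝ) / 4)
        ≤ (54 * (L a b / GT a b T)) ^ (1 + (r : ℝ) / 4) :=
          Real.rpow_le_rpow (le_trans zero_le_one (le_max_left _ _)) h2 (by positivity)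
      _ = 54 ^ (1 + (r : ℝ) / 4) * (L a b / GT a b T) ^ (1 + (r : ℝ) / 4) :=
          Real.mul_rpow (by norm_num) (by positivity)
      _ ≤ _ := by
          have := rpow_quarter_le (by norm_num : (1 : ℝ) ≤ 54) r
          gcongr
  have h4 : (C₂ * 54) ^ (1 + r) ≤ (C₂ * 54) ^ (1 + r + T.card) :=
    pow_le_pow_right₀ (by linarith) (by omega)
  calc C₁ ^ (1 + r + T.card) * C₂ ^ (1 + r) * (max 1 (L a b / GT a b T)) ^ (1 + (r : ℝ) / 4)
      ≤ C₁ ^ (1 + r + T.card) * C₂ ^ (1 + r) *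
        (54 ^ (1 + r) * (L a b / GT a b T) ^ (1 + (r : ℝ) / 4)) := by gcongr
    _ = C₁ ^ (1 + r + T.card) * (C₂ * 54) ^ (1 + r) *
        (L a b / GT a b T) ^ (1 + (r : ℝ) / 4) := by rw [mul_pow C₂]; ring
    _ ≤ C₁ ^ (1 + r + T.card) * (C₂ * 54) ^ (1 + r + T.card) *
        (L a b / GT a b T) ^ (1 + (r : ℝ) / 4) := by gcongr
    _ = _ := by rw [← mul_pow, mul_assoc C₁]

/-- All integral points. -/
theorem main_Z' : ∃ C : ℝ, 1 ≤ C ∧ ∀ a b : ℤ, QuasiMinimal a b →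
    ∀ r : ℕ, Module.rank ℤ (curve a b).Point ≤ r →
    (integralPoints a b).Finite ∧
    (∀ T : Finset ℕ, ((integralPoints a b).ncard : ℝ) ≤
      C ^ (1 + r + T.card) * (L a b / GT a b T) ^ (1 + (r : ℝ) / 4)) ∧
    (∀ m : ℕ, 1 ≤ m → ((integralPoints a b).ncard : ℝ) ≤
      C ^ (1 + r + ((poles a b).filter fun p => m < np a b p).card) *
        (m : ℝ) ^ (2 + (r : ℝ) / 2)) ∧
    (∀ η : ℝ, 0 < η → η ≤ 1 → (η * L a b ≤ wInf a b ∨
      ∃ p : ℕ, η * L a b ≤ np a b p * Real.log p) →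
      ((integralPoints a b).ncard : ℝ) ≤ C ^ (1 + r) * (1 / η) ^ (1 + (r : ℝ) / 4)) ∧
    ((integralPoints a b).ncard : ℝ) ≤ C ^ (1 + r) *
      (max 1 (L a b / ((1 + r) * Real.log (2 + L a b)))) ^ ((4 + (r : ℝ)) / 6) := by
  classical
  obtain ⟨C₁, hC₁, h₁⟩ := main_T'
  obtain ⟨C₂, hC₂⟩ := L_le_GT_poles
  obtain ⟨C₃, hC₃, h₃⟩ := exists_T
  set B : ℝ := max 1 C₂ with hB
  have hB1 : 1 ≤ B := le_max_left _ _
  set C : ℝ := 2 * (C₁ ^ 2 * (B * C₃)) with hC
  have hC1sq : 1 ≤ C₁ ^ 2 := one_le_pow₀ hC₁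
  have hBC1 : 1 ≤ B * C₃ := by nlinarith
  have hCge : C₁ ^ 2 ≤ C := by
    have h0 : C₁ ^ 2 ≤ C₁ ^ 2 * (B * C₃) := le_mul_of_one_le_right (by linarith) hBC1
    rw [hC]
    linarith
  have hC₁C : C₁ ≤ C := by nlinarith
  refine ⟨C, by linarith, fun a b hq r hr => ?_⟩
  have hL := L_pos a b
  have hr0 : (0 : ℝ) ≤ r := Nat.cast_nonneg r
  have hfin := (h₁ a b hq r hr ∅).1
  refine ⟨hfin, fun T => ?_, ?_, ?_, ?_⟩
  · refine (h₁ a b hq r hr T).2.trans ?_
    have hG := one_le_GT a b T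
    gcongr
  · -- the primes with `n_p > m`
    intro m hm
    set T := (poles a b).filter fun p => m < np a b p with hT
    refine (h₁ a b hq r hr T).2.trans ?_
    have hm1 : (1 : ℝ) ≤ m := by exact_mod_cast hm
    have hG := one_le_GT a b T
    have hG0 : 0 < GT a b T := by linarith
    have h2 : L a b / GT a b T ≤ 2 * B * (m : ℝ) ^ 2 := by
      rw [div_le_iff₀ hG0]
      have h3 := hC₂ a b hq (poles a b) (Finset.Subset.refl _)
      have h4 := one_le_GT a b (poles a b)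
      have h5 : C₂ * GT a b (poles a b) ≤ B * GT a b (poles a b) :=
        mul_le_mul_of_nonneg_right (le_max_right _ _) (by linarith)
      have h6 := mul_le_mul_of_nonneg_left (LR.GT_filter (a := a) (b := b) hm)
        (by linarith : (0 : ℝ) ≤ B)
      calc L a b ≤ B * GT a b (poles a b) := h3.trans h5
        _ ≤ B * (2 * (m : ℝ) ^ 2 * GT a b T) := h6
        _ = _ := by ring
    have hm2 : ((m : ℝ) ^ 2) ^ (1 + (r : ℝ) / 4) = (m : ℝ) ^ (2 + (r : ℝ) / 2) := by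
      rw [← Real.rpow_natCast (m : ℝ) 2, ← Real.rpow_mul (by linarith)]
      congr 1
      push_cast
      ring
    have h3 : (L a b / GT a b T) ^ (1 + (r : ℝ) / 4) ≤
        (2 * B) ^ (1 + r) * (m : ℝ) ^ (2 + (r : ℝ) / 2) := by
      calc (L a b / GT a b T) ^ (1 + (r : ℝ) / 4)
          ≤ (2 * B * (m : ℝ) ^ 2) ^ (1 + (r : ℝ) / 4) :=
            Real.rpow_le_rpow (by positivity) h2 (by positivity)
        _ = (2 * B) ^ (1 + (r : ℝ) / 4) * (m : ℝ) ^ (2 + (r : ℝ) / 2) := by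
            rw [Real.mul_rpow (by linarith) (by positivity), hm2]
        _ ≤ _ := by
            gcongr
            exact rpow_quarter_le (by linarith) r
    calc C₁ ^ (1 + r + T.card) * (L a b / GT a b T) ^ (1 + (r : ℝ) / 4)
        ≤ C₁ ^ (1 + r + T.card) * ((2 * B) ^ (1 + r) * (m : ℝ) ^ (2 + (r : ℝ) / 2)) := by gcongr
      _ ≤ C₁ ^ (1 + r + T.card) * ((2 * B) ^ (1 + r + T.card) * (m : ℝ) ^ (2 + (r : ℝ) / 2)) := by
          have h6 : (2 * B) ^ (1 + r) ≤ (2 * B) ^ (1 + r + T.card) :=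
            pow_le_pow_right₀ (by linarith) (by omega)
          gcongr
      _ = (C₁ * (2 * B)) ^ (1 + r + T.card) * (m : ℝ) ^ (2 + (r : ℝ) / 2) := by
          rw [mul_pow]; ring
      _ ≤ C ^ (1 + r + T.card) * (m : ℝ) ^ (2 + (r : ℝ) / 2) := by
          have h4 : C₁ ≤ C₁ ^ 2 := by nlinarith
          have h5 : B ≤ B * C₃ := by nlinarith
          have h7 : C₁ * (2 * B) ≤ C := by
            rw [hC]
            calc C₁ * (2 * B) = 2 * (C₁ * B) := by ring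
              _ ≤ 2 * (C₁ ^ 2 * (B * C₃)) := by gcongr
          gcongr
  · -- one large term
    intro η hη hη1 hcase
    have hx1 : 1 ≤ 1 / η := by rw [le_div_iff₀ hη]; linarith
    obtain ⟨T, hTc, hTG⟩ : ∃ T : Finset ℕ, T.card ≤ 1 ∧ η * L a b ≤ GT a b T := by
      have hw := HeightData.wInf_nonneg (a := a) (b := b)
      rcases hcase with h | ⟨p, hp⟩
      · refine ⟨∅, by simp, ?_⟩
        obtain ⟨g1, g2, g3⟩ := GT_terms a b ∅
        unfold GT
        linarith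
      · refine ⟨{p}, by simp, ?_⟩
        obtain ⟨g1, g2, g3⟩ := GT_terms a b {p}
        have e : ∑ x ∈ ({p} : Finset ℕ), (np a b x : ℝ) * Real.log x = np a b p * Real.log p :=
          Finset.sum_singleton _ _
        unfold GT
        linarith
    have hG := one_le_GT a b T
    have hG0 : 0 < GT a b T := by linarith
    have h2 : L a b / GT a b T ≤ 1 / η := by
      rw [div_le_div_iff₀ hG0 hη]
      linarith
    have h3 : (L a b / GT a b T) ^ (1 + (r : ℝ) / 4) ≤ (1 / η) ^ (1 + (r : ℝ) / 4) :=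
      Real.rpow_le_rpow (by positivity) h2 (by positivity)
    refine (h₁ a b hq r hr T).2.trans ?_
    calc C₁ ^ (1 + r + T.card) * (L a b / GT a b T) ^ (1 + (r : ℝ) / 4)
        ≤ C₁ ^ (2 * (1 + r)) * (1 / η) ^ (1 + (r : ℝ) / 4) := by
          have h6 : C₁ ^ (1 + r + T.card) ≤ C₁ ^ (2 * (1 + r)) :=
            pow_le_pow_right₀ hC₁ (by omega)
          gcongr
      _ = (C₁ ^ 2) ^ (1 + r) * (1 / η) ^ (1 + (r : ℝ) / 4) := by rw [pow_mul]
      _ ≤ C ^ (1 + r) * (1 / η) ^ (1 + (r : ℝ) / 4) := by gcongr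
  · -- all curves
    obtain ⟨T, hTc, hTL⟩ := h₃ a b hq (1 + r) (by omega)
    refine (h₁ a b hq r hr T).2.trans ?_
    have hG := one_le_GT a b T
    have hG0 : 0 < GT a b T := by linarith
    push_cast at hTL
    set y : ℝ := max 1 (L a b / ((1 + r) * Real.log (2 + L a b))) with hy
    have hy1 : 1 ≤ y := le_max_left _ _
    have h3 : (L a b / GT a b T) ^ (1 + (r : ℝ) / 4) ≤
        C₃ ^ (1 + r) * y ^ ((4 + (r : ℝ)) / 6) := by
      calc (L a b / GT a b T) ^ (1 + (r : ℝ) / 4)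
          ≤ (C₃ * y ^ ((2 : ℝ) / 3)) ^ (1 + (r : ℝ) / 4) :=
            Real.rpow_le_rpow (by positivity) hTL (by positivity)
        _ = C₃ ^ (1 + (r : ℝ) / 4) * (y ^ ((2 : ℝ) / 3)) ^ (1 + (r : ℝ) / 4) :=
            Real.mul_rpow (by linarith) (by positivity)
        _ = C₃ ^ (1 + (r : ℝ) / 4) * y ^ ((4 + (r : ℝ)) / 6) := by
            rw [← Real.rpow_mul (by linarith)]
            congr 2
            ring
        _ ≤ _ := by
            gcongr
            exact rpow_quarter_le hC₃ r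
    calc C₁ ^ (1 + r + T.card) * (L a b / GT a b T) ^ (1 + (r : ℝ) / 4)
        ≤ C₁ ^ (2 * (1 + r)) * (C₃ ^ (1 + r) * y ^ ((4 + (r : ℝ)) / 6)) := by
          have h6 : C₁ ^ (1 + r + T.card) ≤ C₁ ^ (2 * (1 + r)) :=
            pow_le_pow_right₀ hC₁ (by omega)
          gcongr
      _ = (C₁ ^ 2 * C₃) ^ (1 + r) * y ^ ((4 + (r : ℝ)) / 6) := by
          rw [pow_mul, mul_pow]; ring
      _ ≤ C ^ (1 + r) * y ^ ((4 + (r : ℝ)) / 6) := by
          have h5 : C₃ ≤ B * C₃ := by nlinarith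
          have h7 : C₁ ^ 2 * C₃ ≤ C := by
            rw [hC]
            have h8 : C₁ ^ 2 * C₃ ≤ C₁ ^ 2 * (B * C₃) := by gcongr
            have h9 : 0 ≤ C₁ ^ 2 * (B * C₃) := by positivity
            linarith
          gcongr

end Pool.Agent.H24.LZ
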