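import Pool.Agent.H24.LZ.StmtB

/-!
# The bound with a power of `L/(k log(2+L))`

PROOF. `y = max(1, L/(k log(2+L)))`. Apply `h` with `m = ⌈y^(1/5)⌉` (so `1 ≤ m`, `y^(1/5) ≤ m ≤ 2 y^(1/5)`).
`m^(2+r/2) ≤ 2^(2+r/2) y^((4+r)/10) ≤ 4^(1+r) y^((4+8k+r)/10)`. For `w = |polesm a b m|`:
`m ∑_{polesm} log p ≤ ∑_{polesm} n_p log p ≤ 6L+4` (`sum_poles_le` in FinalQ.lean) and
`∑_{polesm} log p ≥ w log w / 4` (`sum_log_ge` in H24/LQ/Opt.lean). If `w ≥ (2+L)^(1/4)` then
`log w ≥ log(2+L)/4`, so `w/k ≤ 16(6L+4)/(m k log(2+L)) ≤ C y/m ≤ C y^(4/5)`. If `w < (2+L)^(1/4)` and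
`w ≥ k` then `(w/k)^5 ≤ 4096 (L/(k log(2+L)))^4` (L ≥ 0.69: `L_ge_log_two`); if `w < k` the
maximum is 1. So `max(1, w/k) ≤ C y^(4/5)` and its power `(4+8k+r)/8` is at most
`C'^(1+r+k) y^((4+8k+r)/10)`.
-/

namespace Pool.Agent.H24.LZ

open Pool.Agent.H24.LP Pool.Agent.H24.LQ Finset

/-- The number `w` of the primes with `n_p > m` satisfies `m w log w ≤ 48 L`. -/
private lemma KL_count {a b : ℤ} (hD : D a b ≠ 0) (m : ℕ) :
    (m : ℝ) * (((polesm a b m).card : ℝ) / 4 * Real.log (polesm a b m).card) ≤ 12 * L a b := by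
  have h1 : ((polesm a b m).card : ℝ) / 4 * Real.log (polesm a b m).card ≤
      ∑ p ∈ polesm a b m, Real.log (p : ℝ) :=
    sum_log_ge _ fun p hp => (places_of_poles hD (Finset.mem_filter.mp hp).1).1.two_le
  have h2 : (m : ℝ) * ∑ p ∈ polesm a b m, Real.log (p : ℝ) ≤
      ∑ p ∈ polesm a b m, (np a b p : ℝ) * Real.log p := by
    rw [Finset.mul_sum]
    refine Finset.sum_le_sum fun p hp => ?_
    have h3 : (m : ℝ) ≤ np a b p := by exact_mod_cast (Finset.mem_filter.mp hp).2.le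
    exact mul_le_mul_of_nonneg_right h3 (Real.log_natCast_nonneg p)
  have h3 : ∑ p ∈ polesm a b m, (np a b p : ℝ) * Real.log p ≤
      ∑ p ∈ poles a b, (np a b p : ℝ) * Real.log p :=
    Finset.sum_le_sum_of_subset_of_nonneg (Finset.filter_subset _ _)
      fun p _ _ => np_log_nonneg a b p
  have h4 := sum_poles_le hD
  have h5 := L_ge_log_two a b
  have h6 : (m : ℝ) * (((polesm a b m).card : ℝ) / 4 * Real.log (polesm a b m).card) ≤
      (m : ℝ) * ∑ p ∈ polesm a b m, Real.log (p : ℝ) :=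
    mul_le_mul_of_nonneg_left h1 (Nat.cast_nonneg m)
  linarith

/-- The inequality between the numbers. -/
private lemma KL_num {L w k m z : ℝ} (hL : 0.69 ≤ L) (hk : 1 ≤ k) (hm : z ≤ m) (hz : 1 ≤ z)
    (hzy : L / (k * Real.log (2 + L)) ≤ z ^ 5) (hw : w = 0 ∨ 1 ≤ w)
    (hc : m * (w / 4 * Real.log w) ≤ 12 * L) : w / k ≤ 192 * z ^ 4 := by
  have hk0 : 0 < k := by linarith
  have hz0 : 0 < z := by linarith
  have hz4 : 1 ≤ z ^ 4 := one_le_pow₀ hz
  rcases hw with hw | hw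
  · rw [hw, zero_div]
    positivity
  have hw0 : 0 < w := by linarith
  have hl : 0 < Real.log (2 + L) := Real.log_pos (by linarith)
  rcases le_total (2 + L) (w ^ 4) with h | h
  · -- `w` is large
    have h1 : Real.log (2 + L) ≤ 4 * Real.log w := by
      have h2 := Real.log_le_log (by linarith) h
      rw [Real.log_pow] at h2
      exact_mod_cast h2
    have h2 : m * (w * Real.log (2 + L)) ≤ 192 * L := by
      have h3 : m * (w * Real.log (2 + L)) ≤ m * (w * (4 * Real.log w)) :=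
        mul_le_mul_of_nonneg_left (mul_le_mul_of_nonneg_left h1 hw0.le) (by linarith)
      have h4 : m * (w * (4 * Real.log w)) = 16 * (m * (w / 4 * Real.log w)) := by ring
      linarith
    have h3 : z * (w * Real.log (2 + L)) ≤ 192 * L :=
      (mul_le_mul_of_nonneg_right hm (by positivity)).trans h2
    rw [div_le_iff₀ (by positivity)] at hzy
    rw [div_le_iff₀ hk0]
    have h4 : z * (w * Real.log (2 + L)) ≤ z * (192 * z ^ 4 * k * Real.log (2 + L)) := by
      calc z * (w * Real.log (2 + L)) ≤ 192 * L := h3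
        _ ≤ 192 * (z ^ 5 * (k * Real.log (2 + L))) := by linarith
        _ = _ := by ring
    exact le_of_mul_le_mul_right (le_of_mul_le_mul_left h4 hz0) hl
  · -- `w` is small
    have hl2 : Real.log (2 + L) ≤ 2 * Real.sqrt (2 + L) := by
      have h1 : 0 < Real.sqrt (2 + L) := Real.sqrt_pos.2 (by linarith)
      have h2 : Real.log (2 + L) = 2 * Real.log (Real.sqrt (2 + L)) := by
        rw [Real.log_sqrt (by linarith)]
        ring
      have h3 := Real.log_le_sub_one_of_pos h1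
      rw [h2]
      linarith
    have hl4 : Real.log (2 + L) ^ 4 ≤ 16 * (2 + L) ^ 2 := by
      calc Real.log (2 + L) ^ 4 ≤ (2 * Real.sqrt (2 + L)) ^ 4 :=
            pow_le_pow_left₀ hl.le hl2 4
        _ = 16 * (Real.sqrt (2 + L) ^ 2) ^ 2 := by ring
        _ = _ := by rw [Real.sq_sqrt (by linarith)]
    have hw5 : w ^ 5 ≤ (2 + L) ^ 2 := by
      calc w ^ 5 ≤ w ^ 8 := pow_le_pow_right₀ hw (by norm_num)
        _ = (w ^ 4) ^ 2 := by ring
        _ ≤ _ := pow_le_pow_left₀ (by positivity) h 2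
    have h4L : (2 + L) ^ 4 ≤ (4 * L) ^ 4 := pow_le_pow_left₀ (by linarith) (by linarith) 4
    have h1 : w ^ 5 * Real.log (2 + L) ^ 4 ≤ 4096 * L ^ 4 := by
      calc w ^ 5 * Real.log (2 + L) ^ 4 ≤ (2 + L) ^ 2 * (16 * (2 + L) ^ 2) :=
            mul_le_mul hw5 hl4 (by positivity) (by positivity)
        _ = 16 * (2 + L) ^ 4 := by ring
        _ ≤ 16 * (4 * L) ^ 4 := by linarith
        _ = _ := by ring
    have h2 : (w / k) ^ 5 ≤ 4096 * (L / (k * Real.log (2 + L))) ^ 4 := by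
      rw [div_pow, div_pow, mul_div_assoc', div_le_div_iff₀ (by positivity) (by positivity),
        mul_pow]
      have hkk : k ^ 4 ≤ k ^ 5 := pow_le_pow_right₀ hk (by norm_num)
      calc w ^ 5 * (k ^ 4 * Real.log (2 + L) ^ 4) = w ^ 5 * Real.log (2 + L) ^ 4 * k ^ 4 := by ring
        _ ≤ 4096 * L ^ 4 * k ^ 5 := mul_le_mul h1 hkk (by positivity) (by positivity)
    have h3 : (w / k) ^ 5 ≤ (192 * z ^ 4) ^ 5 := by
      calc (w / k) ^ 5 ≤ 4096 * (L / (k * Real.log (2 + L))) ^ 4 := h2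
        _ ≤ 4096 * (z ^ 5) ^ 4 := by
            have : (L / (k * Real.log (2 + L))) ^ 4 ≤ (z ^ 5) ^ 4 :=
              pow_le_pow_left₀ (by positivity) hzy 4
            linarith
        _ = 4096 * (z ^ 4) ^ 5 := by ring
        _ ≤ 192 ^ 5 * (z ^ 4) ^ 5 := mul_le_mul_of_nonneg_right (by norm_num) (by positivity)
        _ = _ := by rw [mul_pow]
    exact le_of_pow_le_pow_left₀ (by norm_num) (by positivity) h3

theorem main_kL_of (h : ∃ C : ℝ, 1 ≤ C ∧ ∀ (a b : ℤ), QuasiMinimal a b →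
    ∀ r : ℕ, Module.rank ℤ (curve a b).Point ≤ r → ∀ k m : ℕ, 1 ≤ k → 1 ≤ m →
    ((integralPoints a b).ncard : ℝ) ≤
      C ^ (1 + r + k) * ((m : ℝ) ^ (2 + (r : ℝ) / 2) +
        (max 1 (((polesm a b m).card : ℝ) / k)) ^ ((4 + 8 * (k : ℝ) + r) / 8))) :
    ∃ C : ℝ, 1 ≤ C ∧ ∀ (a b : ℤ), QuasiMinimal a b →
    ∀ r : ℕ, Module.rank ℤ (curve a b).Point ≤ r → ∀ k : ℕ, 1 ≤ k →
    ((integralPoints a b).ncard : ℝ) ≤
      C ^ (1 + r + k) *
        (max 1 (L a b / (k * Real.log (2 + L a b)))) ^ ((4 + 8 * (k : ℝ) + r) / 10) := by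
  obtain ⟨C, hC, h⟩ := h
  refine ⟨C * 384, by linarith, fun a b hq r hr k hk => ?_⟩
  have hD := hq.ne
  have hr0 : (0 : ℝ) ≤ r := Nat.cast_nonneg r
  have hk1 : (1 : ℝ) ≤ k := by exact_mod_cast hk
  set y : ℝ := max 1 (L a b / (k * Real.log (2 + L a b))) with hy
  have hy1 : 1 ≤ y := le_max_left _ _
  have hy0 : 0 < y := by linarith
  set z : ℝ := y ^ ((1 : ℝ) / 5) with hz
  have hz0 : 0 < z := by positivity
  have hz1 : 1 ≤ z := Real.one_le_rpow hy1 (by norm_num)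
  have hz5 : z ^ 5 = y := by
    rw [hz, ← Real.rpow_natCast, ← Real.rpow_mul hy0.le]
    norm_num
  have hzr : ∀ t : ℝ, z ^ t = y ^ (t / 5) := by
    intro t
    rw [hz, ← Real.rpow_mul hy0.le]
    congr 1
    ring
  set m : ℕ := ⌈z⌉₊ with hm
  have hmz : z ≤ m := Nat.le_ceil z
  have hmz2 : (m : ℝ) ≤ 2 * z := by
    have := Nat.ceil_lt_add_one hz0.le
    linarith
  have hm1 : 1 ≤ m := by
    have : (1 : ℝ) ≤ m := hz1.trans hmz
    exact_mod_cast this
  set e : ℝ := (4 + 8 * (k : ℝ) + r) / 8 with he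
  have he0 : 0 ≤ e := by positivity
  set Y : ℝ := y ^ ((4 + 8 * (k : ℝ) + r) / 10) with hY
  have hY0 : 0 ≤ Y := by positivity
  -- the first term
  have h1 : (m : ℝ) ^ (2 + (r : ℝ) / 2) ≤ 192 ^ (1 + r + k) * Y := by
    have e1 : (2 : ℝ) ^ (2 + (r : ℝ) / 2) ≤ 192 ^ (1 + r + k) := by
      calc (2 : ℝ) ^ (2 + (r : ℝ) / 2) ≤ (2 : ℝ) ^ ((2 * (1 + r + k) : ℕ) : ℝ) := by
            refine Real.rpow_le_rpow_of_exponent_le (by norm_num) ?_
            push_cast
            linarith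
        _ = 4 ^ (1 + r + k) := by
            rw [Real.rpow_natCast, pow_mul]
            norm_num
        _ ≤ _ := pow_le_pow_left₀ (by norm_num) (by norm_num) _
    have e2 : z ^ (2 + (r : ℝ) / 2) ≤ Y := by
      rw [hzr]
      refine Real.rpow_le_rpow_of_exponent_le hy1 ?_
      linarith
    calc (m : ℝ) ^ (2 + (r : ℝ) / 2) ≤ (2 * z) ^ (2 + (r : ℝ) / 2) :=
          Real.rpow_le_rpow (Nat.cast_nonneg m) hmz2 (by positivity)
      _ = (2 : ℝ) ^ (2 + (r : ℝ) / 2) * z ^ (2 + (r : ℝ) / 2) :=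
          Real.mul_rpow (by norm_num) hz0.le
      _ ≤ _ := mul_le_mul e1 e2 (by positivity) (by positivity)
  -- the second term
  have h2 : max 1 (((polesm a b m).card : ℝ) / k) ≤ 192 * z ^ 4 := by
    refine max_le ?_ ?_
    · have := one_le_pow₀ hz1 (n := 4)
      linarith
    · refine KL_num (L_ge_log_two a b) hk1 hmz hz1 ?_ ?_ (KL_count hD m)
      · rw [hz5]
        exact le_max_right _ _
      · rcases Nat.eq_zero_or_pos (polesm a b m).card with h0 | h0
        · left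
          rw [h0, Nat.cast_zero]
        · right
          exact_mod_cast h0
  have h3 : (max 1 (((polesm a b m).card : ℝ) / k)) ^ e ≤ 192 ^ (1 + r + k) * Y := by
    have e1 : (192 : ℝ) ^ e ≤ 192 ^ (1 + r + k) := by
      rw [← Real.rpow_natCast (192 : ℝ) (1 + r + k)]
      refine Real.rpow_le_rpow_of_exponent_le (by norm_num) ?_
      rw [he]
      push_cast
      linarith
    have e2 : (z ^ 4) ^ e = Y := by
      rw [← Real.rpow_natCast z 4, ← Real.rpow_mul hz0.le, hzr, hY, he]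
      congr 1
      push_cast
      ring
    calc (max 1 (((polesm a b m).card : ℝ) / k)) ^ e ≤ (192 * z ^ 4) ^ e :=
          Real.rpow_le_rpow (le_trans zero_le_one (le_max_left _ _)) h2 he0
      _ = 192 ^ e * (z ^ 4) ^ e := Real.mul_rpow (by norm_num) (by positivity)
      _ ≤ _ := by
          rw [e2]
          exact mul_le_mul_of_nonneg_right e1 hY0
  have h4 : (2 : ℝ) ≤ 2 ^ (1 + r + k) := by
    calc (2 : ℝ) = 2 ^ 1 := by norm_num
      _ ≤ _ := pow_le_pow_right₀ (by norm_num) (by omega)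
  calc ((integralPoints a b).ncard : ℝ)
      ≤ C ^ (1 + r + k) * ((m : ℝ) ^ (2 + (r : ℝ) / 2) +
          (max 1 (((polesm a b m).card : ℝ) / k)) ^ e) := h a b hq r hr k m hk hm1
    _ ≤ C ^ (1 + r + k) * (192 ^ (1 + r + k) * Y + 192 ^ (1 + r + k) * Y) := by gcongr
    _ = C ^ (1 + r + k) * 192 ^ (1 + r + k) * Y * 2 := by ring
    _ ≤ C ^ (1 + r + k) * 192 ^ (1 + r + k) * Y * 2 ^ (1 + r + k) :=
        mul_le_mul_of_nonneg_left h4 (by positivity)
    _ = (C * 384) ^ (1 + r + k) * Y := by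
        rw [mul_pow, show (384 : ℝ) = 192 * 2 by norm_num, mul_pow]
        ring

end Pool.Agent.H24.LZ
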