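import Pool.Agent.H24.LZ.StmtB

/-!
# The bound with the parameters `k` and `m`

PROOF. `Y := m^(2+r/2) + x^((4+8k+r)/8)`, `x = max(1, ω_m/k)`. As in `main_omega_m` (file
OmegaM.lean, copy its cases): (i) `L ≤ C₀`: `main_TA` with `T = ∅`; (ii) `L/12 ≤ Rst`: `upgrade` with
`rest_ball`; (iii) the primes with `n_p ≤ m` have `∑ n_p log p ≥ L`: `main_TA` with `T = ∅`, `L/G ≤ m²`
(these three cases give `C^(1+r) m^(2+r/2)` and are literally in `main_omega_m`, with `Y ≥ M ≥ 1`).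
(iv) otherwise `∑_{p ∈ polesm a b m} n_p log p ≥ 3L`. Divide `polesm a b m` into `k` disjoint sets
`T_i` with `|T_i| ≤ s`, `s ≤ 2 x` (`s = ⌈ω_m/k⌉`: for instance through an enumeration
`e : Fin ω ≃ polesm` and `T_i = {p : e⁻¹ p % k = i}`, so `|T_i| ≤ ω/k + 1 ≤ 2x`; or by induction).
Cauchy-Schwarz: `3L ≤ ∑_i ∑_{T_i} n_p log p ≤ ∑_i |T_i|^(1/2) QT(T_i) ≤ (2x)^(1/2) ∑ QT(T_i)`, so
`L/(G + ∑ QT) ≤ (2x)^(1/2)`; `1 + |T_i| ≤ 3 x`, `∏ (1+|T_i|) ≤ (3x)^k`. Together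
`C^(1+r+k) 3^k x^k (2x)^((1+r/4)/2) ≤ C'^(1+r+k) x^(k + 1/2 + r/8)`.
-/

namespace Pool.Agent.H24.LZ

open Pool.Agent.H24.LP Pool.Agent.H24.LQ Finset

/-- A partition into `k` parts of almost equal size. -/
private lemma km_part (P : Finset ℕ) {k : ℕ} (hk : 1 ≤ k) : ∃ c : ℕ → Fin k,
    ∀ i : Fin k, ((P.filter fun p => c p = i).card : ℝ) ≤ (P.card : ℝ) / k + 1 := by
  classical
  set f : ℕ → ℕ := fun p => if h : p ∈ P then (P.equivFin ⟨p, h⟩ : ℕ) else 0 with hf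
  have hlt : ∀ p ∈ P, f p < P.card := by
    intro p hp
    simp only [hf, dif_pos hp]
    exact (P.equivFin ⟨p, hp⟩).2
  have hinj : ∀ p ∈ P, ∀ q ∈ P, f p = f q → p = q := by
    intro p hp q hq h
    simp only [hf, dif_pos hp, dif_pos hq] at h
    have h1 := P.equivFin.injective (Fin.ext h)
    exact congrArg Subtype.val h1
  refine ⟨fun p => ⟨f p % k, Nat.mod_lt _ hk⟩, fun i => ?_⟩
  have h1 : (P.filter fun p => (⟨f p % k, Nat.mod_lt _ hk⟩ : Fin k) = i).card ≤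
      (Finset.range (P.card / k + 1)).card := by
    refine Finset.card_le_card_of_injOn (fun p => f p / k) ?_ ?_
    · intro p hp
      have hp1 := (Finset.mem_filter.mp (Finset.mem_coe.mp hp)).1
      rw [Finset.mem_coe, Finset.mem_range]
      exact Nat.lt_succ_of_le (Nat.div_le_div_right (hlt p hp1).le)
    · intro p hp q hq h
      obtain ⟨hp1, hp2⟩ := Finset.mem_filter.mp (Finset.mem_coe.mp hp)
      obtain ⟨hq1, hq2⟩ := Finset.mem_filter.mp (Finset.mem_coe.mp hq)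
      apply hinj p hp1 q hq1
      have e1 : f p % k = i := congrArg Fin.val hp2
      have e2 : f q % k = i := congrArg Fin.val hq2
      have h' : f p / k = f q / k := h
      rw [← Nat.div_add_mod (f p) k, ← Nat.div_add_mod (f q) k, h', e1, e2]
  rw [Finset.card_range] at h1
  calc ((P.filter fun p => (⟨f p % k, Nat.mod_lt _ hk⟩ : Fin k) = i).card : ℝ)
      ≤ ((P.card / k + 1 : ℕ) : ℝ) := by exact_mod_cast h1
    _ = ((P.card / k : ℕ) : ℝ) + 1 := by push_cast; ring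
    _ ≤ (P.card : ℝ) / k + 1 := by
        have := @Nat.cast_div_le ℝ _ _ _ P.card k
        linarith

/-- Cauchy-Schwarz on one part. -/
private lemma km_cs (a b : ℤ) (T : Finset ℕ) :
    ∑ p ∈ T, (np a b p : ℝ) * Real.log p ≤ Real.sqrt T.card * QT a b T := by
  unfold QT
  rw [← Real.sqrt_mul (Nat.cast_nonneg _)]
  refine Real.le_sqrt_of_sq_le ?_
  exact sq_sum_le_card_mul_sum_sq

theorem main_km_of (h : StmtB) : ∃ C : ℝ, 1 ≤ C ∧ ∀ (a b : ℤ), QuasiMinimal a b →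
    ∀ r : ℕ, Module.rank ℤ (curve a b).Point ≤ r → ∀ k m : ℕ, 1 ≤ k → 1 ≤ m →
    ((integralPoints a b).ncard : ℝ) ≤
      C ^ (1 + r + k) * ((m : ℝ) ^ (2 + (r : ℝ) / 2) +
        (max 1 (((polesm a b m).card : ℝ) / k)) ^ ((4 + 8 * (k : ℝ) + r) / 8)) := by
  classical
  obtain ⟨Ch, hCh, hht⟩ := exists_height
  obtain ⟨C₀, hC₀, hW⟩ := sum_mult_ge
  obtain ⟨C₁, hC₁, hB⟩ := h
  obtain ⟨C₂, hC₂, hT⟩ := main_TA
  obtain ⟨C₃, hC₃, hrest⟩ := rest_ball Ch hCh
  obtain ⟨C₄, hC₄, hup⟩ := upgrade Ch hCh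
  have hC34 : 1 ≤ C₃ * C₄ := by nlinarith
  have hC20 : 1 ≤ C₂ * (1 + C₀) := by nlinarith
  set C : ℝ := 6 * C₁ + C₂ * (1 + C₀) + C₃ * C₄ * 12 with hC
  have hCp : 1 ≤ C := by rw [hC]; linarith
  refine ⟨C, hCp, fun a b hq r hr k m hk hm => ?_⟩
  have hD := hq.ne
  have hL := L_pos a b
  have hr0 : (0 : ℝ) ≤ r := Nat.cast_nonneg r
  have hm1 : (1 : ℝ) ≤ m := by exact_mod_cast hm
  have hk1 : (1 : ℝ) ≤ k := by exact_mod_cast hk
  set ω : ℝ := ((polesm a b m).card : ℝ) with hω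
  have hω0 : 0 ≤ ω := Nat.cast_nonneg _
  set x : ℝ := max 1 (ω / k) with hx
  have hx1 : 1 ≤ x := le_max_left _ _
  have hx0 : 0 < x := by linarith
  have hωx : ω / k ≤ x := le_max_right _ _
  set M : ℝ := (m : ℝ) ^ (2 + (r : ℝ) / 2) with hM
  have hM1 : 1 ≤ M := Real.one_le_rpow hm1 (by positivity)
  set Z : ℝ := x ^ ((4 + 8 * (k : ℝ) + r) / 8) with hZ
  have hZ0 : 0 ≤ Z := Real.rpow_nonneg hx0.le _
  set Y : ℝ := M + Z with hY
  have hY1 : 1 ≤ Y := by linarith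
  have hY0 : 0 ≤ Y := by linarith
  -- the bounds without `k`
  have hmono : ∀ c : ℝ, 0 ≤ c → c ≤ C → c ^ (1 + r) * Y ≤ C ^ (1 + r + k) * Y := by
    intro c hc hcC
    refine (mono_pow hc hcC _ hY0).trans ?_
    exact mul_le_mul_of_nonneg_right (pow_le_pow_right₀ hCp (by omega)) hY0
  have hG1 : 1 ≤ GA a b ∅ := (one_le_GT a b ∅).trans (GT_le_GA ∅ hq.ne)
  have hG0 : 0 < GA a b ∅ := by linarith
  rcases le_total (L a b) C₀ with h | h
  · have h1 := hT a b hq r hr ∅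
    rw [Finset.card_empty, add_zero] at h1
    have h2 : L a b / GA a b ∅ ≤ 1 + C₀ := (div_le_self hL.le hG1).trans (by linarith)
    have e0 : (0 : ℝ) ≤ L a b / GA a b ∅ := by positivity
    have h3 : (L a b / GA a b ∅) ^ (1 + (r : ℝ) / 4) ≤ (1 + C₀) ^ (1 + r) :=
      (Real.rpow_le_rpow e0 h2 (by positivity)).trans (rpow_quarter_le (by linarith) r)
    calc ((integralPoints a b).ncard : ℝ) ≤ C₂ ^ (1 + r) * (1 + C₀) ^ (1 + r) :=
          h1.trans (mul_le_mul_of_nonneg_left h3 (by positivity))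
      _ = (C₂ * (1 + C₀)) ^ (1 + r) * 1 := by rw [mul_pow, mul_one]
      _ ≤ (C₂ * (1 + C₀)) ^ (1 + r) * Y := by gcongr
      _ ≤ _ := hmono _ (by linarith) (by rw [hC]; nlinarith)
  rcases le_total (L a b / 12) (LX.Rst a b) with h' | h'
  · obtain ⟨g, g1, g2, g3⟩ := hht a b hq.ne
    have hg : IsHt Ch g := ⟨g1, g2, g3⟩
    have h1 := hup a b hq g hg r hr (L a b / 12) (C₃ ^ (1 + r)) (by positivity)
      (one_le_pow₀ hC₃) (integralPoints a b) (Set.Subset.refl _)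
      (fun R hR S _ hS => hrest a b hq g hg r hr R (L a b / 12) hR (by positivity) h' S hS)
    have h2 : (max 1 (L a b / (L a b / 12))) ^ (1 + (r : ℝ) / 4) ≤ 12 ^ (1 + r) := by
      have e1 : L a b / (L a b / 12) = 12 := by field_simp
      rw [e1, max_eq_right (by norm_num)]
      exact rpow_quarter_le (by norm_num) r
    calc ((integralPoints a b).ncard : ℝ)
        ≤ C₃ ^ (1 + r) * C₄ ^ (1 + r) * 12 ^ (1 + r) :=
          h1.trans (mul_le_mul_of_nonneg_left h2 (by positivity))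
      _ = (C₃ * C₄ * 12) ^ (1 + r) * 1 := by rw [mul_pow, mul_pow, mul_one]
      _ ≤ (C₃ * C₄ * 12) ^ (1 + r) * Y := by gcongr
      _ ≤ _ := hmono _ (by positivity) (by rw [hC]; nlinarith)
  -- the main case
  have h1 := hW a b hq
  have h2 : ∑ p ∈ LX.mult a b, nup a b p ≤ ∑ p ∈ poles a b, (np a b p : ℝ) * Real.log p := by
    calc ∑ p ∈ LX.mult a b, nup a b p = ∑ p ∈ LX.mult a b, (np a b p : ℝ) * Real.log p := by
          refine Finset.sum_congr rfl fun p hp => ?_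
          obtain ⟨hpp, h5, -, -, -⟩ := LX.mem_mult hD hp
          obtain ⟨-, -, -, -, -, -, -, -, hν⟩ := LX.mult_facts hD hp
          rw [nup, max_eq_right hν.le, nu_eq hD hpp h5]
      _ ≤ _ := Finset.sum_le_sum_of_subset_of_nonneg (mult_subset_poles hD)
          fun p _ _ => np_log_nonneg a b p
  have h3 : 4 * L a b ≤ ∑ p ∈ poles a b, (np a b p : ℝ) * Real.log p := by linarith
  have hsplit := Finset.sum_filter_add_sum_filter_not (poles a b) (fun p => m < np a b p)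
    (fun p => (np a b p : ℝ) * Real.log p)
  rcases le_total (L a b) (∑ p ∈ (poles a b).filter (fun p => ¬ m < np a b p),
    (np a b p : ℝ) * Real.log p) with h'' | h''
  · -- small exponents
    have h4 := hT a b hq r hr ∅
    rw [Finset.card_empty, add_zero] at h4
    have h5 : ∑ p ∈ poles a b, Real.log p / np a b p ≤ GA a b ∅ := by
      obtain ⟨e1, e2, e3⟩ := GT_terms a b ∅
      have hw := HeightData.wInf_nonneg (a := a) (b := b)
      have e4 := GT_le_GA (a := a) (b := b) ∅ hq.ne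
      unfold GT at e4
      linarith
    have h6 : L a b / GA a b ∅ ≤ (m : ℝ) ^ 2 := by
      rw [div_le_iff₀ hG0]
      calc L a b ≤ _ := h''
        _ ≤ (m : ℝ) ^ 2 * ∑ p ∈ poles a b, Real.log p / np a b p := small_part
        _ ≤ _ := mul_le_mul_of_nonneg_left h5 (sq_nonneg _)
    have e0 : (0 : ℝ) ≤ L a b / GA a b ∅ := by positivity
    have h7 : (L a b / GA a b ∅) ^ (1 + (r : ℝ) / 4) ≤ M := by
      refine (Real.rpow_le_rpow e0 h6 (by positivity)).trans (le_of_eq ?_)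
      exact sq_rpow m r
    calc ((integralPoints a b).ncard : ℝ) ≤ C₂ ^ (1 + r) * M :=
          h4.trans (mul_le_mul_of_nonneg_left h7 (by positivity))
      _ ≤ C₂ ^ (1 + r) * Y := by gcongr; linarith
      _ ≤ _ := hmono _ (by linarith) (by rw [hC]; nlinarith)
  have h4 : 3 * L a b ≤ ∑ p ∈ polesm a b m, (np a b p : ℝ) * Real.log p := by
    have e : ∑ p ∈ polesm a b m, (np a b p : ℝ) * Real.log p =
      ∑ p ∈ (poles a b).filter (fun p => m < np a b p), (np a b p : ℝ) * Real.log p := rfl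
    linarith
  -- the partition
  obtain ⟨c, hc⟩ := km_part (polesm a b m) hk
  set T : Fin k → Finset ℕ := fun i => (polesm a b m).filter fun p => c p = i with hTd
  have hdisj : ∀ i j, i ≠ j → Disjoint (T i) (T j) := by
    intro i j hij
    rw [Finset.disjoint_left]
    intro p hp hp'
    exact hij ((Finset.mem_filter.mp hp).2.symm.trans (Finset.mem_filter.mp hp').2)
  have hTc : ∀ i, ((T i).card : ℝ) ≤ 2 * x := by
    intro i
    have := hc i
    have e : ((T i).card : ℝ) ≤ ω / k + 1 := this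
    linarith
  have hTc' : ∀ i, 1 + ((T i).card : ℝ) ≤ 3 * x := by
    intro i
    have := hc i
    have e : ((T i).card : ℝ) ≤ ω / k + 1 := this
    linarith
  set S : ℝ := ∑ i, QT a b (T i) with hS
  have hS0 : 0 ≤ S := Finset.sum_nonneg fun i _ => QT_nonneg a b (T i)
  have h5 : 3 * L a b ≤ Real.sqrt (2 * x) * S := by
    have e1 : ∑ i, ∑ p ∈ T i, (np a b p : ℝ) * Real.log p =
        ∑ p ∈ polesm a b m, (np a b p : ℝ) * Real.log p :=
      Finset.sum_fiberwise (polesm a b m) c fun p => (np a b p : ℝ) * Real.log p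
    rw [← e1] at h4
    refine h4.trans ?_
    rw [hS, Finset.mul_sum]
    refine Finset.sum_le_sum fun i _ => (km_cs a b (T i)).trans ?_
    exact mul_le_mul_of_nonneg_right (Real.sqrt_le_sqrt (hTc i)) (QT_nonneg a b (T i))
  have hGS : 0 < GA a b ∅ + S := by linarith
  have h6 : L a b / (GA a b ∅ + S) ≤ (2 * x) ^ ((1 : ℝ) / 2) := by
    rw [← Real.sqrt_eq_rpow, div_le_iff₀ hGS]
    have e1 : 0 ≤ Real.sqrt (2 * x) * GA a b ∅ := by positivity
    rw [mul_add]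
    linarith
  have e0 : (0 : ℝ) ≤ L a b / (GA a b ∅ + S) := by positivity
  have h7 : (L a b / (GA a b ∅ + S)) ^ (1 + (r : ℝ) / 4) ≤
      2 ^ (1 + r) * x ^ (1 / 2 + (r : ℝ) / 8) := by
    have e1 : (1 : ℝ) / 2 * (1 + (r : ℝ) / 4) = 1 / 2 + (r : ℝ) / 8 := by ring
    have e2 : (2 : ℝ) ^ (1 / 2 + (r : ℝ) / 8) ≤ 2 ^ (1 + r) := by
      rw [← Real.rpow_natCast (2 : ℝ) (1 + r)]
      refine Real.rpow_le_rpow_of_exponent_le (by norm_num) ?_
      push_cast
      linarith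
    refine (Real.rpow_le_rpow e0 h6 (by positivity)).trans ?_
    rw [← Real.rpow_mul (by positivity), e1, Real.mul_rpow (by norm_num) hx0.le]
    exact mul_le_mul_of_nonneg_right e2 (Real.rpow_nonneg hx0.le _)
  have h8 : ∏ i, (1 + ((T i).card : ℝ)) ≤ 3 ^ k * x ^ (k : ℝ) := by
    calc ∏ i, (1 + ((T i).card : ℝ)) ≤ ∏ _i : Fin k, (3 * x) :=
          Finset.prod_le_prod (fun i _ => by positivity) fun i _ => hTc' i
      _ = 3 ^ k * x ^ (k : ℝ) := by
          rw [Finset.prod_const, Finset.card_univ, Fintype.card_fin, mul_pow, Real.rpow_natCast]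
  have h9 : x ^ (k : ℝ) * x ^ (1 / 2 + (r : ℝ) / 8) = Z := by
    rw [hZ, ← Real.rpow_add hx0]
    congr 1
    ring
  have h10 := hB a b hq r hr k T hdisj
  have h11 : (0 : ℝ) ≤ ∏ i, (1 + ((T i).card : ℝ)) := Finset.prod_nonneg fun i _ => by positivity
  have h12 : (3 : ℝ) ^ k ≤ 3 ^ (1 + r + k) := pow_le_pow_right₀ (by norm_num) (by omega)
  have h13 : (2 : ℝ) ^ (1 + r) ≤ 2 ^ (1 + r + k) := pow_le_pow_right₀ (by norm_num) (by omega)
  calc ((integralPoints a b).ncard : ℝ)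
      ≤ C₁ ^ (1 + r + k) * (∏ i, (1 + ((T i).card : ℝ))) *
        (L a b / (GA a b ∅ + S)) ^ (1 + (r : ℝ) / 4) := h10
    _ ≤ C₁ ^ (1 + r + k) * (3 ^ k * x ^ (k : ℝ)) *
        (2 ^ (1 + r) * x ^ (1 / 2 + (r : ℝ) / 8)) := by
        refine mul_le_mul (mul_le_mul_of_nonneg_left h8 (by positivity)) h7
          (Real.rpow_nonneg e0 _) (by positivity)
    _ = C₁ ^ (1 + r + k) * (3 ^ k * 2 ^ (1 + r)) * (x ^ (k : ℝ) * x ^ (1 / 2 + (r : ℝ) / 8)) := by
        ring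
    _ = C₁ ^ (1 + r + k) * (3 ^ k * 2 ^ (1 + r)) * Z := by rw [h9]
    _ ≤ C₁ ^ (1 + r + k) * (3 ^ (1 + r + k) * 2 ^ (1 + r + k)) * Z := by gcongr
    _ = (6 * C₁) ^ (1 + r + k) * Z := by
        rw [← mul_pow, ← mul_pow]
        congr 2
        ring
    _ ≤ (6 * C₁) ^ (1 + r + k) * Y := mul_le_mul_of_nonneg_left (by linarith) (by positivity)
    _ ≤ C ^ (1 + r + k) * Y := mono_pow (by linarith) (by rw [hC]; nlinarith) _ hY0

end Pool.Agent.H24.LZ
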