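import Pool.Agent.H24.LZ.BaseB

/-!
# A set of primes with large heights
-/

namespace Pool.Agent.H24.LZ

open Pool.Agent.H24.LP Pool.Agent.H24.LQ Finset

/-- A set of at most `t` primes with `L ≤ B (m^2 + ω_m/t) G_T`. -/
lemma exists_T_omega_m : ∃ B : ℝ, 1 ≤ B ∧ ∀ a b : ℤ, QuasiMinimal a b → ∀ m : ℕ, 1 ≤ m →
    ∀ t : ℕ, 0 < t → ∃ T : Finset ℕ, T.card ≤ t ∧
      L a b / GT a b T ≤ B * ((m : ℝ) ^ 2 + ((polesm a b m).card : ℝ) / t) := by
  classical
  obtain ⟨B₀, hB₀⟩ := L_le_GT_poles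
  refine ⟨max 1 B₀ * 2, by linarith [le_max_left 1 B₀], fun a b hq m hm t ht => ?_⟩
  have hL := L_pos a b
  have ht0 : (0 : ℝ) < t := by exact_mod_cast ht
  have hm1 : (1 : ℝ) ≤ m := by exact_mod_cast hm
  have hm2 : (1 : ℝ) ≤ (m : ℝ) ^ 2 := one_le_pow₀ hm1
  obtain ⟨T, hTP, hTt, hT⟩ := exists_top (polesm a b m) (fun p => (np a b p : ℝ) * Real.log p) t
  refine ⟨T, hTt, ?_⟩
  have hG1 := one_le_GT a b T
  have hG0 : 0 < GT a b T := by linarith
  have hB := hB₀ a b hq (poles a b) (Finset.Subset.refl _)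
  have hsub : T ⊆ poles a b := hTP.trans (Finset.filter_subset _ _)
  have hω0 : (0 : ℝ) ≤ ((polesm a b m).card : ℝ) / t := by positivity
  have hsplit := Finset.sum_filter_add_sum_filter_not (poles a b) (fun p => m < np a b p)
    (fun p => (np a b p : ℝ) * Real.log p)
  have hsm := small_part (a := a) (b := b) (m := m)
  have hF : ∑ p ∈ poles a b, Real.log p / np a b p ≤ GT a b T := by
    obtain ⟨g1, g2, g3⟩ := GT_terms a b T
    have hw := HeightData.wInf_nonneg (a := a) (b := b)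
    unfold GT
    linarith
  have hsm' : ∑ p ∈ (poles a b).filter (fun p => ¬ m < np a b p),
      (np a b p : ℝ) * Real.log p ≤ (m : ℝ) ^ 2 * GT a b T :=
    hsm.trans (mul_le_mul_of_nonneg_left hF (sq_nonneg _))
  have hGT : GT a b (poles a b) - GT a b T = ∑ p ∈ poles a b, (np a b p : ℝ) * Real.log p -
      ∑ p ∈ T, (np a b p : ℝ) * Real.log p := by
    unfold GT
    ring
  have hPm : ∑ p ∈ (poles a b).filter (fun p => m < np a b p), (np a b p : ℝ) * Real.log p =
      ∑ p ∈ polesm a b m \ T, (np a b p : ℝ) * Real.log p +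
        ∑ p ∈ T, (np a b p : ℝ) * Real.log p := (Finset.sum_sdiff hTP).symm
  have hrest : ∑ p ∈ polesm a b m \ T, (np a b p : ℝ) * Real.log p ≤
      ((polesm a b m).card : ℝ) / t * GT a b T := by
    rcases hT with h | ⟨hc, hTq⟩
    · rw [h, Finset.sdiff_self, Finset.sum_empty]
      rw [← h]
      positivity
    · set S : ℝ := ∑ p ∈ T, (np a b p : ℝ) * Real.log p with hS
      have hS0 : 0 ≤ S := Finset.sum_nonneg fun p _ => np_log_nonneg a b p
      have hSG : S ≤ GT a b T := by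
        have h2 : 0 ≤ ∑ p ∈ poles a b, Real.log p / np a b p :=
          Finset.sum_nonneg fun p _ =>
            div_nonneg (Real.log_natCast_nonneg p) (Nat.cast_nonneg _)
        obtain ⟨g1, g2, g3⟩ := GT_terms a b T
        have hw := HeightData.wInf_nonneg (a := a) (b := b)
        unfold GT
        linarith
      have h3 : (t : ℝ) * ∑ p ∈ polesm a b m \ T, (np a b p : ℝ) * Real.log p ≤
          ((polesm a b m \ T).card : ℝ) * S := by
        rw [Finset.mul_sum]
        have h4 : ∀ q ∈ polesm a b m \ T, (t : ℝ) * ((np a b q : ℝ) * Real.log q) ≤ S := by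
          intro q hq'
          have h5 : ∑ p ∈ T, (np a b q : ℝ) * Real.log q ≤ S :=
            Finset.sum_le_sum fun p hp => hTq p hp q hq'
          rw [Finset.sum_const, nsmul_eq_mul, hc] at h5
          exact h5
        have h6 := Finset.sum_le_card_nsmul (polesm a b m \ T) _ _ h4
        rwa [nsmul_eq_mul] at h6
      have h7 : ((polesm a b m \ T).card : ℝ) ≤ (polesm a b m).card := by
        exact_mod_cast Finset.card_le_card Finset.sdiff_subset
      rw [div_mul_eq_mul_div, le_div_iff₀ ht0, mul_comm]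
      calc (t : ℝ) * ∑ p ∈ polesm a b m \ T, (np a b p : ℝ) * Real.log p
          ≤ ((polesm a b m \ T).card : ℝ) * S := h3
        _ ≤ ((polesm a b m).card : ℝ) * GT a b T := by gcongr
  have hkey : GT a b (poles a b) ≤
      2 * ((m : ℝ) ^ 2 + ((polesm a b m).card : ℝ) / t) * GT a b T := by
    have e1 : GT a b (poles a b) ≤ GT a b T + (m : ℝ) ^ 2 * GT a b T +
        ((polesm a b m).card : ℝ) / t * GT a b T := by linarith
    have e2 : GT a b T ≤ (m : ℝ) ^ 2 * GT a b T := by nlinarith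
    have e3 : 0 ≤ ((polesm a b m).card : ℝ) / t * GT a b T := by positivity
    have e4 : 2 * ((m : ℝ) ^ 2 + ((polesm a b m).card : ℝ) / t) * GT a b T =
      2 * ((m : ℝ) ^ 2 * GT a b T) + 2 * (((polesm a b m).card : ℝ) / t * GT a b T) := by ring
    linarith
  rw [div_le_iff₀ hG0]
  have hP0 : 0 < GT a b (poles a b) := by
    have := one_le_GT a b (poles a b)
    linarith
  calc L a b ≤ B₀ * GT a b (poles a b) := hB
    _ ≤ max 1 B₀ * GT a b (poles a b) :=
        mul_le_mul_of_nonneg_right (le_max_right _ _) hP0.le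
    _ ≤ max 1 B₀ * (2 * ((m : ℝ) ^ 2 + ((polesm a b m).card : ℝ) / t) * GT a b T) :=
        mul_le_mul_of_nonneg_left hkey (le_trans zero_le_one (le_max_left _ _))
    _ = _ := by ring

/-- `(x+y)^e ≤ 2^(1+r) (x^e + y^e)` for `e = 1 + r/4`. -/
lemma add_rpow_quarter {x y : ℝ} (hx : 0 ≤ x) (hy : 0 ≤ y) (r : ℕ) :
    (x + y) ^ (1 + (r : ℝ) / 4) ≤
      2 ^ (1 + r) * (x ^ (1 + (r : ℝ) / 4) + y ^ (1 + (r : ℝ) / 4)) := by
  have hr0 : (0 : ℝ) ≤ r := Nat.cast_nonneg r
  have hX : 0 ≤ x ^ (1 + (r : ℝ) / 4) := Real.rpow_nonneg hx _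
  have hY : 0 ≤ y ^ (1 + (r : ℝ) / 4) := Real.rpow_nonneg hy _
  have h2 := rpow_quarter_le (by norm_num : (1 : ℝ) ≤ 2) r
  have h20 : (0 : ℝ) ≤ 2 ^ (1 + r) := by positivity
  rcases le_total x y with h | h
  · calc (x + y) ^ (1 + (r : ℝ) / 4) ≤ (2 * y) ^ (1 + (r : ℝ) / 4) :=
          Real.rpow_le_rpow (by linarith) (by linarith) (by positivity)
      _ = 2 ^ (1 + (r : ℝ) / 4) * y ^ (1 + (r : ℝ) / 4) := Real.mul_rpow (by norm_num) hy
      _ ≤ 2 ^ (1 + r) * y ^ (1 + (r : ℝ) / 4) := mul_le_mul_of_nonneg_right h2 hY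
      _ ≤ _ := mul_le_mul_of_nonneg_left (by linarith) h20
  · calc (x + y) ^ (1 + (r : ℝ) / 4) ≤ (2 * x) ^ (1 + (r : ℝ) / 4) :=
          Real.rpow_le_rpow (by linarith) (by linarith) (by positivity)
      _ = 2 ^ (1 + (r : ℝ) / 4) * x ^ (1 + (r : ℝ) / 4) := Real.mul_rpow (by norm_num) hx
      _ ≤ 2 ^ (1 + r) * x ^ (1 + (r : ℝ) / 4) := mul_le_mul_of_nonneg_right h2 hX
      _ ≤ _ := mul_le_mul_of_nonneg_left (by linarith) h20

end Pool.Agent.H24.LZ
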