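import Pool.Agent.H24.LZ.CountB
import Pool.Agent.H24.LZ.KM
import Pool.Agent.H24.LZ.KL
import Pool.Agent.H24.LZ.OmT

/-!
# All the bounds with the parameters `k` and `m`
-/

namespace Pool.Agent.H24.LZ

open Pool.Agent.H24.LP Pool.Agent.H24.LQ Finset

/-- The bound with `(ω_m/k)^(1+r/4)`. -/
theorem main_kT : ∃ C : ℝ, 1 ≤ C ∧ ∀ (a b : ℤ), QuasiMinimal a b →
    ∀ r : ℕ, Module.rank ℤ (curve a b).Point ≤ r → ∀ k m : ℕ, 1 ≤ k → 1 ≤ m →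
    ((integralPoints a b).ncard : ℝ) ≤
      C ^ (1 + r + k) * ((m : ℝ) ^ (2 + (r : ℝ) / 2) +
        (max 1 (((polesm a b m).card : ℝ) / k)) ^ (1 + (r : ℝ) / 4)) := by
  obtain ⟨B, hB, hT⟩ := exists_T_omega_m
  obtain ⟨C₁, hC₁, h₁⟩ := main_Z'
  refine ⟨C₁ * (B * 2), by nlinarith, fun a b hq r hr k m hk hm => ?_⟩
  have hL := L_pos a b
  have hr0 : (0 : ℝ) ≤ r := Nat.cast_nonneg r
  obtain ⟨T, hTc, hTG⟩ := hT a b hq m hm k hk
  obtain ⟨x, hx⟩ : ∃ x : ℝ, x = max 1 (((polesm a b m).card : ℝ) / k) := ⟨_, rfl⟩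
  have hx1 : 1 ≤ x := by rw [hx]; exact le_max_left _ _
  have hx0 : 0 ≤ x := by linarith
  have hxle : ((polesm a b m).card : ℝ) / k ≤ x := by rw [hx]; exact le_max_right _ _
  have hG0 : 0 < GT a b T := by
    have := one_le_GT a b T
    linarith
  have h2 := (h₁ a b hq r hr).2.1 T
  have hs := add_rpow_quarter (sq_nonneg (m : ℝ)) hx0 r
  rw [sq_rpow] at hs
  rw [← hx]
  have hTG' : L a b / GT a b T ≤ B * ((m : ℝ) ^ 2 + x) := by
    refine hTG.trans (mul_le_mul_of_nonneg_left (by linarith) (by linarith))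
  have h3 : (L a b / GT a b T) ^ (1 + (r : ℝ) / 4) ≤
      B ^ (1 + r) * (2 ^ (1 + r) * ((m : ℝ) ^ (2 + (r : ℝ) / 2) + x ^ (1 + (r : ℝ) / 4))) := by
    calc (L a b / GT a b T) ^ (1 + (r : ℝ) / 4) ≤ (B * ((m : ℝ) ^ 2 + x)) ^ (1 + (r : ℝ) / 4) :=
          Real.rpow_le_rpow (by positivity) hTG' (by positivity)
      _ = B ^ (1 + (r : ℝ) / 4) * ((m : ℝ) ^ 2 + x) ^ (1 + (r : ℝ) / 4) :=
          Real.mul_rpow (by linarith) (by positivity)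
      _ ≤ B ^ (1 + r) * _ := mul_le_mul (rpow_quarter_le hB r) hs
          (Real.rpow_nonneg (by positivity) _) (by positivity)
  have h4 : C₁ ^ (1 + r + T.card) ≤ C₁ ^ (1 + r + k) :=
    pow_le_pow_right₀ hC₁ (by omega)
  have h5 : 0 ≤ (L a b / GT a b T) ^ (1 + (r : ℝ) / 4) := Real.rpow_nonneg (by positivity) _
  obtain ⟨Y, hY⟩ : ∃ Y : ℝ, Y = (m : ℝ) ^ (2 + (r : ℝ) / 2) + x ^ (1 + (r : ℝ) / 4) := ⟨_, rfl⟩
  have hY0 : 0 ≤ Y := by rw [hY]; positivity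
  rw [← hY] at h3 ⊢
  calc ((integralPoints a b).ncard : ℝ)
      ≤ C₁ ^ (1 + r + T.card) * (L a b / GT a b T) ^ (1 + (r : ℝ) / 4) := h2
    _ ≤ C₁ ^ (1 + r + k) * (B ^ (1 + r) * (2 ^ (1 + r) * Y)) :=
        mul_le_mul h4 h3 h5 (by positivity)
    _ = C₁ ^ (1 + r + k) * (B * 2) ^ (1 + r) * Y := by rw [mul_pow]; ring
    _ ≤ C₁ ^ (1 + r + k) * (B * 2) ^ (1 + r + k) * Y := by
        have e1 : (B * 2) ^ (1 + r) ≤ (B * 2) ^ (1 + r + k) :=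
          pow_le_pow_right₀ (by linarith) (by omega)
        gcongr
    _ = _ := by rw [mul_pow C₁ (B * 2)]

/-- The bound with `(L/(k log(2+L)))^((4+r)/6)`. -/
theorem main_kLT : ∃ C : ℝ, 1 ≤ C ∧ ∀ (a b : ℤ), QuasiMinimal a b →
    ∀ r : ℕ, Module.rank ℤ (curve a b).Point ≤ r → ∀ k : ℕ, 1 ≤ k →
    ((integralPoints a b).ncard : ℝ) ≤
      C ^ (1 + r + k) *
        (max 1 (L a b / (k * Real.log (2 + L a b)))) ^ ((4 + (r : ℝ)) / 6) := by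
  obtain ⟨B, hB, hT⟩ := exists_T
  obtain ⟨C₁, hC₁, h₁⟩ := main_Z'
  refine ⟨C₁ * B, by nlinarith, fun a b hq r hr k hk => ?_⟩
  have hL := L_pos a b
  have hr0 : (0 : ℝ) ≤ r := Nat.cast_nonneg r
  obtain ⟨T, hTc, hTG⟩ := hT a b hq k hk
  obtain ⟨y, hy⟩ : ∃ y : ℝ, y = max 1 (L a b / (k * Real.log (2 + L a b))) := ⟨_, rfl⟩
  have hy1 : 1 ≤ y := by rw [hy]; exact le_max_left _ _
  have hy0 : 0 ≤ y := by linarith
  have hG0 : 0 < GT a b T := by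
    have := one_le_GT a b T
    linarith
  have h2 := (h₁ a b hq r hr).2.1 T
  rw [← hy] at hTG ⊢
  have h3 : (L a b / GT a b T) ^ (1 + (r : ℝ) / 4) ≤ B ^ (1 + r) * y ^ ((4 + (r : ℝ)) / 6) := by
    calc (L a b / GT a b T) ^ (1 + (r : ℝ) / 4) ≤ (B * y ^ ((2 : ℝ) / 3)) ^ (1 + (r : ℝ) / 4) :=
          Real.rpow_le_rpow (by positivity) hTG (by positivity)
      _ = B ^ (1 + (r : ℝ) / 4) * (y ^ ((2 : ℝ) / 3)) ^ (1 + (r : ℝ) / 4) :=
          Real.mul_rpow (by linarith) (by positivity)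
      _ = B ^ (1 + (r : ℝ) / 4) * y ^ ((4 + (r : ℝ)) / 6) := by
          congr 1
          rw [← Real.rpow_mul hy0]
          congr 1
          ring
      _ ≤ B ^ (1 + r) * y ^ ((4 + (r : ℝ)) / 6) :=
          mul_le_mul_of_nonneg_right (rpow_quarter_le hB r) (by positivity)
  have h4 : C₁ ^ (1 + r + T.card) ≤ C₁ ^ (1 + r + k) :=
    pow_le_pow_right₀ hC₁ (by omega)
  have h5 : 0 ≤ (L a b / GT a b T) ^ (1 + (r : ℝ) / 4) := Real.rpow_nonneg (by positivity) _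
  have h6 : B ^ (1 + r) ≤ B ^ (1 + r + k) := pow_le_pow_right₀ hB (by omega)
  calc ((integralPoints a b).ncard : ℝ)
      ≤ C₁ ^ (1 + r + T.card) * (L a b / GT a b T) ^ (1 + (r : ℝ) / 4) := h2
    _ ≤ C₁ ^ (1 + r + k) * (B ^ (1 + r) * y ^ ((4 + (r : ℝ)) / 6)) :=
        mul_le_mul h4 h3 h5 (by positivity)
    _ ≤ C₁ ^ (1 + r + k) * (B ^ (1 + r + k) * y ^ ((4 + (r : ℝ)) / 6)) := by gcongr
    _ = _ := by rw [mul_pow]; ring

/-- The bounds with `x = max(1, ω_m/k)`. -/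
theorem final_km : ∃ C : ℝ, 1 ≤ C ∧ ∀ (a b : ℤ), QuasiMinimal a b →
    ∀ r : ℕ, Module.rank ℤ (curve a b).Point ≤ r → ∀ k m : ℕ, 1 ≤ k → 1 ≤ m →
    ((integralPoints a b).ncard : ℝ) ≤
      C ^ (1 + r + k) * ((m : ℝ) ^ (2 + (r : ℝ) / 2) +
        (max 1 (((polesm a b m).card : ℝ) / k)) ^
          min (1 + (r : ℝ) / 4) (1 / 2 + (k : ℝ) + (r : ℝ) / 8)) := by
  obtain ⟨C₁, hC₁, h₁⟩ := main_kT
  obtain ⟨C₂, hC₂, h₂⟩ := main_km_of main_blocks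
  refine ⟨C₁ + C₂, by linarith, fun a b hq r hr k m hk hm => ?_⟩
  have e : ∀ y : ℝ, y ^ ((4 + 8 * (k : ℝ) + r) / 8) = y ^ (1 / 2 + (k : ℝ) + (r : ℝ) / 8) := by
    intro y
    congr 1
    ring
  have hm0 : 0 ≤ (m : ℝ) ^ (2 + (r : ℝ) / 2) := Real.rpow_nonneg (Nat.cast_nonneg m) _
  have hx0 : (0 : ℝ) ≤ max 1 (((polesm a b m).card : ℝ) / k) :=
    le_trans zero_le_one (le_max_left _ _)
  rcases le_total (1 + (r : ℝ) / 4) (1 / 2 + (k : ℝ) + (r : ℝ) / 8) with h | h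
  · rw [min_eq_left h]
    exact (h₁ a b hq r hr k m hk hm).trans
      (mul_le_mul_of_nonneg_right (pow_le_pow_left₀ (by linarith) (by linarith) _)
        (add_nonneg hm0 (Real.rpow_nonneg hx0 _)))
  · rw [min_eq_right h, ← e]
    exact (h₂ a b hq r hr k m hk hm).trans
      (mul_le_mul_of_nonneg_right (pow_le_pow_left₀ (by linarith) (by linarith) _)
        (add_nonneg hm0 (Real.rpow_nonneg hx0 _)))

/-- The bounds with `y = max(1, L/(k log(2+L)))`. -/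
theorem final_kL : ∃ C : ℝ, 1 ≤ C ∧ ∀ (a b : ℤ), QuasiMinimal a b →
    ∀ r : ℕ, Module.rank ℤ (curve a b).Point ≤ r → ∀ k : ℕ, 1 ≤ k →
    ((integralPoints a b).ncard : ℝ) ≤
      C ^ (1 + r + k) * (max 1 (L a b / (k * Real.log (2 + L a b)))) ^
        min ((4 + (r : ℝ)) / 6) ((4 + 8 * (k : ℝ) + r) / 10) := by
  obtain ⟨C₁, hC₁, h₁⟩ := main_kLT
  obtain ⟨C₂, hC₂, h₂⟩ := main_kL_of (main_km_of main_blocks)
  refine ⟨C₁ + C₂, by linarith, fun a b hq r hr k hk => ?_⟩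
  have hx0 : (0 : ℝ) ≤ max 1 (L a b / (k * Real.log (2 + L a b))) :=
    le_trans zero_le_one (le_max_left _ _)
  rcases le_total ((4 + (r : ℝ)) / 6) ((4 + 8 * (k : ℝ) + r) / 10) with h | h
  · rw [min_eq_left h]
    exact (h₁ a b hq r hr k hk).trans
      (mul_le_mul_of_nonneg_right (pow_le_pow_left₀ (by linarith) (by linarith) _)
        (Real.rpow_nonneg hx0 _))
  · rw [min_eq_right h]
    exact (h₂ a b hq r hr k hk).trans
      (mul_le_mul_of_nonneg_right (pow_le_pow_left₀ (by linarith) (by linarith) _)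
        (Real.rpow_nonneg hx0 _))

end Pool.Agent.H24.LZ
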