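import Pool.Agent.H24.LZ.CountQ

/-!
# The bounds with `(∑ (n_p log p)²)^{1/2}` and with the number of primes dividing `den j`
-/

namespace Pool.Agent.H24.LZ

open Pool.Agent.H24.LP Pool.Agent.H24.LQ Finset

lemma Qj_le_sum (a b : ℤ) : Qj a b ≤ ∑ p ∈ poles a b, (np a b p : ℝ) * Real.log p := by
  have h0 : 0 ≤ ∑ p ∈ poles a b, (np a b p : ℝ) * Real.log p :=
    Finset.sum_nonneg fun p _ => np_log_nonneg a b p
  unfold Qj
  rw [Real.sqrt_le_left h0]
  set U : ℝ := ∑ p ∈ poles a b, (np a b p : ℝ) * Real.log p with hU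
  calc ∑ p ∈ poles a b, ((np a b p : ℝ) * Real.log p) ^ 2
      ≤ ∑ p ∈ poles a b, (np a b p : ℝ) * Real.log p * U := by
        refine Finset.sum_le_sum fun p hp => ?_
        rw [sq]
        refine mul_le_mul_of_nonneg_left ?_ (np_log_nonneg a b p)
        exact Finset.single_le_sum (f := fun p : ℕ => (np a b p : ℝ) * Real.log p)
          (fun q _ => np_log_nonneg a b q) hp
    _ = U ^ 2 := by rw [← Finset.sum_mul, sq]

/-- `c^(3+r/4) ≤ (c^3)^(1+r)`. -/
lemma pow_three_le {c : ℝ} (hc : 1 ≤ c) (r : ℕ) : c ^ (3 + (r : ℝ) / 4) ≤ (c ^ 3) ^ (1 + r) := by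
  have hr0 : (0 : ℝ) ≤ r := Nat.cast_nonneg r
  have e2 : (c ^ 3) ^ (1 + r) = c ^ ((3 * (1 + r) : ℕ) : ℝ) := by
    rw [Real.rpow_natCast, pow_mul]
  rw [e2]
  refine Real.rpow_le_rpow_of_exponent_le hc ?_
  push_cast
  linarith

/-- The bound with `G + (∑ (n_p log p)²)^{1/2}`. -/
theorem main_Q : ∃ C : ℝ, 1 ≤ C ∧ ∀ (a b : ℤ), QuasiMinimal a b →
    ∀ r : ℕ, Module.rank ℤ (curve a b).Point ≤ r →
    ((integralPoints a b).ncard : ℝ) ≤
      C ^ (1 + r) * (L a b / (GA a b ∅ + Qj a b)) ^ (3 + (r : ℝ) / 4) := by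
  obtain ⟨C₁, hC₁, hQ⟩ := count_Q
  obtain ⟨C₂, hC₂, hT⟩ := main_TA
  refine ⟨C₁ * 2000 ^ 3 + C₂ * 2000 ^ 3, by nlinarith, fun a b hq r hr => ?_⟩
  have hD := hq.ne
  have hL := L_pos a b
  have hL69 := L_ge_log_two a b
  have hr0 : (0 : ℝ) ≤ r := Nat.cast_nonneg r
  have hG1 : 1 ≤ GA a b ∅ := (one_le_GT a b ∅).trans (GT_le_GA ∅ hq.ne)
  have hGb := GA_bound hq ∅
  have hQ0 := Qj_nonneg a b
  have hQL : Qj a b ≤ 12 * L a b := by
    have := Qj_le_sum a b
    have := sum_poles_le hD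
    linarith
  set u : ℝ := L a b / (GA a b ∅ + Qj a b) with hu
  have hden : 0 < GA a b ∅ + Qj a b := by linarith
  have hu0 : 0 < u := by positivity
  have hu1 : 1 ≤ 2000 * u := by
    rw [hu, mul_div_assoc', le_div_iff₀ hden, one_mul]
    linarith
  have hX0 : 0 ≤ u ^ (3 + (r : ℝ) / 4) := by positivity
  have hbig : (2000 * u) ^ (3 + (r : ℝ) / 4) ≤
      (2000 ^ 3) ^ (1 + r) * u ^ (3 + (r : ℝ) / 4) := by
    rw [Real.mul_rpow (by norm_num) hu0.le]
    exact mul_le_mul_of_nonneg_right (pow_three_le (by norm_num) r) hX0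
  rcases le_total (GA a b ∅) (Qj a b) with h | h
  · have hγ : 0 < Qj a b := by linarith
    have h1 := hQ a b hq r hr (Qj a b) hγ le_rfl
    have h4 : max 1 (L a b / Qj a b) ≤ 2000 * u := by
      refine max_le hu1 ?_
      have e1 : L a b / Qj a b ≤ 2 * u := by
        rw [hu, mul_div_assoc', div_le_div_iff₀ hγ hden]
        nlinarith
      linarith
    have e0 : (0 : ℝ) ≤ max 1 (L a b / Qj a b) := le_trans zero_le_one (le_max_left _ _)
    have h5 := (Real.rpow_le_rpow e0 h4 (by positivity : 0 ≤ 3 + (r : ℝ) / 4)).trans hbig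
    calc ((integralPoints a b).ncard : ℝ)
        ≤ C₁ ^ (1 + r) * ((2000 ^ 3) ^ (1 + r) * u ^ (3 + (r : ℝ) / 4)) :=
          h1.trans (mul_le_mul_of_nonneg_left h5 (by positivity))
      _ = (C₁ * 2000 ^ 3) ^ (1 + r) * u ^ (3 + (r : ℝ) / 4) := by rw [mul_pow C₁]; ring
      _ ≤ _ := mono_pow (by positivity) (by nlinarith) _ hX0
  · have h1 := hT a b hq r hr ∅
    rw [Finset.card_empty, add_zero] at h1
    have hG0 : 0 < GA a b ∅ := by linarith
    have h4 : L a b / GA a b ∅ ≤ 2000 * u := by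
      have e1 : L a b / GA a b ∅ ≤ 2 * u := by
        rw [hu, mul_div_assoc', div_le_div_iff₀ hG0 hden]
        nlinarith
      linarith
    have e0 : (0 : ℝ) ≤ L a b / GA a b ∅ := by positivity
    have h5 : (L a b / GA a b ∅) ^ (1 + (r : ℝ) / 4) ≤
        (2000 ^ 3) ^ (1 + r) * u ^ (3 + (r : ℝ) / 4) := by
      refine (Real.rpow_le_rpow e0 h4 (by positivity)).trans (le_trans ?_ hbig)
      exact Real.rpow_le_rpow_of_exponent_le hu1 (by linarith)
    calc ((integralPoints a b).ncard : ℝ)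
        ≤ C₂ ^ (1 + r) * ((2000 ^ 3) ^ (1 + r) * u ^ (3 + (r : ℝ) / 4)) :=
          h1.trans (mul_le_mul_of_nonneg_left h5 (by positivity))
      _ = (C₂ * 2000 ^ 3) ^ (1 + r) * u ^ (3 + (r : ℝ) / 4) := by rw [mul_pow C₂]; ring
      _ ≤ _ := mono_pow (by positivity) (by nlinarith) _ hX0

/-- The bound with the number of primes dividing the denominator of `j`. -/
theorem main_omega : ∃ C : ℝ, 1 ≤ C ∧ ∀ (a b : ℤ), QuasiMinimal a b →
    ∀ r : ℕ, Module.rank ℤ (curve a b).Point ≤ r →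
    ((integralPoints a b).ncard : ℝ) ≤
      C ^ (1 + r) * (1 + ((poles a b).card : ℝ)) ^ ((12 + (r : ℝ)) / 8) := by
  classical
  obtain ⟨Ch, hCh, hht⟩ := exists_height
  obtain ⟨C₀, hC₀, hW⟩ := sum_mult_ge
  obtain ⟨C₁, hC₁, hQ⟩ := count_Q
  obtain ⟨C₂, hC₂, hT⟩ := main_TA
  obtain ⟨C₃, hC₃, hrest⟩ := rest_ball Ch hCh
  obtain ⟨C₄, hC₄, hup⟩ := upgrade Ch hCh
  have hC34 : 1 ≤ C₃ * C₄ := by nlinarith
  refine ⟨C₁ + C₂ * (1 + C₀) + C₃ * C₄ * 12, by nlinarith, fun a b hq r hr => ?_⟩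
  have hD := hq.ne
  have hL := L_pos a b
  have hr0 : (0 : ℝ) ≤ r := Nat.cast_nonneg r
  set ω : ℝ := ((poles a b).card : ℝ) with hω
  have hω0 : 0 ≤ ω := Nat.cast_nonneg _
  set Y : ℝ := (1 + ω) ^ ((12 + (r : ℝ)) / 8) with hY
  have hY1 : 1 ≤ Y := Real.one_le_rpow (by linarith) (by positivity)
  have hY0 : 0 ≤ Y := by linarith
  have hC20 : 1 ≤ C₂ * (1 + C₀) := by nlinarith
  rcases le_total (L a b) C₀ with h | h
  · have h1 := hT a b hq r hr ∅
    rw [Finset.card_empty, add_zero] at h1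
    have hG1 : 1 ≤ GA a b ∅ := (one_le_GT a b ∅).trans (GT_le_GA ∅ hq.ne)
    have h2 : L a b / GA a b ∅ ≤ 1 + C₀ := (div_le_self hL.le hG1).trans (by linarith)
    have e0 : (0 : ℝ) ≤ L a b / GA a b ∅ := by positivity
    have h3 : (L a b / GA a b ∅) ^ (1 + (r : ℝ) / 4) ≤ (1 + C₀) ^ (1 + r) :=
      (Real.rpow_le_rpow e0 h2 (by positivity)).trans (rpow_quarter_le (by linarith) r)
    calc ((integralPoints a b).ncard : ℝ) ≤ C₂ ^ (1 + r) * (1 + C₀) ^ (1 + r) :=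
          h1.trans (mul_le_mul_of_nonneg_left h3 (by positivity))
      _ = (C₂ * (1 + C₀)) ^ (1 + r) * 1 := by rw [mul_pow, mul_one]
      _ ≤ (C₂ * (1 + C₀)) ^ (1 + r) * Y := by gcongr
      _ ≤ _ := mono_pow (by linarith) (by nlinarith) _ hY0
  rcases le_total (L a b / 12) (LX.Rst a b) with h' | h'
  · obtain ⟨g, g1, g2, g3⟩ := hht a b hq.ne
    have hg : IsHt Ch g := ⟨g1, g2, g3⟩
    have h1 := hup a b hq g hg r hr (L a b / 12) (C₃ ^ (1 + r)) (by positivity)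
      (one_le_pow₀ hC₃) (integralPoints a b) (Set.Subset.refl _)
      (fun R hR S _ hS => hrest a b hq g hg r hr R (L a b / 12) hR (by positivity) h' S hS)
    have h2 : (max 1 (L a b / (L a b / 12))) ^ (1 + (r : ℝ) / 4) ≤ 12 ^ (1 + r) := by
      have e1 : L a b / (L a b / 12) = 12 := by field_simp
      rw [e1, max_eq_right (by norm_num)]
      exact rpow_quarter_le (by norm_num) r
    calc ((integralPoints a b).ncard : ℝ)
        ≤ C₃ ^ (1 + r) * C₄ ^ (1 + r) * 12 ^ (1 + r) :=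
          h1.trans (mul_le_mul_of_nonneg_left h2 (by positivity))
      _ = (C₃ * C₄ * 12) ^ (1 + r) * 1 := by rw [mul_pow, mul_pow, mul_one]
      _ ≤ (C₃ * C₄ * 12) ^ (1 + r) * Y := by gcongr
      _ ≤ _ := mono_pow (by positivity) (by nlinarith) _ hY0
  -- the main case
  have h1 := hW a b hq
  have h2 : ∑ p ∈ LX.mult a b, nup a b p ≤ ∑ p ∈ poles a b, (np a b p : ℝ) * Real.log p := by
    calc ∑ p ∈ LX.mult a b, nup a b p = ∑ p ∈ LX.mult a b, (np a b p : ℝ) * Real.log p := by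
          refine Finset.sum_congr rfl fun p hp => ?_
          obtain ⟨hpp, h5, -, -, -⟩ := LX.mem_mult hD hp
          obtain ⟨-, -, -, -, -, -, -, -, hν⟩ := LX.mult_facts hD hp
          rw [nup, max_eq_right hν.le, nu_eq hD hpp h5]
      _ ≤ _ := Finset.sum_le_sum_of_subset_of_nonneg (mult_subset_poles hD)
          fun p _ _ => np_log_nonneg a b p
  have h3 : 4 * L a b ≤ ∑ p ∈ poles a b, (np a b p : ℝ) * Real.log p := by linarith
  have h4 : (∑ p ∈ poles a b, (np a b p : ℝ) * Real.log p) ^ 2 ≤ ω * Qj a b ^ 2 := by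
    unfold Qj
    rw [Real.sq_sqrt (Finset.sum_nonneg fun p _ => sq_nonneg _)]
    exact sq_sum_le_card_mul_sum_sq
  have h5 : (4 * L a b) ^ 2 ≤ ω * Qj a b ^ 2 := (pow_le_pow_left₀ (by positivity) h3 2).trans h4
  have hQ0 : 0 < Qj a b := by
    rcases (Qj_nonneg a b).eq_or_lt with h0 | h0
    · rw [← h0] at h5
      have : 0 < (4 * L a b) ^ 2 := by positivity
      linarith
    · exact h0
  have h6 : L a b / Qj a b ≤ (1 + ω) ^ ((1 : ℝ) / 2) := by
    rw [← Real.sqrt_eq_rpow]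
    apply Real.le_sqrt_of_sq_le
    rw [div_pow, div_le_iff₀ (by positivity)]
    nlinarith [sq_nonneg (Qj a b), sq_nonneg (L a b)]
  have h7 : max 1 (L a b / Qj a b) ≤ (1 + ω) ^ ((1 : ℝ) / 2) :=
    max_le (Real.one_le_rpow (by linarith) (by norm_num)) h6
  have e0 : (0 : ℝ) ≤ max 1 (L a b / Qj a b) := le_trans zero_le_one (le_max_left _ _)
  have h8 : (max 1 (L a b / Qj a b)) ^ (3 + (r : ℝ) / 4) ≤ Y := by
    refine (Real.rpow_le_rpow e0 h7 (by positivity)).trans (le_of_eq ?_)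
    rw [← Real.rpow_mul (by linarith), hY]
    congr 1
    ring
  calc ((integralPoints a b).ncard : ℝ)
      ≤ C₁ ^ (1 + r) * Y :=
        (hQ a b hq r hr (Qj a b) hQ0 le_rfl).trans (mul_le_mul_of_nonneg_left h8 (by positivity))
    _ ≤ _ := mono_pow (by linarith) (by nlinarith) _ hY0

end Pool.Agent.H24.LZ
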