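import Pool.Agent.H24.LZ.Omega2

/-!
# The bound with a power of `L`
-/

namespace Pool.Agent.H24.LZ

open Pool.Agent.H24.LP Pool.Agent.H24.LQ Finset

/-- `∑ n_p log p ≤ m² G + 2 Q²/m`. -/
lemma sum_poles_split {a b : ℤ} (hD : D a b ≠ 0) {m : ℝ} (hm : 0 < m) :
    ∑ p ∈ poles a b, (np a b p : ℝ) * Real.log p ≤
      m ^ 2 * GA a b ∅ + 2 * Qj a b ^ 2 / m := by
  have h1 : ∀ p ∈ poles a b, (np a b p : ℝ) * Real.log p ≤
      m ^ 2 * (Real.log p / np a b p) + 2 * ((np a b p : ℝ) * Real.log p) ^ 2 / m := by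
    intro p hp
    obtain ⟨hpr, -⟩ := places_of_poles hD hp
    have hn : 1 ≤ np a b p := by
      have h := (HeightData.np_pos hp)
      exact h
    have hn1 : (1 : ℝ) ≤ (np a b p : ℝ) := by exact_mod_cast hn
    have hn0 : (0 : ℝ) < (np a b p : ℝ) := by linarith
    have hl2 : Real.log 2 ≤ Real.log p :=
      Real.log_le_log (by norm_num) (by exact_mod_cast hpr.two_le)
    have hl2' := Real.log_two_gt_d9
    have hl : 1 / 2 ≤ Real.log p := by linarith
    have hlp : 0 < Real.log p := by linarith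
    have t1 : 0 ≤ m ^ 2 * (Real.log p / np a b p) := by positivity
    have t2 : 0 ≤ 2 * ((np a b p : ℝ) * Real.log p) ^ 2 / m := by positivity
    rcases le_total (np a b p : ℝ) m with h | h
    · have h3 : (np a b p : ℝ) * Real.log p ≤ m ^ 2 * (Real.log p / np a b p) := by
        rw [mul_div_assoc', le_div_iff₀ hn0]
        have h4 : (np a b p : ℝ) ^ 2 ≤ m ^ 2 := pow_le_pow_left₀ hn0.le h 2
        nlinarith
      linarith
    · have h3 : (np a b p : ℝ) * Real.log p ≤ 2 * ((np a b p : ℝ) * Real.log p) ^ 2 / m := by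
        rw [le_div_iff₀ hm]
        have h5 : m ≤ 2 * ((np a b p : ℝ) * Real.log p) := by nlinarith
        have h6 : 0 ≤ (np a b p : ℝ) * Real.log p := by positivity
        nlinarith
      linarith
  have h2 := Finset.sum_le_sum h1
  rw [Finset.sum_add_distrib, ← Finset.mul_sum, ← Finset.sum_div, ← Finset.mul_sum] at h2
  have h3 : ∑ p ∈ poles a b, Real.log p / np a b p ≤ GA a b ∅ := by
    obtain ⟨g1, g2, g3⟩ := GT_terms a b ∅
    have hw := HeightData.wInf_nonneg (a := a) (b := b)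
    have h4 := GT_le_GA (a := a) (b := b) ∅ hD
    unfold GT at h4
    linarith
  have h5 : ∑ p ∈ poles a b, ((np a b p : ℝ) * Real.log p) ^ 2 = Qj a b ^ 2 := by
    unfold Qj
    rw [Real.sq_sqrt (Finset.sum_nonneg fun p _ => sq_nonneg _)]
  rw [h5] at h2
  have h6 : m ^ 2 * ∑ p ∈ poles a b, Real.log p / np a b p ≤ m ^ 2 * GA a b ∅ := by gcongr
  linarith

/-- The bound with `L^((12+r)/10)`. -/
theorem main_L : ∃ C : ℝ, 1 ≤ C ∧ ∀ (a b : ℤ), QuasiMinimal a b →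
    ∀ r : ℕ, Module.rank ℤ (curve a b).Point ≤ r →
    ((integralPoints a b).ncard : ℝ) ≤ C ^ (1 + r) * L a b ^ ((12 + (r : ℝ)) / 10) := by
  obtain ⟨B₀, hB₀⟩ := L_le_GT_poles
  obtain ⟨C₁, hC₁, h₁⟩ := main_Q
  set B : ℝ := max 1 B₀ with hB
  have hB1 : 1 ≤ B := le_max_left _ _
  refine ⟨C₁ * (4 * B) ^ 3, by nlinarith [one_le_pow₀ (by linarith : 1 ≤ 4 * B) (n := 3)],
    fun a b hq r hr => ?_⟩
  have hD := hq.ne
  have hL := L_pos a b
  have hr0 : (0 : ℝ) ≤ r := Nat.cast_nonneg r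
  have hG1 : 1 ≤ GA a b ∅ := (one_le_GT a b ∅).trans (GT_le_GA ∅ hq.ne)
  have hQ0 := Qj_nonneg a b
  set γ : ℝ := GA a b ∅ + Qj a b with hγ
  have hγ1 : 1 ≤ γ := by linarith
  have hγ0 : 0 < γ := by linarith
  set m : ℝ := γ ^ ((1 : ℝ) / 3) with hm
  have hm0 : 0 < m := by positivity
  have hm1 : 1 ≤ m := Real.one_le_rpow hγ1 (by norm_num)
  have hm3 : m ^ 3 = γ := by
    rw [hm, ← Real.rpow_natCast, ← Real.rpow_mul hγ0.le]
    norm_num
  have h1 := sum_poles_split hD hm0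
  have h2 : m ^ 2 * GA a b ∅ + 2 * Qj a b ^ 2 / m ≤ 3 * m ^ 5 := by
    have e1 : m ^ 2 * GA a b ∅ ≤ m ^ 5 := by
      calc m ^ 2 * GA a b ∅ ≤ m ^ 2 * γ := by gcongr; linarith
        _ = m ^ 5 := by rw [← hm3]; ring
    have e2 : 2 * Qj a b ^ 2 / m ≤ 2 * m ^ 5 := by
      rw [div_le_iff₀ hm0]
      calc 2 * Qj a b ^ 2 ≤ 2 * γ ^ 2 := by gcongr; linarith
        _ = 2 * m ^ 5 * m := by rw [← hm3]; ring
    linarith
  have h3 : L a b ≤ 4 * B * m ^ 5 := by
    have h4 := hB₀ a b hq (poles a b) (Finset.Subset.refl _)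
    have h5 : GT a b (poles a b) = GT a b ∅ + ∑ p ∈ poles a b, (np a b p : ℝ) * Real.log p := by
      have := GT_add (a := a) (b := b) (Finset.empty_subset (poles a b))
      rwa [Finset.sdiff_empty] at this
    have h6 := GT_le_GA (a := a) (b := b) ∅ hD
    have h7 : γ ≤ m ^ 5 := by
      rw [← hm3]
      exact pow_le_pow_right₀ hm1 (by norm_num)
    have h8 : GT a b (poles a b) ≤ 4 * m ^ 5 := by
      rw [h5]
      linarith
    have h9 : 0 ≤ GT a b (poles a b) := le_trans zero_le_one (one_le_GT a b _)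
    calc L a b ≤ B₀ * GT a b (poles a b) := h4
      _ ≤ B * GT a b (poles a b) := mul_le_mul_of_nonneg_right (le_max_right _ _) h9
      _ ≤ B * (4 * m ^ 5) := by gcongr
      _ = _ := by ring
  -- `L/γ ≤ 4B L^(2/5)`
  have h4B : 1 ≤ 4 * B := by linarith
  have h4 : L a b / γ ≤ 4 * B * L a b ^ ((2 : ℝ) / 5) := by
    have e1 : L a b ^ ((3 : ℝ) / 5) ≤ 4 * B * γ := by
      calc L a b ^ ((3 : ℝ) / 5) ≤ (4 * B * m ^ 5) ^ ((3 : ℝ) / 5) :=
            Real.rpow_le_rpow hL.le h3 (by norm_num)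
        _ = (4 * B) ^ ((3 : ℝ) / 5) * (m ^ 5) ^ ((3 : ℝ) / 5) :=
            Real.mul_rpow (by positivity) (by positivity)
        _ = (4 * B) ^ ((3 : ℝ) / 5) * γ := by
            congr 1
            rw [← Real.rpow_natCast m 5, ← Real.rpow_mul hm0.le, ← hm3, ← Real.rpow_natCast m 3]
            norm_num
        _ ≤ (4 * B) ^ (1 : ℝ) * γ := by
            have := Real.rpow_le_rpow_of_exponent_le h4B (by norm_num : (3 : ℝ) / 5 ≤ 1)
            gcongr
        _ = 4 * B * γ := by rw [Real.rpow_one]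
    rw [div_le_iff₀ hγ0]
    calc L a b = L a b ^ ((2 : ℝ) / 5) * L a b ^ ((3 : ℝ) / 5) := by
          rw [← Real.rpow_add hL]
          norm_num
      _ ≤ L a b ^ ((2 : ℝ) / 5) * (4 * B * γ) := by gcongr
      _ = _ := by ring
  have h5 : (L a b / γ) ^ (3 + (r : ℝ) / 4) ≤
      ((4 * B) ^ 3) ^ (1 + r) * L a b ^ ((12 + (r : ℝ)) / 10) := by
    calc (L a b / γ) ^ (3 + (r : ℝ) / 4)
        ≤ (4 * B * L a b ^ ((2 : ℝ) / 5)) ^ (3 + (r : ℝ) / 4) :=
          Real.rpow_le_rpow (by positivity) h4 (by positivity)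
      _ = (4 * B) ^ (3 + (r : ℝ) / 4) * (L a b ^ ((2 : ℝ) / 5)) ^ (3 + (r : ℝ) / 4) :=
          Real.mul_rpow (by positivity) (by positivity)
      _ = (4 * B) ^ (3 + (r : ℝ) / 4) * L a b ^ ((12 + (r : ℝ)) / 10) := by
          congr 1
          rw [← Real.rpow_mul hL.le]
          congr 1
          ring
      _ ≤ _ := mul_le_mul_of_nonneg_right (pow_three_le h4B r) (by positivity)
  calc ((integralPoints a b).ncard : ℝ)
      ≤ C₁ ^ (1 + r) * (((4 * B) ^ 3) ^ (1 + r) * L a b ^ ((12 + (r : ℝ)) / 10)) :=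
        (h₁ a b hq r hr).trans (mul_le_mul_of_nonneg_left h5 (by positivity))
    _ = (C₁ * (4 * B) ^ 3) ^ (1 + r) * L a b ^ ((12 + (r : ℝ)) / 10) := by
        rw [mul_pow C₁]; ring

end Pool.Agent.H24.LZ
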