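import Pool.Agent.H24.LZ.CountG
import Pool.Agent.H24.LZ.Gcd2

/-!
# Integral points with `gcd(y², D) ≤ H^(3-δ)`

The test function `1/4 - τ`.
-/

namespace Pool.Agent.H24.LZ

open Pool.Agent.H24.LP Pool.Agent.H24.LQ Pool.Agent.H24.LX Finset

lemma test_B : Test ![0, 1 / 2, 0] ![1, -1, 0] (fun τ => 1 / 4 - τ) (1 / 2) := by
  refine ⟨by norm_num, ?_, fun t ht => ?_⟩
  · have b0 : bern (((0 : ℝ) : ℝ) : AddCircle (1 : ℝ)) = 1 / 6 := by
      rw [bern_val1 (by norm_num)]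
      norm_num
    have b1 : bern ((1 / 2 : ℝ) : AddCircle (1 : ℝ)) = -(1 / 12) := by
      rw [bern_val1 (by rw [abs_of_pos] <;> norm_num), abs_of_pos (by norm_num)]
      norm_num
    have b2 : bern ((-(1 / 2) : ℝ) : AddCircle (1 : ℝ)) = -(1 / 12) := by
      rw [bern_abs, abs_neg, ← bern_abs, b1]
    simp only [Fin.sum_univ_three, Matrix.cons_val_zero, Matrix.cons_val_one, Matrix.cons_val,
      sub_zero, zero_sub, sub_self, b0, b1, b2]
    norm_num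
  · have h0 := abs_le.mp ht
    have b0 : bern ((t : ℝ) : AddCircle (1 : ℝ)) = t ^ 2 - |t| + 1 / 6 :=
      bern_val1 (by linarith)
    have e1 : |t - 1 / 2| = 1 / 2 - t := by
      rw [abs_of_nonpos (by linarith)]
      ring
    have b1 : bern ((t - 1 / 2 : ℝ) : AddCircle (1 : ℝ)) =
        (t - 1 / 2) ^ 2 - (1 / 2 - t) + 1 / 6 := by
      rw [bern_val1 (by rw [e1]; linarith), e1]
    simp only [Fin.sum_univ_three, Matrix.cons_val_zero, Matrix.cons_val_one, Matrix.cons_val,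
      sub_zero, b0, b1]
    apply le_of_eq
    ring

/-- Integral points with `gcd(y², D) ≤ H^(3-δ)`. -/
theorem main_B3 : ∃ C : ℝ, 1 ≤ C ∧ ∀ (a b : ℤ), QuasiMinimal a b →
    ∀ r : ℕ, Module.rank ℤ (curve a b).Point ≤ r → ∀ δ : ℝ, 0 < δ → δ ≤ 1 →
    (({z | z ∈ integralPoints a b ∧
      Real.log (Int.gcd (z.2 ^ 2) (D a b) : ℝ) ≤ (3 - δ) * L a b} :
      Set (ℤ × ℤ)).ncard : ℝ) ≤ C ^ (1 + r) * (1 / δ) ^ (2 + (r : ℝ) / 2) := by
  obtain ⟨C₀, hC₀, hW⟩ := sum_mult_ge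
  obtain ⟨C₁, hC₁, hcount⟩ := count_gen C₀ hC₀
  refine ⟨112 * C₁, by linarith, fun a b hq r hr δ hδ hδ1 => ?_⟩
  have hL := L_pos a b
  have hr0 : (0 : ℝ) ≤ r := Nat.cast_nonneg r
  have hδ2 : δ ^ 2 ≤ δ := by nlinarith
  have hδ20 : 0 < δ ^ 2 := by positivity
  have h := hcount a b hq r hr (δ ^ 2 / 112) (by positivity) (by nlinarith) 3 ![0, 1 / 2, 0]
    ![1, -1, 0] (fun τ => 1 / 4 - τ) (1 / 2) (δ / 4) test_B (by positivity)
    (le_of_eq (by ring)) {z | z ∈ integralPoints a b ∧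
      Real.log (Int.gcd (z.2 ^ 2) (D a b) : ℝ) ≤ (3 - δ) * L a b} (fun z hz => hz.1)
    (fun hK hR z hz => by
      have h1 := hW a b hq
      have h2 := sum_tau_le hq.ne hz.1
      have h3 := hz.2
      have h4 : Av hq.ne (fun τ => 1 / 4 - τ) z = (∑ p ∈ mult a b, nup a b p) / 4 -
          ∑ p ∈ mult a b, nup a b p * tau p (LR.toPt hq.ne z) := by
        unfold Av
        rw [Finset.sum_div, ← Finset.sum_sub_distrib]
        refine Finset.sum_congr rfl fun p _ => ?_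
        ring
      rw [h4]
      have h5 : δ ^ 2 / 112 * L a b ≤ δ / 112 * L a b := by
        gcongr
      nlinarith [mul_pos hδ hL])
  refine h.trans ?_
  have e1 : (1 / (δ ^ 2 / 112)) = 112 * (1 / δ) ^ 2 := by field_simp
  have e2 : (1 / (δ ^ 2 / 112)) ^ (1 + (r : ℝ) / 4) ≤
      112 ^ (1 + r) * (1 / δ) ^ (2 + (r : ℝ) / 2) := by
    rw [e1, Real.mul_rpow (by norm_num) (by positivity)]
    have e3 := rpow_quarter_le (by norm_num : (1 : ℝ) ≤ 112) r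
    have e4 : ((1 / δ) ^ 2) ^ (1 + (r : ℝ) / 4) = (1 / δ) ^ (2 + (r : ℝ) / 2) := by
      rw [← Real.rpow_natCast (1 / δ) 2, ← Real.rpow_mul (by positivity)]
      congr 1
      push_cast
      ring
    rw [e4]
    gcongr
  calc C₁ ^ (1 + r) * (1 / (δ ^ 2 / 112)) ^ (1 + (r : ℝ) / 4)
      ≤ C₁ ^ (1 + r) * (112 ^ (1 + r) * (1 / δ) ^ (2 + (r : ℝ) / 2)) := by gcongr
    _ = (112 * C₁) ^ (1 + r) * (1 / δ) ^ (2 + (r : ℝ) / 2) := by rw [mul_pow]; ring

end Pool.Agent.H24.LZ
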