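import Pool.Agent.H24.LZ.CountG
import Pool.Agent.H24.LZ.Gcd2

/-!
# Integral points for which a large part of `D` is coprime to `y`

The test function `max(0, 1 - τ/ε) - ε`.
-/

namespace Pool.Agent.H24.LZ

open Pool.Agent.H24.LP Pool.Agent.H24.LQ Pool.Agent.H24.LX Finset

lemma test_C {ε : ℝ} (hε : 0 < ε) (hε1 : ε ≤ 1 / 4) :
    Test ![0, ε, -ε] ![1 / ε, -(1 / (2 * ε)), -(1 / (2 * ε))]
      (fun τ => max 0 (1 - τ / ε) - ε) (1 / ε) := by
  refine ⟨by positivity, ?_, fun t ht => ?_⟩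
  · have b0 : bern (((0 : ℝ) : ℝ) : AddCircle (1 : ℝ)) = 1 / 6 := by
      rw [bern_val1 (by norm_num)]
      norm_num
    have b1 : bern ((ε : ℝ) : AddCircle (1 : ℝ)) = ε ^ 2 - ε + 1 / 6 := by
      rw [bern_val1 (by rw [abs_of_pos hε]; linarith), abs_of_pos hε]
    have b2 : bern ((-ε : ℝ) : AddCircle (1 : ℝ)) = ε ^ 2 - ε + 1 / 6 := by
      rw [bern_abs, abs_neg, ← bern_abs, b1]
    have b3 : bern ((ε - -ε : ℝ) : AddCircle (1 : ℝ)) = 4 * ε ^ 2 - 2 * ε + 1 / 6 := by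
      have e : ε - -ε = 2 * ε := by ring
      rw [e, bern_val1 (by rw [abs_of_pos (by positivity)]; linarith),
        abs_of_pos (by positivity)]
      ring
    have b4 : bern ((-ε - ε : ℝ) : AddCircle (1 : ℝ)) = 4 * ε ^ 2 - 2 * ε + 1 / 6 := by
      rw [bern_symm, b3]
    simp only [Fin.sum_univ_three, Matrix.cons_val_zero, Matrix.cons_val_one, Matrix.cons_val,
      sub_zero, zero_sub, sub_self, neg_neg, b0, b1, b2, b3, b4]
    apply le_of_eq
    field_simp
    ring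
  · have h0 := abs_le.mp ht
    have b0 : bern ((t : ℝ) : AddCircle (1 : ℝ)) = t ^ 2 - |t| + 1 / 6 :=
      bern_val1 (by linarith)
    have b1 : bern ((t - ε : ℝ) : AddCircle (1 : ℝ)) = (t - ε) ^ 2 - |t - ε| + 1 / 6 :=
      bern_val1 (abs_le.mpr ⟨by linarith, by linarith⟩)
    have b2 : bern ((t - -ε : ℝ) : AddCircle (1 : ℝ)) = (t - -ε) ^ 2 - |t - -ε| + 1 / 6 :=
      bern_val1 (abs_le.mpr ⟨by linarith, by linarith⟩)
    simp only [Fin.sum_univ_three, Matrix.cons_val_zero, Matrix.cons_val_one, Matrix.cons_val,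
      sub_zero, b0, b1, b2]
    have k1 : |t| ≤ (|t - ε| + |t - -ε|) / 2 := by
      have e : |2 * t| ≤ |t - ε| + |t - -ε| := by
        have e1 : 2 * t = (t - ε) + (t - -ε) := by ring
        rw [e1]
        exact abs_add_le _ _
      rw [abs_mul, abs_of_pos (by norm_num : (0 : ℝ) < 2)] at e
      linarith
    have k2 : ε ≤ (|t - ε| + |t - -ε|) / 2 := by
      have e : |2 * ε| ≤ |t - ε| + |t - -ε| := by
        have e1 : 2 * ε = (t - -ε) - (t - ε) := by ring
        rw [e1, add_comm]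
        exact abs_sub _ _
      rw [abs_of_pos (by positivity)] at e
      linarith
    have k3 : 1 / ε * (t ^ 2 - |t| + 1 / 6) + -(1 / (2 * ε)) * ((t - ε) ^ 2 - |t - ε| + 1 / 6) +
        -(1 / (2 * ε)) * ((t - -ε) ^ 2 - |t - -ε| + 1 / 6) =
        ((|t - ε| + |t - -ε|) / 2 - |t|) / ε - ε := by
      field_simp
      ring
    rw [k3]
    refine sub_le_sub_right (max_le ?_ ?_) _
    · exact div_nonneg (by linarith) hε.le
    · rw [le_div_iff₀ hε, sub_mul, one_mul, div_mul_cancel₀ _ hε.ne']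
      linarith

lemma val_eq {a b : ℤ} (hD : D a b ≠ 0) {p : ℕ} (hp : p.Prime) :
    ((D a b).natAbs.factorization p : ℝ) * Real.log p =
      nu (fv p) a b - 6 * Real.log (sv (fv p) a b) := by
  have hab : ¬ ((a : ℚ) = 0 ∧ (b : ℚ) = 0) := by
    rintro ⟨ha, hb⟩
    apply hD
    have ha' : a = 0 := by exact_mod_cast ha
    have hb' : b = 0 := by exact_mod_cast hb
    subst ha' hb'
    simp [D]
  have hs := sv_pos (fv p) a b hab
  have e1 : 4 * (a : ℚ) ^ 3 + 27 * (b : ℚ) ^ 2 = ((D a b : ℤ) : ℚ) := by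
    rw [D]; push_cast; ring
  have hf : 0 < fv p ((D a b : ℤ) : ℚ) := (fv p).pos (by exact_mod_cast hD)
  rw [nu, e1, Real.log_div (by positivity) hf.ne', Real.log_pow, fv_int hp hD, Real.log_inv,
    Real.log_pow]
  push_cast
  ring

/-- `τ_p = 0` if `p ∤ y`. -/
lemma tau_zero {a b : ℤ} (hD : D a b ≠ 0) {p : ℕ} (hp : p ∈ mult a b) {z : ℤ × ℤ}
    (hz : z ∈ integralPoints a b) (hy : ¬ (p : ℤ) ∣ z.2) : tau p (LR.toPt hD z) = 0 := by
  obtain ⟨h1, hν⟩ := gcd_mult hD hp hz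
  obtain ⟨hpp, -, -, -, -⟩ := mem_mult hD hp
  have h2 := tau_nonneg hD p (LR.toPt hD z)
  have hG : fv p (((Int.gcd (z.2 ^ 2) (D a b) : ℕ) : ℤ) : ℚ) = 1 := by
    have hne : ((Int.gcd (z.2 ^ 2) (D a b) : ℕ) : ℤ) ≠ 0 := by
      intro h
      have h1 : Int.gcd (z.2 ^ 2) (D a b) = 0 := by exact_mod_cast h
      rw [Int.gcd_eq_zero_iff] at h1
      exact hD h1.2
    rw [fv_int hpp hne, Nat.factorization_eq_zero_of_not_dvd, pow_zero, inv_one]
    intro h
    apply hy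
    have h3 : (p : ℤ) ∣ ((Int.gcd (z.2 ^ 2) (D a b) : ℕ) : ℤ) := Int.natCast_dvd.mpr h
    have h4 : (p : ℤ) ∣ z.2 ^ 2 := h3.trans (Int.gcd_dvd_left _ _)
    exact Int.Prime.dvd_pow' hpp h4
  rw [hG, Real.log_one, zero_div, neg_zero] at h1
  have hnn : nup a b p = nu (fv p) a b := max_eq_right hν.le
  rw [hnn] at h1
  have h3 : tau p (LR.toPt hD z) ≤ 0 := by
    by_contra hcon
    have := mul_pos hν (not_le.mp hcon)
    linarith
  linarith

/-- A divisor of `D` coprime to `y`. -/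
theorem sum_coprime_ge : ∃ C : ℝ, 0 ≤ C ∧ ∀ (a b : ℤ), QuasiMinimal a b → ∀ y : ℤ, ∀ d : ℕ,
    (d : ℤ) ∣ D a b → Nat.Coprime d y.natAbs →
    Real.log d ≤ ∑ p ∈ (mult a b).filter (fun p : ℕ => ¬ (p : ℤ) ∣ y), nup a b p +
      6 * Rst a b + C := by
  have l2 : 0 ≤ Real.log 2 := Real.log_nonneg (by norm_num)
  have l3 : 0 ≤ Real.log 3 := Real.log_nonneg (by norm_num)
  refine ⟨6 * (2 * Real.log 2 + 2 * Real.log 3), by linarith, fun a b hq y d hd hcop => ?_⟩
  have hD := hq.ne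
  have hsub : mult a b ⊆ places a b := mult_subset hD
  have hos := other_sum a b hD
  have hR : Rst a b = ∑ v ∈ places a b \ mult a b, nup a b v
    + ∑ v ∈ (places a b \ mult a b).filter (fun v => 5 ≤ v), 2 * Real.log v := rfl
  set W := places a b \ mult a b with hW
  have hWp : ∀ v ∈ W.erase 0, v.Prime := by
    intro v hv
    obtain ⟨h1, h2⟩ := Finset.mem_erase.mp hv
    exact places_prime' (Finset.mem_sdiff.mp h2).1 h1
  have hdn : d ∣ (D a b).natAbs := Int.natCast_dvd.mp hd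
  have hDn : (D a b).natAbs ≠ 0 := Int.natAbs_ne_zero.mpr hD
  have hd0 : d ≠ 0 := fun h => hDn (Nat.eq_zero_of_zero_dvd (h ▸ hdn))
  set V : ℕ → ℝ := fun p => ((D a b).natAbs.factorization p : ℝ) * Real.log p with hV
  have hV0 : ∀ p, 0 ≤ V p := fun p =>
    mul_nonneg (Nat.cast_nonneg _) (Real.log_natCast_nonneg p)
  have h1 : Real.log d ≤ ∑ p ∈ d.primeFactors, V p := by
    rw [Real.log_nat_eq_sum_factorization]
    unfold Finsupp.sum
    rw [Nat.support_factorization]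
    refine Finset.sum_le_sum fun p hp => ?_
    have h2 : d.factorization p ≤ (D a b).natAbs.factorization p :=
      (Nat.factorization_le_iff_dvd hd0 hDn).mpr hdn p
    have h3 : ((d.factorization p : ℕ) : ℝ) ≤ ((D a b).natAbs.factorization p : ℕ) := by
      exact_mod_cast h2
    exact mul_le_mul_of_nonneg_right h3 (Real.log_natCast_nonneg p)
  have h2 : d.primeFactors ⊆ (mult a b).filter (fun p : ℕ => ¬ (p : ℤ) ∣ y) ∪ W.erase 0 := by
    intro p hp
    have hpp := Nat.prime_of_mem_primeFactors hp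
    have hpd := Nat.dvd_of_mem_primeFactors hp
    have hpy : ¬ (p : ℤ) ∣ y := by
      intro h
      have h3 : p ∣ y.natAbs := Int.natCast_dvd.mp h
      exact Nat.not_coprime_of_dvd_of_dvd hpp.one_lt hpd h3 hcop
    rw [Finset.mem_union]
    by_cases hm : p ∈ mult a b
    · left
      exact Finset.mem_filter.mpr ⟨hm, hpy⟩
    · right
      refine Finset.mem_erase.mpr ⟨hpp.ne_zero, Finset.mem_sdiff.mpr ⟨?_, hm⟩⟩
      refine Finset.mem_insert_of_mem ?_
      rw [Nat.mem_primeFactors]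
      refine ⟨hpp, ?_, ?_⟩
      · rw [Int.natAbs_mul]
        exact Dvd.dvd.mul_left (hpd.trans hdn) _
      · rw [Int.natAbs_ne_zero]
        exact mul_ne_zero (by norm_num) hD
  have h3 : ∑ p ∈ d.primeFactors, V p ≤
      ∑ p ∈ (mult a b).filter (fun p : ℕ => ¬ (p : ℤ) ∣ y), V p + ∑ p ∈ W.erase 0, V p := by
    refine (Finset.sum_le_sum_of_subset_of_nonneg h2 fun p _ _ => hV0 p).trans ?_
    have h4 := Finset.sum_union_inter (s₁ := (mult a b).filter (fun p : ℕ => ¬ (p : ℤ) ∣ y))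
      (s₂ := W.erase 0) (f := V)
    have h5 : 0 ≤ ∑ p ∈ ((mult a b).filter (fun p : ℕ => ¬ (p : ℤ) ∣ y)) ∩ (W.erase 0), V p :=
      Finset.sum_nonneg fun p _ => hV0 p
    linarith
  have h4 : ∑ p ∈ (mult a b).filter (fun p : ℕ => ¬ (p : ℤ) ∣ y), V p ≤
      ∑ p ∈ (mult a b).filter (fun p : ℕ => ¬ (p : ℤ) ∣ y), nup a b p := by
    refine Finset.sum_le_sum fun p hp => ?_
    have hp' := (Finset.mem_filter.mp hp).1
    obtain ⟨-, -, hs1, -⟩ := mult_facts hD hp'
    have h5 := val_eq hD (mem_mult hD hp').1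
    rw [hs1, Real.log_one, mul_zero, sub_zero] at h5
    show ((D a b).natAbs.factorization p : ℝ) * Real.log p ≤ nup a b p
    rw [h5]
    exact le_max_right _ _
  have h5 : ∑ p ∈ W.erase 0, V p ≤ ∑ p ∈ W, nup a b p +
      6 * ∑ p ∈ W.erase 0, 2 * Real.log p := by
    have h6 : ∑ p ∈ W.erase 0, V p ≤ ∑ p ∈ W.erase 0, (nup a b p + 6 * (2 * Real.log p)) := by
      refine Finset.sum_le_sum fun p hp => ?_
      have h7 := val_eq hD (hWp p hp)
      have h8 := gcd_sv_prime hq (hWp p hp)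
      have h9 : nu (fv p) a b ≤ nup a b p := le_max_right _ _
      show ((D a b).natAbs.factorization p : ℝ) * Real.log p ≤ _
      rw [h7]
      linarith
    rw [Finset.sum_add_distrib, ← Finset.mul_sum] at h6
    have h10 : ∑ p ∈ W.erase 0, nup a b p ≤ ∑ p ∈ W, nup a b p :=
      Finset.sum_le_sum_of_subset_of_nonneg (Finset.erase_subset _ _)
        fun v _ _ => nup_nonneg a b v
    linarith
  have h6 : 0 ≤ ∑ v ∈ W, nup a b v := Finset.sum_nonneg fun v _ => nup_nonneg a b v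
  linarith

/-- Integral points for which `D` has a divisor `d ≥ H^δ` coprime to `y`. -/
theorem main_C : ∃ C : ℝ, 1 ≤ C ∧ ∀ (a b : ℤ), QuasiMinimal a b →
    ∀ r : ℕ, Module.rank ℤ (curve a b).Point ≤ r → ∀ δ : ℝ, 0 < δ → δ ≤ 1 →
    (({z | z ∈ integralPoints a b ∧ ∃ d : ℕ, (d : ℤ) ∣ D a b ∧ Nat.Coprime d z.2.natAbs ∧
      δ * L a b ≤ Real.log d} :
      Set (ℤ × ℤ)).ncard : ℝ) ≤ C ^ (1 + r) * (1 / δ) ^ (3 + 3 * (r : ℝ) / 4) := by
  obtain ⟨C₀, hC₀, hcop⟩ := sum_coprime_ge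
  obtain ⟨C₁, hC₁, hcount⟩ := count_gen (C₀ + 4) (by linarith)
  refine ⟨1568 * C₁, by linarith, fun a b hq r hr δ hδ hδ1 => ?_⟩
  have hD := hq.ne
  have hL := L_pos a b
  have hr0 : (0 : ℝ) ≤ r := Nat.cast_nonneg r
  have hδ3 : δ ^ 3 ≤ δ := by nlinarith [mul_pos hδ hδ]
  have hδ30 : 0 < δ ^ 3 := by positivity
  set ε : ℝ := δ / 28 with hε
  have hε0 : 0 < ε := by positivity
  have h := hcount a b hq r hr (δ ^ 3 / 1568) (by positivity) (by linarith) 3 ![0, ε, -ε]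
    ![1 / ε, -(1 / (2 * ε)), -(1 / (2 * ε))] (fun τ => max 0 (1 - τ / ε) - ε) (1 / ε) (δ / 2)
    (test_C hε0 (by rw [hε]; linarith)) (by positivity)
    (le_of_eq (by rw [hε]; field_simp; norm_num)) {z | z ∈ integralPoints a b ∧ ∃ d : ℕ,
      (d : ℤ) ∣ D a b ∧ Nat.Coprime d z.2.natAbs ∧ δ * L a b ≤ Real.log d} (fun z hz => hz.1)
    (fun hK hR z hz => by
      obtain ⟨hzI, d, hd, hdc, hdl⟩ := hz
      have h1 := hcop a b hq z.2 d hd hdc
      have hW : ∑ p ∈ mult a b, nup a b p ≤ 6 * L a b + 4 := by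
        refine le_trans ?_ (sum_nup_le hD)
        exact Finset.sum_le_sum_of_subset_of_nonneg (mult_subset hD)
          fun v _ _ => nup_nonneg a b v
      have h2 : ∑ p ∈ (mult a b).filter (fun p : ℕ => ¬ (p : ℤ) ∣ z.2), nup a b p -
          ε * ∑ p ∈ mult a b, nup a b p ≤ Av hD (fun τ => max 0 (1 - τ / ε) - ε) z := by
        unfold Av
        rw [Finset.sum_filter, Finset.mul_sum, ← Finset.sum_sub_distrib]
        refine Finset.sum_le_sum fun p hp => ?_
        have hn := nup_nonneg a b p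
        by_cases hy : (p : ℤ) ∣ z.2
        · rw [if_neg (not_not.mpr hy)]
          have h3 : (0 : ℝ) ≤ max 0 (1 - tau p (LR.toPt hD z) / ε) := le_max_left _ _
          have h4 := mul_nonneg hn h3
          show 0 - ε * nup a b p ≤
            nup a b p * (max 0 (1 - tau p (LR.toPt hD z) / ε) - ε)
          rw [mul_sub]
          linarith
        · rw [if_pos hy, tau_zero hD hp hzI hy]
          show nup a b p - ε * nup a b p ≤ nup a b p * (max 0 (1 - 0 / ε) - ε)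
          rw [zero_div, sub_zero, max_eq_right (by norm_num)]
          linarith
      have h5 : δ ^ 3 / 1568 * L a b ≤ δ / 1568 * L a b := by gcongr
      have h6 : ε * ∑ p ∈ mult a b, nup a b p ≤ ε * (6 * L a b + 4) := by gcongr
      have h7 : 4 ≤ L a b := by
        have : δ / 1568 * L a b ≤ 1 * L a b := by
          gcongr
          linarith
        linarith
      have h8 : ε * (6 * L a b + 4) ≤ ε * (7 * L a b) := by
        gcongr
        linarith
      have h9 : ε * (7 * L a b) = δ * L a b / 4 := by rw [hε]; ring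
      have h10 := mul_pos hδ hL
      show δ / 2 * L a b ≤ _
      refine le_trans ?_ h2
      linarith)
  refine h.trans ?_
  have e1 : (1 / (δ ^ 3 / 1568)) = 1568 * (1 / δ) ^ 3 := by field_simp
  have e2 : (1 / (δ ^ 3 / 1568)) ^ (1 + (r : ℝ) / 4) ≤
      1568 ^ (1 + r) * (1 / δ) ^ (3 + 3 * (r : ℝ) / 4) := by
    rw [e1, Real.mul_rpow (by norm_num) (by positivity)]
    have e3 := rpow_quarter_le (by norm_num : (1 : ℝ) ≤ 1568) r
    have e4 : ((1 / δ) ^ 3) ^ (1 + (r : ℝ) / 4) = (1 / δ) ^ (3 + 3 * (r : ℝ) / 4) := by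
      rw [← Real.rpow_natCast (1 / δ) 3, ← Real.rpow_mul (by positivity)]
      congr 1
      push_cast
      ring
    rw [e4]
    gcongr
  calc C₁ ^ (1 + r) * (1 / (δ ^ 3 / 1568)) ^ (1 + (r : ℝ) / 4)
      ≤ C₁ ^ (1 + r) * (1568 ^ (1 + r) * (1 / δ) ^ (3 + 3 * (r : ℝ) / 4)) := by gcongr
    _ = (1568 * C₁) ^ (1 + r) * (1 / δ) ^ (3 + 3 * (r : ℝ) / 4) := by rw [mul_pow]; ring

end Pool.Agent.H24.LZ
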