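import Pool.Agent.H24.LZ.Add
import Pool.Agent.H24.LZ.TestB
import Pool.Agent.H24.LZ.TestC

/-!
# The integral points which are far from the divisibility of Nagell and Lutz
-/

namespace Pool.Agent.H24.LZ

open Pool.Agent.H24.LP Pool.Agent.H24.LQ Finset

/-- `y² ≤ 3 e^{3M}` if `|x| ≤ e^M`, `M ≥ L`. -/
lemma y_sq_le {a b : ℤ} {M : ℝ} (hM : L a b ≤ M) {z : ℤ × ℤ} (hz : z ∈ integralPoints a b)
    (hx : |(z.1 : ℝ)| ≤ Real.exp M) : ((z.2 : ℝ)) ^ 2 ≤ 3 * Real.exp (3 * M) := by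
  have h1 : ((z.2 : ℝ)) ^ 2 = (z.1 : ℝ) ^ 3 + a * z.1 + b := by exact_mod_cast hz
  have ha := abs_a_le a b
  have hb := abs_b_le a b
  have e2 : Real.exp (2 * L a b) ≤ Real.exp (2 * M) := Real.exp_le_exp.mpr (by linarith)
  have e3 : Real.exp (3 * L a b) ≤ Real.exp (3 * M) := Real.exp_le_exp.mpr (by linarith)
  have h2 : |(z.1 : ℝ) ^ 3| ≤ Real.exp (3 * M) := by
    rw [abs_pow]
    calc |(z.1 : ℝ)| ^ 3 ≤ Real.exp M ^ 3 := pow_le_pow_left₀ (abs_nonneg _) hx 3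
      _ = Real.exp (3 * M) := by rw [← Real.exp_nat_mul]; norm_num
  have h3 : |(a : ℝ) * z.1| ≤ Real.exp (3 * M) := by
    rw [abs_mul]
    calc |(a : ℝ)| * |(z.1 : ℝ)| ≤ Real.exp (2 * M) * Real.exp M :=
          mul_le_mul (ha.trans e2) hx (abs_nonneg _) (Real.exp_pos _).le
      _ = Real.exp (3 * M) := by rw [← Real.exp_add]; congr 1; ring
  have h4 : |(b : ℝ)| ≤ Real.exp (3 * M) := hb.trans e3
  have h5 := le_abs_self ((z.1 : ℝ) ^ 3)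
  have h6 := le_abs_self ((a : ℝ) * z.1)
  have h7 := le_abs_self (b : ℝ)
  rw [h1]
  linarith

/-- If `y² ∤ kD` for all `1 ≤ k ≤ K` then `gcd(y², D) K < y²`. -/
lemma gcd_lt_of_not_dvd {y D : ℤ} (hy : y ≠ 0) {K : ℝ}
    (h : ∀ k : ℕ, 0 < k → (k : ℝ) ≤ K → ¬ y ^ 2 ∣ k * D) :
    (Int.gcd (y ^ 2) D : ℝ) * K < (y : ℝ) ^ 2 := by
  set G : ℕ := Int.gcd (y ^ 2) D with hG
  have hy2 : y ^ 2 ≠ 0 := pow_ne_zero 2 hy
  have hG0 : 0 < G := Int.gcd_pos_of_ne_zero_left _ hy2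
  have hGy : (G : ℤ) ∣ y ^ 2 := Int.gcd_dvd_left _ _
  have hGD : (G : ℤ) ∣ D := Int.gcd_dvd_right _ _
  obtain ⟨k, hk⟩ := hGy
  obtain ⟨m, hm⟩ := hGD
  have hGpos : (0 : ℤ) < G := by exact_mod_cast hG0
  have hk0 : 0 < k := by
    have h1 : 0 < (G : ℤ) * k := by
      rw [← hk]
      positivity
    exact (mul_pos_iff_of_pos_left hGpos).mp h1
  have hkn : ((k.toNat : ℕ) : ℤ) = k := Int.toNat_of_nonneg hk0.le
  have h2 : y ^ 2 ∣ (k.toNat : ℤ) * D := by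
    rw [hkn, hm, hk]
    exact ⟨m, by ring⟩
  have h3 : K < (k.toNat : ℝ) := by
    by_contra hcon
    exact h k.toNat (by omega) (not_lt.mp hcon) h2
  have h4 : ((k.toNat : ℕ) : ℝ) = (k : ℝ) := by exact_mod_cast hkn
  have h5 : (y : ℝ) ^ 2 = (G : ℝ) * k := by exact_mod_cast hk
  rw [h5]
  have h6 : (0 : ℝ) < G := by exact_mod_cast hG0
  rw [h4] at h3
  exact mul_lt_mul_of_pos_left h3 h6

/-- The integral points far from the divisibility of Nagell and Lutz. -/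
theorem main_N : ∃ C : ℝ, 1 ≤ C ∧ ∀ (a b : ℤ), QuasiMinimal a b →
    ∀ r : ℕ, Module.rank ℤ (curve a b).Point ≤ r → ∀ δ : ℝ, 0 < δ → δ ≤ 1 →
    (({z | z ∈ integralPoints a b ∧
      ((z.2 ≠ 0 ∧ ∀ k : ℕ, 0 < k → (k : ℝ) ≤ Real.exp (δ * L a b) → ¬ z.2 ^ 2 ∣ k * D a b) ∨
      (∃ d : ℕ, (d : ℤ) ∣ D a b ∧ Nat.Coprime d z.2.natAbs ∧ Real.exp (δ * L a b) ≤ d))} :
      Set (ℤ × ℤ)).ncard : ℝ) ≤ C ^ (1 + r) * (1 / δ) ^ (3 + 3 * (r : ℝ) / 4) := by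
  classical
  obtain ⟨C₁, hC₁, hB⟩ := main_B3
  obtain ⟨C₂, hC₂, hCc⟩ := main_C
  obtain ⟨C₃, hC₃, hS⟩ := main_S
  obtain ⟨C₄, hC₄, hZ⟩ := main_ZA
  set C : ℝ := 4 * C₁ + C₂ + 12 * C₃ + 8 * C₄ with hC
  refine ⟨C, by linarith, fun a b hq r hr δ hδ hδ1 => ?_⟩
  have hL := L_pos a b
  have hr0 : (0 : ℝ) ≤ r := Nat.cast_nonneg r
  have h1δ : 1 ≤ 1 / δ := by rw [le_div_iff₀ hδ]; linarith
  set Y : ℝ := (1 / δ) ^ (3 + 3 * (r : ℝ) / 4) with hY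
  have hY1 : 1 ≤ Y := Real.one_le_rpow h1δ (by positivity)
  have hY0 : 0 ≤ Y := by linarith
  obtain ⟨hfin, hT, -⟩ := hZ a b hq r hr
  have hlog3 : Real.log 3 ≤ 2 := by
    have := Real.log_le_sub_one_of_pos (by norm_num : (0 : ℝ) < 3)
    linarith
  have hlog3' : 0 ≤ Real.log 3 := Real.log_nonneg (by norm_num)
  set X : Set (ℤ × ℤ) := {z | z ∈ integralPoints a b ∧
      ((z.2 ≠ 0 ∧ ∀ k : ℕ, 0 < k → (k : ℝ) ≤ Real.exp (δ * L a b) → ¬ z.2 ^ 2 ∣ k * D a b) ∨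
      (∃ d : ℕ, (d : ℤ) ∣ D a b ∧ Nat.Coprime d z.2.natAbs ∧ Real.exp (δ * L a b) ≤ d))} with hX
  rcases le_total (δ * L a b) 8 with h | h
  · -- all points
    have hXI : X ⊆ integralPoints a b := fun z hz => hz.1
    have h1 : (X.ncard : ℝ) ≤ ((integralPoints a b).ncard : ℝ) := by
      exact_mod_cast Set.ncard_le_ncard hXI hfin
    have h2 := hT ∅
    rw [Finset.card_empty, add_zero] at h2
    have hG1 : 1 ≤ GA a b ∅ := (one_le_GT a b ∅).trans (GT_le_GA ∅ hq.ne)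
    have h3 : L a b / GA a b ∅ ≤ 8 * (1 / δ) := by
      calc L a b / GA a b ∅ ≤ L a b := div_le_self hL.le hG1
        _ ≤ 8 * (1 / δ) := by
          rw [mul_one_div, le_div_iff₀ hδ, mul_comm]
          exact h
    have h4 : (L a b / GA a b ∅) ^ (1 + (r : ℝ) / 4) ≤ 8 ^ (1 + r) * Y := by
      have h0 : 0 ≤ L a b / GA a b ∅ := by positivity
      calc (L a b / GA a b ∅) ^ (1 + (r : ℝ) / 4) ≤ (8 * (1 / δ)) ^ (1 + (r : ℝ) / 4) :=
            Real.rpow_le_rpow h0 h3 (by positivity)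
        _ = 8 ^ (1 + (r : ℝ) / 4) * (1 / δ) ^ (1 + (r : ℝ) / 4) :=
            Real.mul_rpow (by norm_num) (by positivity)
        _ ≤ 8 ^ (1 + r) * Y := by
            have e1 := rpow_quarter_le (by norm_num : (1 : ℝ) ≤ 8) r
            have e2 : (1 / δ) ^ (1 + (r : ℝ) / 4) ≤ Y :=
              Real.rpow_le_rpow_of_exponent_le h1δ (by linarith)
            gcongr
    calc (X.ncard : ℝ) ≤ C₄ ^ (1 + r) * (8 ^ (1 + r) * Y) :=
          h1.trans (h2.trans (mul_le_mul_of_nonneg_left h4 (by positivity)))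
      _ = (8 * C₄) ^ (1 + r) * Y := by rw [mul_pow]; ring
      _ ≤ C ^ (1 + r) * Y := mono_pow (by linarith) (by linarith) _ hY0
  -- the main case
  set A₁ : Set (ℤ × ℤ) := {z | z ∈ integralPoints a b ∧
      Real.log (Int.gcd (z.2 ^ 2) (D a b) : ℝ) ≤ (3 - δ / 2) * L a b} with hA₁
  set A₂ : Set (ℤ × ℤ) := {z | z ∈ integralPoints a b ∧ ∃ d : ℕ, (d : ℤ) ∣ D a b ∧
      Nat.Coprime d z.2.natAbs ∧ δ * L a b ≤ Real.log d} with hA₂
  set A₃ : Set (ℤ × ℤ) := {z | z ∈ integralPoints a b ∧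
      Real.exp (L a b + δ * L a b / 12) ≤ |(z.1 : ℝ)|} with hA₃
  have hsub : X ⊆ (A₁ ∪ A₂) ∪ A₃ := by
    rintro z ⟨hz, h1 | ⟨d, hd1, hd2, hd3⟩⟩
    · by_cases hx : Real.exp (L a b + δ * L a b / 12) ≤ |(z.1 : ℝ)|
      · exact Or.inr ⟨hz, hx⟩
      · refine Or.inl (Or.inl ⟨hz, ?_⟩)
        have hx' := (not_le.mp hx).le
        have h2 := y_sq_le (M := L a b + δ * L a b / 12) (by
          have := mul_pos hδ hL
          linarith) hz hx'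
        have h3 := gcd_lt_of_not_dvd h1.1 h1.2
        have hG0 : (0 : ℝ) < (Int.gcd (z.2 ^ 2) (D a b) : ℝ) := by
          have : 0 < Int.gcd (z.2 ^ 2) (D a b) := Int.gcd_pos_of_ne_zero_right _ hq.ne
          exact_mod_cast this
        have h4 := h3.trans_le h2
        have h5 := Real.log_lt_log (by positivity) h4
        rw [Real.log_mul hG0.ne' (Real.exp_pos _).ne', Real.log_exp,
          Real.log_mul (by norm_num) (Real.exp_pos _).ne', Real.log_exp] at h5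
        linarith
    · refine Or.inl (Or.inr ⟨hz, d, hd1, hd2, ?_⟩)
      have hd0 : (0 : ℝ) < d := (Real.exp_pos _).trans_le hd3
      rw [Real.le_log_iff_exp_le hd0]
      exact hd3
  have hf₁ : A₁.Finite := hfin.subset fun z hz => hz.1
  have hf₂ : A₂.Finite := hfin.subset fun z hz => hz.1
  have hf₃ : A₃.Finite := hfin.subset fun z hz => hz.1
  have hcard : (X.ncard : ℝ) ≤ A₁.ncard + A₂.ncard + A₃.ncard := by
    have h1 := Set.ncard_le_ncard hsub ((hf₁.union hf₂).union hf₃)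
    have h2 := Set.ncard_union_le (A₁ ∪ A₂) A₃
    have h3 := Set.ncard_union_le A₁ A₂
    have h4 : X.ncard ≤ A₁.ncard + A₂.ncard + A₃.ncard := by omega
    exact_mod_cast h4
  have b1 : (A₁.ncard : ℝ) ≤ (4 * C₁) ^ (1 + r) * Y := by
    have h1 := hB a b hq r hr (δ / 2) (by positivity) (by linarith)
    refine h1.trans ?_
    have e0 : 1 / (δ / 2) = 2 * (1 / δ) := by field_simp
    have e1 : (2 : ℝ) ^ (2 + (r : ℝ) / 2) ≤ 4 ^ (1 + r) := by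
      have h5 : (4 : ℝ) ^ (1 + r) = 2 ^ ((2 * (1 + r) : ℕ) : ℝ) := by
        rw [Real.rpow_natCast, pow_mul]
        norm_num
      rw [h5]
      refine Real.rpow_le_rpow_of_exponent_le (by norm_num) ?_
      push_cast
      linarith
    have e2 : (1 / δ) ^ (2 + (r : ℝ) / 2) ≤ Y :=
      Real.rpow_le_rpow_of_exponent_le h1δ (by linarith)
    calc C₁ ^ (1 + r) * (1 / (δ / 2)) ^ (2 + (r : ℝ) / 2)
        = C₁ ^ (1 + r) * (2 ^ (2 + (r : ℝ) / 2) * (1 / δ) ^ (2 + (r : ℝ) / 2)) := by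
          rw [e0, Real.mul_rpow (by norm_num) (by positivity)]
      _ ≤ C₁ ^ (1 + r) * (4 ^ (1 + r) * Y) := by gcongr
      _ = (4 * C₁) ^ (1 + r) * Y := by rw [mul_pow]; ring
  have b2 : (A₂.ncard : ℝ) ≤ C₂ ^ (1 + r) * Y := hCc a b hq r hr δ hδ hδ1
  have b3 : (A₃.ncard : ℝ) ≤ (12 * C₃) ^ (1 + r) * Y := by
    have h1 := (hS a b hq r hr).1 (δ * L a b / 12) (by positivity)
    refine h1.trans ?_
    have h2 := quarter_beta (a := a) (b := b) r hδ hδ1 (by norm_num : (1 : ℝ) ≤ 12)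
    have e2 : (1 / δ) ^ (1 + (r : ℝ) / 4) ≤ Y :=
      Real.rpow_le_rpow_of_exponent_le h1δ (by linarith)
    calc C₃ ^ (1 + r) * (max 1 (L a b / (δ * L a b / 12))) ^ (1 + (r : ℝ) / 4)
        ≤ C₃ ^ (1 + r) * (12 ^ (1 + r) * (1 / δ) ^ (1 + (r : ℝ) / 4)) := by gcongr
      _ ≤ C₃ ^ (1 + r) * (12 ^ (1 + r) * Y) := by gcongr
      _ = (12 * C₃) ^ (1 + r) * Y := by rw [mul_pow]; ring
  have h7 := LW.pow_sum3 (x := 4 * C₁) (y := C₂) (z := 12 * C₃) (by linarith) (by linarith)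
    (by linarith) r
  calc (X.ncard : ℝ) ≤ ((4 * C₁) ^ (1 + r) + C₂ ^ (1 + r) + (12 * C₃) ^ (1 + r)) * Y := by
        rw [add_mul, add_mul]
        linarith
    _ ≤ (4 * C₁ + C₂ + 12 * C₃) ^ (1 + r) * Y := mul_le_mul_of_nonneg_right h7 hY0
    _ ≤ C ^ (1 + r) * Y := mono_pow (by linarith) (by linarith) _ hY0

end Pool.Agent.H24.LZ
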