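import Pool.Agent.H24.LZ.FinalQ

/-!
# The bound with `ω/(1+r)`
-/

namespace Pool.Agent.H24.LZ

open Pool.Agent.H24.LP Pool.Agent.H24.LQ Finset

/-- A set of at most `t` primes with `L ≤ B max(1, ω/t) G_T`. -/
lemma exists_T_omega : ∃ B : ℝ, 1 ≤ B ∧ ∀ a b : ℤ, QuasiMinimal a b → ∀ t : ℕ, 0 < t →
    ∃ T : Finset ℕ, T.card ≤ t ∧
      L a b / GT a b T ≤ B * max 1 (((poles a b).card : ℝ) / t) := by
  classical
  obtain ⟨B₀, hB₀⟩ := L_le_GT_poles
  refine ⟨max 1 B₀, le_max_left _ _, fun a b hq t ht => ?_⟩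
  have hL := L_pos a b
  have ht0 : (0 : ℝ) < t := by exact_mod_cast ht
  obtain ⟨T, hTP, hTt, hT⟩ := exists_top (poles a b) (fun p => (np a b p : ℝ) * Real.log p) t
  refine ⟨T, hTt, ?_⟩
  have hG1 := one_le_GT a b T
  have hG0 : 0 < GT a b T := by linarith
  have hB := hB₀ a b hq (poles a b) (Finset.Subset.refl _)
  have hm1 : (1 : ℝ) ≤ max 1 (((poles a b).card : ℝ) / t) := le_max_left _ _
  have hkey : GT a b (poles a b) ≤ max 1 (((poles a b).card : ℝ) / t) * GT a b T := by
    rcases hT with h | ⟨hc, hTq⟩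
    · rw [h]
      have h1 := one_le_GT a b (poles a b)
      nlinarith
    · rw [GT_add hTP]
      set S : ℝ := ∑ p ∈ T, (np a b p : ℝ) * Real.log p with hS
      have hS0 : 0 ≤ S := Finset.sum_nonneg fun p _ => np_log_nonneg a b p
      have hSG : S ≤ GT a b T := by
        have h2 : 0 ≤ ∑ p ∈ poles a b, Real.log p / np a b p :=
          Finset.sum_nonneg fun p _ =>
            div_nonneg (Real.log_natCast_nonneg p) (Nat.cast_nonneg _)
        obtain ⟨g1, g2, g3⟩ := GT_terms a b T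
        have hw := HeightData.wInf_nonneg (a := a) (b := b)
        unfold GT
        linarith
      have h3 : (t : ℝ) * ∑ p ∈ poles a b \ T, (np a b p : ℝ) * Real.log p ≤
          ((poles a b \ T).card : ℝ) * S := by
        rw [Finset.mul_sum]
        have h4 : ∀ q ∈ poles a b \ T, (t : ℝ) * ((np a b q : ℝ) * Real.log q) ≤ S := by
          intro q hq'
          have h5 : ∑ p ∈ T, (np a b q : ℝ) * Real.log q ≤ S :=
            Finset.sum_le_sum fun p hp => hTq p hp q hq'
          rw [Finset.sum_const, nsmul_eq_mul, hc] at h5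
          exact h5
        have h6 := Finset.sum_le_card_nsmul (poles a b \ T) _ _ h4
        rwa [nsmul_eq_mul] at h6
      have h7 : ((poles a b \ T).card : ℝ) = (poles a b).card - t := by
        have h8 := Finset.card_sdiff_add_card_eq_card hTP
        rw [hc] at h8
        have : ((poles a b \ T).card : ℝ) + t = (poles a b).card := by exact_mod_cast h8
        linarith
      have h9 : ∑ p ∈ poles a b \ T, (np a b p : ℝ) * Real.log p ≤
          (((poles a b).card : ℝ) / t - 1) * S := by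
        have e : (((poles a b).card : ℝ) / t - 1) * S =
            (((poles a b).card : ℝ) - t) * S / t := by field_simp
        rw [e, le_div_iff₀ ht0, mul_comm]
        rw [h7] at h3
        exact h3
      have h10 : (1 : ℝ) ≤ ((poles a b).card : ℝ) / t := by
        rw [le_div_iff₀ ht0, one_mul]
        have := Finset.card_le_card hTP
        rw [hc] at this
        exact_mod_cast this
      have h11 : ((poles a b).card : ℝ) / t ≤ max 1 (((poles a b).card : ℝ) / t) :=
        le_max_right _ _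
      have h12 : (((poles a b).card : ℝ) / t - 1) * S ≤
          (((poles a b).card : ℝ) / t - 1) * GT a b T :=
        mul_le_mul_of_nonneg_left hSG (by linarith)
      nlinarith
  rw [div_le_iff₀ hG0]
  have hP0 : 0 < GT a b (poles a b) := by
    have := one_le_GT a b (poles a b)
    linarith
  calc L a b ≤ B₀ * GT a b (poles a b) := hB
    _ ≤ max 1 B₀ * GT a b (poles a b) :=
        mul_le_mul_of_nonneg_right (le_max_right _ _) hP0.le
    _ ≤ max 1 B₀ * (max 1 (((poles a b).card : ℝ) / t) * GT a b T) :=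
        mul_le_mul_of_nonneg_left hkey (le_trans zero_le_one (le_max_left _ _))
    _ = _ := by ring

/-- The bound with `ω/(1+r)`. -/
theorem main_omega2 : ∃ C : ℝ, 1 ≤ C ∧ ∀ (a b : ℤ), QuasiMinimal a b →
    ∀ r : ℕ, Module.rank ℤ (curve a b).Point ≤ r →
    ((integralPoints a b).ncard : ℝ) ≤
      C ^ (1 + r) * (max 1 (((poles a b).card : ℝ) / (1 + r))) ^ (1 + (r : ℝ) / 4) := by
  obtain ⟨B, hB, hT⟩ := exists_T_omega
  obtain ⟨C₁, hC₁, h₁⟩ := main_Z'
  refine ⟨C₁ ^ 2 * B, by nlinarith, fun a b hq r hr => ?_⟩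
  have hL := L_pos a b
  obtain ⟨T, hTc, hTG⟩ := hT a b hq (1 + r) (by omega)
  have hcast : (((1 + r : ℕ) : ℕ) : ℝ) = 1 + (r : ℝ) := by push_cast; ring
  rw [hcast] at hTG
  set m : ℝ := max 1 (((poles a b).card : ℝ) / (1 + r)) with hm
  have hm1 : 1 ≤ m := le_max_left _ _
  have hm0 : 0 ≤ m := by linarith
  have hG0 : 0 < GT a b T := by
    have := one_le_GT a b T
    linarith
  have h2 := (h₁ a b hq r hr).2.1 T
  have h3 : (L a b / GT a b T) ^ (1 + (r : ℝ) / 4) ≤ B ^ (1 + r) * m ^ (1 + (r : ℝ) / 4) := by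
    calc (L a b / GT a b T) ^ (1 + (r : ℝ) / 4) ≤ (B * m) ^ (1 + (r : ℝ) / 4) :=
          Real.rpow_le_rpow (by positivity) hTG (by positivity)
      _ = B ^ (1 + (r : ℝ) / 4) * m ^ (1 + (r : ℝ) / 4) := Real.mul_rpow (by linarith) hm0
      _ ≤ B ^ (1 + r) * m ^ (1 + (r : ℝ) / 4) :=
          mul_le_mul_of_nonneg_right (rpow_quarter_le hB r) (by positivity)
  have h4 : C₁ ^ (1 + r + T.card) ≤ (C₁ ^ 2) ^ (1 + r) := by
    rw [← pow_mul]
    exact pow_le_pow_right₀ hC₁ (by omega)
  calc ((integralPoints a b).ncard : ℝ)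
      ≤ C₁ ^ (1 + r + T.card) * (L a b / GT a b T) ^ (1 + (r : ℝ) / 4) := h2
    _ ≤ (C₁ ^ 2) ^ (1 + r) * (B ^ (1 + r) * m ^ (1 + (r : ℝ) / 4)) := by gcongr
    _ = (C₁ ^ 2 * B) ^ (1 + r) * m ^ (1 + (r : ℝ) / 4) := by rw [mul_pow]; ring

end Pool.Agent.H24.LZ
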