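import Pool.Agent.H24.LZ.Omega2
import Pool.Agent.H24.LZ.OmT

/-!
# The bounds with the number of primes `p` with `n_p > m`
-/

namespace Pool.Agent.H24.LZ

open Pool.Agent.H24.LP Pool.Agent.H24.LQ Finset

/-- The bound with the number of primes `p` with `n_p > m`. -/
theorem main_omega_m : ∃ C : ℝ, 1 ≤ C ∧ ∀ (a b : ℤ), QuasiMinimal a b →
    ∀ r : ℕ, Module.rank ℤ (curve a b).Point ≤ r → ∀ m : ℕ, 1 ≤ m →
    ((integralPoints a b).ncard : ℝ) ≤
      C ^ (1 + r) * ((m : ℝ) ^ (2 + (r : ℝ) / 2) +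
        ((polesm a b m).card : ℝ) ^ ((12 + (r : ℝ)) / 8)) := by
  classical
  obtain ⟨Ch, hCh, hht⟩ := exists_height
  obtain ⟨C₀, hC₀, hW⟩ := sum_mult_ge
  obtain ⟨C₁, hC₁, hQ⟩ := count_Q
  obtain ⟨C₂, hC₂, hT⟩ := main_TA
  obtain ⟨C₃, hC₃, hrest⟩ := rest_ball Ch hCh
  obtain ⟨C₄, hC₄, hup⟩ := upgrade Ch hCh
  have hC34 : 1 ≤ C₃ * C₄ := by nlinarith
  refine ⟨C₁ + C₂ * (1 + C₀) + C₃ * C₄ * 12, by nlinarith, fun a b hq r hr m hm => ?_⟩
  have hD := hq.ne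
  have hL := L_pos a b
  have hr0 : (0 : ℝ) ≤ r := Nat.cast_nonneg r
  have hm1 : (1 : ℝ) ≤ m := by exact_mod_cast hm
  set ω : ℝ := ((polesm a b m).card : ℝ) with hω
  have hω0 : 0 ≤ ω := Nat.cast_nonneg _
  set M : ℝ := (m : ℝ) ^ (2 + (r : ℝ) / 2) with hM
  have hM1 : 1 ≤ M := Real.one_le_rpow hm1 (by positivity)
  set Z : ℝ := ω ^ ((12 + (r : ℝ)) / 8) with hZ
  have hZ0 : 0 ≤ Z := Real.rpow_nonneg hω0 _
  set Y : ℝ := M + Z with hY
  have hY1 : 1 ≤ Y := by linarith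
  have hY0 : 0 ≤ Y := by linarith
  have hC20 : 1 ≤ C₂ * (1 + C₀) := by nlinarith
  have hG1 : 1 ≤ GA a b ∅ := (one_le_GT a b ∅).trans (GT_le_GA ∅ hq.ne)
  have hG0 : 0 < GA a b ∅ := by linarith
  rcases le_total (L a b) C₀ with h | h
  · have h1 := hT a b hq r hr ∅
    rw [Finset.card_empty, add_zero] at h1
    have h2 : L a b / GA a b ∅ ≤ 1 + C₀ := (div_le_self hL.le hG1).trans (by linarith)
    have e0 : (0 : ℝ) ≤ L a b / GA a b ∅ := by positivity
    have h3 : (L a b / GA a b ∅) ^ (1 + (r : ℝ) / 4) ≤ (1 + C₀) ^ (1 + r) :=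
      (Real.rpow_le_rpow e0 h2 (by positivity)).trans (rpow_quarter_le (by linarith) r)
    calc ((integralPoints a b).ncard : ℝ) ≤ C₂ ^ (1 + r) * (1 + C₀) ^ (1 + r) :=
          h1.trans (mul_le_mul_of_nonneg_left h3 (by positivity))
      _ = (C₂ * (1 + C₀)) ^ (1 + r) * 1 := by rw [mul_pow, mul_one]
      _ ≤ (C₂ * (1 + C₀)) ^ (1 + r) * Y := by gcongr
      _ ≤ _ := mono_pow (by linarith) (by nlinarith) _ hY0
  rcases le_total (L a b / 12) (LX.Rst a b) with h' | h'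
  · obtain ⟨g, g1, g2, g3⟩ := hht a b hq.ne
    have hg : IsHt Ch g := ⟨g1, g2, g3⟩
    have h1 := hup a b hq g hg r hr (L a b / 12) (C₃ ^ (1 + r)) (by positivity)
      (one_le_pow₀ hC₃) (integralPoints a b) (Set.Subset.refl _)
      (fun R hR S _ hS => hrest a b hq g hg r hr R (L a b / 12) hR (by positivity) h' S hS)
    have h2 : (max 1 (L a b / (L a b / 12))) ^ (1 + (r : ℝ) / 4) ≤ 12 ^ (1 + r) := by
      have e1 : L a b / (L a b / 12) = 12 := by field_simp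
      rw [e1, max_eq_right (by norm_num)]
      exact rpow_quarter_le (by norm_num) r
    calc ((integralPoints a b).ncard : ℝ)
        ≤ C₃ ^ (1 + r) * C₄ ^ (1 + r) * 12 ^ (1 + r) :=
          h1.trans (mul_le_mul_of_nonneg_left h2 (by positivity))
      _ = (C₃ * C₄ * 12) ^ (1 + r) * 1 := by rw [mul_pow, mul_pow, mul_one]
      _ ≤ (C₃ * C₄ * 12) ^ (1 + r) * Y := by gcongr
      _ ≤ _ := mono_pow (by positivity) (by nlinarith) _ hY0
  -- the main case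
  have h1 := hW a b hq
  have h2 : ∑ p ∈ LX.mult a b, nup a b p ≤ ∑ p ∈ poles a b, (np a b p : ℝ) * Real.log p := by
    calc ∑ p ∈ LX.mult a b, nup a b p = ∑ p ∈ LX.mult a b, (np a b p : ℝ) * Real.log p := by
          refine Finset.sum_congr rfl fun p hp => ?_
          obtain ⟨hpp, h5, -, -, -⟩ := LX.mem_mult hD hp
          obtain ⟨-, -, -, -, -, -, -, -, hν⟩ := LX.mult_facts hD hp
          rw [nup, max_eq_right hν.le, nu_eq hD hpp h5]
      _ ≤ _ := Finset.sum_le_sum_of_subset_of_nonneg (mult_subset_poles hD)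
          fun p _ _ => np_log_nonneg a b p
  have h3 : 4 * L a b ≤ ∑ p ∈ poles a b, (np a b p : ℝ) * Real.log p := by linarith
  have hsplit := Finset.sum_filter_add_sum_filter_not (poles a b) (fun p => m < np a b p)
    (fun p => (np a b p : ℝ) * Real.log p)
  rcases le_total (L a b) (∑ p ∈ (poles a b).filter (fun p => ¬ m < np a b p),
    (np a b p : ℝ) * Real.log p) with h'' | h''
  · -- small exponents
    have h4 := hT a b hq r hr ∅
    rw [Finset.card_empty, add_zero] at h4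
    have h5 : ∑ p ∈ poles a b, Real.log p / np a b p ≤ GA a b ∅ := by
      obtain ⟨e1, e2, e3⟩ := GT_terms a b ∅
      have hw := HeightData.wInf_nonneg (a := a) (b := b)
      have e4 := GT_le_GA (a := a) (b := b) ∅ hq.ne
      unfold GT at e4
      linarith
    have h6 : L a b / GA a b ∅ ≤ (m : ℝ) ^ 2 := by
      rw [div_le_iff₀ hG0]
      calc L a b ≤ _ := h''
        _ ≤ (m : ℝ) ^ 2 * ∑ p ∈ poles a b, Real.log p / np a b p := small_part
        _ ≤ _ := mul_le_mul_of_nonneg_left h5 (sq_nonneg _)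
    have e0 : (0 : ℝ) ≤ L a b / GA a b ∅ := by positivity
    have h7 : (L a b / GA a b ∅) ^ (1 + (r : ℝ) / 4) ≤ M := by
      refine (Real.rpow_le_rpow e0 h6 (by positivity)).trans (le_of_eq ?_)
      exact sq_rpow m r
    calc ((integralPoints a b).ncard : ℝ) ≤ C₂ ^ (1 + r) * M :=
          h4.trans (mul_le_mul_of_nonneg_left h7 (by positivity))
      _ ≤ C₂ ^ (1 + r) * Y := by gcongr; linarith
      _ ≤ _ := mono_pow (by linarith) (by nlinarith) _ hY0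
  have h4 : 3 * L a b ≤ ∑ p ∈ polesm a b m, (np a b p : ℝ) * Real.log p := by
    have e : ∑ p ∈ polesm a b m, (np a b p : ℝ) * Real.log p =
      ∑ p ∈ (poles a b).filter (fun p => m < np a b p), (np a b p : ℝ) * Real.log p := rfl
    linarith
  have h5 : (∑ p ∈ polesm a b m, (np a b p : ℝ) * Real.log p) ^ 2 ≤ ω * Qj a b ^ 2 := by
    unfold Qj
    rw [Real.sq_sqrt (Finset.sum_nonneg fun p _ => sq_nonneg _)]
    refine le_trans sq_sum_le_card_mul_sum_sq (mul_le_mul_of_nonneg_left ?_ hω0)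
    exact Finset.sum_le_sum_of_subset_of_nonneg (Finset.filter_subset _ _)
      fun p _ _ => sq_nonneg _
  have h6 : (3 * L a b) ^ 2 ≤ ω * Qj a b ^ 2 := (pow_le_pow_left₀ (by positivity) h4 2).trans h5
  have hQ0 : 0 < Qj a b := by
    rcases (Qj_nonneg a b).eq_or_lt with h0 | h0
    · rw [← h0] at h6
      have : 0 < (3 * L a b) ^ 2 := by positivity
      linarith
    · exact h0
  have hω1 : 1 ≤ ω := by
    have e1 : 0 < ω := by
      rcases hω0.eq_or_lt with h0 | h0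
      · rw [← h0] at h6
        have : 0 < (3 * L a b) ^ 2 := by positivity
        linarith
      · exact h0
    rw [hω] at e1 ⊢
    have e2 : 0 < (polesm a b m).card := Nat.cast_pos.mp e1
    exact_mod_cast e2
  have h7 : L a b / Qj a b ≤ ω ^ ((1 : ℝ) / 2) := by
    rw [← Real.sqrt_eq_rpow]
    apply Real.le_sqrt_of_sq_le
    rw [div_pow, div_le_iff₀ (by positivity)]
    nlinarith [sq_nonneg (Qj a b), sq_nonneg (L a b)]
  have h8 : max 1 (L a b / Qj a b) ≤ ω ^ ((1 : ℝ) / 2) :=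
    max_le (Real.one_le_rpow hω1 (by norm_num)) h7
  have e0 : (0 : ℝ) ≤ max 1 (L a b / Qj a b) := le_trans zero_le_one (le_max_left _ _)
  have h9 : (max 1 (L a b / Qj a b)) ^ (3 + (r : ℝ) / 4) ≤ Y := by
    refine (Real.rpow_le_rpow e0 h8 (by positivity)).trans ?_
    rw [← Real.rpow_mul hω0]
    have e1 : (1 : ℝ) / 2 * (3 + (r : ℝ) / 4) = (12 + (r : ℝ)) / 8 := by ring
    rw [e1]
    linarith
  calc ((integralPoints a b).ncard : ℝ)
      ≤ C₁ ^ (1 + r) * Y :=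
        (hQ a b hq r hr (Qj a b) hQ0 le_rfl).trans (mul_le_mul_of_nonneg_left h9 (by positivity))
    _ ≤ _ := mono_pow (by linarith) (by nlinarith) _ hY0

/-- The bound with `ω_m/(1+r)`. -/
theorem main_omega2_m : ∃ C : ℝ, 1 ≤ C ∧ ∀ (a b : ℤ), QuasiMinimal a b →
    ∀ r : ℕ, Module.rank ℤ (curve a b).Point ≤ r → ∀ m : ℕ, 1 ≤ m →
    ((integralPoints a b).ncard : ℝ) ≤
      C ^ (1 + r) * ((m : ℝ) ^ (2 + (r : ℝ) / 2) +
        (((polesm a b m).card : ℝ) / (1 + r)) ^ (1 + (r : ℝ) / 4)) := by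
  obtain ⟨B, hB, hT⟩ := exists_T_omega_m
  obtain ⟨C₁, hC₁, h₁⟩ := main_Z'
  refine ⟨C₁ ^ 2 * (B * 2), by nlinarith, fun a b hq r hr m hm => ?_⟩
  have hL := L_pos a b
  have hr0 : (0 : ℝ) ≤ r := Nat.cast_nonneg r
  obtain ⟨T, hTc, hTG⟩ := hT a b hq m hm (1 + r) (by omega)
  have hcast : (((1 + r : ℕ) : ℕ) : ℝ) = 1 + (r : ℝ) := by push_cast; ring
  rw [hcast] at hTG
  set x : ℝ := ((polesm a b m).card : ℝ) / (1 + r) with hx
  have hx0 : 0 ≤ x := by positivity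
  have hG0 : 0 < GT a b T := by
    have := one_le_GT a b T
    linarith
  have h2 := (h₁ a b hq r hr).2.1 T
  have hs := add_rpow_quarter (sq_nonneg (m : ℝ)) hx0 r
  rw [sq_rpow] at hs
  have h3 : (L a b / GT a b T) ^ (1 + (r : ℝ) / 4) ≤
      B ^ (1 + r) * (2 ^ (1 + r) * ((m : ℝ) ^ (2 + (r : ℝ) / 2) + x ^ (1 + (r : ℝ) / 4))) := by
    calc (L a b / GT a b T) ^ (1 + (r : ℝ) / 4) ≤ (B * ((m : ℝ) ^ 2 + x)) ^ (1 + (r : ℝ) / 4) :=
          Real.rpow_le_rpow (by positivity) hTG (by positivity)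
      _ = B ^ (1 + (r : ℝ) / 4) * ((m : ℝ) ^ 2 + x) ^ (1 + (r : ℝ) / 4) :=
          Real.mul_rpow (by linarith) (by positivity)
      _ ≤ B ^ (1 + r) * _ := mul_le_mul (rpow_quarter_le hB r) hs
          (Real.rpow_nonneg (by positivity) _) (by positivity)
  have h4 : C₁ ^ (1 + r + T.card) ≤ (C₁ ^ 2) ^ (1 + r) := by
    rw [← pow_mul]
    exact pow_le_pow_right₀ hC₁ (by omega)
  have h5 : 0 ≤ (L a b / GT a b T) ^ (1 + (r : ℝ) / 4) := Real.rpow_nonneg (by positivity) _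
  calc ((integralPoints a b).ncard : ℝ)
      ≤ C₁ ^ (1 + r + T.card) * (L a b / GT a b T) ^ (1 + (r : ℝ) / 4) := h2
    _ ≤ (C₁ ^ 2) ^ (1 + r) * (B ^ (1 + r) *
        (2 ^ (1 + r) * ((m : ℝ) ^ (2 + (r : ℝ) / 2) + x ^ (1 + (r : ℝ) / 4)))) :=
        mul_le_mul h4 h3 h5 (by positivity)
    _ = (C₁ ^ 2 * (B * 2)) ^ (1 + r) *
        ((m : ℝ) ^ (2 + (r : ℝ) / 2) + x ^ (1 + (r : ℝ) / 4)) := by
        rw [mul_pow, mul_pow]; ring

/-- Both bounds together. -/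
theorem main_omega_min : ∃ C : ℝ, 1 ≤ C ∧ ∀ (a b : ℤ), QuasiMinimal a b →
    ∀ r : ℕ, Module.rank ℤ (curve a b).Point ≤ r → ∀ m : ℕ, 1 ≤ m →
    ((integralPoints a b).ncard : ℝ) ≤
      C ^ (1 + r) * ((m : ℝ) ^ (2 + (r : ℝ) / 2) +
        min (((polesm a b m).card : ℝ) ^ ((12 + (r : ℝ)) / 8))
          ((((polesm a b m).card : ℝ) / (1 + r)) ^ (1 + (r : ℝ) / 4))) := by
  obtain ⟨C₁, hC₁, h₁⟩ := main_omega_m
  obtain ⟨C₂, hC₂, h₂⟩ := main_omega2_m
  refine ⟨C₁ + C₂, by linarith, fun a b hq r hr m hm => ?_⟩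
  have hm0 : 0 ≤ (m : ℝ) ^ (2 + (r : ℝ) / 2) := Real.rpow_nonneg (Nat.cast_nonneg m) _
  rcases min_choice (((polesm a b m).card : ℝ) ^ ((12 + (r : ℝ)) / 8))
    ((((polesm a b m).card : ℝ) / (1 + r)) ^ (1 + (r : ℝ) / 4)) with h | h
  · rw [h]
    exact (h₁ a b hq r hr m hm).trans (mono_pow (by linarith) (by linarith) _ (by positivity))
  · rw [h]
    exact (h₂ a b hq r hr m hm).trans (mono_pow (by linarith) (by linarith) _ (by positivity))

end Pool.Agent.H24.LZ
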