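import Pool.Agent.H24.LZ.EnerG

/-!
# Moments of the energy

For points of a torus and nonnegative weights `ν_p` let `X(i, j) = ∑ ν_p B(t_p(i) - t_p(j))`. By
the theorem of Schur on products of positive kernels the sum of `X (X + s)²` over all pairs is at
least `s M² ∑ ν_p² / 100`.
-/

namespace Pool.Agent.H24.LZ

open Pool.Agent.H24.LP Pool.Agent.H24.LX Finset

/-- A positive symmetric kernel. -/
structure PK {ι : Type*} (K : ι → ι → ℝ) : Prop where
  symm : ∀ i j, K i j = K j i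
  pos : ∀ (s : Finset ι) (w : ι → ℝ), 0 ≤ ∑ i ∈ s, ∑ j ∈ s, w i * w j * K i j

lemma PK.psd {ι : Type*} {K : ι → ι → ℝ} (h : PK K) : (Matrix.of K).PosSemidef := by
  refine ⟨?_, fun x => ?_⟩
  · ext i j
    simp only [Matrix.conjTranspose_apply, Matrix.of_apply, star_trivial]
    exact h.symm j i
  · have h1 := h.pos x.support x
    refine le_of_le_of_eq h1 ?_
    unfold Finsupp.sum
    refine Finset.sum_congr rfl fun i _ => Finset.sum_congr rfl fun j _ => ?_
    simp only [Matrix.of_apply, star_trivial]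
    ring

lemma PK.of_psd {ι : Type*} {K : ι → ι → ℝ} (hs : ∀ i j, K i j = K j i)
    (h : (Matrix.of K).PosSemidef) : PK K := by
  classical
  refine ⟨hs, fun s w => ?_⟩
  have h1 := h.2 (Finsupp.onFinset s (fun i => if i ∈ s then w i else 0) fun i hi => by
    by_contra hcon
    exact hi (if_neg hcon))
  refine le_of_le_of_eq h1 ?_
  rw [Finsupp.onFinset_sum _ (fun i => by simp [Finsupp.sum])]
  refine Finset.sum_congr rfl fun i hi => ?_
  rw [Finsupp.onFinset_sum _ (fun j => by simp)]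
  refine Finset.sum_congr rfl fun j hj => ?_
  simp only [Matrix.of_apply, star_trivial, if_pos hi, if_pos hj]
  ring

/-- The theorem of Schur. -/
lemma PK.mul {ι : Type*} {K K' : ι → ι → ℝ} (h : PK K) (h' : PK K') :
    PK fun i j => K i j * K' i j := by
  refine PK.of_psd (fun i j => by rw [h.symm i j, h'.symm i j]) ?_
  have h1 := Matrix.PosSemidef.hadamard h.psd h'.psd
  have e : (Matrix.of K).hadamard (Matrix.of K') = Matrix.of fun i j => K i j * K' i j := by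
    ext i j
    simp [Matrix.hadamard_apply]
  rw [e] at h1
  exact h1

lemma PK.one {ι : Type*} {K : ι → ι → ℝ} (h : PK K) (s : Finset ι) :
    0 ≤ ∑ i ∈ s, ∑ j ∈ s, K i j := by
  have h1 := h.pos s fun _ => 1
  refine le_of_le_of_eq h1 (Finset.sum_congr rfl fun i _ => Finset.sum_congr rfl fun j _ => ?_)
  ring

lemma PK.smul {ι : Type*} {K : ι → ι → ℝ} (h : PK K) {c : ℝ} (hc : 0 ≤ c) :
    PK fun i j => c * K i j := by
  refine ⟨fun i j => by rw [h.symm i j], fun s w => ?_⟩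
  have h1 := mul_nonneg hc (h.pos s w)
  refine le_of_le_of_eq h1 ?_
  rw [Finset.mul_sum]
  refine Finset.sum_congr rfl fun i _ => ?_
  rw [Finset.mul_sum]
  exact Finset.sum_congr rfl fun j _ => by ring

lemma PK.add {ι : Type*} {K K' : ι → ι → ℝ} (h : PK K) (h' : PK K') :
    PK fun i j => K i j + K' i j := by
  refine ⟨fun i j => by rw [h.symm i j, h'.symm i j], fun s w => ?_⟩
  have h1 := add_nonneg (h.pos s w) (h'.pos s w)
  refine le_of_le_of_eq h1 ?_
  rw [← Finset.sum_add_distrib]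
  refine Finset.sum_congr rfl fun i _ => ?_
  rw [← Finset.sum_add_distrib]
  exact Finset.sum_congr rfl fun j _ => by ring

lemma PK.zero {ι : Type*} : PK fun (_ _ : ι) => (0 : ℝ) :=
  ⟨fun _ _ => rfl, fun s w => by simp⟩

lemma PK.sum {ι κ : Type*} (P : Finset κ) {K : κ → ι → ι → ℝ} (h : ∀ p ∈ P, PK (K p)) :
    PK fun i j => ∑ p ∈ P, K p i j := by
  classical
  induction P using Finset.induction_on with
  | empty => simpa using PK.zero
  | insert p P hp ih =>
    have h1 := (h p (Finset.mem_insert_self _ _)).add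
      (ih fun q hq => h q (Finset.mem_insert_of_mem hq))
    simpa [Finset.sum_insert hp] using h1

/-- The kernel `B(t_i - t_j)`. -/
lemma pk_bern {ι : Type*} (t : ι → ℝ) :
    PK fun i j => bern ((t i - t j : ℝ) : AddCircle (1 : ℝ)) :=
  ⟨fun i j => bern_symm (t i) (t j), fun s w => energy_weighted s t w⟩

/-- The kernel `cos 2π(t_i - t_j)`. -/
lemma pk_cos {ι : Type*} (t : ι → ℝ) (m : ℝ) :
    PK fun i j => Real.cos (2 * Real.pi * m * (t i - t j)) := by
  refine ⟨fun i j => ?_, fun s w => ?_⟩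
  · rw [← Real.cos_neg]
    congr 1
    ring
  · have e : ∑ k ∈ s, ∑ l ∈ s, w k * w l * Real.cos (2 * Real.pi * m * (t k - t l))
        = (∑ k ∈ s, w k * Real.cos (2 * Real.pi * m * t k)) ^ 2
          + (∑ k ∈ s, w k * Real.sin (2 * Real.pi * m * t k)) ^ 2 := by
      rw [sq (∑ k ∈ s, w k * Real.cos (2 * Real.pi * m * t k)),
        sq (∑ k ∈ s, w k * Real.sin (2 * Real.pi * m * t k)), Finset.sum_mul_sum,
        Finset.sum_mul_sum, ← Finset.sum_add_distrib]
      refine Finset.sum_congr rfl fun k _ => ?_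
      rw [← Finset.sum_add_distrib]
      refine Finset.sum_congr rfl fun l _ => ?_
      rw [mul_sub (2 * Real.pi * m), Real.cos_sub]
      ring
    rw [e]
    positivity

/-- `B - cos/π²` is a positive kernel. -/
lemma pk_rest {ι : Type*} (t : ι → ℝ) :
    PK fun i j => bern ((t i - t j : ℝ) : AddCircle (1 : ℝ)) -
      1 / Real.pi ^ 2 * Real.cos (2 * Real.pi * (1 : ℝ) * (t i - t j)) := by
  refine ⟨fun i j => ?_, fun s w => ?_⟩
  · rw [bern_symm (t i) (t j), (pk_cos t 1).symm i j]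
  · have hA : HasSum (fun m : ℕ => ∑ k ∈ s, ∑ l ∈ s,
        w k * w l * (1 / (m : ℝ) ^ 2 * Real.cos (2 * Real.pi * m * (t k - t l))))
        (∑ k ∈ s, ∑ l ∈ s, w k * w l *
          (Real.pi ^ 2 * bern ((t k - t l : ℝ) : AddCircle (1 : ℝ)))) :=
      hasSum_sum fun k _ => hasSum_sum fun l _ => (bern_hasSum (t k - t l)).mul_left _
    have hnn : ∀ m : ℕ, 0 ≤ ∑ k ∈ s, ∑ l ∈ s,
        w k * w l * (1 / (m : ℝ) ^ 2 * Real.cos (2 * Real.pi * m * (t k - t l))) := by
      intro m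
      have h1 := mul_nonneg (by positivity : (0 : ℝ) ≤ 1 / (m : ℝ) ^ 2)
        ((pk_cos t (m : ℝ)).pos s w)
      refine le_of_le_of_eq h1 ?_
      rw [Finset.mul_sum]
      refine Finset.sum_congr rfl fun k _ => ?_
      rw [Finset.mul_sum]
      exact Finset.sum_congr rfl fun l _ => by ring
    have h1 := hA.tsum_eq ▸ hA.summable.le_tsum 1 fun m _ => hnn m
    have hpi : (0 : ℝ) < Real.pi ^ 2 := by positivity
    refine nonneg_of_mul_nonneg_right (a := Real.pi ^ 2) ?_ hpi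
    have e1 : Real.pi ^ 2 * ∑ k ∈ s, ∑ l ∈ s, w k * w l *
        (bern ((t k - t l : ℝ) : AddCircle (1 : ℝ)) -
          1 / Real.pi ^ 2 * Real.cos (2 * Real.pi * (1 : ℝ) * (t k - t l))) =
        (∑ k ∈ s, ∑ l ∈ s, w k * w l *
          (Real.pi ^ 2 * bern ((t k - t l : ℝ) : AddCircle (1 : ℝ)))) -
        ∑ k ∈ s, ∑ l ∈ s, w k * w l *
          (1 / ((1 : ℕ) : ℝ) ^ 2 * Real.cos (2 * Real.pi * ((1 : ℕ) : ℝ) * (t k - t l))) := by
      rw [Finset.mul_sum, ← Finset.sum_sub_distrib]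
      refine Finset.sum_congr rfl fun k _ => ?_
      rw [Finset.mul_sum, ← Finset.sum_sub_distrib]
      refine Finset.sum_congr rfl fun l _ => ?_
      rw [Nat.cast_one, one_pow, div_one, one_mul, mul_one]
      field_simp
    rw [e1]
    linarith

/-- The second moment of the kernel at one place. -/
lemma bern_sq_sum {ι : Type*} (F : Finset ι) (t : ι → ℝ) :
    (F.card : ℝ) ^ 2 / 200 ≤
      ∑ i ∈ F, ∑ j ∈ F, bern ((t i - t j : ℝ) : AddCircle (1 : ℝ)) *
        bern ((t i - t j : ℝ) : AddCircle (1 : ℝ)) := by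
  set c : ι → ι → ℝ := fun i j => Real.cos (2 * Real.pi * (1 : ℝ) * (t i - t j)) with hc
  set R : ι → ι → ℝ := fun i j => bern ((t i - t j : ℝ) : AddCircle (1 : ℝ)) -
      1 / Real.pi ^ 2 * c i j with hR
  have hpi : (0 : ℝ) < Real.pi ^ 2 := by positivity
  have hpi2 : Real.pi ^ 2 ≤ 10 := by
    have := Real.pi_lt_d2
    have h0 := Real.pi_pos
    nlinarith
  have k1 := ((pk_cos t 1).mul (pk_rest t)).one F
  have k2 := ((pk_rest t).mul (pk_rest t)).one F
  have k3 := (pk_cos t 2).one F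
  have e : ∀ i j, bern ((t i - t j : ℝ) : AddCircle (1 : ℝ)) *
      bern ((t i - t j : ℝ) : AddCircle (1 : ℝ)) =
      1 / (2 * Real.pi ^ 4) + 1 / (2 * Real.pi ^ 4) *
        Real.cos (2 * Real.pi * (2 : ℝ) * (t i - t j)) +
      2 / Real.pi ^ 2 * (c i j * R i j) + R i j * R i j := by
    intro i j
    have e1 : Real.cos (2 * Real.pi * (2 : ℝ) * (t i - t j)) = 2 * c i j ^ 2 - 1 := by
      rw [hc, ← Real.cos_two_mul]
      congr 1
      ring
    have e2 : bern ((t i - t j : ℝ) : AddCircle (1 : ℝ)) = R i j + 1 / Real.pi ^ 2 * c i j := by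
      rw [hR]; ring
    rw [e1, e2]
    have hp0 : Real.pi ≠ 0 := Real.pi_ne_zero
    field_simp
    ring
  have e3 : ∑ i ∈ F, ∑ j ∈ F, bern ((t i - t j : ℝ) : AddCircle (1 : ℝ)) *
      bern ((t i - t j : ℝ) : AddCircle (1 : ℝ)) =
      (F.card : ℝ) ^ 2 * (1 / (2 * Real.pi ^ 4)) +
      1 / (2 * Real.pi ^ 4) * (∑ i ∈ F, ∑ j ∈ F,
        Real.cos (2 * Real.pi * (2 : ℝ) * (t i - t j))) +
      2 / Real.pi ^ 2 * (∑ i ∈ F, ∑ j ∈ F, c i j * R i j) +
      ∑ i ∈ F, ∑ j ∈ F, R i j * R i j := by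
    simp only [e, Finset.sum_add_distrib, Finset.mul_sum, Finset.sum_const, nsmul_eq_mul]
    ring
  rw [e3]
  have h4 : 1 / 200 ≤ 1 / (2 * Real.pi ^ 4) := by
    apply one_div_le_one_div_of_le (by positivity)
    have : Real.pi ^ 4 = (Real.pi ^ 2) ^ 2 := by ring
    rw [this]
    nlinarith
  have h5 : 0 ≤ 1 / (2 * Real.pi ^ 4) * (∑ i ∈ F, ∑ j ∈ F,
        Real.cos (2 * Real.pi * (2 : ℝ) * (t i - t j))) := mul_nonneg (by positivity) k3
  have h6 : 0 ≤ 2 / Real.pi ^ 2 * (∑ i ∈ F, ∑ j ∈ F, c i j * R i j) :=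
    mul_nonneg (by positivity) k1
  have h7 : (F.card : ℝ) ^ 2 / 200 ≤ (F.card : ℝ) ^ 2 * (1 / (2 * Real.pi ^ 4)) := by
    have : (F.card : ℝ) ^ 2 / 200 = (F.card : ℝ) ^ 2 * (1 / 200) := by ring
    rw [this]
    gcongr
  linarith

/-- The third degree moment. -/
theorem moment {ι κ : Type*} (P : Finset κ) (ν : κ → ℝ) (hν : ∀ p ∈ P, 0 ≤ ν p)
    (t : κ → ι → ℝ) (F : Finset ι) {s : ℝ} (hs : 0 ≤ s) :
    s * ((F.card : ℝ) ^ 2 * ∑ p ∈ P, ν p ^ 2) / 100 ≤
      ∑ i ∈ F, ∑ j ∈ F, (∑ p ∈ P, ν p * bern ((t p i - t p j : ℝ) : AddCircle (1 : ℝ))) *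
        (∑ p ∈ P, ν p * bern ((t p i - t p j : ℝ) : AddCircle (1 : ℝ)) + s) ^ 2 := by
  classical
  set B : κ → ι → ι → ℝ := fun p i j => bern ((t p i - t p j : ℝ) : AddCircle (1 : ℝ)) with hB
  set X : ι → ι → ℝ := fun i j => ∑ p ∈ P, ν p * B p i j with hX
  have hXp : PK X := PK.sum P fun p hp => (pk_bern (t p)).smul (hν p hp)
  have s1 := hXp.one F
  have s3 := (hXp.mul (hXp.mul hXp)).one F
  have s2 : (F.card : ℝ) ^ 2 * (∑ p ∈ P, ν p ^ 2) / 200 ≤ ∑ i ∈ F, ∑ j ∈ F, X i j * X i j := by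
    have e1 : ∑ i ∈ F, ∑ j ∈ F, X i j * X i j =
        ∑ p ∈ P, ∑ q ∈ P, ν p * ν q * ∑ i ∈ F, ∑ j ∈ F, B p i j * B q i j := by
      have e2 : ∀ i j, X i j * X i j = ∑ p ∈ P, ∑ q ∈ P, ν p * ν q * (B p i j * B q i j) := by
        intro i j
        rw [hX, Finset.sum_mul_sum]
        refine Finset.sum_congr rfl fun p _ => Finset.sum_congr rfl fun q _ => ?_
        ring
      simp only [e2, Finset.mul_sum]
      rw [Finset.sum_congr rfl fun i _ => Finset.sum_comm, Finset.sum_comm]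
      refine Finset.sum_congr rfl fun p _ => ?_
      rw [Finset.sum_congr rfl fun i _ => Finset.sum_comm, Finset.sum_comm]
    rw [e1, Finset.mul_sum, Finset.sum_div]
    refine Finset.sum_le_sum fun p hp => ?_
    rw [← Finset.add_sum_erase P _ hp]
    have h1 : 0 ≤ ∑ q ∈ P.erase p, ν p * ν q * ∑ i ∈ F, ∑ j ∈ F, B p i j * B q i j :=
      Finset.sum_nonneg fun q hq => mul_nonneg
        (mul_nonneg (hν p hp) (hν q (Finset.mem_of_mem_erase hq)))
        (((pk_bern (t p)).mul (pk_bern (t q))).one F)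
    have h2 := bern_sq_sum F (t p)
    have h3 : (F.card : ℝ) ^ 2 * ν p ^ 2 / 200 ≤
        ν p * ν p * ∑ i ∈ F, ∑ j ∈ F, B p i j * B p i j := by
      have h4 := mul_le_mul_of_nonneg_left h2 (mul_self_nonneg (ν p))
      refine le_trans (le_of_eq ?_) h4
      ring
    linarith
  have e : ∑ i ∈ F, ∑ j ∈ F, X i j * (X i j + s) ^ 2 =
      ∑ i ∈ F, ∑ j ∈ F, X i j * (X i j * X i j) + 2 * s * ∑ i ∈ F, ∑ j ∈ F, X i j * X i j +
      s ^ 2 * ∑ i ∈ F, ∑ j ∈ F, X i j := by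
    simp only [Finset.mul_sum, ← Finset.sum_add_distrib]
    refine Finset.sum_congr rfl fun i _ => Finset.sum_congr rfl fun j _ => ?_
    ring
  show s * ((F.card : ℝ) ^ 2 * ∑ p ∈ P, ν p ^ 2) / 100 ≤
    ∑ i ∈ F, ∑ j ∈ F, X i j * (X i j + s) ^ 2
  rw [e]
  have h5 : 0 ≤ s ^ 2 * ∑ i ∈ F, ∑ j ∈ F, X i j := mul_nonneg (by positivity) s1
  have h6 := mul_le_mul_of_nonneg_left s2 (by positivity : 0 ≤ 2 * s)
  linarith

end Pool.Agent.H24.LZ
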