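import Pool.Agent.H24.LZ.Ball
import Pool.Agent.H24.LX.Core
import Pool.Agent.H24.LX.Cnt

/-!
# Shells
-/

namespace Pool.Agent.H24.LZ

open Pool.Agent.H24.LP Pool.Agent.H24.LQ Finset

/-- `S` is a finite set of integral points with `|x| ≤ e^{100L}` and `g ≤ R`. -/
def Small {a b : ℤ} (hD : D a b ≠ 0) (g : (curve a b).Point → ℝ) (R : ℝ)
    (S : Finset (ℤ × ℤ)) : Prop :=
  ∀ z ∈ S, z ∈ integralPoints a b ∧ |(z.1 : ℝ)| ≤ Real.exp (100 * L a b) ∧
    g (LR.toPt hD z) ≤ R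

lemma Small.filter {a b : ℤ} {hD : D a b ≠ 0} {g : (curve a b).Point → ℝ} {R : ℝ}
    {S : Finset (ℤ × ℤ)} (h : Small hD g R S) (p : ℤ × ℤ → Prop) [DecidablePred p] :
    Small hD g R (S.filter p) := fun z hz => h z (Finset.mem_filter.mp hz).1

lemma mono_pow {x C : ℝ} (hx : 0 ≤ x) (hxC : x ≤ C) (n : ℕ) {B : ℝ} (hB : 0 ≤ B) :
    x ^ n * B ≤ C ^ n * B := by gcongr

/-- Bounded `γ`. -/
theorem bdd_ball (Ch : ℝ) (hCh : 0 ≤ Ch) {K : ℝ} (hK : 1 ≤ K) : ∃ C : ℝ, 1 ≤ C ∧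
    ∀ (a b : ℤ) (hq : QuasiMinimal a b), ∀ g : (curve a b).Point → ℝ, IsHt Ch g → ∀ r : ℕ,
    Module.rank ℤ (curve a b).Point ≤ r → ∀ R γ : ℝ, 0 < R → 0 < γ →
    γ ≤ K * (1 + wInf a b) → ∀ S : Finset (ℤ × ℤ), Small hq.ne g R S →
    (S.card : ℝ) ≤ C ^ (1 + r) * Bq a b r R γ := by
  obtain ⟨C₁, hC₁, hball⟩ := ball_T Ch hCh
  refine ⟨K * C₁, by nlinarith, fun a b hq g hg r hr R γ hR hγ hγK S hS => ?_⟩
  have h1 := hball a b hq g hg r hr ∅ R hR S hS
  rw [Finset.card_empty, add_zero] at h1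
  obtain ⟨g1, g2, g3⟩ := GT_terms a b ∅
  have hG : 1 + wInf a b ≤ GT a b ∅ := by
    unfold GT
    linarith
  have h2 := Bq_scale (a := a) (b := b) (r := r) (R := R) (γ := γ) (k := K) (δ := GT a b ∅) hR hγ
    hK (by
      rw [div_le_iff₀ (by linarith), mul_comm]
      exact hγK.trans (by gcongr))
  calc (S.card : ℝ) ≤ C₁ ^ (1 + r) * (K ^ (1 + r) * Bq a b r R γ) :=
        h1.trans (mul_le_mul_of_nonneg_left h2 (by positivity))
    _ = (K * C₁) ^ (1 + r) * Bq a b r R γ := by rw [mul_pow]; ring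

/-- The primes `I_n^*`. -/
theorem star_ball (Ch : ℝ) (hCh : 0 ≤ Ch) : ∃ C : ℝ, 1 ≤ C ∧
    ∀ (a b : ℤ) (hq : QuasiMinimal a b), ∀ g : (curve a b).Point → ℝ, IsHt Ch g → ∀ r : ℕ,
    Module.rank ℤ (curve a b).Point ≤ r → ∀ R γ : ℝ, 0 < R → 0 < γ →
    γ ≤ ∑ p ∈ LX.star a b, nup a b p → ∀ S : Finset (ℤ × ℤ), Small hq.ne g R S →
    (S.card : ℝ) ≤ C ^ (1 + r) * Bq a b r R γ := by
  classical
  obtain ⟨C₀, hC₀, hcl⟩ := LX.star_cluster
  obtain ⟨C₁, hC₁, hb⟩ := bdd_ball Ch hCh (K := C₀ * (1 + Ch)) (by nlinarith)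
  refine ⟨C₁ + 10 * 200 * 400, by linarith, fun a b hq g hg r hr R γ hR hγ hγs S hS => ?_⟩
  have hD := hq.ne
  have hL := L_pos a b
  have hB := one_le_Bq a b r R γ
  rcases le_total γ (C₀ * (1 + Ch)) with h | h
  · have hw := HeightData.wInf_nonneg (a := a) (b := b)
    refine (hb a b hq g hg r hr R γ hR hγ (by nlinarith) S hS).trans
      (mono_pow (by linarith) (by linarith) _ (by linarith))
  · set P := S.image (LR.toPt hD) with hP
    have hcard : S.card = P.card := by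
      symm
      refine Finset.card_image_of_injOn fun z hz z' hz' h => ?_
      exact LR.toPt_injOn hD (hS z hz).1 (hS z' hz').1 h
    have h1 := covering_R hD hg r hr (R := R) (ρ := γ / 200)
      (K := 2 * (200 * L a b / γ)) hR (by positivity) (by positivity) P (fun Q hQ => by
        obtain ⟨z, hz, rfl⟩ := Finset.mem_image.mp hQ
        exact (hS z hz).2.2)
      (fun c _ => LX.ball_count (fun s hs hsW => hcl Ch hCh a b hq g hg γ h hγs s hs hsW) P c)
    have h2 : (S.card : ℝ) ≤ 10 ^ r * (max 1 (R / (γ / 200))) ^ ((r : ℝ) / 2) *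
        (400 * max 1 (L a b / γ)) := by
      rw [hcard]
      refine h1.trans ?_
      have e1 : (0 : ℝ) ≤ max 1 (R / (γ / 200)) := le_trans zero_le_one (le_max_left _ _)
      have e2 : 2 * (200 * L a b / γ) ≤ 400 * max 1 (L a b / γ) := by
        have e3 : 2 * (200 * L a b / γ) = 400 * (L a b / γ) := by ring
        rw [e3]
        gcongr
        exact le_max_right _ _
      gcongr
    have h3 := combine (a := a) (b := b) hR hγ (by norm_num : (1 : ℝ) ≤ 200)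
      (by norm_num : (1 : ℝ) ≤ 400) h2
    exact h3.trans (mono_pow (by norm_num) (by linarith) _ (by linarith))

/-- A large rest. -/
theorem rest_ball (Ch : ℝ) (hCh : 0 ≤ Ch) : ∃ C : ℝ, 1 ≤ C ∧
    ∀ (a b : ℤ) (hq : QuasiMinimal a b), ∀ g : (curve a b).Point → ℝ, IsHt Ch g → ∀ r : ℕ,
    Module.rank ℤ (curve a b).Point ≤ r → ∀ R γ : ℝ, 0 < R → 0 < γ →
    γ ≤ LX.Rst a b → ∀ S : Finset (ℤ × ℤ), Small hq.ne g R S →
    (S.card : ℝ) ≤ C ^ (1 + r) * Bq a b r R γ := by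
  obtain ⟨C₁, hC₁, hstar⟩ := star_ball Ch hCh
  obtain ⟨C₂, hC₂, hR'⟩ := LX.Rst_le
  obtain ⟨C₃, hC₃, hT⟩ := ball_T Ch hCh
  refine ⟨6 * C₁ + C₃ ^ 3 * (20 * (1 + C₂)), by nlinarith [one_le_pow₀ hC₃ (n := 3)],
    fun a b hq g hg r hr R γ hR hγ hγR S hS => ?_⟩
  have hL := L_pos a b
  have hB := one_le_Bq a b r R γ
  have h1 := hR' a b hq.ne
  have hG := one_le_GT a b {2, 3}
  have hC31 : (1 : ℝ) ≤ C₃ ^ 3 := one_le_pow₀ hC₃
  rcases le_total (γ / 2) (3 * ∑ p ∈ LX.star a b, nup a b p) with h | h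
  · refine (hstar a b hq g hg r hr R (γ / 6) hR (by positivity) (by linarith) S hS).trans ?_
    have h3 := Bq_scale (a := a) (b := b) (r := r) (R := R) (γ := γ) (k := 6) (δ := γ / 6) hR hγ
      (by norm_num) le_rfl
    calc C₁ ^ (1 + r) * Bq a b r R (γ / 6) ≤ C₁ ^ (1 + r) * (6 ^ (1 + r) * Bq a b r R γ) :=
          mul_le_mul_of_nonneg_left h3 (by positivity)
      _ = (6 * C₁) ^ (1 + r) * Bq a b r R γ := by rw [mul_pow]; ring
      _ ≤ _ := mono_pow (by linarith) (by nlinarith) _ (by linarith)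
  · have h4 : γ / (20 * (1 + C₂)) ≤ GT a b {2, 3} := by
      rw [div_le_iff₀ (by positivity)]
      have h5 : γ / 2 ≤ 10 * (GT a b {2, 3} + C₂) := by linarith
      nlinarith
    have h6 := Bq_scale (a := a) (b := b) (r := r) (R := R) (γ := γ) (k := 20 * (1 + C₂))
      (δ := GT a b {2, 3}) hR hγ (by linarith) h4
    have h2 := hT a b hq g hg r hr {2, 3} R hR S hS
    have h8 : C₃ ^ (1 + r + ({2, 3} : Finset ℕ).card) ≤ (C₃ ^ 3) ^ (1 + r) := by
      rw [← pow_mul]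
      refine pow_le_pow_right₀ hC₃ ?_
      have : ({2, 3} : Finset ℕ).card = 2 := by decide
      rw [this]
      omega
    calc (S.card : ℝ)
        ≤ C₃ ^ (1 + r + ({2, 3} : Finset ℕ).card) * Bq a b r R (GT a b {2, 3}) := h2
      _ ≤ (C₃ ^ 3) ^ (1 + r) * ((20 * (1 + C₂)) ^ (1 + r) * Bq a b r R γ) := by
          have h10 := one_le_Bq a b r R (GT a b {2, 3})
          exact mul_le_mul h8 h6 (by linarith) (by positivity)
      _ = (C₃ ^ 3 * (20 * (1 + C₂))) ^ (1 + r) * Bq a b r R γ := by rw [mul_pow (C₃ ^ 3)]; ring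
      _ ≤ _ := mono_pow (by positivity) (by linarith) _ (by linarith)

/-- The count for pairwise close integral points. -/
theorem region_R (Ch : ℝ) (hCh : 0 ≤ Ch) : ∃ C : ℝ, 1 ≤ C ∧ ∀ (a b : ℤ) (hD : D a b ≠ 0)
    (g : (curve a b).Point → ℝ), IsHt Ch g → ∀ (r : ℕ),
    Module.rank ℤ (curve a b).Point ≤ r → ∀ (R γ : ℝ) (q : ℕ), 0 < R → 0 ≤ γ → 0 < q →
    Nat.Coprime q (6 * D a b).natAbs → C ≤ γ + Real.log q →
    ∀ S : Finset (ℤ × ℤ), Small hD g R S →
    (∀ z ∈ S, ∀ z' ∈ S, z ≠ z' → (q : ℤ) ∣ repZ (LR.toPt hD z - LR.toPt hD z') ∧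
      (γ = 0 ∨ Real.exp (L a b + γ) * |(repZ (LR.toPt hD z - LR.toPt hD z') : ℝ)| ≤
        |(repX (LR.toPt hD z - LR.toPt hD z') : ℝ)|)) →
    (S.card : ℝ) ≤ C ^ (1 + r) * Bq a b r R (γ + Real.log q) := by
  classical
  obtain ⟨C₀, hC₀, hclus⟩ := LW.cluster
  set C : ℝ := C₀ * (1 + Ch) + 10 * 16 * 11 with hC
  have hC₀Ch : 0 ≤ C₀ * (1 + Ch) := by positivity
  refine ⟨C, by linarith, fun a b hD g hg r hr R γ q hR hγ hq hcop hΓ S hS hST => ?_⟩
  have hL := L_pos a b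
  set Γ : ℝ := γ + Real.log q with hΓdef
  have hΓ0 : 0 < Γ := by linarith
  set m : ℝ := max 1 (L a b / Γ) with hm
  have hm1 : 1 ≤ m := le_max_left _ _
  have hmL : L a b ≤ m * Γ := by
    rw [← div_le_iff₀ hΓ0]
    exact le_max_right _ _
  have hcl : ∀ c ∈ S.image (LR.toPt hD),
      (((S.image (LR.toPt hD)).filter fun P => g (P - c) ≤ Γ / 16).card : ℝ) ≤ 11 * m := by
    intro c hc
    obtain ⟨z₀, hz₀, rfl⟩ := Finset.mem_image.mp hc
    set F := S.filter fun z => g (LR.toPt hD z - LR.toPt hD z₀) ≤ Γ / 16 with hF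
    have h0 : ((S.image (LR.toPt hD)).filter fun P => g (P - LR.toPt hD z₀) ≤ Γ / 16) ⊆
        F.image (LR.toPt hD) := by
      intro Q hQ
      obtain ⟨hQ1, hQ2⟩ := Finset.mem_filter.mp hQ
      obtain ⟨z, hz, rfl⟩ := Finset.mem_image.mp hQ1
      exact Finset.mem_image_of_mem _ (Finset.mem_filter.mpr ⟨hz, hQ2⟩)
    have h0' : ((S.image (LR.toPt hD)).filter fun P => g (P - LR.toPt hD z₀) ≤ Γ / 16).card ≤
        F.card := (Finset.card_le_card h0).trans Finset.card_image_le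
    set s : Finset (curve a b).Point := (F.erase z₀).image fun z => LR.toPt hD z - LR.toPt hD z₀
      with hs
    have hsF : (F.erase z₀).card = s.card := by
      symm
      refine Finset.card_image_of_injOn fun z hz z' hz' h => ?_
      have hz1 := (Finset.mem_filter.mp (Finset.mem_of_mem_erase hz)).1
      have hz2 := (Finset.mem_filter.mp (Finset.mem_of_mem_erase hz')).1
      exact LR.toPt_injOn hD (hS z hz1).1 (hS z' hz2).1 (sub_left_injective h)
    obtain ⟨s₁, hs₁, hs₁c, hs₁W⟩ := LW.half_reps s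
    have hprop : ∀ P ∈ s₁, g P ≤ Γ / 16 ∧ (q : ℤ) ∣ repZ P ∧
        (γ = 0 ∨ Real.exp (L a b + γ) * |(repZ P : ℝ)| ≤ |(repX P : ℝ)|) := by
      intro P hP
      obtain ⟨z, hz, rfl⟩ := Finset.mem_image.mp (hs₁ hP)
      have hz' := Finset.mem_erase.mp hz
      have hzF := Finset.mem_filter.mp hz'.2
      obtain ⟨h1, h2⟩ := hST z hzF.1 z₀ hz₀ hz'.1
      exact ⟨hzF.2, h1, h2⟩
    have h1 := hclus Ch hCh a b hD g hg γ q hγ hq hcop (by linarith) s₁
      (fun P hP => (hprop P hP).1) (fun P hP => (hprop P hP).2.1) (fun P hP => (hprop P hP).2.2)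
      hs₁W
    have h2 : 4 * L a b / Γ ≤ 4 * m := by
      rw [div_le_iff₀ hΓ0]; linarith
    have h3 : (F.card : ℝ) ≤ 1 + (F.erase z₀).card := by
      have h31 : F.card ≤ (F.erase z₀).card + 1 := by
        have := Finset.pred_card_le_card_erase (s := F) (a := z₀)
        omega
      have : (F.card : ℝ) ≤ (F.erase z₀).card + 1 := by exact_mod_cast h31
      linarith
    have h4 : ((F.erase z₀).card : ℝ) ≤ 2 * s₁.card := by
      rw [hsF]; exact_mod_cast hs₁c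
    have h5 : (((S.image (LR.toPt hD)).filter fun P => g (P - LR.toPt hD z₀) ≤ Γ / 16).card : ℝ)
        ≤ F.card := by exact_mod_cast h0'
    linarith
  have hcard : S.card = (S.image (LR.toPt hD)).card := by
    symm
    refine Finset.card_image_of_injOn fun z hz z' hz' h => ?_
    exact LR.toPt_injOn hD (hS z hz).1 (hS z' hz').1 h
  have h1 := covering_R hD hg r hr (R := R) (ρ := Γ / 16) (K := 11 * m) hR (by positivity)
    (by positivity) (S.image (LR.toPt hD)) (fun Q hQ => by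
      obtain ⟨z, hz, rfl⟩ := Finset.mem_image.mp hQ
      exact (hS z hz).2.2) hcl
  rw [← hcard] at h1
  have h3 := combine (a := a) (b := b) hR hΓ0 (by norm_num : (1 : ℝ) ≤ 16)
    (by norm_num : (1 : ℝ) ≤ 11) h1
  exact h3.trans (mono_pow (by norm_num) (by linarith) _
    (le_trans zero_le_one (one_le_Bq _ _ _ _ _)))

/-- The count for integral points which are pairwise close, without condition on the signs. -/
theorem split_R (Ch : ℝ) (hCh : 0 ≤ Ch) : ∃ C : ℝ, 1 ≤ C ∧ ∀ (a b : ℤ) (hD : D a b ≠ 0)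
    (g : (curve a b).Point → ℝ), IsHt Ch g → ∀ (r : ℕ),
    Module.rank ℤ (curve a b).Point ≤ r → ∀ (R γ : ℝ) (q : ℕ), 0 < R → 0 ≤ γ → 0 < q →
    Nat.Coprime q (6 * D a b).natAbs → C ≤ γ + Real.log q →
    ∀ S : Finset (ℤ × ℤ), Small hD g R S →
    (∀ z ∈ S, ∀ z' ∈ S, z.1 ≠ z'.1 → 0 ≤ z.2 * z'.2 →
      (q : ℤ) ∣ repZ (LR.toPt hD z - LR.toPt hD z') ∧
      (γ = 0 ∨ Real.exp (L a b + γ) * |(repZ (LR.toPt hD z - LR.toPt hD z') : ℝ)| ≤
        |(repX (LR.toPt hD z - LR.toPt hD z') : ℝ)|)) →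
    (S.card : ℝ) ≤ C ^ (1 + r) * Bq a b r R (γ + Real.log q) := by
  classical
  obtain ⟨C₁, hC₁, hreg⟩ := region_R Ch hCh
  refine ⟨C₁ + C₁, by linarith, fun a b hD g hg r hr R γ q hR hγ hq hcop hΓ S hS hST => ?_⟩
  have h1 := hreg a b hD g hg r hr R γ q hR hγ hq hcop (by linarith) (S.filter fun z => 0 ≤ z.2)
    (hS.filter _)
    (fun z hz z' hz' hne => by
      have h := Finset.mem_filter.mp hz
      have h' := Finset.mem_filter.mp hz'
      refine hST z h.1 z' h'.1 (fun hx => hne ?_) (mul_nonneg h.2 h'.2)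
      exact LW.sign_inj (hS z h.1).1 (hS z' h'.1).1 hx (Or.inl ⟨h.2, h'.2⟩))
  have h2 := hreg a b hD g hg r hr R γ q hR hγ hq hcop (by linarith)
    (S.filter fun z => ¬ 0 ≤ z.2) (hS.filter _)
    (fun z hz z' hz' hne => by
      have h := Finset.mem_filter.mp hz
      have h' := Finset.mem_filter.mp hz'
      have e := not_le.mp h.2
      have e' := not_le.mp h'.2
      refine hST z h.1 z' h'.1 (fun hx => hne ?_)
        (mul_nonneg_of_nonpos_of_nonpos e.le e'.le)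
      exact LW.sign_inj (hS z h.1).1 (hS z' h'.1).1 hx (Or.inr ⟨e, e'⟩))
  have hcard : (S.card : ℝ) = ((S.filter fun z => 0 ≤ z.2).card : ℝ) +
      ((S.filter fun z => ¬ 0 ≤ z.2).card : ℝ) := by
    have := Finset.card_filter_add_card_filter_not (s := S) (fun z : ℤ × ℤ => 0 ≤ z.2)
    exact_mod_cast this.symm
  have hB := one_le_Bq a b r R (γ + Real.log q)
  have h3 := pow_add_pow_le (x := C₁) (y := C₁) (n := 1 + r) (by linarith) (by linarith) (by omega)
  calc (S.card : ℝ) ≤ (C₁ ^ (1 + r) + C₁ ^ (1 + r)) * Bq a b r R (γ + Real.log q) := by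
        rw [hcard, add_mul]
        exact add_le_add h1 h2
    _ ≤ (C₁ + C₁) ^ (1 + r) * Bq a b r R (γ + Real.log q) :=
        mul_le_mul_of_nonneg_right h3 (by linarith)

/-- Large abscissas. -/
theorem far_R (Ch : ℝ) (hCh : 0 ≤ Ch) : ∃ C : ℝ, 1 ≤ C ∧
    ∀ (a b : ℤ) (hq : QuasiMinimal a b), ∀ g : (curve a b).Point → ℝ, IsHt Ch g → ∀ r : ℕ,
    Module.rank ℤ (curve a b).Point ≤ r → ∀ R γ : ℝ, 0 < R → 0 < γ →
    ∀ S : Finset (ℤ × ℤ), Small hq.ne g R S →
    (∀ z ∈ S, L a b + γ ≤ Real.log |(z.1 : ℝ)|) →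
    (S.card : ℝ) ≤ C ^ (1 + r) * Bq a b r R γ := by
  obtain ⟨C₁, hC₁, hsp⟩ := split_R Ch hCh
  obtain ⟨K, hK, harch⟩ := LW.arch_large
  obtain ⟨C₂, hC₂, hb⟩ := bdd_ball Ch hCh (K := 2 * C₁ + K) (by linarith)
  refine ⟨2 * C₁ + C₂, by linarith, fun a b hq g hg r hr R γ hR hγ S hS hSx => ?_⟩
  have hB := one_le_Bq a b r R γ
  rcases le_total γ (2 * C₁ + K) with h | h
  · have hw := HeightData.wInf_nonneg (a := a) (b := b)
    refine (hb a b hq g hg r hr R γ hR hγ (by nlinarith) S hS).trans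
      (mono_pow (by linarith) (by linarith) _ (by linarith))
  have h1 := hsp a b hq.ne g hg r hr R (γ / 2) 1 hR (by linarith) one_pos
    (Nat.coprime_one_left _) (by rw [Nat.cast_one, Real.log_one]; linarith) S hS
    (fun z hz z' hz' hne _ => ⟨by simp, Or.inr
      (harch a b hq.ne γ (by linarith) z (hS z hz).1 z' (hS z' hz').1 hne (hSx z hz)
        (hSx z' hz'))⟩)
  rw [Nat.cast_one, Real.log_one, add_zero] at h1
  have h2 := Bq_scale (a := a) (b := b) (r := r) (R := R) (γ := γ) (k := 2) (δ := γ / 2) hR hγ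
    (by norm_num) le_rfl
  calc (S.card : ℝ) ≤ C₁ ^ (1 + r) * (2 ^ (1 + r) * Bq a b r R γ) :=
        h1.trans (mul_le_mul_of_nonneg_left h2 (by positivity))
    _ = (2 * C₁) ^ (1 + r) * Bq a b r R γ := by rw [mul_pow]; ring
    _ ≤ _ := mono_pow (by linarith) (by linarith) _ (by linarith)

/-- Close abscissas. -/
theorem short_R (Ch : ℝ) (hCh : 0 ≤ Ch) : ∃ C : ℝ, 1 ≤ C ∧
    ∀ (a b : ℤ) (hq : QuasiMinimal a b), ∀ g : (curve a b).Point → ℝ, IsHt Ch g → ∀ r : ℕ,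
    Module.rank ℤ (curve a b).Point ≤ r → ∀ R γ : ℝ, 0 < R → 0 < γ →
    ∀ S : Finset (ℤ × ℤ), Small hq.ne g R S →
    (∀ z ∈ S, ∀ z' ∈ S, |(z.1 : ℝ) - z'.1| ≤ Real.exp (L a b - γ)) →
    (S.card : ℝ) ≤ C ^ (1 + r) * Bq a b r R γ := by
  classical
  obtain ⟨C₁, hC₁, hsp⟩ := split_R Ch hCh
  obtain ⟨C₂, hC₂, hfar⟩ := far_R Ch hCh
  obtain ⟨K, hK, harch⟩ := LW.arch_short
  obtain ⟨C₃, hC₃, hb⟩ := bdd_ball Ch hCh (K := 2 * C₁ + K + 8) (by linarith)
  refine ⟨2 * C₁ + 16 * C₂ + C₃, by linarith, fun a b hq g hg r hr R γ hR hγ S hS hSS => ?_⟩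
  have hB := one_le_Bq a b r R γ
  have hw0 := HeightData.wInf_nonneg (a := a) (b := b)
  rcases le_total γ ((2 * C₁ + K + 8) * (1 + wInf a b)) with h | h
  · exact (hb a b hq g hg r hr R γ hR hγ h S hS).trans
      (mono_pow (by linarith) (by linarith) _ (by linarith))
  have hw : wInf a b ≤ γ / 8 := by nlinarith
  have hγ1 : 2 * C₁ + K + 8 ≤ γ := by nlinarith
  set P : ℤ × ℤ → Prop := fun z => |(z.1 : ℝ)| ≤ Real.exp (L a b + γ / 16) with hP
  have h1 := hsp a b hq.ne g hg r hr R (γ / 2) 1 hR (by linarith) one_pos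
    (Nat.coprime_one_left _)
    (by rw [Nat.cast_one, Real.log_one]; linarith) (S.filter P) (hS.filter _)
    (fun z hz z' hz' hne hs => ⟨by simp, Or.inr
      (harch a b hq.ne γ (by linarith) hw z (hS z (Finset.mem_filter.mp hz).1).1 z'
        (hS z' (Finset.mem_filter.mp hz').1).1 hne hs (Finset.mem_filter.mp hz).2
        (Finset.mem_filter.mp hz').2
        (hSS z (Finset.mem_filter.mp hz).1 z' (Finset.mem_filter.mp hz').1))⟩)
  rw [Nat.cast_one, Real.log_one, add_zero] at h1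
  have h2 := hfar a b hq g hg r hr R (γ / 16) hR (by linarith) (S.filter fun z => ¬ P z)
    (hS.filter _) (fun z hz => by
    have hz' := Finset.mem_filter.mp hz
    have h3 := not_le.mp hz'.2
    have hpos : 0 < |(z.1 : ℝ)| := (Real.exp_pos _).trans h3
    rw [Real.le_log_iff_exp_le hpos]
    exact h3.le)
  have h3 := Bq_scale (a := a) (b := b) (r := r) (R := R) (γ := γ) (k := 2) (δ := γ / 2) hR hγ
    (by norm_num) le_rfl
  have h4 := Bq_scale (a := a) (b := b) (r := r) (R := R) (γ := γ) (k := 16) (δ := γ / 16) hR hγ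
    (by norm_num) le_rfl
  have h6 : (S.card : ℝ) = ((S.filter P).card : ℝ) + ((S.filter fun z => ¬ P z).card : ℝ) := by
    have h5 := Finset.card_filter_add_card_filter_not (s := S) P
    exact_mod_cast h5.symm
  have h7 := LW.pow_sum3 (x := 2 * C₁) (y := 16 * C₂) (z := C₃) (by linarith) (by linarith)
    (by linarith) r
  have hKp : (0 : ℝ) ≤ C₃ ^ (1 + r) := by positivity
  calc (S.card : ℝ) ≤ C₁ ^ (1 + r) * (2 ^ (1 + r) * Bq a b r R γ)
        + C₂ ^ (1 + r) * (16 ^ (1 + r) * Bq a b r R γ) := by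
        rw [h6]
        exact add_le_add (h1.trans (mul_le_mul_of_nonneg_left h3 (by positivity)))
          (h2.trans (mul_le_mul_of_nonneg_left h4 (by positivity)))
    _ = ((2 * C₁) ^ (1 + r) + (16 * C₂) ^ (1 + r)) * Bq a b r R γ := by
        rw [mul_pow, mul_pow]; ring
    _ ≤ (2 * C₁ + 16 * C₂ + C₃) ^ (1 + r) * Bq a b r R γ := by
        refine mul_le_mul_of_nonneg_right ?_ (by linarith)
        linarith

/-- Congruent points. -/
theorem cong_R (Ch : ℝ) (hCh : 0 ≤ Ch) : ∃ C : ℝ, 1 ≤ C ∧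
    ∀ (a b : ℤ) (hq : QuasiMinimal a b), ∀ g : (curve a b).Point → ℝ, IsHt Ch g → ∀ r : ℕ,
    Module.rank ℤ (curve a b).Point ≤ r → ∀ (R : ℝ) (q : ℕ), 0 < R → 1 < q →
    Nat.Coprime q (6 * D a b).natAbs →
    ∀ S : Finset (ℤ × ℤ), Small hq.ne g R S →
    (∀ z ∈ S, ∀ z' ∈ S, (q : ℤ) ∣ z.1 - z'.1 ∧ (q : ℤ) ∣ z.2 - z'.2) →
    (S.card : ℝ) ≤ C ^ (1 + r) * Bq a b r R (Real.log q) := by
  obtain ⟨C₁, hC₁, hsp⟩ := split_R Ch hCh
  obtain ⟨C₂, hC₂, hb⟩ := bdd_ball Ch hCh (K := C₁) hC₁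
  refine ⟨C₁ + C₂, by linarith, fun a b hq g hg r hr R q hR hq1 hcop S hS hSS => ?_⟩
  have hB := one_le_Bq a b r R (Real.log q)
  have hlq : 0 < Real.log q := Real.log_pos (by exact_mod_cast hq1)
  rcases le_total (Real.log q) C₁ with h | h
  · have hw := HeightData.wInf_nonneg (a := a) (b := b)
    refine (hb a b hq g hg r hr R _ hR hlq (by nlinarith) S hS).trans
      (mono_pow (by linarith) (by linarith) _ (by linarith))
  have h1 := hsp a b hq.ne g hg r hr R 0 q hR le_rfl (by omega) hcop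
    (by rw [zero_add]; exact h) S hS
    (fun z hz z' hz' hne _ => ⟨LW.mod_q hq.ne (by omega) hcop (hS z hz).1 (hS z' hz').1 hne
      (hSS z hz z' hz').1 (hSS z hz z' hz').2, Or.inl rfl⟩)
  rw [zero_add] at h1
  exact h1.trans (mono_pow (by linarith) (by linarith) _ (by linarith))

/-- Integral points with `δL ≤ g ≤ R`. -/
theorem shell (Ch : ℝ) (hCh : 0 ≤ Ch) : ∃ C : ℝ, 1 ≤ C ∧
    ∀ (a b : ℤ) (hq : QuasiMinimal a b), ∀ g : (curve a b).Point → ℝ, IsHt Ch g → ∀ r : ℕ,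
    Module.rank ℤ (curve a b).Point ≤ r → ∀ R δ : ℝ, 0 < R → 0 < δ → δ ≤ 1 →
    ∀ S : Finset (ℤ × ℤ), Small hq.ne g R S →
    (∀ z ∈ S, δ * L a b ≤ g (LR.toPt hq.ne z)) →
    (S.card : ℝ) ≤ C ^ (1 + r) * Bq a b r R (δ ^ 2 * L a b) := by
  classical
  obtain ⟨K₀, hK₀, hcore⟩ := LX.core
  obtain ⟨C₁, hC₁, hb⟩ := bdd_ball Ch hCh (K := K₀ * (1 + Ch)) (by nlinarith)
  obtain ⟨C₂, hC₂, hrest⟩ := rest_ball Ch hCh
  obtain ⟨C₃, hC₃, hfar⟩ := far_R Ch hCh
  refine ⟨C₁ + 64 * C₂ + (1280 + 1280 + 64 * C₃), by linarith,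
    fun a b hq g hg r hr R δ hR hδ hδ1 S hS hSg => ?_⟩
  have hD := hq.ne
  have hL := L_pos a b
  set γ : ℝ := δ ^ 2 * L a b with hγ
  have hγ0 : 0 < γ := by positivity
  have hB := one_le_Bq a b r R γ
  rcases le_total γ (K₀ * (1 + Ch)) with h | h
  · have hw := HeightData.wInf_nonneg (a := a) (b := b)
    have : 0 < K₀ * (1 + Ch) := by positivity
    refine (hb a b hq g hg r hr R γ hR hγ0 (by nlinarith) S hS).trans
      (mono_pow (by linarith) (by linarith) _ (by linarith))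
  have h64 := Bq_scale (a := a) (b := b) (r := r) (R := R) (γ := γ) (k := 64) (δ := γ / 64) hR hγ0
    (by norm_num) le_rfl
  rcases le_total (γ / 64) (LX.Rst a b) with h' | h'
  · calc (S.card : ℝ) ≤ C₂ ^ (1 + r) * Bq a b r R (γ / 64) :=
          hrest a b hq g hg r hr R (γ / 64) hR (by positivity) h' S hS
      _ ≤ C₂ ^ (1 + r) * (64 ^ (1 + r) * Bq a b r R γ) :=
          mul_le_mul_of_nonneg_left h64 (by positivity)
      _ = (64 * C₂) ^ (1 + r) * Bq a b r R γ := by rw [mul_pow]; ring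
      _ ≤ _ := mono_pow (by linarith) (by linarith) _ (by linarith)
  -- the main case
  have hc := hcore Ch hCh a b hq g hg δ hδ hδ1 h h'
  have hquad := LR.can_quad hD hg.dbl hg.near
  have hpart : ∀ F₀ : Finset (ℤ × ℤ), F₀ ⊆ S →
      (∀ z ∈ F₀, |(z.1 : ℝ)| ≤ Real.exp ((1 + δ ^ 2 / 64) * L a b)) →
      (∀ z ∈ F₀, ∀ z' ∈ F₀, z ≠ z' → z.1 ≠ z'.1) →
      (F₀.card : ℝ) ≤ 1280 ^ (1 + r) * Bq a b r R γ := by
    intro F₀ hF₀ hx hinj
    set P := F₀.image (LR.toPt hD) with hP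
    have hcard : F₀.card = P.card := by
      symm
      refine Finset.card_image_of_injOn fun z hz z' hz' h => ?_
      exact LR.toPt_injOn hD (hS z (hF₀ hz)).1 (hS z' (hF₀ hz')).1 h
    have hcov := covering_R hD hg r hr (R := R) (ρ := γ / 64) (K := 2 / δ ^ 2) hR (by positivity)
      (by positivity) P (fun Q hQ => by
        obtain ⟨z, hz, rfl⟩ := Finset.mem_image.mp hQ
        exact (hS z (hF₀ hz)).2.2) (fun c _ => by
        set F := F₀.filter fun z => g (LR.toPt hD z - c) ≤ γ / 64 with hF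
        have h1 : (P.filter fun Q => g (Q - c) ≤ γ / 64) ⊆ F.image (LR.toPt hD) := by
          intro Q hQ
          obtain ⟨hQ1, hQ2⟩ := Finset.mem_filter.mp hQ
          obtain ⟨z, hz, rfl⟩ := Finset.mem_image.mp hQ1
          exact Finset.mem_image_of_mem _ (Finset.mem_filter.mpr ⟨hz, hQ2⟩)
        have h2 : (P.filter fun Q => g (Q - c) ≤ γ / 64).card ≤ F.card :=
          (Finset.card_le_card h1).trans Finset.card_image_le
        have h3 := hc F (fun z hz => by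
            have hz' := (Finset.mem_filter.mp hz).1
            exact ⟨(hS z (hF₀ hz')).1, hx z hz', hSg z (hF₀ hz')⟩)
          (fun z hz z' hz' => hinj z (Finset.mem_filter.mp hz).1 z' (Finset.mem_filter.mp hz').1)
          (fun z hz z' hz' => by
            have e1 := (Finset.mem_filter.mp hz).2
            have e2 := (Finset.mem_filter.mp hz').2
            have e3 := hquad.par (LR.toPt hD z - c) (LR.toPt hD z' - c)
            have e4 := hquad.nonneg (LR.toPt hD z - c + (LR.toPt hD z' - c))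
            have e5 : LR.toPt hD z - c - (LR.toPt hD z' - c) = LR.toPt hD z - LR.toPt hD z' := by
              abel
            rw [e5] at e3
            linarith)
        have h4 : ((P.filter fun Q => g (Q - c) ≤ γ / 64).card : ℝ) ≤ F.card := by
          exact_mod_cast h2
        exact h4.trans h3)
    have h5 : (F₀.card : ℝ) ≤ 10 ^ r * (max 1 (R / (γ / 64))) ^ ((r : ℝ) / 2) *
        (2 * max 1 (L a b / γ)) := by
      rw [hcard]
      refine hcov.trans ?_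
      have e1 : (0 : ℝ) ≤ max 1 (R / (γ / 64)) := le_trans zero_le_one (le_max_left _ _)
      have e2 : 2 / δ ^ 2 ≤ 2 * max 1 (L a b / γ) := by
        have e3 : 2 / δ ^ 2 = 2 * (L a b / γ) := by rw [hγ]; field_simp
        rw [e3]
        gcongr
        exact le_max_right _ _
      gcongr
    have h6 := combine (a := a) (b := b) hR hγ0 (by norm_num : (1 : ℝ) ≤ 64)
      (by norm_num : (1 : ℝ) ≤ 2) h5
    refine h6.trans (le_of_eq ?_)
    norm_num
  set Q : ℤ × ℤ → Prop := fun z => |(z.1 : ℝ)| ≤ Real.exp ((1 + δ ^ 2 / 64) * L a b) with hQ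
  have h1 := hpart (S.filter fun z => Q z ∧ 0 ≤ z.2) (Finset.filter_subset _ _)
    (fun z hz => (Finset.mem_filter.mp hz).2.1)
    (fun z hz z' hz' hne hx => by
      have e1 := Finset.mem_filter.mp hz
      have e2 := Finset.mem_filter.mp hz'
      exact hne (LW.sign_inj (hS z e1.1).1 (hS z' e2.1).1 hx (Or.inl ⟨e1.2.2, e2.2.2⟩)))
  have h2 := hpart (S.filter fun z => Q z ∧ z.2 < 0) (Finset.filter_subset _ _)
    (fun z hz => (Finset.mem_filter.mp hz).2.1)
    (fun z hz z' hz' hne hx => by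
      have e1 := Finset.mem_filter.mp hz
      have e2 := Finset.mem_filter.mp hz'
      exact hne (LW.sign_inj (hS z e1.1).1 (hS z' e2.1).1 hx (Or.inr ⟨e1.2.2, e2.2.2⟩)))
  have h3 : ((S.filter fun z => ¬ Q z).card : ℝ) ≤ (64 * C₃) ^ (1 + r) * Bq a b r R γ := by
    have e1 := hfar a b hq g hg r hr R (γ / 64) hR (by positivity) (S.filter fun z => ¬ Q z)
      (hS.filter _) (fun z hz => by
        have e3 := not_le.mp (Finset.mem_filter.mp hz).2
        have hpos : 0 < |(z.1 : ℝ)| := (Real.exp_pos _).trans e3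
        have e4 : L a b + γ / 64 = (1 + δ ^ 2 / 64) * L a b := by rw [hγ]; ring
        rw [e4, Real.le_log_iff_exp_le hpos]
        exact e3.le)
    calc _ ≤ C₃ ^ (1 + r) * Bq a b r R (γ / 64) := e1
      _ ≤ C₃ ^ (1 + r) * (64 ^ (1 + r) * Bq a b r R γ) :=
          mul_le_mul_of_nonneg_left h64 (by positivity)
      _ = (64 * C₃) ^ (1 + r) * Bq a b r R γ := by rw [mul_pow]; ring
  have hcov : S ⊆ ((S.filter fun z => Q z ∧ 0 ≤ z.2) ∪ (S.filter fun z => Q z ∧ z.2 < 0)) ∪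
      (S.filter fun z => ¬ Q z) := by
    intro z hz
    simp only [Finset.mem_union, Finset.mem_filter]
    by_cases hp : Q z
    · rcases le_or_gt 0 z.2 with h | h
      · exact Or.inl (Or.inl ⟨hz, hp, h⟩)
      · exact Or.inl (Or.inr ⟨hz, hp, h⟩)
    · exact Or.inr ⟨hz, hp⟩
  have hcard : (S.card : ℝ) ≤ ((S.filter fun z => Q z ∧ 0 ≤ z.2).card : ℝ) +
      ((S.filter fun z => Q z ∧ z.2 < 0).card : ℝ) + ((S.filter fun z => ¬ Q z).card : ℝ) := by
    have h4 := (Finset.card_le_card hcov).trans (Finset.card_union_le _ _)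
    have h5 := Finset.card_union_le (S.filter fun z => Q z ∧ 0 ≤ z.2)
      (S.filter fun z => Q z ∧ z.2 < 0)
    have h6 : S.card ≤ (S.filter fun z => Q z ∧ 0 ≤ z.2).card +
      (S.filter fun z => Q z ∧ z.2 < 0).card + (S.filter fun z => ¬ Q z).card := by omega
    exact_mod_cast h6
  have h7 := LW.pow_sum3 (x := (1280 : ℝ)) (y := (1280 : ℝ)) (z := 64 * C₃) (by norm_num)
    (by norm_num) (by linarith) r
  calc (S.card : ℝ) ≤ ((1280 : ℝ) ^ (1 + r) + (1280 : ℝ) ^ (1 + r) + (64 * C₃) ^ (1 + r))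
        * Bq a b r R γ := by
        rw [add_mul, add_mul]
        exact hcard.trans (add_le_add (add_le_add h1 h2) h3)
    _ ≤ (1280 + 1280 + 64 * C₃ : ℝ) ^ (1 + r) * Bq a b r R γ :=
        mul_le_mul_of_nonneg_right h7 (by linarith)
    _ ≤ _ := mono_pow (by linarith) (by linarith) _ (by linarith)

end Pool.Agent.H24.LZ
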